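import Pool.Agent.Work.MP_b0c12c_rp.B_PAI

/-! # Block DGV: many different gap values, each many times -/

set_option autoImplicit false

namespace Pool.LGR

open Finset Filter
open Pool.LGP Pool.LGC

/-- multiples of `K !` are admissible -/
theorem DGV_adm {K : ℕ} (b : Fin K → ℕ) (p : ℕ) (hp : p.Prime) :
    ∃ r : ℕ, ∀ i, ¬ (Nat.factorial K * b i) ≡ r [MOD p] := by
  classical
  by_cases hpK : p ≤ K
  · refine ⟨1, fun i h => ?_⟩
    have h1 : p ∣ Nat.factorial K * b i := (Nat.dvd_factorial hp.pos hpK).mul_right _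
    have h2 : (1 : ℕ) % p = 0 := by
      rw [← h]
      exact Nat.mod_eq_zero_of_dvd h1
    rw [Nat.mod_eq_of_lt hp.one_lt] at h2
    exact one_ne_zero h2
  · push Not at hpK
    have h1 : (image (fun i : Fin K => (Nat.factorial K * b i) % p) univ).card < (range p).card := by
      rw [card_range]
      refine lt_of_le_of_lt card_image_le ?_
      rw [card_univ, Fintype.card_fin]
      exact hpK
    obtain ⟨r, hr, hr2⟩ := exists_mem_notMem_of_card_lt_card h1
    rw [mem_range] at hr
    refine ⟨r, fun i h => hr2 ?_⟩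
    rw [mem_image]
    refine ⟨i, mem_univ _, ?_⟩
    have h3 : (Nat.factorial K * b i) % p = r % p := h
    rw [h3]
    exact Nat.mod_eq_of_lt hr

theorem p_DGV (hP : Stmt_PAI) : Stmt_DGV := by
  classical
  intro ε hε
  obtain ⟨κ, K, hκ, hK, h⟩ := hP ε hε
  have hK0 : (0 : ℝ) < K := by
    have : 0 < K := by omega
    exact_mod_cast this
  have hF0 : (0 : ℝ) < (Nat.factorial K : ℝ) := by exact_mod_cast Nat.factorial_pos K
  set M : ℝ := K * (Nat.factorial K : ℝ) with hM
  have hM0 : 0 < M := by positivity
  refine ⟨κ / (2 * K * M), by positivity, ?_⟩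
  filter_upwards [h, PAI_ff_le κ hκ, PAI_ff_tendsto.eventually_ge_atTop (2 * M / κ)]
    with X h1 h2 h3
  set N : ℕ := ⌊κ * ff X / M⌋₊ with hN
  have hff : 0 < ff X := lt_of_lt_of_le (by positivity) h3
  have hN1 : (N : ℝ) ≤ κ * ff X / M := Nat.floor_le (by positivity)
  have hN2 : κ * ff X / (2 * M) ≤ N := by
    have e1 : κ * ff X / M < N + 1 := Nat.lt_floor_add_one _
    have e2 : 2 ≤ κ * ff X / M := by
      rw [le_div_iff₀ hM0]
      have := mul_le_mul_of_nonneg_left h3 hκ.le
      have e3 : κ * (2 * M / κ) = 2 * M := by field_simp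
      linarith
    have e3 : κ * ff X / (2 * M) = (κ * ff X / M) / 2 := by
      field_simp
    rw [e3]
    linarith
  set D := (Icc 1 X).filter (fun d => (X : ℝ) ^ (1 - ε) ≤ (GV X d).card) with hD
  have key : ∀ t : ℕ, ∃ e : ℕ, t ∈ Icc 1 N → 1 ≤ e ∧ e < K ∧ Nat.factorial K * t * e ∈ D := by
    intro t
    by_cases ht : t ∈ Icc 1 N
    · rw [mem_Icc] at ht
      have hpos : 0 < Nat.factorial K * t := Nat.mul_pos (Nat.factorial_pos K) (by omega)
      have hle : ∀ e : ℕ, e ≤ K → ((Nat.factorial K * t * e : ℕ) : ℝ) ≤ κ * ff X := by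
        intro e he
        have e1 : (t : ℝ) ≤ κ * ff X / M := by
          have : (t : ℝ) ≤ N := by exact_mod_cast ht.2
          linarith
        rw [le_div_iff₀ hM0] at e1
        push_cast
        have e2 : (e : ℝ) ≤ K := by exact_mod_cast he
        calc (Nat.factorial K : ℝ) * t * e ≤ (Nat.factorial K : ℝ) * t * K := by gcongr
          _ = t * M := by rw [hM]; ring
          _ ≤ κ * ff X := e1
      obtain ⟨i, j, hij, hc⟩ := h1 (fun i => Nat.factorial K * t * ((i : ℕ) + 1))
        (by
          intro i j hij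
          have hij' : (i : ℕ) < j := hij
          exact Nat.mul_lt_mul_of_pos_left (by omega) hpos)
        (fun i => hle _ (by have := i.2; omega))
        (fun p hp => by
          obtain ⟨r, hr⟩ := DGV_adm (K := K) (fun i => t * ((i : ℕ) + 1)) p hp
          refine ⟨r, fun i => ?_⟩
          have := hr i
          rwa [← mul_assoc] at this)
      have hij' : (i : ℕ) < j := hij
      have hjK := j.2
      refine ⟨(j : ℕ) - i, fun _ => ⟨by omega, by omega, ?_⟩⟩
      have hd : Nat.factorial K * t * ((j : ℕ) + 1) - Nat.factorial K * t * ((i : ℕ) + 1) =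
          Nat.factorial K * t * ((j : ℕ) - i) := by
        rw [← Nat.mul_sub]
        congr 1
        omega
      have hc' : (X : ℝ) ^ (1 - ε) ≤ (GV X (Nat.factorial K * t * ((j : ℕ) - i))).card := by
        rw [← hd]
        exact hc
      rw [hD, mem_filter, mem_Icc]
      refine ⟨⟨Nat.mul_pos hpos (by omega), ?_⟩, hc'⟩
      have := (hle ((j : ℕ) - i) (by omega)).trans h2
      exact_mod_cast this
    · exact ⟨0, fun ht' => absurd ht' ht⟩
  choose g hg using key
  have hcard : N ≤ K * D.card := by
    have e1 : (Icc 1 N).card ≤ (range K ×ˢ D).card := by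
      refine card_le_card_of_injOn (fun t => (g t, Nat.factorial K * t * g t)) ?_ ?_
      · intro t ht
        rw [mem_coe] at ht
        obtain ⟨b1, b2, b3⟩ := hg t ht
        rw [mem_coe, mem_product]
        exact ⟨mem_range.2 b2, b3⟩
      · intro t ht t' ht' heq
        rw [mem_coe] at ht ht'
        obtain ⟨b1, b2, b3⟩ := hg t ht
        have heq1 : g t = g t' := congrArg Prod.fst heq
        have heq2 : Nat.factorial K * t * g t = Nat.factorial K * t' * g t' := congrArg Prod.snd heq
        rw [← heq1] at heq2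
        have heq3 := Nat.eq_of_mul_eq_mul_right (by omega) heq2
        exact Nat.eq_of_mul_eq_mul_left (Nat.factorial_pos K) heq3
    rw [Nat.card_Icc, card_product, card_range] at e1
    omega
  have hcard' : (N : ℝ) ≤ K * D.card := by exact_mod_cast hcard
  have hfin : κ * ff X / (2 * M) ≤ K * D.card := hN2.trans hcard'
  have e4 : κ / (2 * K * M) * ff X = (κ * ff X / (2 * M)) / K := by
    field_simp
  rw [e4, div_le_iff₀ hK0]
  exact hfin.trans (le_of_eq (mul_comm _ _))

end Pool.LGR
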