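import Pool.Agent.Work.MP_b0c12c_rp.Interface

/-! # Block PAI: two of the places are consecutive primes -/

set_option autoImplicit false

namespace Pool.LGR

open Finset Filter
open Pool.LGP Pool.LGC

/-- the record function is eventually between the logarithm and its fourth power -/
theorem PAI_ff : ∀ᶠ X : ℕ in atTop, Real.log X ≤ ff X ∧ ff X ≤ Real.log X ^ 4 ∧ 1 ≤ Real.log X := by
  have t1 : Tendsto (fun X : ℕ => Real.log X) atTop atTop :=
    Real.tendsto_log_atTop.comp tendsto_natCast_atTop_atTop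
  have t2 : Tendsto (fun X : ℕ => Real.log (Real.log X)) atTop atTop :=
    Real.tendsto_log_atTop.comp t1
  have t3 : Tendsto (fun X : ℕ => Real.log (Real.log (Real.log X))) atTop atTop :=
    Real.tendsto_log_atTop.comp t2
  have t4 : Tendsto (fun X : ℕ => Real.log (Real.log (Real.log (Real.log X)))) atTop atTop :=
    Real.tendsto_log_atTop.comp t3
  filter_upwards [t1.eventually_ge_atTop 1, t2.eventually_ge_atTop 1, t3.eventually_ge_atTop 1,
    t4.eventually_ge_atTop 1] with X h1 h2 h3 h4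
  set l1 := Real.log (X : ℝ) with hl1
  set l2 := Real.log l1 with hl2
  set l3 := Real.log l2 with hl3
  set l4 := Real.log l3 with hl4
  have a2 : l2 ≤ l1 := (Real.log_le_sub_one_of_pos (by linarith)).trans (by linarith)
  have a3 : l3 ≤ l2 := (Real.log_le_sub_one_of_pos (by linarith)).trans (by linarith)
  have a4 : l4 ≤ l3 := (Real.log_le_sub_one_of_pos (by linarith)).trans (by linarith)
  have hff : ff (X : ℝ) = l1 * l2 ^ 2 * l4 / l3 ^ 2 := rfl
  have h3' : 0 < l3 ^ 2 := by positivity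
  refine ⟨?_, ?_, h1⟩
  · rw [hff, le_div_iff₀ h3']
    have b1 : l3 ^ 2 ≤ l2 ^ 2 := by gcongr
    calc l1 * l3 ^ 2 ≤ l1 * l2 ^ 2 := by gcongr
      _ = l1 * l2 ^ 2 * 1 := by ring
      _ ≤ l1 * l2 ^ 2 * l4 := by gcongr
  · rw [hff, div_le_iff₀ h3']
    have b1 : 1 ≤ l3 ^ 2 := one_le_pow₀ h3
    calc l1 * l2 ^ 2 * l4 ≤ l1 * l1 ^ 2 * l1 := by
          have : l4 ≤ l1 := by linarith
          gcongr
      _ = l1 ^ 4 * 1 := by ring
      _ ≤ l1 ^ 4 * l3 ^ 2 := by gcongr

theorem PAI_ff_le (κ : ℝ) (hκ : 0 < κ) : ∀ᶠ X : ℕ in atTop, κ * ff X ≤ X := by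
  have h1 : ∀ᶠ x : ℝ in atTop, ‖Real.log x ^ 4‖ ≤ (1 / κ) * ‖x‖ := by
    have := (Real.isLittleO_pow_log_id_atTop (n := 4)).bound (show (0 : ℝ) < 1 / κ by positivity)
    simpa using this
  have h2 : ∀ᶠ X : ℕ in atTop, ‖Real.log (X : ℝ) ^ 4‖ ≤ (1 / κ) * ‖(X : ℝ)‖ :=
    tendsto_natCast_atTop_atTop.eventually h1
  filter_upwards [h2, PAI_ff] with X h3 h4
  have h5 : Real.log (X : ℝ) ^ 4 ≤ (1 / κ) * X := by
    have e1 : ‖Real.log (X : ℝ) ^ 4‖ = Real.log (X : ℝ) ^ 4 := by
      rw [Real.norm_eq_abs, abs_of_nonneg (by positivity)]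
    have e2 : ‖(X : ℝ)‖ = X := by
      rw [Real.norm_eq_abs, abs_of_nonneg (by positivity)]
    rw [e1, e2] at h3
    exact h3
  have h6 : ff X ≤ (1 / κ) * X := h4.2.1.trans h5
  calc κ * ff X ≤ κ * ((1 / κ) * X) := by gcongr
    _ = X := by field_simp

theorem PAI_ff_tendsto : Tendsto (fun X : ℕ => ff (X : ℝ)) atTop atTop := by
  have t1 : Tendsto (fun X : ℕ => Real.log X) atTop atTop :=
    Real.tendsto_log_atTop.comp tendsto_natCast_atTop_atTop
  refine tendsto_atTop_mono' _ ?_ t1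
  filter_upwards [PAI_ff] with X h
  exact h.1

/-- powers of `X` beat constants -/
theorem PAI_pow (δ c : ℝ) (hδ : 0 < δ) : ∀ᶠ X : ℕ in atTop, c ≤ (X : ℝ) ^ δ := by
  have h1 : Tendsto (fun X : ℕ => (X : ℝ) ^ δ) atTop atTop :=
    (tendsto_rpow_atTop hδ).comp tendsto_natCast_atTop_atTop
  exact h1.eventually_ge_atTop c

/-- two consecutive primes among the places -/
theorem PAI_pair {K : ℕ} (a : Fin K → ℕ) (ha : StrictMono a) (n : ℕ) (y z : ℝ) (hz : z < n)
    (hay : ∀ i, (a i : ℝ) ≤ y) (h2 : 2 ≤ (univ.filter (fun i => (n + a i).Prime)).card)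
    (hq : ∀ q : ℕ, |(q : ℝ) - n| ≤ y → (∃ i, q = n + a i) ∨ ∃ p : ℕ, p.Prime ∧ (p : ℝ) ≤ z ∧ p ∣ q) :
    ∃ i j : Fin K, i < j ∧ (n + a i).Prime ∧ (n + a j).Prime ∧
      ∀ q, n + a i < q → q < n + a j → ¬ q.Prime := by
  classical
  set S := univ.filter (fun i => (n + a i).Prime) with hS
  have hne : S.Nonempty := by
    rw [← card_pos]
    omega
  set i := S.min' hne with hi
  have hiS : i ∈ S := S.min'_mem hne
  have hne2 : (S.erase i).Nonempty := by
    rw [← card_pos, card_erase_of_mem hiS]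
    omega
  set j := (S.erase i).min' hne2 with hj
  have hjS : j ∈ S.erase i := (S.erase i).min'_mem hne2
  have hjS' : j ∈ S := (mem_erase.1 hjS).2
  have hij : i < j := lt_of_le_of_ne (S.min'_le j hjS') (Ne.symm (mem_erase.1 hjS).1)
  refine ⟨i, j, hij, (mem_filter.1 hiS).2, (mem_filter.1 hjS').2, ?_⟩
  intro q hq1 hq2 hqp
  have h3 : |(q : ℝ) - n| ≤ y := by
    have e1 : (n : ℝ) ≤ q := by
      have : n ≤ q := by omega
      exact_mod_cast this
    rw [abs_of_nonneg (by linarith)]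
    have e2 : (q : ℝ) ≤ n + a j := by
      have : q ≤ n + a j := by omega
      exact_mod_cast this
    have := hay j
    linarith
  rcases hq q h3 with ⟨l, hl⟩ | ⟨p, hp1, hp2, hp3⟩
  · have hlS : l ∈ S := by
      rw [hS, mem_filter]
      exact ⟨mem_univ _, by rw [← hl]; exact hqp⟩
    have hil : i < l := by
      have : a i < a l := by omega
      exact ha.lt_iff_lt.1 this
    have hlj : l < j := by
      have : a l < a j := by omega
      exact ha.lt_iff_lt.1 this
    have := (S.erase i).min'_le l (mem_erase.2 ⟨ne_of_gt hil, hlS⟩)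
    exact absurd hlj (not_lt.2 this)
  · have hpq : p = q := (Nat.prime_dvd_prime_iff_eq hp1 hqp).1 hp3
    have e1 : (n : ℝ) ≤ q := by
      have : n ≤ q := by omega
      exact_mod_cast this
    rw [hpq] at hp2
    linarith

/-- consecutive primes and their index -/
theorem PAI_nth (u v : ℕ) (hu : u.Prime) (hv : v.Prime) (huv : u < v)
    (h : ∀ q, u < q → q < v → ¬ q.Prime) :
    Nat.nth Nat.Prime (Nat.count Nat.Prime u) = u ∧
      Nat.nth Nat.Prime (Nat.count Nat.Prime u + 1) = v := by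
  have h1 : Nat.nth Nat.Prime (Nat.count Nat.Prime u) = u := Nat.nth_count hu
  refine ⟨h1, ?_⟩
  have h2 : Nat.count Nat.Prime v = Nat.count Nat.Prime u + 1 := by
    have e1 : Nat.count Nat.Prime (u + 1) = Nat.count Nat.Prime u + 1 := by
      rw [Nat.count_succ, if_pos hu]
    have e2 : ∀ k, u + 1 + k ≤ v → Nat.count Nat.Prime (u + 1 + k) = Nat.count Nat.Prime (u + 1) := by
      intro k
      induction k with
      | zero => intro _; rfl
      | succ k ih =>
        intro hk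
        rw [← add_assoc, Nat.count_succ, if_neg (h (u + 1 + k) (by omega) (by omega)), ih (by omega),
          add_zero]
    have e3 := e2 (v - (u + 1)) (by omega)
    have e4 : u + 1 + (v - (u + 1)) = v := by omega
    rw [e4, e1] at e3
    exact e3
  rw [← h2]
  exact Nat.nth_count hv

theorem p_PAI (hR : Stmt_RECP) : Stmt_PAI := by
  classical
  intro ε hε
  set ε' := min (ε / 2) (1 / 2) with hε'
  have hε'0 : 0 < ε' := lt_min (by linarith) (by norm_num)
  have hε'1 : ε' ≤ ε / 2 := min_le_left _ _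
  have hε'2 : ε' ≤ 1 / 2 := min_le_right _ _
  obtain ⟨κ, C, hκ, hC, h⟩ := hR ε' hε'0
  set K := max 2 ⌈Real.exp (C * (2 : ℕ))⌉₊ with hK
  have hK2 : 2 ≤ K := le_max_left _ _
  have hKe : Real.exp (C * (2 : ℕ)) ≤ K := by
    refine (Nat.le_ceil _).trans ?_
    exact_mod_cast le_max_right 2 ⌈Real.exp (C * (2 : ℕ))⌉₊
  refine ⟨κ, K, hκ, hK2, ?_⟩
  filter_upwards [h 2 K (by norm_num) hKe, PAI_ff_le κ hκ, PAI_pow (ε / 2) ((K : ℝ) ^ 2) (by linarith),
    eventually_ge_atTop 2] with X h1 h2 h3 hX2 a ha hay hadm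
  have h4 := h1 a ha hay hadm
  set G := (Icc X (4 * X)).filter (fun n =>
      2 ≤ (univ.filter (fun i => (n + a i).Prime)).card ∧
      ∀ q : ℕ, |(q : ℝ) - n| ≤ κ * ff X → (∃ i, q = n + a i) ∨
        ∃ p : ℕ, p.Prime ∧ (p : ℝ) ≤ (X : ℝ) ^ ε' ∧ p ∣ q) with hG
  have hX1 : (1 : ℝ) < X := by
    have : 1 < X := by omega
    exact_mod_cast this
  have hXe : (X : ℝ) ^ ε' < X := by
    calc (X : ℝ) ^ ε' < (X : ℝ) ^ (1 : ℝ) := Real.rpow_lt_rpow_of_exponent_lt hX1 (by linarith)
      _ = X := Real.rpow_one _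
  -- the pair of consecutive places
  have hpair : ∀ n, ∃ ij : Fin K × Fin K, n ∈ G → ij.1 < ij.2 ∧ (n + a ij.1).Prime ∧
      (n + a ij.2).Prime ∧ ∀ q, n + a ij.1 < q → q < n + a ij.2 → ¬ q.Prime := by
    intro n
    by_cases hn : n ∈ G
    · rw [hG, mem_filter, mem_Icc] at hn
      have hnX : (X : ℝ) ≤ n := by exact_mod_cast hn.1.1
      obtain ⟨i, j, hij, b1, b2, b3⟩ := PAI_pair a ha n (κ * ff X) ((X : ℝ) ^ ε')
        (lt_of_lt_of_le hXe hnX) hay hn.2.1 hn.2.2
      exact ⟨(i, j), fun _ => ⟨hij, b1, b2, b3⟩⟩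
    · exact ⟨(⟨0, by omega⟩, ⟨0, by omega⟩), fun hn' => absurd hn' hn⟩
  choose φ hφ using hpair
  -- pigeonhole
  have hGpos : 0 < G.card := by
    have : (0 : ℝ) < (X : ℝ) ^ (1 - ε') := Real.rpow_pos_of_pos (by linarith) _
    have h5 : (0 : ℝ) < G.card := lt_of_lt_of_le this h4
    exact_mod_cast h5
  obtain ⟨ij, hij1, hij2⟩ : ∃ ij ∈ (univ : Finset (Fin K × Fin K)),
      G.card ≤ K ^ 2 * (G.filter (fun n => φ n = ij)).card := by
    by_contra hcon
    push Not at hcon
    have e1 : G.card = ∑ ij ∈ (univ : Finset (Fin K × Fin K)), (G.filter (fun n => φ n = ij)).card :=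
      card_eq_sum_card_fiberwise (fun n _ => mem_coe.2 (mem_univ _))
    have e2 : ∑ ij ∈ (univ : Finset (Fin K × Fin K)), K ^ 2 * (G.filter (fun n => φ n = ij)).card <
        ∑ ij ∈ (univ : Finset (Fin K × Fin K)), G.card := by
      refine sum_lt_sum_of_nonempty ?_ hcon
      exact ⟨(⟨0, by omega⟩, ⟨0, by omega⟩), mem_univ _⟩
    rw [← mul_sum, ← e1, sum_const, smul_eq_mul, card_univ, Fintype.card_prod, Fintype.card_fin] at e2
    have e3 : K ^ 2 = K * K := sq K
    rw [e3] at e2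
    exact lt_irrefl _ e2
  have hGf : (G.filter (fun n => φ n = ij)).Nonempty := by
    rw [← card_pos]
    rcases Nat.eq_zero_or_pos (G.filter (fun n => φ n = ij)).card with h5 | h5
    · rw [h5] at hij2
      omega
    · exact h5
  obtain ⟨n₀, hn₀⟩ := hGf
  rw [mem_filter] at hn₀
  have hlt : ij.1 < ij.2 := by
    have := (hφ n₀ hn₀.1).1
    rw [hn₀.2] at this
    exact this
  refine ⟨ij.1, ij.2, hlt, ?_⟩
  have hinj : (G.filter (fun n => φ n = ij)).card ≤ (GV X (a ij.2 - a ij.1)).card := by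
    refine card_le_card_of_injOn (fun n => Nat.count Nat.Prime (n + a ij.1)) ?_ ?_
    · intro n hn
      rw [mem_coe, mem_filter] at hn
      obtain ⟨c1, c2, c3, c4⟩ := hφ n hn.1
      rw [hn.2] at c1 c2 c3 c4
      have c5 : a ij.1 < a ij.2 := ha c1
      obtain ⟨d1, d2⟩ := PAI_nth (n + a ij.1) (n + a ij.2) c2 c3 (by omega) c4
      have hnG := hn.1
      rw [hG, mem_filter, mem_Icc] at hnG
      have c6 : a ij.1 ≤ X := by
        have : (a ij.1 : ℝ) ≤ X := (hay _).trans h2
        exact_mod_cast this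
      rw [mem_coe]
      unfold GV
      rw [mem_filter, mem_range]
      refine ⟨?_, ?_, ?_, ?_⟩
      · have c7 : Nat.count Nat.Prime (n + a ij.1) < n + a ij.1 := by
          have c8 : Nat.count Nat.Prime (n + a ij.1) ≤ n + a ij.1 - 1 := by
            have c9 : n + a ij.1 = (n + a ij.1 - 1) + 1 := by
              have := c2.two_le
              omega
            have c10 : Nat.count Nat.Prime (1 + (n + a ij.1 - 1)) ≤
                Nat.count Nat.Prime 1 + (n + a ij.1 - 1) := by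
              rw [Nat.count_add]
              have := Nat.count_le (p := fun k => Nat.Prime (1 + k)) (n := n + a ij.1 - 1)
              omega
            have c11 : Nat.count Nat.Prime 1 = 0 := by
              rw [Nat.count_succ, Nat.count_zero, if_neg Nat.not_prime_zero]
            rw [c9, add_comm]
            omega
          have := c2.two_le
          omega
        show Nat.count Nat.Prime (n + a ij.1) < 5 * X
        omega
      · rw [d1]
        omega
      · rw [d1]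
        omega
      · rw [d1, d2]
        omega
    · intro n hn n' hn' hnn
      rw [mem_coe, mem_filter] at hn hn'
      obtain ⟨c1, c2, c3, c4⟩ := hφ n hn.1
      obtain ⟨c1', c2', c3', c4'⟩ := hφ n' hn'.1
      rw [hn.2] at c1 c2 c3 c4
      rw [hn'.2] at c1' c2' c3' c4'
      have e1 : Nat.nth Nat.Prime (Nat.count Nat.Prime (n + a ij.1)) = n + a ij.1 := Nat.nth_count c2
      have e2 : Nat.nth Nat.Prime (Nat.count Nat.Prime (n' + a ij.1)) = n' + a ij.1 :=
        Nat.nth_count c2'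
      have e3 : Nat.count Nat.Prime (n + a ij.1) = Nat.count Nat.Prime (n' + a ij.1) := hnn
      rw [e3, e2] at e1
      omega
  have hfin : (X : ℝ) ^ (1 - ε') ≤ (K : ℝ) ^ 2 * (GV X (a ij.2 - a ij.1)).card := by
    refine h4.trans ?_
    have e1 : G.card ≤ K ^ 2 * (GV X (a ij.2 - a ij.1)).card :=
      hij2.trans (Nat.mul_le_mul_left _ hinj)
    exact_mod_cast e1
  have hX0 : (0 : ℝ) < X := by linarith
  have hKpos : (0 : ℝ) < (K : ℝ) ^ 2 := by
    have : (0 : ℝ) < K := by
      have : 0 < K := by omega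
      exact_mod_cast this
    positivity
  have h7 : (X : ℝ) ^ (1 - ε) * (K : ℝ) ^ 2 ≤ (X : ℝ) ^ (1 - ε') := by
    calc (X : ℝ) ^ (1 - ε) * (K : ℝ) ^ 2 ≤ (X : ℝ) ^ (1 - ε) * (X : ℝ) ^ (ε / 2) := by
          refine mul_le_mul_of_nonneg_left h3 (Real.rpow_nonneg hX0.le _)
      _ = (X : ℝ) ^ (1 - ε / 2) := by
          rw [← Real.rpow_add hX0]
          congr 1
          ring
      _ ≤ (X : ℝ) ^ (1 - ε') := Real.rpow_le_rpow_of_exponent_le hX1.le (by linarith)
  have h8 : (K : ℝ) ^ 2 * (X : ℝ) ^ (1 - ε) ≤ (K : ℝ) ^ 2 * (GV X (a ij.2 - a ij.1)).card := by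
    linarith
  exact le_of_mul_le_mul_left h8 hKpos

end Pool.LGR
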