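import Pool.Agent.Work.MP_b0c12c_rp.Interface
import Pool.Agent.Work.MP_b0c12c_chain.B_ACTX

/-! Block ACB: the mass of `bb` on the configurations which are active at one prime. -/

set_option autoImplicit false

namespace Pool.LGR

open Finset Filter
open Pool.LGP Pool.LGC

theorem p_ACB (h1 : Stmt_LRS) (h2 : Stmt_CVB) (h3 : Stmt_MEB) (h4 : Stmt_MFL)
    (h5 : LGP.Stmt_QSM) (h6 : LGP.Stmt_WTF) : Stmt_ACB := by
  intro π T A _ _ _ _ _ _ S u v a b C a' b' C' K D z s k Q hd hG x₀
  classical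
  have hz : 0 < z := by linarith [hd.z3]
  have hp0 : ∀ x, 0 < S.pr x := fun x => (hd.good.prime x).pos
  have hx0 := hd.x0
  set x : ℝ := vx S v with hx
  obtain ⟨q1, q2, q3⟩ := h5 π (T ⊕ A) S u a b C K hd.uok hp0
  have hwt0 : ∀ U, 0 ≤ S.wt U := fun U => prod_nonneg fun _ _ => Nat.cast_nonneg _
  -- the two local masses
  set F : T ⊕ A → Finset π → ℝ := fun l U =>
    Sum.elim (fun _ => S.qq u U) (fun _ => v U ^ 2 * S.wt U) l with hF
  have hF0 : ∀ l U, 0 ≤ F l U := by
    intro l U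
    cases l with
    | inl t => exact q1 U
    | inr e => exact mul_nonneg (sq_nonneg _) (hwt0 _)
  have hpt : ∀ ρ : π → Option (T ⊕ A), bb S u v D ρ ^ 2 * S.szn ρ ≤ ∏ l, F l (fib ρ l) := by
    intro ρ
    obtain ⟨e1, -, -, e4, e5, -⟩ := h1 π T A S ρ
    obtain ⟨c1, c2, -⟩ := h2 π T A S u v a b C a' b' C' K D z s k Q hd ρ
    have hprod : ∏ l, F l (fib ρ l) = (∏ t, S.qq u (fib (lft ρ) t)) *
        ∏ e, v (fib (rgt ρ) e) ^ 2 * S.wt (fib (rgt ρ) e) := by
      rw [Fintype.prod_sum_type]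
      congr 1
      · refine prod_congr rfl fun t _ => ?_
        rw [e4 t]
        rfl
      · refine prod_congr rfl fun e _ => ?_
        rw [e5 e]
        rfl
    have hA : (rst S (Sum.inl : T → T ⊕ A)).aa u D (lft ρ) ^ 2 *
        ((rst S (Sum.inl : T → T ⊕ A)).szn (lft ρ) : ℝ) ≤ ∏ t, S.qq u (fib (lft ρ) t) := by
      have h8 := (h6 π T (rst S (Sum.inl : T → T ⊕ A)) (lft ρ)).2 u
      have hnn : 0 ≤ ∏ t, S.qq u (fib (lft ρ) t) := prod_nonneg fun t _ => q1 _
      unfold Sys.aa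
      by_cases h : ((rst S (Sum.inl : T → T ⊕ A)).szn (lft ρ) : ℝ) ≤ D
      · rw [if_pos h, h8]
        exact le_rfl
      · rw [if_neg h]
        simpa using hnn
    have hB : (∏ e, v (fib (rgt ρ) e)) ^ 2 *
        ((rst S (Sum.inr : A → T ⊕ A)).szn (rgt ρ) : ℝ) =
        ∏ e, v (fib (rgt ρ) e) ^ 2 * S.wt (fib (rgt ρ) e) := by
      rw [(h6 π A (rst S (Sum.inr : A → T ⊕ A)) (rgt ρ)).1, prod_mul_distrib, prod_pow]
      rfl
    have hc : cv S v D ρ ^ 2 ≤ 1 := by nlinarith
    have hAA : 0 ≤ (rst S (Sum.inl : T → T ⊕ A)).aa u D (lft ρ) ^ 2 *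
        ((rst S (Sum.inl : T → T ⊕ A)).szn (lft ρ) : ℝ) := by positivity
    have hBB : 0 ≤ (∏ e, v (fib (rgt ρ) e)) ^ 2 *
        ((rst S (Sum.inr : A → T ⊕ A)).szn (rgt ρ) : ℝ) := by positivity
    rw [hprod, ← hB]
    calc bb S u v D ρ ^ 2 * (S.szn ρ : ℝ) =
        cv S v D ρ ^ 2 * (((rst S (Sum.inl : T → T ⊕ A)).aa u D (lft ρ) ^ 2 *
          ((rst S (Sum.inl : T → T ⊕ A)).szn (lft ρ) : ℝ)) *
          ((∏ e, v (fib (rgt ρ) e)) ^ 2 *
            ((rst S (Sum.inr : A → T ⊕ A)).szn (rgt ρ) : ℝ))) := by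
          rw [e1]
          simp only [bb]
          push_cast
          ring
      _ ≤ 1 * (((rst S (Sum.inl : T → T ⊕ A)).aa u D (lft ρ) ^ 2 *
          ((rst S (Sum.inl : T → T ⊕ A)).szn (lft ρ) : ℝ)) *
          ((∏ e, v (fib (rgt ρ) e)) ^ 2 *
            ((rst S (Sum.inr : A → T ⊕ A)).szn (rgt ρ) : ℝ))) :=
          mul_le_mul_of_nonneg_right hc (mul_nonneg hAA hBB)
      _ ≤ (∏ t, S.qq u (fib (lft ρ) t)) * ((∏ e, v (fib (rgt ρ) e)) ^ 2 *
            ((rst S (Sum.inr : A → T ⊕ A)).szn (rgt ρ) : ℝ)) := by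
          rw [one_mul]
          exact mul_le_mul_of_nonneg_right hA hBB
  have hpt2 : ∀ ρ : π → Option (T ⊕ A), (if ρ x₀ = none then 0 else
      bb S u v D ρ ^ 2 * (S.szn ρ : ℝ)) ≤
      ∑ j, if ρ x₀ = some j then ∏ l, F l (fib ρ l) else 0 := by
    intro ρ
    cases hx : ρ x₀ with
    | none => simp
    | some j =>
      have h8 : ∑ i : T ⊕ A, (if (some j : Option (T ⊕ A)) = some i then
          ∏ l, F l (fib ρ l) else 0) = ∏ l, F l (fib ρ l) := by
        rw [Finset.sum_eq_single j]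
        · simp
        · intro i _ hi
          rw [if_neg]
          intro h
          exact hi (Option.some.inj h).symm
        · intro h
          exact absurd (mem_univ _) h
      rw [h8, if_neg (by simp)]
      exact hpt ρ
  -- the masses
  set Wl : T ⊕ A → ℝ := fun l => ∑ U, F l U with hWl
  have hW1 : ∀ t, Wl (Sum.inl t) = S.Q1 u := fun t => rfl
  have hW2 : ∀ e, Wl (Sum.inr e) = x := fun e => rfl
  have hWpos : ∀ l, 0 < Wl l := by
    intro l
    cases l with
    | inl t =>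
      rw [hW1]
      linarith
    | inr e =>
      rw [hW2]
      exact hx0
  have hWprod : ∏ l, Wl l = S.Q1 u ^ Fintype.card T * x ^ Fintype.card A := by
    rw [Fintype.prod_sum_type]
    simp only [hW1, hW2, prod_const, card_univ]
  have hKp : 0 ≤ K / S.pr x₀ := div_nonneg hd.K0 (Nat.cast_nonneg _)
  have hFx : ∀ l, ∑ U, (if x₀ ∈ U then F l U else 0) ≤ K / S.pr x₀ := by
    intro l
    cases l with
    | inl t => exact q3 x₀
    | inr e =>
      refine le_trans (sum_le_sum fun U _ => ?_) (hd.vok.div x₀)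
      by_cases hU : x₀ ∈ U
      · rw [if_pos hU, if_pos hU]
        have e1 := hd.vok.le_one U
        have e2 := hd.vok.nonneg U
        have e3 : F (Sum.inr e) U = v U * (v U * S.wt U) := by
          simp only [hF, Sum.elim_inr]
          ring
        rw [e3]
        nlinarith
      · rw [if_neg hU, if_neg hU]
  have hj : ∀ j : T ⊕ A, ∑ ρ : π → Option (T ⊕ A),
      (if ρ x₀ = some j then ∏ l, F l (fib ρ l) else 0) ≤
      K / S.pr x₀ * ((∏ l, Wl l) / Wl j) := by
    intro j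
    set f : T ⊕ A → Finset π → ℝ := fun h U =>
      if h = j then (if x₀ ∈ U then F h U else 0) else F h U with hf
    have hf0 : ∀ h U, 0 ≤ f h U := by
      intro h U
      rw [hf]
      simp only
      split_ifs
      · exact hF0 h U
      · exact le_rfl
      · exact hF0 h U
    have h9 : ∀ ρ : π → Option (T ⊕ A), (if ρ x₀ = some j then ∏ l, F l (fib ρ l) else 0) ≤
        ∏ h, f h (fib ρ h) := by
      intro ρ
      by_cases hx : ρ x₀ = some j
      · rw [if_pos hx]
        apply le_of_eq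
        refine Finset.prod_congr rfl fun h _ => ?_
        rw [hf]
        simp only
        by_cases hh : h = j
        · subst hh
          have : x₀ ∈ fib ρ h := by simp [fib, hx]
          rw [if_pos rfl, if_pos this]
        · rw [if_neg hh]
      · rw [if_neg hx]
        exact Finset.prod_nonneg fun h _ => hf0 _ _
    have h10 := ACTX_inj f hf0
    have h11 : ∏ h, ∑ U, f h U = (∑ U, f j U) * ∏ h ∈ univ.erase j, ∑ U, f h U := by
      rw [Finset.mul_prod_erase univ (fun h => ∑ U, f h U) (mem_univ j)]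
    have h12 : ∏ h ∈ univ.erase j, ∑ U, f h U = (∏ l, Wl l) / Wl j := by
      rw [eq_div_iff (hWpos j).ne', ← Finset.prod_erase_mul univ Wl (mem_univ j)]
      congr 1
      refine prod_congr rfl fun h hh => ?_
      have hne : h ≠ j := Finset.ne_of_mem_erase hh
      refine Finset.sum_congr rfl fun U _ => ?_
      rw [hf]
      simp only
      rw [if_neg hne]
    have h13 : ∑ U, f j U ≤ K / S.pr x₀ := by
      have : ∑ U, f j U = ∑ U, (if x₀ ∈ U then F j U else 0) := by
        refine Finset.sum_congr rfl fun U _ => ?_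
        rw [hf]
        simp
      rw [this]
      exact hFx j
    calc ∑ ρ : π → Option (T ⊕ A), (if ρ x₀ = some j then ∏ l, F l (fib ρ l) else 0)
        ≤ ∑ ρ : π → Option (T ⊕ A), ∏ h, f h (fib ρ h) := Finset.sum_le_sum fun ρ _ => h9 ρ
      _ ≤ ∏ h, ∑ U, f h U := h10
      _ = (∑ U, f j U) * ((∏ l, Wl l) / Wl j) := by rw [h11, h12]
      _ ≤ K / S.pr x₀ * ((∏ l, Wl l) / Wl j) :=
          mul_le_mul_of_nonneg_right h13
            (div_nonneg (prod_nonneg fun l _ => (hWpos l).le) (hWpos j).le)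
  have hsum : ∑ ρ : π → Option (T ⊕ A), (if ρ x₀ = none then 0 else
      bb S u v D ρ ^ 2 * (S.szn ρ : ℝ)) ≤ ∑ j, K / S.pr x₀ * ((∏ l, Wl l) / Wl j) := by
    calc ∑ ρ : π → Option (T ⊕ A), (if ρ x₀ = none then 0 else
          bb S u v D ρ ^ 2 * (S.szn ρ : ℝ))
        ≤ ∑ ρ : π → Option (T ⊕ A), ∑ j, (if ρ x₀ = some j then
            ∏ l, F l (fib ρ l) else 0) := Finset.sum_le_sum fun ρ _ => hpt2 ρ
      _ = ∑ j, ∑ ρ : π → Option (T ⊕ A), (if ρ x₀ = some j then
            ∏ l, F l (fib ρ l) else 0) := Finset.sum_comm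
      _ ≤ _ := Finset.sum_le_sum fun j _ => hj j
  have hPr : 0 ≤ ∏ l, Wl l := prod_nonneg fun l _ => (hWpos l).le
  have hsum2 : ∑ j, K / S.pr x₀ * ((∏ l, Wl l) / Wl j) ≤
      K / z * (∏ l, Wl l) * (Fintype.card T + k / x) := by
    have e1 : ∑ j, K / S.pr x₀ * ((∏ l, Wl l) / Wl j) =
        K / S.pr x₀ * (∏ l, Wl l) * (Fintype.card T / S.Q1 u + Fintype.card A / x) := by
      rw [Fintype.sum_sum_type]
      simp only [hW1, hW2, sum_const, card_univ, nsmul_eq_mul]
      ring
    rw [e1]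
    have e2 : (Fintype.card T : ℝ) / S.Q1 u + Fintype.card A / x ≤ Fintype.card T + k / x := by
      refine add_le_add (div_le_self (Nat.cast_nonneg _) q2) ?_
      exact div_le_div_of_nonneg_right (by exact_mod_cast hd.hk) hx0.le
    have e3 : K / S.pr x₀ ≤ K / z := div_le_div_of_nonneg_left hd.K0 hz (hd.z_le x₀)
    have e4 : 0 ≤ (Fintype.card T : ℝ) / S.Q1 u + Fintype.card A / x := by
      have : 0 ≤ S.Q1 u := by linarith
      positivity
    have e5 : 0 ≤ K / z := div_nonneg hd.K0 hz.le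
    exact mul_le_mul (mul_le_mul_of_nonneg_right e3 hPr) e2 e4 (mul_nonneg e5 hPr)
  have hfl := (h4 π T A S u v a b C a' b' C' K D z s k Q hd).1
  have hme := h3 π T A S u v a b C a' b' C' K D z s k Q hd hG
  have hxn : 0 ≤ x ^ Fintype.card A := pow_nonneg hx0.le _
  have h8 : ∏ l, Wl l ≤ 16 * MM S (bb S u v D) := by
    rw [hWprod]
    have e1 : S.Q1 u ^ Fintype.card T * x ^ Fintype.card A ≤
        2 * MF S u D * x ^ Fintype.card A := mul_le_mul_of_nonneg_right (by linarith) hxn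
    linarith
  have h9 : 0 ≤ K / z * (Fintype.card T + k / x) := by
    have := hd.K0
    positivity
  have h10 : K / z * (∏ l, Wl l) * (Fintype.card T + k / x) ≤
      16 * K * (Fintype.card T + k / x) / z * MM S (bb S u v D) := by
    calc K / z * (∏ l, Wl l) * (Fintype.card T + k / x) =
        (K / z * (Fintype.card T + k / x)) * ∏ l, Wl l := by ring
      _ ≤ (K / z * (Fintype.card T + k / x)) * (16 * MM S (bb S u v D)) :=
          mul_le_mul_of_nonneg_left h8 h9
      _ = _ := by ring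
  refine le_trans (le_of_eq ?_) (le_trans hsum (le_trans hsum2 h10))
  refine sum_congr rfl fun ρ _ => ?_
  congr

end Pool.LGR
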