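import Pool.Agent.Work.MP_b0c12c_rp.Interface

set_option autoImplicit false

namespace Pool.LGR

open Finset Filter
open Pool.LGP Pool.LGC

theorem AVE_upQ (A B v M : ℕ) (hM : 0 < M) (hAB : A ≤ B) :
    ((((Ioc A B).filter (fun x => x ≡ v [MOD M])).card : ℚ)) ≤ ((B : ℚ) - A) / M + 1 := by
  have h := Nat.Ioc_filter_modEq_card A B hM v
  have hM' : (0 : ℚ) < M := by exact_mod_cast hM
  have h1 : (((((Ioc A B).filter (fun x => x ≡ v [MOD M])).card : ℤ) : ℚ)) ≤
      ((B : ℚ) - A) / M + 1 := by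
    rw [h, Int.cast_max]
    apply max_le
    · push_cast
      have h2 := Int.floor_le (((B : ℚ) - v) / M)
      have h3 := Int.lt_floor_add_one (((A : ℚ) - v) / M)
      have h4 : ((B : ℚ) - v) / M - ((A : ℚ) - v) / M = ((B : ℚ) - A) / M := by ring
      linarith
    · have : (0 : ℚ) ≤ ((B : ℚ) - A) / M := by
        apply div_nonneg _ hM'.le
        have : (A : ℚ) ≤ B := by exact_mod_cast hAB
        linarith
      push_cast
      linarith
  exact_mod_cast h1

theorem AVE_loQ (A B v M : ℕ) (hM : 0 < M) :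
    ((B : ℚ) - A) / M - 1 ≤ ((((Ioc A B).filter (fun x => x ≡ v [MOD M])).card : ℚ)) := by
  have h := Nat.Ioc_filter_modEq_card A B hM v
  have h1 : ((B : ℚ) - A) / M - 1 ≤
      (((((Ioc A B).filter (fun x => x ≡ v [MOD M])).card : ℤ) : ℚ)) := by
    rw [h, Int.cast_max]
    apply le_max_of_le_left
    push_cast
    have h2 := Int.floor_le (((A : ℚ) - v) / M)
    have h3 := Int.lt_floor_add_one (((B : ℚ) - v) / M)
    have h4 : ((B : ℚ) - v) / M - ((A : ℚ) - v) / M = ((B : ℚ) - A) / M := by ring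
    linarith
  exact_mod_cast h1

theorem AVE_up (A B v M : ℕ) (hM : 0 < M) (hAB : A ≤ B) :
    ((((Ioc A B).filter (fun x => x ≡ v [MOD M])).card : ℝ)) ≤ ((B : ℝ) - A) / M + 1 := by
  have h := AVE_upQ A B v M hM hAB
  have h1 : ((((((Ioc A B).filter (fun x => x ≡ v [MOD M])).card : ℚ)) : ℝ)) ≤
      ((((B : ℚ) - A) / M + 1 : ℚ) : ℝ) := by exact_mod_cast h
  push_cast at h1
  exact h1

theorem AVE_lo (A B v M : ℕ) (hM : 0 < M) :
    ((B : ℝ) - A) / M - 1 ≤ ((((Ioc A B).filter (fun x => x ≡ v [MOD M])).card : ℝ)) := by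
  have h := AVE_loQ A B v M hM
  have h1 : ((((B : ℚ) - A) / M - 1 : ℚ) : ℝ) ≤
      ((((((Ioc A B).filter (fun x => x ≡ v [MOD M])).card : ℚ)) : ℝ)) := by exact_mod_cast h
  push_cast at h1
  exact h1

theorem AVE_Pl (K H c : ℕ) (hH : 1 ≤ H) :
    Pl K H c = (Ioc ((H - 1) / 3) (H / 2)).filter (fun s => s ≡ c [MOD primorial (K + 1)]) := by
  ext s
  simp only [Pl, Finset.mem_filter, Finset.mem_Icc, Finset.mem_Ioc]
  constructor
  · rintro ⟨⟨-, h1⟩, h2, h3, h4⟩
    exact ⟨⟨by omega, by omega⟩, h4⟩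
  · rintro ⟨⟨h1, h2⟩, h3⟩
    exact ⟨⟨by omega, by omega⟩, by omega, by omega, h3⟩

theorem AVE_len (H : ℕ) (hH : 1 ≤ H) :
    (H : ℝ) / 6 - 1 / 6 ≤ ((H / 2 : ℕ) : ℝ) - (((H - 1) / 3 : ℕ) : ℝ) ∧
    ((H / 2 : ℕ) : ℝ) - (((H - 1) / 3 : ℕ) : ℝ) ≤ (H : ℝ) / 6 + 1 ∧ (H - 1) / 3 ≤ H / 2 := by
  have h1 : 2 * (H / 2) ≤ H := by omega
  have h2 : H ≤ 2 * (H / 2) + 1 := by omega
  have h3 : 3 * ((H - 1) / 3) + 1 ≤ H := by omega
  have h4 : H ≤ 3 * ((H - 1) / 3) + 3 := by omega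
  have h1' : 2 * ((H / 2 : ℕ) : ℝ) ≤ H := by exact_mod_cast h1
  have h2' : (H : ℝ) ≤ 2 * ((H / 2 : ℕ) : ℝ) + 1 := by exact_mod_cast h2
  have h3' : 3 * (((H - 1) / 3 : ℕ) : ℝ) + 1 ≤ H := by exact_mod_cast h3
  have h4' : (H : ℝ) ≤ 3 * (((H - 1) / 3 : ℕ) : ℝ) + 3 := by exact_mod_cast h4
  refine ⟨by linarith, by linarith, by omega⟩

theorem AVE_card (K H c : ℕ) (hH : 12 * primorial (K + 1) + 2 ≤ H) :
    (H : ℝ) ≤ 12 * primorial (K + 1) * (Pl K H c).card := by
  have hP : 0 < primorial (K + 1) := primorial_pos _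
  have hP' : (0 : ℝ) < primorial (K + 1) := by exact_mod_cast hP
  rw [AVE_Pl K H c (by omega)]
  have h1 := AVE_lo ((H - 1) / 3) (H / 2) c _ hP
  obtain ⟨h2, -, -⟩ := AVE_len H (by omega)
  have hH' : 12 * (primorial (K + 1) : ℝ) + 2 ≤ H := by exact_mod_cast hH
  have h3 : ((H / 2 : ℕ) : ℝ) - (((H - 1) / 3 : ℕ) : ℝ) - primorial (K + 1) ≤
      primorial (K + 1) *
        (((Ioc ((H - 1) / 3) (H / 2)).filter
          (fun s => s ≡ c [MOD primorial (K + 1)])).card : ℝ) := by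
    have := mul_le_mul_of_nonneg_left h1 hP'.le
    have h4 : (primorial (K + 1) : ℝ) * ((((H / 2 : ℕ) : ℝ) - (((H - 1) / 3 : ℕ) : ℝ)) /
        primorial (K + 1) - 1) = ((H / 2 : ℕ) : ℝ) - (((H - 1) / 3 : ℕ) : ℝ) -
        primorial (K + 1) := by
      field_simp
    rw [h4] at this
    exact this
  linarith

theorem AVE_cop (K : ℕ) (D : Finset ℕ) (hD : ∀ p ∈ D, p.Prime ∧ K + 1 < p) :
    (primorial (K + 1)).Coprime (∏ p ∈ D, p) := by
  apply Nat.Coprime.prod_right
  intro p hp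
  obtain ⟨hp1, hp2⟩ := hD p hp
  rw [Nat.coprime_comm, hp1.coprime_iff_not_dvd]
  intro h
  unfold primorial at h
  rw [Prime.dvd_finsetProd_iff hp1.prime] at h
  obtain ⟨q, hq, hpq⟩ := h
  simp only [Finset.mem_filter, Finset.mem_range] at hq
  have := (Nat.prime_dvd_prime_iff_eq hp1 hq.2).mp hpq
  omega

theorem AVE_modprod (D : Finset ℕ) (hD : ∀ p ∈ D, p.Prime) (s t : ℕ)
    (h : ∀ p ∈ D, s ≡ t [MOD p]) : s ≡ t [MOD ∏ p ∈ D, p] := by
  classical
  induction D using Finset.induction_on with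
  | empty => simp [Nat.modEq_one]
  | insert q D hq ih =>
    rw [Finset.prod_insert hq]
    apply (Nat.modEq_and_modEq_iff_modEq_mul _).mp
    · exact ⟨h q (Finset.mem_insert_self _ _),
        ih (fun p hp => hD p (Finset.mem_insert_of_mem hp))
          (fun p hp => h p (Finset.mem_insert_of_mem hp))⟩
    · apply Nat.Coprime.prod_right
      intro p hp
      apply (Nat.coprime_primes (hD q (Finset.mem_insert_self _ _))
        (hD p (Finset.mem_insert_of_mem hp))).mpr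
      rintro rfl
      exact hq hp

theorem AVE_cls (K H c h : ℕ) (D : Finset ℕ) (hD : ∀ p ∈ D, p.Prime ∧ K + 1 < p)
    (hH : 4 ≤ H) (hDH : 4 * (primorial (K + 1) * ∏ p ∈ D, p) ≤ H) (f : ℕ → ℕ) :
    (((Pl K H c).filter (fun s => ∀ p ∈ D, h ≡ s + f p [MOD p])).card : ℝ) ≤
      H / (primorial (K + 1) * ∏ p ∈ D, (p : ℝ)) := by
  classical
  have hP : 0 < primorial (K + 1) := primorial_pos _
  have hpi0 : 0 < ∏ p ∈ D, p := Finset.prod_pos (fun p hp => (hD p hp).1.pos)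
  set M : ℕ := primorial (K + 1) * ∏ p ∈ D, p with hM
  have hMpos : 0 < M := Nat.mul_pos hP hpi0
  have hMr : (M : ℝ) = primorial (K + 1) * ∏ p ∈ D, (p : ℝ) := by
    rw [hM]; push_cast; rfl
  rw [← hMr]
  have hM' : (0 : ℝ) < M := by exact_mod_cast hMpos
  rcases ((Pl K H c).filter (fun s => ∀ p ∈ D, h ≡ s + f p [MOD p])).eq_empty_or_nonempty with
    he | ⟨s₀, hs₀⟩
  · rw [he]; simp; positivity
  · rw [Finset.mem_filter] at hs₀
    obtain ⟨hs1, hs2⟩ := hs₀
    have hs1' := hs1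
    rw [AVE_Pl K H c (by omega), Finset.mem_filter] at hs1'
    have hsub : (Pl K H c).filter (fun s => ∀ p ∈ D, h ≡ s + f p [MOD p]) ⊆
        (Ioc ((H - 1) / 3) (H / 2)).filter (fun s => s ≡ s₀ [MOD M]) := by
      intro s hs
      rw [Finset.mem_filter] at hs
      obtain ⟨hs3, hs4⟩ := hs
      rw [AVE_Pl K H c (by omega), Finset.mem_filter] at hs3
      rw [Finset.mem_filter]
      refine ⟨hs3.1, ?_⟩
      apply (Nat.modEq_and_modEq_iff_modEq_mul (AVE_cop K D hD)).mp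
      refine ⟨hs3.2.trans hs1'.2.symm, ?_⟩
      apply AVE_modprod D (fun p hp => (hD p hp).1)
      intro p hp
      have h1 : s + f p ≡ s₀ + f p [MOD p] := (hs4 p hp).symm.trans (hs2 p hp)
      exact Nat.ModEq.add_right_cancel' _ h1
    have h1 : (((Pl K H c).filter (fun s => ∀ p ∈ D, h ≡ s + f p [MOD p])).card : ℝ) ≤
        (((Ioc ((H - 1) / 3) (H / 2)).filter (fun s => s ≡ s₀ [MOD M])).card : ℝ) := by
      exact_mod_cast Finset.card_le_card hsub
    obtain ⟨-, h3, h4⟩ := AVE_len H (by omega)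
    have h2 := AVE_up ((H - 1) / 3) (H / 2) s₀ M hMpos h4
    refine le_trans h1 (le_trans h2 ?_)
    rw [le_div_iff₀ hM', add_mul, div_mul_cancel₀ _ hM'.ne']
    have h5 : 4 * (M : ℝ) ≤ H := by exact_mod_cast hDH
    have h6 : (4 : ℝ) ≤ H := by exact_mod_cast hH
    linarith

theorem AVE_cnt (K H c h : ℕ) (D : Finset ℕ) (hD : ∀ p ∈ D, p.Prime ∧ K + 1 < p)
    (hH : 4 ≤ H) (hDH : 4 * (primorial (K + 1) * ∏ p ∈ D, p) ≤ H) (a : Fin K → ℕ) :
    (((Pl K H c).filter (fun s => ∀ p ∈ D, ∃ i, h ≡ s + a i [MOD p])).card : ℝ) ≤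
      (K : ℝ) ^ D.card * (H / (primorial (K + 1) * ∏ p ∈ D, (p : ℝ))) := by
  classical
  have hsub : (Pl K H c).filter (fun s => ∀ p ∈ D, ∃ i, h ≡ s + a i [MOD p]) ⊆
      (univ : Finset (D → Fin K)).biUnion (fun f => (Pl K H c).filter
        (fun s => ∀ p ∈ D, h ≡ s + (if hp : p ∈ D then a (f ⟨p, hp⟩) else 0) [MOD p])) := by
    intro s hs
    rw [Finset.mem_filter] at hs
    obtain ⟨hs1, hs2⟩ := hs
    choose g hg using hs2
    rw [Finset.mem_biUnion]
    refine ⟨fun p => g p.1 p.2, Finset.mem_univ _, ?_⟩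
    rw [Finset.mem_filter]
    refine ⟨hs1, fun p hp => ?_⟩
    rw [dif_pos hp]
    exact hg p hp
  have h1 := Finset.card_le_card hsub
  have h2 := le_trans h1 Finset.card_biUnion_le
  have h3 : (((Pl K H c).filter (fun s => ∀ p ∈ D, ∃ i, h ≡ s + a i [MOD p])).card : ℝ) ≤
      ∑ f : D → Fin K, (((Pl K H c).filter (fun s => ∀ p ∈ D, h ≡ s +
        (if hp : p ∈ D then a (f ⟨p, hp⟩) else 0) [MOD p])).card : ℝ) := by
    exact_mod_cast h2
  refine le_trans h3 ?_
  refine le_trans (Finset.sum_le_sum (fun f _ => AVE_cls K H c h D hD hH hDH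
    (fun p => if hp : p ∈ D then a (f ⟨p, hp⟩) else 0))) ?_
  rw [Finset.sum_const, nsmul_eq_mul]
  apply le_of_eq
  congr 1
  simp [Finset.card_univ]

theorem AVE_tel (m N : ℕ) (hm : 1 ≤ m) (hN : m ≤ N) :
    ∑ n ∈ Ioc m N, 1 / ((n : ℝ) * (n - 1)) = 1 / m - 1 / N := by
  induction N, hN using Nat.le_induction with
  | base => simp
  | succ N hN ih =>
    rw [← Finset.insert_Ioc_right_eq_Ioc_add_one (by omega : m ≤ N), Finset.sum_insert (by simp),
      ih]
    have h1 : (0 : ℝ) < N := by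
      have : 1 ≤ N := by omega
      exact_mod_cast this
    have h2 : (0 : ℝ) < m := by exact_mod_cast hm
    push_cast
    rw [show (N : ℝ) + 1 - 1 = N by ring]
    have h3 : (N : ℝ) ≠ 0 := h1.ne'
    have h4 : (N : ℝ) + 1 ≠ 0 := by linarith
    have h5 : 1 / (((N : ℝ) + 1) * N) = 1 / N - 1 / (N + 1) := by
      field_simp
      ring
    rw [h5]
    ring

/-- The contribution of the small primes. -/
theorem AVE_small (K H c h Y : ℕ) (hK : 1 ≤ K) (R : Finset ℕ)
    (hR : ∀ p ∈ R, p.Prime ∧ K + 1 < p) (hRY : ∀ p ∈ R, p ≤ Y)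
    (hH : 4 ≤ H) (hYH : 4 * (primorial (K + 1) * primorial Y) ≤ H) (a : Fin K → ℕ) :
    ∑ s ∈ Pl K H c, ∏ p ∈ R, (open Classical in
      if ∃ i, h ≡ s + a i [MOD p] then (1 - 1 / (p : ℝ))⁻¹ else 1) ≤
      Real.exp 1 * (H / primorial (K + 1)) := by
  classical
  have hP' : (0 : ℝ) < primorial (K + 1) := by exact_mod_cast primorial_pos _
  have hp1 : ∀ p ∈ R, (1 : ℝ) < p := fun p hp => by exact_mod_cast (hR p hp).1.one_lt
  have hexp : ∀ s, ∏ p ∈ R, (if ∃ i, h ≡ s + a i [MOD p] then (1 - 1 / (p : ℝ))⁻¹ else 1) =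
      ∑ D ∈ R.powerset, if ∀ p ∈ D, ∃ i, h ≡ s + a i [MOD p] then
        ∏ p ∈ D, (1 / ((p : ℝ) - 1)) else 0 := by
    intro s
    have h1 : ∏ p ∈ R, (if ∃ i, h ≡ s + a i [MOD p] then (1 - 1 / (p : ℝ))⁻¹ else 1) =
        ∏ p ∈ R, (1 + if ∃ i, h ≡ s + a i [MOD p] then 1 / ((p : ℝ) - 1) else 0) := by
      apply Finset.prod_congr rfl
      intro p hp
      have := hp1 p hp
      split_ifs
      · have h2 : (p : ℝ) - 1 ≠ 0 := by linarith
        have h3 : (p : ℝ) ≠ 0 := by linarith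
        field_simp
        ring
      · ring
    rw [h1, Finset.prod_one_add]
    apply Finset.sum_congr rfl
    intro D _
    rw [Finset.prod_ite_zero]
  simp only [hexp]
  rw [Finset.sum_comm]
  have hD : ∀ D ∈ R.powerset, ∑ s ∈ Pl K H c, (if ∀ p ∈ D, ∃ i, h ≡ s + a i [MOD p] then
      ∏ p ∈ D, (1 / ((p : ℝ) - 1)) else 0) ≤
      (H / primorial (K + 1)) * ∏ p ∈ D, ((K : ℝ) * (1 / ((p : ℝ) * (p - 1)))) := by
    intro D hD
    rw [Finset.mem_powerset] at hD
    rw [← Finset.sum_filter, Finset.sum_const, nsmul_eq_mul]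
    have hDp : ∀ p ∈ D, p.Prime ∧ K + 1 < p := fun p hp => hR p (hD hp)
    have hpr : ∏ p ∈ D, p ≤ primorial Y := by
      unfold primorial
      apply Finset.prod_le_prod_of_subset_of_one_le'
      · intro p hp
        rw [Finset.mem_filter, Finset.mem_range]
        exact ⟨by have := hRY p (hD hp); omega, (hDp p hp).1⟩
      · intro p hp _
        exact (Finset.mem_filter.mp hp).2.one_lt.le
    have hDH : 4 * (primorial (K + 1) * ∏ p ∈ D, p) ≤ H := by
      refine le_trans ?_ hYH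
      gcongr
    have h1 := AVE_cnt K H c h D hDp hH hDH a
    have hnn : (0 : ℝ) ≤ ∏ p ∈ D, (1 / ((p : ℝ) - 1)) :=
      Finset.prod_nonneg (fun p hp => by
        have := hp1 p (hD hp)
        apply div_nonneg zero_le_one; linarith)
    refine le_trans (mul_le_mul_of_nonneg_right h1 hnn) (le_of_eq ?_)
    rw [Finset.prod_mul_distrib, Finset.prod_const]
    have h2 : ∏ p ∈ D, (1 / ((p : ℝ) * (p - 1))) =
        (∏ p ∈ D, (1 / ((p : ℝ) - 1))) * (∏ p ∈ D, (p : ℝ))⁻¹ := by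
      rw [← Finset.prod_inv_distrib, ← Finset.prod_mul_distrib]
      apply Finset.prod_congr rfl
      intro p hp
      have := hp1 p (hD hp)
      have h3 : (p : ℝ) - 1 ≠ 0 := by linarith
      have h4 : (p : ℝ) ≠ 0 := by linarith
      field_simp
    rw [h2]
    have h5 : (∏ p ∈ D, (p : ℝ)) ≠ 0 := Finset.prod_ne_zero_iff.mpr (fun p hp => by
      have := hp1 p (hD hp)
      linarith)
    field_simp
  refine le_trans (Finset.sum_le_sum hD) ?_
  rw [← Finset.mul_sum, ← Finset.prod_one_add, mul_comm]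
  apply mul_le_mul_of_nonneg_right _ (by positivity)
  have h1 : ∏ p ∈ R, (1 + (K : ℝ) * (1 / ((p : ℝ) * (p - 1)))) ≤
      ∏ p ∈ R, Real.exp ((K : ℝ) * (1 / ((p : ℝ) * (p - 1)))) := by
    apply Finset.prod_le_prod
    · intro p hp
      have := hp1 p hp
      have : 0 < (p : ℝ) * (p - 1) := mul_pos (by linarith) (by linarith)
      positivity
    · intro p _
      have := Real.add_one_le_exp ((K : ℝ) * (1 / ((p : ℝ) * (p - 1))))
      linarith
  refine le_trans h1 ?_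
  rw [← Real.exp_sum, ← Finset.mul_sum]
  apply Real.exp_le_exp.mpr
  have h2 : ∑ p ∈ R, 1 / ((p : ℝ) * (p - 1)) ≤ ∑ n ∈ Ioc (K + 1) (max (K + 1) Y),
      1 / ((n : ℝ) * (n - 1)) := by
    apply Finset.sum_le_sum_of_subset_of_nonneg
    · intro p hp
      rw [Finset.mem_Ioc]
      exact ⟨(hR p hp).2, le_max_of_le_right (hRY p hp)⟩
    · intro n hn _
      rw [Finset.mem_Ioc] at hn
      have : (1 : ℝ) < n := by
        have : 1 < n := by omega
        exact_mod_cast this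
      have : 0 < (n : ℝ) * (n - 1) := mul_pos (by linarith) (by linarith)
      positivity
  rw [AVE_tel (K + 1) _ (by omega) (le_max_left _ _)] at h2
  have hKr : (1 : ℝ) ≤ K := by exact_mod_cast hK
  have h3 : (0 : ℝ) ≤ 1 / ((max (K + 1) Y : ℕ) : ℝ) := by positivity
  calc (K : ℝ) * ∑ p ∈ R, 1 / ((p : ℝ) * (p - 1)) ≤ K * (1 / ((K + 1 : ℕ) : ℝ)) := by
        apply mul_le_mul_of_nonneg_left _ (by linarith)
        linarith
    _ ≤ 1 := by
        push_cast
        rw [mul_one_div, div_le_one (by linarith)]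
        linarith

/-- The contribution of the large primes. -/
theorem AVE_large (K H h s Y : ℕ) (hK : 1 ≤ K) (R : Finset ℕ)
    (hR : ∀ p ∈ R, p.Prime) (hRY : ∀ p ∈ R, Y < p) (hY : 1 ≤ Y) (hY2 : 2 ^ (8 * K) ≤ Y + 1)
    (hYH : Nat.log 2 H ≤ 4 * Y + 3) (hH : 1 ≤ H) (a : Fin K → ℕ)
    (ha : ∀ i, s + a i ≤ H) (hh : h ≤ H) (hne : ∀ i, h ≠ s + a i) :
    ∏ p ∈ R, (open Classical in
      if ∃ i, h ≡ s + a i [MOD p] then (1 - 1 / (p : ℝ))⁻¹ else 1) ≤ Real.exp 1 := by
  classical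
  have hYr : (1 : ℝ) ≤ Y := by exact_mod_cast hY
  rw [← Finset.prod_filter]
  have h1 : ∏ p ∈ R.filter (fun p => ∃ i, h ≡ s + a i [MOD p]), (1 - 1 / (p : ℝ))⁻¹ ≤
      ∏ p ∈ R.filter (fun p => ∃ i, h ≡ s + a i [MOD p]), Real.exp (1 / Y) := by
    apply Finset.prod_le_prod
    · intro p hp
      have hp2 := hRY p (Finset.mem_filter.mp hp).1
      have : (1 : ℝ) < p := by
        have : 1 < p := by omega
        exact_mod_cast this
      have : 1 / (p : ℝ) < 1 := by rw [div_lt_one (by linarith)]; exact this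
      apply inv_nonneg.mpr
      linarith
    · intro p hp
      have hp2 := hRY p (Finset.mem_filter.mp hp).1
      have h3 : (Y : ℝ) + 1 ≤ p := by exact_mod_cast hp2
      have h4 : (1 - 1 / (p : ℝ))⁻¹ = 1 + 1 / ((p : ℝ) - 1) := by
        have h5 : (p : ℝ) - 1 ≠ 0 := by linarith
        have h6 : (p : ℝ) ≠ 0 := by linarith
        field_simp
        ring
      rw [h4]
      have h7 : 1 / ((p : ℝ) - 1) ≤ 1 / Y := one_div_le_one_div_of_le (by linarith) (by linarith)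
      have h8 := Real.add_one_le_exp (1 / (Y : ℝ))
      linarith
  refine le_trans h1 ?_
  rw [Finset.prod_const, ← Real.exp_nat_mul]
  apply Real.exp_le_exp.mpr
  rw [mul_one_div, div_le_one (by linarith)]
  -- number of primes
  have hcnt : ∀ i, K * (R.filter (fun p => h ≡ s + a i [MOD p])).card ≤ Y := by
    intro i
    set R' := R.filter (fun p => h ≡ s + a i [MOD p]) with hR'
    set n : ℕ := ((h : ℤ) - (s + a i : ℕ)).natAbs with hn
    have hn0 : n ≠ 0 := by
      rw [hn, Int.natAbs_ne_zero, sub_ne_zero]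
      exact_mod_cast hne i
    have hnH : n ≤ H := by
      have := ha i
      rw [hn]
      omega
    have hdvd : ∏ p ∈ R', p ∣ n := by
      apply Finset.prod_primes_dvd
      · intro p hp
        exact (hR p (Finset.mem_filter.mp hp).1).prime
      · intro p hp
        have h5 := (Finset.mem_filter.mp hp).2
        have h6 : (p : ℤ) ∣ ((s + a i : ℕ) : ℤ) - h := Nat.modEq_iff_dvd.mp h5
        rw [hn]
        have h7 : (p : ℤ) ∣ (h : ℤ) - (s + a i : ℕ) := by
          rw [← neg_sub]; exact h6.neg_right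
        exact Int.natCast_dvd.mp h7
    have hpow : (Y + 1) ^ R'.card ≤ n := by
      calc (Y + 1) ^ R'.card = ∏ p ∈ R', (Y + 1) := by rw [Finset.prod_const]
        _ ≤ ∏ p ∈ R', p := by
            apply Finset.prod_le_prod'
            intro p hp
            exact hRY p (Finset.mem_filter.mp hp).1
        _ ≤ n := Nat.le_of_dvd (Nat.pos_of_ne_zero hn0) hdvd
    have h8 : 2 ^ (8 * K * R'.card) ≤ H := by
      rw [pow_mul]
      exact le_trans (Nat.pow_le_pow_left hY2 _) (le_trans hpow hnH)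
    have h9 : 8 * K * R'.card ≤ Nat.log 2 H := (Nat.le_log_iff_pow_le (by norm_num)
      (by omega)).mpr h8
    have h10 : 8 * (K * R'.card) ≤ 8 * Y := by
      calc 8 * (K * R'.card) = 8 * K * R'.card := by ring
        _ ≤ Nat.log 2 H := h9
        _ ≤ 4 * Y + 3 := hYH
        _ ≤ 8 * Y := by omega
    omega
  have hsub : R.filter (fun p => ∃ i, h ≡ s + a i [MOD p]) ⊆
      (univ : Finset (Fin K)).biUnion (fun i => R.filter (fun p => h ≡ s + a i [MOD p])) := by
    intro p hp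
    rw [Finset.mem_filter] at hp
    obtain ⟨hp1, i, hi⟩ := hp
    rw [Finset.mem_biUnion]
    exact ⟨i, Finset.mem_univ _, Finset.mem_filter.mpr ⟨hp1, hi⟩⟩
  have h2 : (R.filter (fun p => ∃ i, h ≡ s + a i [MOD p])).card ≤
      ∑ i : Fin K, (R.filter (fun p => h ≡ s + a i [MOD p])).card :=
    le_trans (Finset.card_le_card hsub) Finset.card_biUnion_le
  have h3 : K * (R.filter (fun p => ∃ i, h ≡ s + a i [MOD p])).card ≤ K * Y := by
    calc K * (R.filter (fun p => ∃ i, h ≡ s + a i [MOD p])).card ≤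
        K * ∑ i : Fin K, (R.filter (fun p => h ≡ s + a i [MOD p])).card :=
          Nat.mul_le_mul_left _ h2
      _ = ∑ i : Fin K, K * (R.filter (fun p => h ≡ s + a i [MOD p])).card := by
          rw [Finset.mul_sum]
      _ ≤ ∑ i : Fin K, Y := Finset.sum_le_sum (fun i _ => hcnt i)
      _ = K * Y := by simp
  have h4 := Nat.le_of_mul_le_mul_left h3 hK
  exact_mod_cast h4

theorem p_AVE : Stmt_AVE := by
  classical
  refine ⟨12 * Real.exp 1 ^ 2, by positivity, ?_⟩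
  intro K hK
  refine ⟨max (16 * primorial (K + 1) ^ 2) (2 ^ (4 * 2 ^ (8 * K))), ?_⟩
  intro R H c a hR hH₀ ha
  have hP : 2 ≤ primorial (K + 1) := by
    have h1 : primorial 2 ≤ primorial (K + 1) := primorial_mono (by omega)
    have h2 : primorial 2 = 2 := by decide
    omega
  have hHP : 16 * primorial (K + 1) ^ 2 ≤ H := le_trans (le_max_left _ _) hH₀
  have hH2 : 2 ^ (4 * 2 ^ (8 * K)) ≤ H := le_trans (le_max_right _ _) hH₀
  have hHbig : 12 * primorial (K + 1) + 2 ≤ H := by nlinarith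
  have hcard := AVE_card K H c hHbig
  have hHpos : 0 < H := by omega
  have hPr : (0 : ℝ) < primorial (K + 1) := by exact_mod_cast primorial_pos _
  refine ⟨?_, ?_⟩
  · by_contra h0
    have h1 : (Pl K H c).card = 0 := by omega
    rw [h1] at hcard
    have : (0 : ℝ) < H := by exact_mod_cast hHpos
    simp at hcard
    linarith
  intro h hh
  set Y : ℕ := Nat.log 2 H / 4 with hY
  have hlog : 4 * 2 ^ (8 * K) ≤ Nat.log 2 H :=
    (Nat.le_log_iff_pow_le (by norm_num) (by omega)).mpr hH2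
  have hY2 : 2 ^ (8 * K) ≤ Y := by
    rw [hY, Nat.le_div_iff_mul_le (by norm_num)]
    omega
  have hY1 : 1 ≤ Y := le_trans Nat.one_le_two_pow hY2
  have hYH : Nat.log 2 H ≤ 4 * Y + 3 := by omega
  -- 4 P primorial Y ≤ H
  have hprY : 4 * (primorial (K + 1) * primorial Y) ≤ H := by
    have h1 : primorial Y ≤ 4 ^ Y := primorial_le_four_pow Y
    have h2 : (4 ^ Y) ^ 2 ≤ H := by
      calc (4 ^ Y) ^ 2 = 2 ^ (4 * Y) := by
            rw [show (4 : ℕ) = 2 ^ 2 by norm_num, ← pow_mul, ← pow_mul]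
            congr 1
            ring
        _ ≤ 2 ^ Nat.log 2 H := Nat.pow_le_pow_right (by norm_num) (by omega)
        _ ≤ H := Nat.pow_log_le_self 2 (by omega)
    have h3 : (4 * (primorial (K + 1) * primorial Y)) ^ 2 ≤ H ^ 2 := by
      calc (4 * (primorial (K + 1) * primorial Y)) ^ 2
          = (16 * primorial (K + 1) ^ 2) * primorial Y ^ 2 := by ring
        _ ≤ H * (4 ^ Y) ^ 2 := by gcongr
        _ ≤ H * H := Nat.mul_le_mul_left _ h2
        _ = H ^ 2 := by ring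
    exact (Nat.pow_le_pow_iff_left (by norm_num)).mp h3
  -- the split
  have hsplit : ∀ s, ∏ p ∈ R, (if ∃ i, h ≡ s + a i [MOD p] then (1 - 1 / (p : ℝ))⁻¹ else 1) =
      (∏ p ∈ R.filter (fun p => p ≤ Y),
        (if ∃ i, h ≡ s + a i [MOD p] then (1 - 1 / (p : ℝ))⁻¹ else 1)) *
      ∏ p ∈ R.filter (fun p => ¬ p ≤ Y),
        (if ∃ i, h ≡ s + a i [MOD p] then (1 - 1 / (p : ℝ))⁻¹ else 1) := fun s =>
    (Finset.prod_filter_mul_prod_filter_not _ _ _).symm
  have hge1 : ∀ s, ∀ R' : Finset ℕ, R' ⊆ R → 0 ≤ ∏ p ∈ R',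
      (if ∃ i, h ≡ s + a i [MOD p] then (1 - 1 / (p : ℝ))⁻¹ else 1) := by
    intro s R' hR'
    apply Finset.prod_nonneg
    intro p hp
    have hp1 : (1 : ℝ) < p := by exact_mod_cast (hR p (hR' hp)).1.one_lt
    split_ifs
    · apply inv_nonneg.mpr
      have : 1 / (p : ℝ) < 1 := by rw [div_lt_one (by linarith)]; exact hp1
      linarith
    · exact zero_le_one
  have hle : ∀ s ∈ (Pl K H c).filter (fun s => ∀ i, h ≠ s + a i),
      ∏ p ∈ R, (if ∃ i, h ≡ s + a i [MOD p] then (1 - 1 / (p : ℝ))⁻¹ else 1) ≤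
      Real.exp 1 * ∏ p ∈ R.filter (fun p => p ≤ Y),
        (if ∃ i, h ≡ s + a i [MOD p] then (1 - 1 / (p : ℝ))⁻¹ else 1) := by
    intro s hs
    rw [Finset.mem_filter] at hs
    obtain ⟨hs1, hs2⟩ := hs
    have hs3 : 2 * s ≤ H := by
      simp only [Pl, Finset.mem_filter] at hs1
      exact hs1.2.2.1
    rw [hsplit s, mul_comm]
    apply mul_le_mul_of_nonneg_right _ (hge1 s _ (Finset.filter_subset _ _))
    apply AVE_large K H h s Y hK _ (fun p hp => (hR p (Finset.mem_filter.mp hp).1).1)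
      (fun p hp => by
        have := (Finset.mem_filter.mp hp).2
        omega) hY1 (by omega) hYH (by omega) a (fun i => by
        have := ha i
        omega) hh hs2
  refine le_trans (Finset.sum_le_sum hle) ?_
  rw [← Finset.mul_sum]
  have hsum : ∑ s ∈ (Pl K H c).filter (fun s => ∀ i, h ≠ s + a i),
      ∏ p ∈ R.filter (fun p => p ≤ Y),
        (if ∃ i, h ≡ s + a i [MOD p] then (1 - 1 / (p : ℝ))⁻¹ else 1) ≤
      Real.exp 1 * (H / primorial (K + 1)) := by
    refine le_trans (Finset.sum_le_sum_of_subset_of_nonneg (Finset.filter_subset _ _)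
      (fun s _ _ => hge1 s _ (Finset.filter_subset _ _))) ?_
    exact AVE_small K H c h Y hK _ (fun p hp => hR p (Finset.mem_filter.mp hp).1)
      (fun p hp => (Finset.mem_filter.mp hp).2) (by omega) hprY a
  have hfin : (H : ℝ) / primorial (K + 1) ≤ 12 * (Pl K H c).card := by
    rw [div_le_iff₀ hPr]
    linarith
  have he : 0 < Real.exp 1 := Real.exp_pos 1
  calc Real.exp 1 * _ ≤ Real.exp 1 * (Real.exp 1 * (H / primorial (K + 1))) :=
        mul_le_mul_of_nonneg_left hsum he.le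
    _ ≤ Real.exp 1 * (Real.exp 1 * (12 * (Pl K H c).card)) := by gcongr
    _ = _ := by ring

end Pool.LGR
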