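import Pool.Agent.Work.MP_b0c12c_rp.Interface

/-! # Block AVS: choice of the place of the pattern -/

set_option autoImplicit false

namespace Pool.LGR

open Finset Filter
open Pool.LGP Pool.LGC

theorem p_AVS (hAVE : Stmt_AVE) : Stmt_AVS := by
  classical
  obtain ⟨C, hC, hAVE⟩ := hAVE
  refine ⟨C, hC, fun K hK => ?_⟩
  obtain ⟨H₀, hH⟩ := hAVE K hK
  refine ⟨H₀, fun R H c A a hR hHH hA ha => ?_⟩
  obtain ⟨hpos, hav⟩ := hH R H c a hR hHH ha
  have hp1 : ∀ p ∈ R, (0 : ℝ) < 1 - 1 / (p : ℝ) ∧ 1 - 1 / (p : ℝ) ≤ 1 := by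
    intro p hp
    have h2 : (1 : ℝ) < p := by
      have := (hR p hp).1.one_lt
      exact_mod_cast this
    constructor
    · rw [sub_pos, div_lt_one (by linarith)]
      exact h2
    · have : (0 : ℝ) ≤ 1 / (p : ℝ) := by positivity
      linarith
  set F : ℕ → ℕ → ℝ := fun s h => ∏ p ∈ R,
    (if ∃ i, h ≡ s + a i [MOD p] then 1 else 1 - 1 / (p : ℝ)) with hF
  set G : ℕ → ℕ → ℝ := fun s h => ∏ p ∈ R,
    (if ∃ i, h ≡ s + a i [MOD p] then (1 - 1 / (p : ℝ))⁻¹ else 1) with hG
  have hF1 : ∀ s h, F s h ≤ 1 := by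
    intro s h
    refine Finset.prod_le_one (fun p hp => ?_) (fun p hp => ?_)
    · split_ifs
      · exact zero_le_one
      · exact (hp1 p hp).1.le
    · split_ifs
      · exact le_rfl
      · exact (hp1 p hp).2
  have hFG : ∀ s h, F s h = Pi' R * G s h := by
    intro s h
    simp only [hF, hG, Pi']
    rw [← Finset.prod_mul_distrib]
    refine Finset.prod_congr rfl fun p hp => ?_
    split_ifs
    · rw [mul_inv_cancel₀ (hp1 p hp).1.ne']
    · rw [mul_one]
  have hPi : 0 ≤ Pi' R := Finset.prod_nonneg fun p hp => (hp1 p hp).1.le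
  -- for one place
  have one : ∀ s, ∑ h ∈ A, F s h ≤ K +
      ∑ h ∈ A, (if ∀ i, h ≠ s + a i then Pi' R * G s h else 0) := by
    intro s
    have h1 : ∑ h ∈ A, F s h ≤ ∑ h ∈ A, ((if ∃ i, h = s + a i then (1 : ℝ) else 0) +
        (if ∀ i, h ≠ s + a i then Pi' R * G s h else 0)) := by
      refine Finset.sum_le_sum fun h _ => ?_
      by_cases hx : ∃ i, h = s + a i
      · rw [if_pos hx, if_neg (by
          intro hy
          obtain ⟨i, hi⟩ := hx
          exact hy i hi), add_zero]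
        exact hF1 s h
      · rw [if_neg hx, if_pos (fun i hi => hx ⟨i, hi⟩), zero_add, hFG]
    refine h1.trans ?_
    rw [Finset.sum_add_distrib]
    refine add_le_add ?_ le_rfl
    rw [← Finset.sum_filter, Finset.sum_const, nsmul_eq_mul, mul_one]
    have h2 : (A.filter fun h => ∃ i, h = s + a i) ⊆
        Finset.univ.image (fun i : Fin K => s + a i) := by
      intro h hh
      obtain ⟨i, hi⟩ := (Finset.mem_filter.1 hh).2
      exact Finset.mem_image.2 ⟨i, Finset.mem_univ _, hi.symm⟩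
    have h3 := Finset.card_le_card h2
    have h4 := Finset.card_image_le (s := (Finset.univ : Finset (Fin K)))
      (f := fun i : Fin K => s + a i)
    rw [Finset.card_univ, Fintype.card_fin] at h4
    exact_mod_cast h3.trans h4
  -- the average
  have avg : ∑ s ∈ Pl K H c, ∑ h ∈ A, F s h ≤
      ∑ _s ∈ Pl K H c, ((K : ℝ) + C * (A.card * Pi' R)) := by
    calc ∑ s ∈ Pl K H c, ∑ h ∈ A, F s h
        ≤ ∑ s ∈ Pl K H c, ((K : ℝ) +
          ∑ h ∈ A, (if ∀ i, h ≠ s + a i then Pi' R * G s h else 0)) :=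
          Finset.sum_le_sum fun s _ => one s
      _ = (Pl K H c).card * (K : ℝ) + ∑ h ∈ A, ∑ s ∈ Pl K H c,
          (if ∀ i, h ≠ s + a i then Pi' R * G s h else 0) := by
          rw [Finset.sum_add_distrib, Finset.sum_comm, Finset.sum_const, nsmul_eq_mul]
      _ ≤ (Pl K H c).card * (K : ℝ) + ∑ _h ∈ A, Pi' R * (C * (Pl K H c).card) := by
          refine add_le_add le_rfl (Finset.sum_le_sum fun h hh => ?_)
          rw [← Finset.sum_filter, ← Finset.mul_sum]
          refine mul_le_mul_of_nonneg_left ?_ hPi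
          exact hav h (Finset.mem_Icc.1 (hA hh)).2
      _ = ∑ _s ∈ Pl K H c, ((K : ℝ) + C * (A.card * Pi' R)) := by
          rw [Finset.sum_const, Finset.sum_const, nsmul_eq_mul, nsmul_eq_mul]
          ring
  obtain ⟨s, hs, hle⟩ := Finset.exists_le_of_sum_le (Finset.card_pos.1 hpos) avg
  have hs' := Finset.mem_filter.1 hs
  refine ⟨s, hs'.2.1, hs'.2.2.1, hs'.2.2.2, ?_⟩
  convert hle using 6

end Pool.LGR
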