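import Pool.Agent.Work.MP_b0c12c_rp.Interface

/-! Block BBS: support of the coefficients `bb` (helper83). -/

set_option autoImplicit false

namespace Pool.LGR

open Finset Filter
open Pool.LGP Pool.LGC

theorem BBS_wt {π ι : Type} (S : Sys π ι) (h3 : ∀ x, (1 : ℝ) ≤ S.pr x) (U : Finset π) :
    1 ≤ S.wt U := by
  unfold Sys.wt
  induction U using Finset.cons_induction with
  | empty => simp
  | cons a s ha ih =>
    rw [Finset.prod_cons]
    nlinarith [h3 a]

theorem p_BBS (h1 : Stmt_LRS) (h2 : LGP.Stmt_ACT) : Stmt_BBS := by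
  intro π T A _ _ _ _ _ _ S u v a b C a' b' C' K D z s k Q hR σ hbb
  unfold bb at hbb
  have hz : ∀ x, (3 : ℝ) ≤ S.pr x := fun x => hR.z3.trans (hR.z_le x)
  have ha : (rst S Sum.inl).aa u D (lft σ) ≠ 0 := fun e => hbb (by rw [e, zero_mul])
  have hc : cv S v D σ ≠ 0 := fun e => hbb (by rw [e, mul_zero, mul_zero])
  have hl : ((rst S Sum.inl).szn (lft σ) : ℝ) ≤ D := by
    unfold Sys.aa at ha
    by_contra hcon
    rw [if_neg hcon] at ha
    exact ha rfl
  have hr : ((rst S Sum.inr).szn (rgt σ) : ℝ) ≤ D := by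
    unfold cv at hc
    obtain ⟨U, -, hU⟩ := Finset.exists_ne_zero_of_sum_ne_zero hc
    by_cases hcon : (∀ x ∈ U, σ x = none) ∧ ((rst S Sum.inr).szn (rgt σ) : ℝ) * S.wt U ≤ D
    · have hw := BBS_wt S (fun x => by linarith [hz x]) U
      have h0 : (0 : ℝ) ≤ ((rst S Sum.inr).szn (rgt σ) : ℝ) := Nat.cast_nonneg _
      nlinarith [hcon.2]
    · rw [if_neg hcon] at hU
      exact absurd rfl hU
  obtain ⟨e1, -, e3, -⟩ := h1 π T A S σ
  have hD0 : 0 ≤ D := le_trans (Nat.cast_nonneg _) hl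
  constructor
  · have a1 := h2 π T (rst S Sum.inl) D hz (lft σ) hl
    have a2 := h2 π A (rst S Sum.inr) D hz (rgt σ) hr
    rw [e3]
    push_cast
    linarith
  · rw [e1]
    push_cast
    calc ((rst S Sum.inl).szn (lft σ) : ℝ) * ((rst S Sum.inr).szn (rgt σ) : ℝ) ≤ D * D :=
          mul_le_mul hl hr (Nat.cast_nonneg _) hD0
      _ = D ^ 2 := by ring

end Pool.LGR
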