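import Pool.Agent.Work.MP_b0c12c_rp.Interface

/-! # Block BND (helper7): `F ^ 2` is at most the square of the error weight. -/

set_option autoImplicit false

namespace Pool.LGR

open Finset Filter
open Pool.LGP Pool.LGC

theorem BND_loc {π ι : Type} (S : Sys π ι) (x : π) (h1 : 1 ≤ S.pr x) (o : Option ι) (y : ℕ) :
    |S.loc x o y| ≤ S.el x o := by
  have h2 : (1 : ℝ) ≤ S.pr x := by exact_mod_cast h1
  cases o with
  | none => simp [Sys.loc, Sys.el]
  | some h =>
    simp only [Sys.loc, Sys.el]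
    split_ifs
    · rw [abs_le]
      constructor <;> linarith
    · rw [abs_one]
      linarith

theorem BND_psi {π ι : Type} [Fintype π] (S : Sys π ι) (h : ∀ x, 1 ≤ S.pr x)
    (ρ : π → Option ι) (y : ℕ) : |S.psi ρ y| ≤ S.ez ρ := by
  unfold Sys.psi Sys.ez
  rw [Finset.abs_prod]
  exact Finset.prod_le_prod (fun x _ => abs_nonneg _) (fun x _ => BND_loc S x (h x) _ _)

theorem p_BND : Stmt_BND := by
  intro π ι _ _ _ S h a y
  have h1 : |FF S a y| ≤ EE S a := by
    unfold FF EE
    refine (Finset.abs_sum_le_sum_abs _ _).trans ?_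
    refine Finset.sum_le_sum (fun ρ _ => ?_)
    rw [abs_mul]
    exact mul_le_mul_of_nonneg_left (BND_psi S h ρ y) (abs_nonneg _)
  rw [← sq_abs (FF S a y)]
  exact pow_le_pow_left₀ (abs_nonneg _) h1 2

end Pool.LGR
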