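import Pool.Agent.Work.MP_b0c12c_rp.Interface

/-! # Block CHY: the character modulo `W` which agrees with a real primitive character (helper76) -/

set_option autoImplicit false

namespace Pool.LGR

open Finset Filter
open Pool.LGP Pool.LGC

theorem p_CHY (hCHX : Pool.LGC.Stmt_CHX) (hCHC : Pool.LGC.Stmt_CHC) : Stmt_CHY := by
  classical
  intro y W hy hW hsq hprim
  by_cases h1 : y.2 = 1
  · exact ⟨1, one_pow 2, Or.inl rfl, fun h => absurd h1 h⟩
  by_cases h2 : ∃ χ : DirichletCharacter ℂ W,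
      ∀ n : ℕ, n.Coprime (W * y.1) → y.2 (n : ZMod y.1) = χ (n : ZMod W)
  · obtain ⟨χ, hχ⟩ := h2
    obtain ⟨a, b, c⟩ := hCHX y W hy hW hsq h1 χ hχ
    exact ⟨χ, a, Or.inr (hCHC y W hy hW hprim χ hχ), fun _ χ' hχ' => ⟨b, c χ' hχ'⟩⟩
  · exact ⟨1, one_pow 2, Or.inl rfl, fun _ χ' hχ' => absurd ⟨χ', hχ'⟩ h2⟩

end Pool.LGR
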