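import Pool.Agent.Work.MP_b0c12c_rp.Interface
import Pool.Agent.Work.MP_b0c12c_chain.B_COE

/-! # Block COG: coefficients with a ramified prime of the family are small (helper55, from B_COE) -/

set_option autoImplicit false

namespace Pool.LGR

open Finset Filter
open Pool.LGP Pool.LGC

theorem p_COG (hSCP : Pool.LGC.Stmt_SCP) (hHRW : Pool.LGC.Stmt_HRW) (hPRB : Pool.LGC.Stmt_PRB) :
    Stmt_COG := by
  classical
  intro π ι _ _ _ _ S hgood a z μ e hz3 hz hE ha htau hmu X hX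
  obtain ⟨x₀, hx₀⟩ := hX
  have hz0 : 0 < z := by linarith
  have hm0 : (0 : ℝ) ≤ (Fintype.card ι : ℝ) := Nat.cast_nonneg _
  have h3x : ∀ x, (3 : ℝ) ≤ S.pr x := fun x => hz3.trans (hz x)
  have hp3 : ∀ x, 3 ≤ S.pr x := fun x => by exact_mod_cast h3x x
  -- the weights
  choose t₁ ht₁0 ht₁1 ht₁2 using
    fun x => hHRW ι (S.pr x) (cl S e x) (X x) (hgood.prime x) (hp3 x) (hE x)
  obtain ⟨t, ht⟩ : ∃ t : π → Option ι → ℝ, t = fun x o => if x = x₀ then
      (match o with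
        | none => 1
        | some _ => 1 / √(S.pr x₀ : ℝ)) else t₁ x o := ⟨_, rfl⟩
  have hsq0 : 0 < √(S.pr x₀ : ℝ) := Real.sqrt_pos.mpr (by linarith [h3x x₀])
  have ht0 : ∀ x o, 0 < t x o := by
    intro x o
    rw [ht]
    by_cases h : x = x₀
    · simp only [if_pos h]
      rcases o with _ | j
      · exact one_pos
      · exact one_div_pos.mpr hsq0
    · simp only [if_neg h]
      exact ht₁0 x o
  have htn : t x₀ none = 1 := by rw [ht]; simp
  have hts : ∀ j, t x₀ (some j) = 1 / √(S.pr x₀ : ℝ) := by intro j; rw [ht]; simp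
  have htx : ∀ x, x ≠ x₀ → t x = t₁ x := by
    intro x hx
    rw [ht]
    funext o
    simp only [if_neg hx]
  obtain ⟨R, hR⟩ : ∃ R : π → Option ι → ℝ, R = fun x o =>
      ∑ c, ‖hat (cl S e x) (X x) o c‖ * t x c / t x o := ⟨_, rfl⟩
  have hR0 : ∀ x o, 0 ≤ R x o := by
    intro x o
    rw [hR]
    exact Finset.sum_nonneg fun c _ => div_nonneg (mul_nonneg (norm_nonneg _) (ht0 x c).le)
      (ht0 x o).le
  obtain ⟨hrow0, hrow1⟩ := COE_row (hgood.prime x₀) (hp3 x₀) (cl S e x₀) (hE x₀) (X x₀) hx₀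
    (t x₀) htn hts
  -- reduction to the diagonal
  have h1 : ‖cX S e a X‖ ≤ ∑ ρ : π → Option ι, ∑ σ : π → Option ι,
      |a ρ| * |a σ| * ∏ x, ‖hat (cl S e x) (X x) (ρ x) (σ x)‖ := by
    unfold cX
    refine (norm_sum_le _ _).trans (Finset.sum_le_sum fun ρ _ => (norm_sum_le _ _).trans
      (Finset.sum_le_sum fun σ _ => le_of_eq ?_))
    rw [norm_mul, norm_mul, norm_prod, Complex.norm_real, Complex.norm_real, Real.norm_eq_abs,
      Real.norm_eq_abs]
  have h2 := hSCP π (Option ι) (fun x b c => ‖hat (cl S e x) (X x) b c‖) t a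
    (fun _ _ _ => norm_nonneg _) (fun x b c => by rw [COE_symm]) ht0
  have h2' : ∑ ρ : π → Option ι, a ρ ^ 2 * ∏ x, ∑ c,
      ‖hat (cl S e x) (X x) (ρ x) c‖ * t x c / t x (ρ x) =
      ∑ ρ : π → Option ι, a ρ ^ 2 * ∏ x, R x (ρ x) := by
    rw [hR]
  -- the auxiliary rows
  obtain ⟨R', hR'⟩ : ∃ R' : π → Option ι → ℝ, R' = fun x o => if x = x₀ then
      (match o with
        | none => 1
        | some _ => (S.pr x₀ : ℝ)) else R x o := ⟨_, rfl⟩
  have hR'n : R' x₀ none = 1 := by rw [hR']; simp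
  have hR's : ∀ j, R' x₀ (some j) = S.pr x₀ := by intro j; rw [hR']; simp
  have hR'x : ∀ x, x ≠ x₀ → R' x = R x := by
    intro x hx
    rw [hR']
    funext o
    simp only [if_neg hx]
  have hR'0 : ∀ x o, 0 ≤ R' x o := by
    intro x o
    by_cases h : x = x₀
    · subst h
      rcases o with _ | j
      · rw [hR'n]; exact zero_le_one
      · rw [hR's]; exact Nat.cast_nonneg _
    · rw [hR'x x h]; exact hR0 x o
  have hR'1 : ∀ x, R' x none ≤ 1 + (Fintype.card ι : ℝ) / (((S.pr x : ℝ) - 1) * √(S.pr x)) := by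
    intro x
    by_cases h : x = x₀
    · subst h
      rw [hR'n]
      have : 0 ≤ (Fintype.card ι : ℝ) / (((S.pr x : ℝ) - 1) * √(S.pr x)) :=
        div_nonneg hm0 (mul_nonneg (by linarith [h3x x]) (Real.sqrt_nonneg _))
      linarith
    · rw [hR'x x h, hR]
      simp only [htx x h]
      exact ht₁1 x
  have hR'2 : ∀ x j, R' x (some j) ≤ S.pr x + 6 * ((Fintype.card ι : ℝ) + 1) := by
    intro x j
    by_cases h : x = x₀
    · subst h
      rw [hR's]
      linarith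
    · rw [hR'x x h, hR]
      simp only [htx x h]
      exact ht₁2 x j
  -- each product
  have hkey : ∀ ρ : π → Option ι, a ρ ^ 2 * ∏ x, R x (ρ x) ≤
      15 / 8 * ((Fintype.card ι : ℝ) / √z) * (a ρ ^ 2 * S.szn ρ) +
      5 * (if ρ x₀ = none then 0 else a ρ ^ 2 * S.szn ρ) := by
    intro ρ
    by_cases h0 : a ρ = 0
    · simp [h0]
    have hP := hPRB π ι S (Fintype.card ι) z ρ hz3 hz (ha ρ h0) htau R' hR'0 hR'1 hR'2
    have hsp : ∏ x, R x (ρ x) = R x₀ (ρ x₀) * ∏ x ∈ univ.erase x₀, R x (ρ x) :=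
      (Finset.mul_prod_erase _ _ (Finset.mem_univ x₀)).symm
    have hsp' : ∏ x, R' x (ρ x) = R' x₀ (ρ x₀) * ∏ x ∈ univ.erase x₀, R x (ρ x) := by
      rw [← Finset.mul_prod_erase _ _ (Finset.mem_univ x₀)]
      congr 1
      refine Finset.prod_congr rfl fun x hx => ?_
      rw [hR'x x (Finset.ne_of_mem_erase hx)]
    have hq0 : 0 ≤ ∏ x ∈ univ.erase x₀, R x (ρ x) := Finset.prod_nonneg fun x _ => hR0 x _
    have hszn : (0 : ℝ) ≤ S.szn ρ := Nat.cast_nonneg _
    have hkz : 0 ≤ (Fintype.card ι : ℝ) / √z := div_nonneg hm0 (Real.sqrt_nonneg _)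
    have ha2 : 0 ≤ a ρ ^ 2 := sq_nonneg _
    rcases hρ : ρ x₀ with _ | j
    · rw [if_pos rfl, mul_zero, add_zero]
      have hr : R x₀ none ≤ 3 / 2 * ((Fintype.card ι : ℝ) / √z) := by
        have hr1 : R x₀ none ≤ 3 / 2 * (Fintype.card ι : ℝ) / √(S.pr x₀ : ℝ) := by
          rw [hR]; exact hrow0
        refine hr1.trans ?_
        rw [mul_div_assoc]
        refine mul_le_mul_of_nonneg_left ?_ (by norm_num)
        exact div_le_div_of_nonneg_left hm0 (Real.sqrt_pos.mpr hz0) (Real.sqrt_le_sqrt (hz x₀))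
      rw [hρ] at hsp hsp'
      rw [hsp', hR'n, one_mul] at hP
      have h3 : ∏ x, R x (ρ x) ≤ 3 / 2 * ((Fintype.card ι : ℝ) / √z) * (5 / 4 * S.szn ρ) := by
        rw [hsp]
        exact mul_le_mul hr hP hq0 (by positivity)
      calc a ρ ^ 2 * ∏ x, R x (ρ x)
          ≤ a ρ ^ 2 * (3 / 2 * ((Fintype.card ι : ℝ) / √z) * (5 / 4 * S.szn ρ)) :=
            mul_le_mul_of_nonneg_left h3 ha2
        _ = 15 / 8 * ((Fintype.card ι : ℝ) / √z) * (a ρ ^ 2 * S.szn ρ) := by ring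
    · rw [if_neg (by simp)]
      have hact : (1 : ℝ) ≤ act ρ := by
        have h4 : 1 ≤ act ρ := by
          unfold act
          calc 1 = al (ρ x₀) := by rw [hρ]; rfl
            _ ≤ ∑ x, al (ρ x) := Finset.single_le_sum (f := fun x => al (ρ x))
                (fun x _ => Nat.zero_le _) (Finset.mem_univ x₀)
        exact_mod_cast h4
      have h64 : 64 * ((Fintype.card ι : ℝ) + 1) ≤ S.pr x₀ := by
        have h5 := ha ρ h0
        have h6 := hz x₀
        nlinarith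
      have hr : R x₀ (some j) ≤ 4 * S.pr x₀ := by
        rw [hR]; exact hrow1 j h64
      rw [hρ] at hsp hsp'
      rw [hsp', hR's] at hP
      have h3 : ∏ x, R x (ρ x) ≤ 5 * S.szn ρ := by
        rw [hsp]
        calc R x₀ (some j) * ∏ x ∈ univ.erase x₀, R x (ρ x)
            ≤ 4 * S.pr x₀ * ∏ x ∈ univ.erase x₀, R x (ρ x) := mul_le_mul_of_nonneg_right hr hq0
          _ = 4 * (S.pr x₀ * ∏ x ∈ univ.erase x₀, R x (ρ x)) := by ring
          _ ≤ 4 * (5 / 4 * S.szn ρ) := mul_le_mul_of_nonneg_left hP (by norm_num)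
          _ = 5 * S.szn ρ := by ring
      have h4 : a ρ ^ 2 * ∏ x, R x (ρ x) ≤ 5 * (a ρ ^ 2 * S.szn ρ) := by
        calc a ρ ^ 2 * ∏ x, R x (ρ x) ≤ a ρ ^ 2 * (5 * S.szn ρ) :=
              mul_le_mul_of_nonneg_left h3 ha2
          _ = 5 * (a ρ ^ 2 * S.szn ρ) := by ring
      have h5 : 0 ≤ 15 / 8 * ((Fintype.card ι : ℝ) / √z) * (a ρ ^ 2 * S.szn ρ) := by
        positivity
      linarith
  have hM0 : 0 ≤ MM S a := Finset.sum_nonneg fun ρ _ => by positivity
  have hX2 := hmu x₀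
  have hkz : 0 ≤ (Fintype.card ι : ℝ) / √z := div_nonneg hm0 (Real.sqrt_nonneg _)
  calc ‖cX S e a X‖ ≤ _ := h1
    _ ≤ _ := h2
    _ = _ := h2'
    _ ≤ ∑ ρ : π → Option ι, (15 / 8 * ((Fintype.card ι : ℝ) / √z) *
          (a ρ ^ 2 * S.szn ρ) +
          5 * (if ρ x₀ = none then 0 else a ρ ^ 2 * S.szn ρ)) :=
        Finset.sum_le_sum fun ρ _ => hkey ρ
    _ = 15 / 8 * ((Fintype.card ι : ℝ) / √z) * MM S a +
          5 * ∑ ρ : π → Option ι, (if ρ x₀ = none then 0 else a ρ ^ 2 * S.szn ρ) := by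
        rw [Finset.sum_add_distrib, ← Finset.mul_sum, ← Finset.mul_sum]
        rfl
    _ ≤ (3 * (Fintype.card ι : ℝ) / √z + 5 * μ) * MM S a := by
        have h7 : 0 ≤ (Fintype.card ι : ℝ) / √z * MM S a := mul_nonneg hkz hM0
        have h8 : (3 * (Fintype.card ι : ℝ) / √z + 5 * μ) * MM S a =
            3 * ((Fintype.card ι : ℝ) / √z * MM S a) + 5 * (μ * MM S a) := by ring
        rw [h8]
        linarith

end Pool.LGR
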