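import Pool.Agent.Work.MP_b0c12c_rp.Interface

/-! # Block CRX: the Chinese remainder theorem for the primes up to `w` (helper76, from B_CRV) -/

set_option autoImplicit false

namespace Pool.LGR

open Finset Filter
open Pool.LGP Pool.LGC

theorem p_CRX : Stmt_CRX := by
  classical
  intro w c
  set t : Finset ℕ := (range (w + 1)).filter Nat.Prime with ht
  have hprim : primorial w = ∏ p ∈ t, p := rfl
  have hs : ∀ p ∈ t, p ≠ 0 := fun p hp => (mem_filter.mp hp).2.ne_zero
  have pp : Set.Pairwise (t : Set ℕ) (Function.onFun Nat.Coprime (fun p : ℕ => p)) := by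
    intro p hp q hq hne
    exact (Nat.coprime_primes (mem_filter.mp (mem_coe.mp hp)).2
      (mem_filter.mp (mem_coe.mp hq)).2).mpr hne
  obtain ⟨k, hk⟩ := Nat.chineseRemainderOfFinset c (fun p : ℕ => p) t hs pp
  have hpos : 0 < primorial w := primorial_pos w
  have hdvd : ∀ p : ℕ, p.Prime → p ≤ w → p ∣ primorial w := by
    intro p hp hpw
    rw [hprim]
    exact Finset.dvd_prod_of_mem (fun p : ℕ => p)
      (mem_filter.mpr ⟨mem_range.mpr (Nat.lt_succ_of_le hpw), hp⟩)
  have hmem : ∀ p : ℕ, p.Prime → p ≤ w → p ∈ t := fun p hp hpw =>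
    mem_filter.mpr ⟨mem_range.mpr (Nat.lt_succ_of_le hpw), hp⟩
  refine ⟨k % primorial w, Nat.mod_lt _ hpos, ?_⟩
  intro p hp hpw
  exact ((Nat.mod_modEq k (primorial w)).of_dvd (hdvd p hp hpw)).trans (hk p (hmem p hp hpw))

end Pool.LGR
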