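import Pool.Agent.Work.MP_b0c12c_rp.Interface

set_option autoImplicit false

namespace Pool.LGR

open Finset Filter
open Pool.LGP Pool.LGC

theorem p_CVB : Stmt_CVB := by
  intro π T A _ _ _ _ _ _ S u v a b C a' b' C' K D z s k Q hd σ
  classical
  have hz0 : 0 < z := by have := hd.z3; linarith
  have hv := hd.vok
  have hnn : ∀ U, 0 ≤ v U := hv.nonneg
  have hK0 := hd.K0
  unfold cv
  refine ⟨?_, ?_, ?_⟩
  · refine Finset.sum_nonneg fun U _ => ?_
    split_ifs
    · exact hnn U
    · exact le_rfl
  · rw [← hv.mass]
    refine Finset.sum_le_sum fun U _ => ?_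
    split_ifs
    · exact le_rfl
    · exact hnn U
  · intro hsz
    have hb0 : 0 < b' := by have := hd.b1'; linarith
    -- pointwise
    have hpt : ∀ U : Finset π, v U ≤
        (if (∀ x ∈ U, σ x = none) ∧ ((rst S Sum.inr).szn (rgt σ) : ℝ) * S.wt U ≤ D then v U
          else 0) + ∑ x, (if σ x = none then 0 else (if x ∈ U then v U else 0)) := by
      intro U
      have h0 : ∀ x, 0 ≤ (if σ x = none then 0 else (if x ∈ U then v U else 0)) := by
        intro x
        split_ifs
        · exact le_rfl
        · exact hnn U
        · exact le_rfl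
      have hs : 0 ≤ ∑ x, (if σ x = none then 0 else (if x ∈ U then v U else 0)) :=
        Finset.sum_nonneg fun x _ => h0 x
      by_cases hU : v U = 0
      · rw [hU]
        rw [hU] at hs
        split_ifs <;> linarith
      · have hw := hv.hi U hU
        have hsize : ((rst S Sum.inr).szn (rgt σ) : ℝ) * S.wt U ≤ D := by
          calc ((rst S Sum.inr).szn (rgt σ) : ℝ) * S.wt U ≤
                ((rst S Sum.inr).szn (rgt σ) : ℝ) * b' :=
                mul_le_mul_of_nonneg_left hw (Nat.cast_nonneg _)
            _ ≤ D / b' * b' := mul_le_mul_of_nonneg_right hsz hb0.le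
            _ = D := div_mul_cancel₀ _ hb0.ne'
        by_cases hfree : ∀ x ∈ U, σ x = none
        · rw [if_pos ⟨hfree, hsize⟩]
          linarith
        · rw [if_neg (fun h => hfree h.1)]
          push Not at hfree
          obtain ⟨x, hx, hx'⟩ := hfree
          have h1 := Finset.single_le_sum (f := fun x => if σ x = none then 0 else
            (if x ∈ U then v U else 0)) (fun x _ => h0 x) (mem_univ x)
          rw [if_neg hx', if_pos hx] at h1
          linarith
    have hsum := Finset.sum_le_sum fun U (_ : U ∈ (univ : Finset (Finset π))) => hpt U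
    rw [hv.mass, Finset.sum_add_distrib] at hsum
    have h2 : ∑ U : Finset π, ∑ x, (if σ x = none then 0 else (if x ∈ U then v U else 0)) ≤
        act σ * K / z := by
      rw [Finset.sum_comm]
      have h3 : ∀ x, ∑ U : Finset π, (if σ x = none then 0 else (if x ∈ U then v U else 0)) ≤
          (al (σ x) : ℝ) * (K / z) := by
        intro x
        rcases hx : σ x with _ | l
        · simp [al]
        · have e1 : ∑ U : Finset π, (if (some l : Option (T ⊕ A)) = none then 0 else
              (if x ∈ U then v U else 0)) = ∑ U : Finset π, (if x ∈ U then v U else 0) := by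
            refine Finset.sum_congr rfl fun U _ => ?_
            rw [if_neg (by simp)]
          rw [e1]
          refine (hv.div x).trans ?_
          have e2 : ((al (some l : Option (T ⊕ A)) : ℕ) : ℝ) = 1 := by simp [al]
          rw [e2, one_mul]
          exact div_le_div_of_nonneg_left hK0 hz0 (hd.z_le x)
      calc ∑ x, ∑ U : Finset π, (if σ x = none then 0 else (if x ∈ U then v U else 0)) ≤
            ∑ x, (al (σ x) : ℝ) * (K / z) := Finset.sum_le_sum fun x _ => h3 x
        _ = act σ * K / z := by
            rw [← Finset.sum_mul]
            unfold act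
            push_cast
            ring
    have h5 : 1 - (act σ : ℝ) * K / z ≤ ∑ U : Finset π, (if (∀ x ∈ U, σ x = none) ∧
        ((rst S Sum.inr).szn (rgt σ) : ℝ) * S.wt U ≤ D then v U else 0) := by linarith
    refine h5.trans (le_of_eq ?_)
    refine Finset.sum_congr rfl fun U _ => ?_
    congr

end Pool.LGR
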