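import Pool.Agent.Work.MP_b0c12c_rp.Interface

/-! # Block DATR (helper1): the data exist -/

set_option autoImplicit false

namespace Pool.LGR

open Finset Filter
open Pool.LGP Pool.LGC

/-- Monotonicity of `Uok` in the last constant. -/
theorem DATR_mono {π ι : Type} [Fintype π] [DecidableEq π] {S : Sys π ι} {u : Finset π → ℝ}
    {a b C K K' : ℝ} (h : Uok S u a b C K) (hK : K ≤ K') (hpr : ∀ x, (0 : ℝ) < S.pr x) :
    Uok S u a b C K' :=
  ⟨h.nonneg, h.empty, h.mass, h.lo, h.hi, h.le_one, h.cost, fun x =>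
    (h.div x).trans (div_le_div_of_nonneg_right hK (hpr x).le)⟩

/-- The number of sites is bounded. -/
theorem DATR_size (Ck C₀ η : ℝ) (hCk : 0 < Ck) (hC₀ : 0 < C₀) (hη : 0 < η) (m J : ℕ)
    (hJ : (J : ℝ) ≤ 16 / 3 * Ck * m * C₀ / η + 2) (k r : ℝ)
    (hk : k - 1 ≤ Ck * m * r) (hr : r ≤ 4 ^ (J + 1) * C₀ / η) :
    k ≤ Real.exp ((32 / 3 * Ck * C₀ / η + 64 * Ck * C₀ / η) * m) := by
  have hm0 : (0 : ℝ) ≤ m := Nat.cast_nonneg _
  obtain ⟨A, hA⟩ : ∃ A, A = 32 / 3 * Ck * C₀ / η := ⟨_, rfl⟩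
  obtain ⟨B, hB⟩ : ∃ B, B = 64 * Ck * C₀ / η := ⟨_, rfl⟩
  have hA0 : 0 < A := by rw [hA]; positivity
  have hB0 : 0 < B := by rw [hB]; positivity
  rw [← hA, ← hB]
  have h4 : (4 : ℝ) ^ (J + 1) ≤ 64 * Real.exp (A * m) := by
    have e1 : Real.log 4 ≤ 2 := by
      rw [show (4 : ℝ) = 2 ^ 2 by norm_num, Real.log_pow]
      have := Real.log_two_lt_d9
      push_cast
      linarith
    have e2 : (0 : ℝ) ≤ Real.log 4 := Real.log_nonneg (by norm_num)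
    have e3 : (4 : ℝ) ^ (J + 1) = Real.exp (((J + 1 : ℕ) : ℝ) * Real.log 4) := by
      rw [Real.exp_nat_mul, Real.exp_log (by norm_num)]
    have e4 : (64 : ℝ) = Real.exp (3 * Real.log 4) := by
      rw [show (3 : ℝ) = ((3 : ℕ) : ℝ) by norm_num, Real.exp_nat_mul, Real.exp_log (by norm_num)]
      norm_num
    rw [e3, e4, ← Real.exp_add]
    apply Real.exp_le_exp.2
    push_cast
    have e5 : ((J : ℝ) + 1) * Real.log 4 ≤ (16 / 3 * Ck * m * C₀ / η + 2 + 1) * Real.log 4 := by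
      gcongr
    have e6 : 16 / 3 * Ck * m * C₀ / η * Real.log 4 ≤ 16 / 3 * Ck * m * C₀ / η * 2 := by
      gcongr
    have e7 : 16 / 3 * Ck * m * C₀ / η * 2 = A * m := by rw [hA]; ring
    linarith
  have h5 : Ck * m * r ≤ B * m * Real.exp (A * m) := by
    calc Ck * m * r ≤ Ck * m * (4 ^ (J + 1) * C₀ / η) := by gcongr
      _ ≤ Ck * m * (64 * Real.exp (A * m) * C₀ / η) := by gcongr
      _ = B * m * Real.exp (A * m) := by rw [hB]; ring
  have h6 : (1 : ℝ) ≤ Real.exp (A * m) := Real.one_le_exp (by positivity)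
  have h7 : B * m + 1 ≤ Real.exp (B * m) := Real.add_one_le_exp _
  calc k ≤ 1 + B * m * Real.exp (A * m) := by linarith
    _ ≤ Real.exp (A * m) + B * m * Real.exp (A * m) := by linarith
    _ = Real.exp (A * m) * (B * m + 1) := by ring
    _ ≤ Real.exp (A * m) * Real.exp (B * m) := by gcongr
    _ = Real.exp ((A + B) * m) := by rw [← Real.exp_add]; congr 1; ring

theorem p_DATR (hVEX : Stmt_VEX) (hDTK : Stmt_DTK) (hDTN : Stmt_DTN) (hDTY : Stmt_DTY)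
    (hUEP : Stmt_UEP) (hTAB : Stmt_TAB) : Stmt_DATR := by
  intro κA ε hκA hε hε1
  obtain ⟨κ₀, hκ₀⟩ : ∃ x, x = min (1 / 8 : ℝ) (min (κA / 16) (ε / 16)) := ⟨_, rfl⟩
  obtain ⟨η, hη⟩ : ∃ x, x = min (1 / 2 : ℝ) (min (κA / 16) (ε / 32)) := ⟨_, rfl⟩
  have hκ₀0 : 0 < κ₀ := by
    rw [hκ₀]; exact lt_min (by norm_num) (lt_min (by positivity) (by positivity))
  have hκ₀1 : κ₀ ≤ 1 / 8 := hκ₀.le.trans (min_le_left _ _)
  have hκ₀2 : κ₀ ≤ κA / 16 := hκ₀.le.trans ((min_le_right _ _).trans (min_le_left _ _))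
  have hκ₀3 : κ₀ ≤ ε / 16 := hκ₀.le.trans ((min_le_right _ _).trans (min_le_right _ _))
  have hη0 : 0 < η := by
    rw [hη]; exact lt_min (by norm_num) (lt_min (by positivity) (by positivity))
  have hη1 : η ≤ 1 / 2 := hη.le.trans (min_le_left _ _)
  have hη2 : η ≤ κA / 16 := hη.le.trans ((min_le_right _ _).trans (min_le_left _ _))
  have hη3 : η ≤ ε / 32 := hη.le.trans ((min_le_right _ _).trans (min_le_right _ _))
  clear hκ₀ hη
  obtain ⟨K₂, C₀, hK₂, hC₀, HV⟩ := hVEX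
  obtain ⟨Ck, hCk, HK⟩ := hDTK
  have hM1 : 1 ≤ 4 / η := by
    rw [le_div_iff₀ hη0]; linarith
  obtain ⟨Cu, K₁, L₁, hCu, hK₁, HU⟩ := hUEP (4 / η) η hM1 hη0
  have he2 : 0 < Real.exp 2 := Real.exp_pos 2
  obtain ⟨κ, hκ⟩ : ∃ x, x = η / (4 * Real.exp 2 * Cu) := ⟨_, rfl⟩
  have hκ0 : 0 < κ := by rw [hκ]; positivity
  have hκ1 : κ * (4 * Real.exp 2 * Cu) ≤ η := by
    rw [hκ]
    exact (div_mul_cancel₀ _ (by positivity)).le
  refine ⟨κ₀, κ, η, 32 / 3 * Ck * C₀ / η + 64 * Ck * C₀ / η, hκ₀0, hκ₀1, hκ0, hη0, hη1,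
    by linarith, by positivity, ?_⟩
  intro m hm
  have hm0 : (0 : ℝ) < m := by exact_mod_cast hm
  obtain ⟨J, hJ⟩ : ∃ J : ℕ, J = ⌈16 / 3 * Ck * m * C₀ / η⌉₊ + 1 := ⟨_, rfl⟩
  have hJ0 : 0 < J := by omega
  have hJR : (0 : ℝ) < J := by exact_mod_cast hJ0
  have hJlo : 16 / 3 * Ck * m * C₀ / η ≤ J := by
    rw [hJ]
    push_cast
    have := Nat.le_ceil (16 / 3 * Ck * m * C₀ / η)
    linarith
  have hJhi : (J : ℝ) ≤ 16 / 3 * Ck * m * C₀ / η + 2 := by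
    rw [hJ]
    push_cast
    have := Nat.ceil_lt_add_one (a := 16 / 3 * Ck * m * C₀ / η) (by positivity)
    linarith
  clear hJ
  obtain ⟨c₁, L₂, hc₁, HV'⟩ := HV η J hη0 (by linarith) hJ0
  obtain ⟨L₃, HK'⟩ := HK κ₀ m hκ₀0 hm
  obtain ⟨K, hKdef⟩ : ∃ x, x = max K₁ K₂ := ⟨_, rfl⟩
  have hKu : K₁ ≤ K := by rw [hKdef]; exact le_max_left _ _
  have hKv : K₂ ≤ K := by rw [hKdef]; exact le_max_right _ _
  clear hKdef
  have hK1 : 1 ≤ K := hK₁.trans hKu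
  obtain ⟨K₀, hK₀⟩ : ∃ K₀ : ℕ,
      K₀ = ⌈Real.exp ((32 / 3 * Ck * C₀ / η + 64 * Ck * C₀ / η) * m)⌉₊ := ⟨_, rfl⟩
  have hc₃ : 0 < η / 4 / 4 ^ J := by positivity
  obtain ⟨L₄, hL₄, HN⟩ := hDTN η κ K K₁ Cu c₁ (η / 4 / 4 ^ J) K₀ hη0 (by linarith) hκ0 hK1 hK₁
    hCu hc₁ hc₃ hκ1
  obtain ⟨L₅, HY⟩ := hDTY η κ κ₀ κA ε c₁ K₀ m hη0 hκ0 hκ₀0 hc₁ (by linarith) (by linarith) hε1
  refine ⟨max L₁ (max L₂ (max L₃ (max L₄ L₅))), ?_⟩
  intro L hL P hP
  have hL1 : L₁ ≤ L := (le_max_left _ _).trans hL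
  have hL' := (le_max_right _ _).trans hL
  have hL2 : L₂ ≤ L := (le_max_left _ _).trans hL'
  have hL'' := (le_max_right _ _).trans hL'
  have hL3 : L₃ ≤ L := (le_max_left _ _).trans hL''
  have hL''' := (le_max_right _ _).trans hL''
  have hL4 : L₄ ≤ L := (le_max_left _ _).trans hL'''
  have hL5 : L₅ ≤ L := (le_max_right _ _).trans hL'''
  have hL16 : 16 ≤ L := hL₄.trans hL4
  have hL0 : 0 < L := by linarith
  have hlog0 : 0 < Real.log L := Real.log_pos (by linarith)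
  obtain ⟨v, x, hx1, hx2, hv⟩ := HV' L hL2 P hP
  have hx0 : 0 < x := lt_of_lt_of_le (by positivity) hx1
  obtain ⟨k, hk1, hk2, hk3⟩ := HK' L x hL3 hx0
  have hkexp : (k : ℝ) ≤ Real.exp ((32 / 3 * Ck * C₀ / η + 64 * Ck * C₀ / η) * m) := by
    refine DATR_size Ck C₀ η hCk hC₀ hη0 m J hJhi k _ hk2 ?_
    rw [div_le_iff₀ hlog0]
    calc L * x ≤ L * (4 ^ (J + 1) * C₀ / η * (Real.log L / L)) := by gcongr
      _ = 4 ^ (J + 1) * C₀ / η * Real.log L := by field_simp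
  have hkK₀ : k ≤ K₀ := by
    have h1 : (k : ℝ) ≤ K₀ := by
      rw [hK₀]
      exact hkexp.trans (Nat.le_ceil _)
    exact_mod_cast h1
  refine ⟨k, hk1, hkexp, ?_⟩
  intro T A _ _ _ _ S hS hgood hW hT hA Y Q hY hQ
  obtain ⟨hvx, hvok⟩ := hv (T ⊕ A) S hS
  obtain ⟨u, hu⟩ := HU L hL1 P hP (T ⊕ A) S hS
  obtain ⟨β, hβ⟩ : ∃ β, β = L / (4 / η * Real.log L) := ⟨_, rfl⟩
  rw [← hβ] at hu
  obtain ⟨n1, n2, n3, n4, n5, n6, n7, n8, n9, n10, n11, n12, n13, n14, n15⟩ :=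
    HN L x β (Fintype.card T) k hL4 hT hkK₀ hx1 hβ
  obtain ⟨y1, y2, y3⟩ := HY L x (Fintype.card T) k hL5 hT hk1 hkK₀ hx1 Y Q hY hQ
  have hlarge : ∀ x : P, L ^ 3 ≤ S.pr x := by
    intro x
    have h1 := ((hP x).1 x.2).2.1
    have h2 : L ^ 3 ≤ (⌈L ^ 3⌉₊ : ℝ) := Nat.le_ceil _
    have h3 : (⌈L ^ 3⌉₊ : ℝ) < (x : ℕ) := by exact_mod_cast h1
    rw [hS x]
    linarith
  have hL3pos : 0 < L ^ 3 := by positivity
  have hprpos : ∀ x : P, (0 : ℝ) < S.pr x := fun x => lt_of_lt_of_le hL3pos (hlarge x)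
  have hηL : 0 < η * L := by positivity
  have hlogD : Real.log (Real.exp (η * L)) = η * L := Real.log_exp _
  have hlogDb : Real.log (Real.exp (η * L) / Real.exp β) = η * L - β := by
    rw [← Real.exp_sub, Real.log_exp]
  have hlogDb' : Real.log (Real.exp (η * L) / Real.exp (η / 4 * L)) = 3 / 4 * (η * L) := by
    rw [← Real.exp_sub, Real.log_exp]; ring
  have hkR : (1 : ℝ) ≤ k := by exact_mod_cast hk1
  have hceil : 2 ≤ ⌈L ^ 3⌉₊ := by
    have h1 : (2 : ℝ) ≤ L ^ 3 := by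
      calc (2 : ℝ) ≤ 16 ^ 3 := by norm_num
        _ ≤ L ^ 3 := by gcongr
    exact_mod_cast h1.trans (Nat.le_ceil (L ^ 3))
  have hTAU := hTAB P ⌈L ^ 3⌉₊ ((Fintype.card T : ℝ) + k) hceil (by positivity)
    (fun p hp => ((hP p).1 hp).2.1)
  have hzc : L ^ 3 ≤ (⌈L ^ 3⌉₊ : ℝ) := Nat.le_ceil _
  refine ⟨u, v, Real.exp (√L / K₁), Real.exp β, Cu, Real.exp (η / 4 / 4 ^ J * L),
    Real.exp (η / 4 * L), C₀ * Real.log L / J, K, Real.exp (η * L), L ^ 3, 1, ?_, ?_, ?_, ?_, ?_⟩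
  · rw [← hA] at n4 n9 n10 n13 n14 n15 hTAU
    refine
    { good := hgood
      W_pos := by rw [hW]; exact primorial_pos _
      hk := le_rfl
      uok := DATR_mono hu hKu hprpos
      vok := DATR_mono hvok hKv hprpos
      z3 := ?_
      z_le := hlarge
      K0 := by linarith
      C0 := hCu.le
      C0' := by positivity
      s0 := one_pos
      a1 := Real.one_le_exp (by positivity)
      a1' := Real.one_le_exp (by positivity)
      b1 := Real.one_lt_exp_iff.2 n1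
      b1' := Real.one_lt_exp_iff.2 (by positivity)
      bD := Real.exp_le_exp.2 (by linarith)
      bD' := Real.exp_lt_exp.2 (by linarith)
      h64 := ?_
      hK := n5
      hC := ?_
      hexp := ?_
      hs := ?_
      hs' := ?_
      tau := ?_
      tau2 := ?_
      hQ := ?_
      x0 := ?_
      hc := ?_
      hact := ?_
      hnco := ?_
      hram := ?_
      hkill := ?_ }
    · calc (3 : ℝ) ≤ 16 ^ 3 := by norm_num
        _ ≤ L ^ 3 := by gcongr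
    · rw [hlogD]; exact n4
    · rw [hlogDb]; exact n6
    · rw [hlogDb, Real.log_exp]; exact n7
    · rw [Real.rpow_one]; exact n8
    · rw [Real.rpow_one]; exact n9
    · have hprod : ∏ x : P, (1 + ((Fintype.card T : ℝ) + Fintype.card A) /
          (((S.pr x : ℝ) - 1) * √(S.pr x))) =
          ∏ p ∈ P, (1 + ((Fintype.card T : ℝ) + Fintype.card A) / (((p : ℝ) - 1) * √p)) := by
        rw [← Finset.prod_coe_sort P]
        exact Finset.prod_congr rfl fun x _ => by rw [hS x]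
      rw [hprod]
      refine (hTAU.1.trans (Real.exp_le_exp.2 ?_)).trans n10
      have h1 : 0 < √(L ^ 3) := Real.sqrt_pos.2 hL3pos
      have h2 : √(L ^ 3) ≤ √(⌈L ^ 3⌉₊ : ℝ) := Real.sqrt_le_sqrt hzc
      gcongr
    · have hsum : ∑ x : P, 1 / (S.pr x : ℝ) ^ 2 = ∑ p ∈ P, 1 / (p : ℝ) ^ 2 := by
        rw [← Finset.sum_coe_sort P]
        exact Finset.sum_congr rfl fun x _ => by rw [hS x]
      rw [hsum]
      refine hTAU.2.trans ?_
      calc 1 / (⌈L ^ 3⌉₊ : ℝ) ≤ 1 / L ^ 3 := one_div_le_one_div_of_le hL3pos hzc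
        _ ≤ 2 / L ^ 3 := by gcongr; norm_num
    · rw [hW]; exact y1
    · rw [hvx]; exact hx0
    · rw [hlogD]; exact n11
    · rw [hlogD]; exact n12
    · rw [hvx]; exact n13
    · rw [hvx]; exact n14
    · rw [hlogD, hlogDb, Real.log_exp]; exact n15
  · rw [hvx, hlogDb', hA]
    have h1 : 4 * (((k : ℝ) - 1) * (C₀ * Real.log L / J)) ≤
        4 * (Ck * m * (L * x / Real.log L) * (C₀ * Real.log L / J)) := by
      gcongr
    have h2 : 4 * (Ck * m * (L * x / Real.log L) * (C₀ * Real.log L / J)) =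
        x * (3 / 4 * (η * L)) * ((16 / 3 * Ck * m * C₀ / η) / J) := by
      field_simp
      ring
    have h3 : (16 / 3 * Ck * m * C₀ / η) / J ≤ 1 := (div_le_one hJR).2 hJlo
    have h4 : 0 ≤ x * (3 / 4 * (η * L)) := by positivity
    calc _ ≤ _ := h1
      _ = _ := h2
      _ ≤ x * (3 / 4 * (η * L)) * 1 := mul_le_mul_of_nonneg_left h3 h4
      _ = _ := mul_one _
  · rw [hvx, hA, hW]
    exact hk3
  · rw [hvx, hA]
    exact y2
  · rw [hvx, hA]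
    exact y3

end Pool.LGR
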