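import Pool.Agent.Work.MP_b0c12c_rp.Interface

/-! # Block DRP (typed by helper13) -/

set_option autoImplicit false

namespace Pool.LGR

open Finset Filter
open Pool.LGP Pool.LGC

theorem p_DRP : Stmt_DRP := by
  intro π T A _ _ _ _ _ _ S u v a b C a' b' C' K D z s k Q hd e
  refine ⟨?_, rfl, rfl⟩
  have hA : Fintype.card {a : A // a ≠ e} ≤ Fintype.card A :=
    Fintype.card_subtype_le _
  have hinj : Function.Injective (Sum.map (id : T → T) (Subtype.val : {a : A // a ≠ e} → A)) :=
    Sum.map_injective.2 ⟨Function.injective_id, Subtype.val_injective⟩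
  have hu := hd.uok
  have hv := hd.vok
  exact {
    good := ⟨hd.good.prime, hd.good.inj, hd.good.cop, fun x h h' y hh h1 h2 =>
      hd.good.excl x _ _ y (fun h3 => hh (hinj h3)) h1 h2⟩
    W_pos := hd.W_pos
    hk := hA.trans hd.hk
    uok := ⟨hu.nonneg, hu.empty, hu.mass, hu.lo, hu.hi, hu.le_one, hu.cost, hu.div⟩
    vok := ⟨hv.nonneg, hv.empty, hv.mass, hv.lo, hv.hi, hv.le_one, hv.cost, hv.div⟩
    z3 := hd.z3
    z_le := hd.z_le
    K0 := hd.K0
    C0 := hd.C0
    C0' := hd.C0'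
    s0 := hd.s0
    a1 := hd.a1
    a1' := hd.a1'
    b1 := hd.b1
    b1' := hd.b1'
    bD := hd.bD
    bD' := hd.bD'
    h64 := hd.h64
    hK := hd.hK
    hC := hd.hC
    hexp := hd.hexp
    hs := hd.hs
    hs' := hd.hs'
    tau := hd.tau
    tau2 := hd.tau2
    hQ := hd.hQ
    x0 := hd.x0
    hc := hd.hc
    hact := hd.hact
    hnco := hd.hnco
    hram := hd.hram
    hkill := hd.hkill }

end Pool.LGR
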