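import Pool.Agent.Work.MP_b0c12c_rp.Interface

/-! # Block DTK: the number of sites -/

set_option autoImplicit false

namespace Pool.LGR

open Finset Filter
open Pool.LGP Pool.LGC

theorem p_DTK (hWPH : Pool.LGC.Stmt_WPH) : Stmt_DTK := by
  obtain ⟨c, hc, hW⟩ := hWPH
  refine ⟨1024 / c, by positivity, fun κ₀ m hκ hm => ?_⟩
  -- `L` is large
  have ev : ∀ᶠ L : ℝ in atTop, 3 ≤ L ∧ 2 ≤ κ₀ * L - 1 ∧ √L ≤ κ₀ * L - 1 := by
    have t1 : Tendsto (fun L : ℝ => κ₀ * L) atTop atTop := tendsto_id.const_mul_atTop hκ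
    have t2 : Tendsto (fun L : ℝ => √L) atTop atTop := Real.tendsto_sqrt_atTop
    filter_upwards [eventually_ge_atTop 3, t1.eventually_ge_atTop 3,
      t2.eventually_ge_atTop (2 / κ₀), t1.eventually_ge_atTop 2] with L h1 h2 h3 h4
    refine ⟨h1, by linarith, ?_⟩
    have h5 : κ₀ * √L ≥ 2 := by
      have := mul_le_mul_of_nonneg_left h3 hκ.le
      rwa [mul_div_cancel₀ _ hκ.ne'] at this
    have h6 : √L * √L = L := Real.mul_self_sqrt (by linarith)
    have h7 : κ₀ * L = (κ₀ * √L) * √L := by rw [mul_assoc, h6]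
    have h8 : 2 * √L ≤ κ₀ * L := by
      rw [h7]
      exact mul_le_mul_of_nonneg_right h5 (Real.sqrt_nonneg _)
    have h9 : 1 ≤ √L := by
      rw [Real.one_le_sqrt]
      linarith
    linarith
  obtain ⟨L₀, hL₀⟩ := eventually_atTop.1 ev
  refine ⟨L₀, fun L x hL hx => ?_⟩
  obtain ⟨h1, h2, h3⟩ := hL₀ L hL
  set w : ℕ := ⌊κ₀ * L⌋₊ with hw
  have hwl : κ₀ * L - 1 < (w : ℝ) := by
    have := Nat.lt_floor_add_one (κ₀ * L)
    rw [← hw] at this
    linarith
  have hw2 : 2 ≤ w := by
    have : (2 : ℝ) < w + 0 := by linarith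
    have h4 : (2 : ℝ) < w := by linarith
    have h5 : 2 < w := by exact_mod_cast h4
    omega
  have hlogL : 0 < Real.log L := Real.log_pos (by linarith)
  have hlogw : Real.log L / 2 ≤ Real.log w := by
    have h4 : √L ≤ w := by linarith
    have h5 := Real.log_le_log (by positivity : (0 : ℝ) < √L) h4
    rwa [Real.log_sqrt (by linarith)] at h5
  have hφ : (0 : ℝ) < (primorial w).totient := by
    have := Nat.totient_pos.2 (primorial_pos w)
    exact_mod_cast this
  have hP : (c / 2 * Real.log L) * (primorial w).totient ≤ primorial w := by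
    have h4 := hW w hw2
    rw [le_div_iff₀ hφ] at h4
    refine le_trans (mul_le_mul_of_nonneg_right ?_ hφ.le) h4
    have := mul_le_mul_of_nonneg_left hlogw hc.le
    linarith
  have hm1 : (1 : ℝ) ≤ m := by exact_mod_cast hm
  set q : ℝ := 1024 / c * m * (L * x / Real.log L) with hq
  have hq0 : 0 < q := by positivity
  refine ⟨⌈q⌉₊, Nat.one_le_iff_ne_zero.2 (Nat.ceil_pos.2 hq0).ne', ?_, ?_⟩
  · have := Nat.ceil_lt_add_one hq0.le
    linarith
  · have h4 : q ≤ ⌈q⌉₊ := Nat.le_ceil q
    have h5 : q * ((c / 2 * Real.log L) * (primorial w).totient) ≤ ⌈q⌉₊ * primorial w :=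
      mul_le_mul h4 hP (by positivity) (by positivity)
    have h6 : q * ((c / 2 * Real.log L) * (primorial w).totient) =
        512 * m * (L * x) * (primorial w).totient := by
      rw [hq]
      field_simp
      ring
    rw [h6] at h5
    refine le_trans ?_ h5
    have h7 : (3 * (m : ℝ) + 1) * 128 ≤ 512 * m := by linarith
    have h8 : 0 ≤ L * x * (primorial w).totient := by positivity
    calc (3 * (m : ℝ) + 1) * (64 * (2 * L) * x * (primorial w).totient)
        = (3 * (m : ℝ) + 1) * 128 * (L * x * (primorial w).totient) := by ring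
      _ ≤ 512 * m * (L * x * (primorial w).totient) := mul_le_mul_of_nonneg_right h7 h8
      _ = _ := by ring

end Pool.LGR
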