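import Pool.Agent.Work.MP_b0c12c_rp.Interface

/-! # Block DTN: the inequalities between the parameters, for large `L` -/

set_option autoImplicit false

namespace Pool.LGR

theorem DTN_exp : Real.exp (1 / 10) ≤ 9 / 8 := by
  have h1 : (1 : ℝ) - 1 / 10 ≤ Real.exp (-(1 / 10)) := by
    have := Real.add_one_le_exp (-(1 / 10) : ℝ)
    linarith
  rw [Real.exp_neg] at h1
  have h2 : 0 < Real.exp (1 / 10) := Real.exp_pos _
  have h3 : (9 / 10) * Real.exp (1 / 10) ≤ 1 := by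
    calc (9 / 10) * Real.exp (1 / 10) ≤ (Real.exp (1 / 10))⁻¹ * Real.exp (1 / 10) :=
          mul_le_mul_of_nonneg_right (by linarith) h2.le
      _ = 1 := inv_mul_cancel₀ h2.ne'
  linarith

theorem p_DTN : Stmt_DTN := by
  intro η κ K K₁ C c₁ c₃ K₀ hη hη1 hκ hK hK₁ hC hc₁ hc₃ hηC
  set A : ℝ := κ + K₀ + 3 with hA
  have hK0 : (0 : ℝ) ≤ K₀ := Nat.cast_nonneg _
  have hA3 : 3 ≤ A := by rw [hA]; linarith
  have hKp : 0 < K := by linarith
  have hK₁p : 0 < K₁ := by linarith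
  have t4 : 0 ≤ 192 * A := by linarith
  have t5 : 0 ≤ 16 * κ ^ 2 * K ^ 2 := by positivity
  have t8 : 0 ≤ 36 * κ ^ 2 * K₁ ^ 6 := by positivity
  have t9 : 0 ≤ K₀ / c₃ := by positivity
  have t10 : 0 ≤ (80 * A) ^ 2 := by positivity
  have t11 : 0 ≤ 8 * K := by positivity
  have t12 : 0 ≤ 4 * κ * K := by positivity
  have t13 : 0 ≤ 8 * (K₀ : ℝ) ^ 2 * K ^ 2 / c₁ ^ 2 := by positivity
  have t14 : 0 ≤ 1280 * K * (κ + K₀ / c₁) := by positivity
  have t15 : 0 ≤ 8 * K₀ * κ * (4 * K ^ 2 + 3) := by positivity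
  refine ⟨16 + 192 * A + 16 * κ ^ 2 * K ^ 2 + 36 * κ ^ 2 * K₁ ^ 6 + K₀ / c₃ + (80 * A) ^ 2 +
    8 * K + 4 * κ * K + 8 * (K₀ : ℝ) ^ 2 * K ^ 2 / c₁ ^ 2 + 1280 * K * (κ + K₀ / c₁) +
    8 * K₀ * κ * (4 * K ^ 2 + 3), by linarith, ?_⟩
  intro L x β t k hL ht hk hx hβ
  have l16 : 16 ≤ L := by linarith
  have l4 : 192 * A ≤ L := by linarith
  have l5 : 16 * κ ^ 2 * K ^ 2 ≤ L := by linarith
  have l8 : 36 * κ ^ 2 * K₁ ^ 6 ≤ L := by linarith
  have l9 : K₀ / c₃ ≤ L := by linarith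
  have l10 : (80 * A) ^ 2 ≤ L := by linarith
  have l11 : 8 * K ≤ L := by linarith
  have l12 : 4 * κ * K ≤ L := by linarith
  have l13 : 8 * (K₀ : ℝ) ^ 2 * K ^ 2 / c₁ ^ 2 ≤ L := by linarith
  have l14 : 1280 * K * (κ + K₀ / c₁) ≤ L := by linarith
  have l15 : 8 * K₀ * κ * (4 * K ^ 2 + 3) ≤ L := by linarith
  clear hL t4 t5 t8 t9 t10 t11 t12 t13 t14 t15
  have hL0 : 0 < L := by linarith
  have hL1 : 1 ≤ L := by linarith
  have ht0 : (0 : ℝ) ≤ t := Nat.cast_nonneg _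
  have hk0 : (0 : ℝ) ≤ k := Nat.cast_nonneg _
  have hkK : (k : ℝ) ≤ K₀ := by exact_mod_cast hk
  -- the logarithm
  have hl : 2 ≤ Real.log L := by
    have h1 : Real.log 16 ≤ Real.log L := Real.log_le_log (by norm_num) l16
    have h2 : Real.log 16 = 4 * Real.log 2 := by
      rw [show (16 : ℝ) = 2 ^ 4 by norm_num, Real.log_pow]; norm_num
    have h3 := Real.log_two_gt_d9
    linarith
  set l := Real.log L with hldef
  have hl0 : 0 < l := by linarith
  have hβ' : β = η * L / (4 * l) := by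
    rw [hβ]
    field_simp
  have hβ0 : 0 < β := by rw [hβ']; positivity
  have hβ2 : β ≤ η * L / 2 := by
    rw [hβ']
    refine div_le_div_of_nonneg_left (by positivity) (by norm_num) (by linarith)
  have hx0 : 0 < x := lt_of_lt_of_le (by positivity) hx
  -- the square root
  set r := √L with hr
  have hr0 : 0 < r := Real.sqrt_pos.2 hL0
  have hrr : r * r = L := Real.mul_self_sqrt hL0.le
  have hrA : 80 * A ≤ r := by
    rw [hr]
    exact Real.le_sqrt_of_sq_le l10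
  have hs3 : √(L ^ 3) = L * r := by
    rw [show L ^ 3 = L ^ 2 * L by ring, Real.sqrt_mul (by positivity), Real.sqrt_sq hL0.le]
  have htk : (t : ℝ) + k ≤ A * L := by
    have : (k : ℝ) ≤ K₀ * L := hkK.trans (le_mul_of_one_le_right hK0 hL1)
    rw [hA, add_mul, add_mul]
    linarith
  have hratio : (η * L - β) / β = 4 * l - 1 := by
    rw [hβ']
    field_simp
  have hexp : Real.exp (-((η * L - β) / β)) = Real.exp 1 / L ^ 4 := by
    rw [hratio, show -(4 * l - 1) = 1 - 4 * l by ring, Real.exp_sub]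
    congr 1
    rw [show 4 * l = l + l + l + l by ring, Real.exp_add, Real.exp_add, Real.exp_add, hldef,
      Real.exp_log hL0]
    ring
  have he3 : Real.exp 1 ≤ 3 := by
    have := Real.exp_one_lt_d9
    linarith
  have hL3 : L ^ 2 ≤ L ^ 3 := pow_le_pow_right₀ hL1 (by norm_num)
  have hL4 : L * L ≤ L ^ 4 := by
    rw [← sq]
    exact pow_le_pow_right₀ hL1 (by norm_num)
  have hηL : η * L ≤ L := mul_le_of_le_one_left hL0.le hη1
  have hηL0 : 0 ≤ η * L := by positivity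
  refine ⟨hβ0, hβ2, hx0, ?_, ?_, ?_, ?_, ?_, ?_, ?_, ?_, ?_, ?_, ?_, ?_⟩
  · -- 4
    have h1 : (t : ℝ) + k + 3 ≤ A * L := by
      have h2 : (k : ℝ) ≤ K₀ * L := hkK.trans (le_mul_of_one_le_right hK0 hL1)
      rw [hA, add_mul, add_mul]
      linarith
    calc 192 * (η * L) * ((t : ℝ) + k + 3) ≤ 192 * L * (A * L) :=
          mul_le_mul (by linarith) h1 (by positivity) (by positivity)
      _ = (192 * A) * L ^ 2 := by ring
      _ ≤ L * L ^ 2 := mul_le_mul_of_nonneg_right l4 (by positivity)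
      _ = L ^ 3 := by ring
  · -- 5
    calc 16 * (t : ℝ) ^ 2 * K ^ 2 ≤ 16 * (κ * L) ^ 2 * K ^ 2 := by gcongr
      _ = (16 * κ ^ 2 * K ^ 2) * L ^ 2 := by ring
      _ ≤ L * L ^ 2 := mul_le_mul_of_nonneg_right l5 (by positivity)
      _ = L ^ 3 := by ring
  · -- 6
    have h1 : (t : ℝ) * Real.exp 2 * C ≤ κ * L * Real.exp 2 * C := by gcongr
    have h2 : κ * L * Real.exp 2 * C ≤ η * L / 4 := by
      have := mul_le_mul_of_nonneg_right hηC hL0.le
      linarith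
    linarith
  · -- 7
    rw [hexp]
    have h1 : (16 : ℝ) ^ 4 ≤ L ^ 4 := by gcongr
    rw [div_le_div_iff₀ (by positivity) (by norm_num)]
    linarith
  · -- 8
    have h1 := Real.pow_div_factorial_le_exp (r / K₁) (by positivity) 3
    refine le_trans ht (le_trans ?_ h1)
    have h2 : 6 * κ * K₁ ^ 3 ≤ r := by
      rw [hr]
      refine Real.le_sqrt_of_sq_le ?_
      calc (6 * κ * K₁ ^ 3) ^ 2 = 36 * κ ^ 2 * K₁ ^ 6 := by ring
        _ ≤ L := l8
    have h3 : ((Nat.factorial 3 : ℕ) : ℝ) = 6 := by norm_num [Nat.factorial]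
    rw [h3, div_pow, div_div, le_div_iff₀ (by positivity)]
    calc κ * L * (K₁ ^ 3 * 6) = (6 * κ * K₁ ^ 3) * (r * r) := by rw [hrr]; ring
      _ ≤ r * (r * r) := mul_le_mul_of_nonneg_right h2 (by positivity)
      _ = r ^ 3 := by ring
  · -- 9
    have h1 : (K₀ : ℝ) ≤ c₃ * L := by
      rw [div_le_iff₀ hc₃] at l9
      linarith
    have h2 := Real.add_one_le_exp (c₃ * L)
    linarith
  · -- 10
    refine le_trans (Real.exp_le_exp.2 ?_) DTN_exp
    rw [hs3, div_le_iff₀ (by positivity)]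
    calc 8 * ((t : ℝ) + k) ≤ 8 * (A * L) := by linarith
      _ = 1 / 10 * (L * (80 * A)) := by ring
      _ ≤ 1 / 10 * (L * r) := by gcongr
  · -- 11
    calc 8 * (η * L) * K ≤ 8 * L * K := by gcongr
      _ = (8 * K) * L := by ring
      _ ≤ L * L := mul_le_mul_of_nonneg_right l11 hL0.le
      _ = L ^ 2 := by ring
      _ ≤ L ^ 3 := hL3
  · -- 12
    calc 4 * (t : ℝ) * K * (η * L) ≤ 4 * (κ * L) * K * L := by gcongr
      _ = (4 * κ * K) * L ^ 2 := by ring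
      _ ≤ L * L ^ 2 := mul_le_mul_of_nonneg_right l12 (by positivity)
      _ = L ^ 3 := by ring
  · -- 13
    have h1 : c₁ ≤ L * x := by
      have h2 : c₁ * l ≤ L * x := by
        have h3 : c₁ * l = L * (c₁ * (l / L)) := by field_simp
        rw [h3]
        exact mul_le_mul_of_nonneg_left hx hL0.le
      exact (le_mul_of_one_le_right hc₁.le (by linarith)).trans h2
    rw [div_le_iff₀ (by positivity)] at l13
    calc 8 * (k : ℝ) ^ 2 * K ^ 2 ≤ 8 * (K₀ : ℝ) ^ 2 * K ^ 2 := by gcongr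
      _ ≤ L * c₁ ^ 2 := l13
      _ ≤ L * (L * x) ^ 2 := by gcongr
      _ = L ^ 3 * x ^ 2 := by ring
  · -- 14
    have h1 : 3 * ((t : ℝ) + k) / √(L ^ 3) ≤ 1 / 16 := by
      rw [hs3, div_le_iff₀ (by positivity)]
      calc 3 * ((t : ℝ) + k) ≤ 3 * (A * L) := by linarith
        _ ≤ 1 / 16 * (L * (80 * A)) := by
            have hAL : 0 ≤ A * L := mul_nonneg (by linarith) hL0.le
            linarith
        _ ≤ 1 / 16 * (L * r) := by gcongr
    have h2 : (k : ℝ) / x ≤ K₀ / c₁ * L := by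
      rw [div_le_iff₀ hx0]
      have h3 : c₁ * l ≤ L * x := by
        have h4 : c₁ * l = L * (c₁ * (l / L)) := by field_simp
        rw [h4]
        exact mul_le_mul_of_nonneg_left hx hL0.le
      have h5 : (K₀ : ℝ) ≤ K₀ / c₁ * (c₁ * l) := by
        rw [show (K₀ : ℝ) / c₁ * (c₁ * l) = K₀ * l by field_simp]
        exact le_mul_of_one_le_right hK0 (by linarith)
      calc (k : ℝ) ≤ K₀ := hkK
        _ ≤ K₀ / c₁ * (c₁ * l) := h5
        _ ≤ K₀ / c₁ * (L * x) := by gcongr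
        _ = K₀ / c₁ * L * x := by ring
    have h3 : 80 * K * ((t : ℝ) + k / x) / L ^ 3 ≤ 1 / 16 := by
      rw [div_le_iff₀ (by positivity)]
      calc 80 * K * ((t : ℝ) + k / x) ≤ 80 * K * (κ * L + K₀ / c₁ * L) := by gcongr
        _ = 1 / 16 * ((1280 * K * (κ + K₀ / c₁)) * L) := by ring
        _ ≤ 1 / 16 * (L * L) := by gcongr
        _ = 1 / 16 * L ^ 2 := by ring
        _ ≤ 1 / 16 * L ^ 3 := by gcongr
    linarith
  · -- 15
    rw [hexp]
    have h1 : (2 * (η * L) * K / L ^ 3) ^ 2 ≤ 4 * K ^ 2 / L ^ 4 := by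
      rw [div_pow, div_le_div_iff₀ (by positivity) (by positivity)]
      calc (2 * (η * L) * K) ^ 2 * L ^ 4 ≤ (2 * L * K) ^ 2 * L ^ 4 := by gcongr
        _ = 4 * K ^ 2 * (L ^ 3) ^ 2 := by ring
    have h2 : Real.exp 1 / L ^ 4 ≤ 3 / L ^ 4 := by gcongr
    have h3 : (2 * (η * L) * K / L ^ 3) ^ 2 + Real.exp 1 / L ^ 4 ≤ (4 * K ^ 2 + 3) / L ^ 4 := by
      rw [add_div]; linarith
    have h4 : (k : ℝ) * t ≤ K₀ * (κ * L) := by gcongr
    calc 8 * ((k : ℝ) * t) * ((2 * (η * L) * K / L ^ 3) ^ 2 + Real.exp 1 / L ^ 4)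
        ≤ 8 * (K₀ * (κ * L)) * ((4 * K ^ 2 + 3) / L ^ 4) := by gcongr
      _ = (8 * K₀ * κ * (4 * K ^ 2 + 3)) * L / L ^ 4 := by ring
      _ ≤ L * L / L ^ 4 := by gcongr
      _ ≤ 1 := by
        rw [div_le_one (by positivity)]
        exact hL4

end Pool.LGR
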