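import Pool.Agent.Work.MP_b0c12c_rp.Interface

/-! # Block DTY (helper81) -/

set_option autoImplicit false

namespace Pool.LGR

open Finset Filter
open Pool.LGP Pool.LGC

theorem DTY_ev (A b : ℝ) (hb : 0 < b) (k : ℕ) :
    ∀ᶠ L : ℝ in atTop, A * L ^ k ≤ Real.exp (b * L) := by
  have h := (isLittleO_pow_exp_pos_mul_atTop k hb).def
    (c := 1 / (|A| + 1)) (by positivity)
  filter_upwards [h, eventually_ge_atTop 0] with L h1 h2
  have h3 : 0 ≤ L ^ k := pow_nonneg h2 k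
  rw [Real.norm_of_nonneg h3, Real.norm_of_nonneg (Real.exp_pos _).le, div_mul_eq_mul_div,
    one_mul, le_div_iff₀ (by positivity)] at h1
  calc A * L ^ k ≤ (|A| + 1) * L ^ k := by
        refine mul_le_mul_of_nonneg_right ?_ h3
        linarith [le_abs_self A]
    _ = L ^ k * (|A| + 1) := mul_comm _ _
    _ ≤ _ := h1

theorem DTY_primorial (N : ℕ) : (primorial N : ℝ) ≤ Real.exp (2 * N) := by
  have h1 : (primorial N : ℝ) ≤ (4 : ℝ) ^ N := by exact_mod_cast primorial_le_four_pow N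
  have h4 : (4 : ℝ) ≤ Real.exp 2 := by
    have := Real.add_one_le_exp (1 : ℝ)
    calc (4 : ℝ) = 2 * 2 := by norm_num
      _ ≤ Real.exp 1 * Real.exp 1 := by nlinarith
      _ = Real.exp 2 := by rw [← Real.exp_add]; norm_num
  calc (primorial N : ℝ) ≤ (4 : ℝ) ^ N := h1
    _ ≤ Real.exp 2 ^ N := by gcongr
    _ = Real.exp (2 * N) := by rw [← Real.exp_nat_mul]; congr 1; ring

theorem p_DTY : Stmt_DTY := by
  intro η κ κ₀ κA ε c₁ K₀ m hη hκ hκ₀ hc₁ hA hε hε1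
  have hκA : 0 < κA := by linarith
  have hε0 : 0 < ε := by linarith
  -- the two asymptotic facts
  have e1 := DTY_ev (32 * Real.exp 1 ^ 4 * ((m : ℝ) + K₀ * κ) * (1 / c₁) ^ K₀) (1 / 2)
    (by norm_num) (K₀ + 1)
  have e2 := DTY_ev (32 * Real.exp 1 ^ 4 * K₀ * (1 / c₁) ^ K₀) (ε / 2) (by linarith) K₀
  obtain ⟨L₀, hL₀⟩ := eventually_atTop.1 ((e1.and e2).and
    ((eventually_ge_atTop (max 3 c₁)).and (eventually_ge_atTop (2 / κA))))
  refine ⟨L₀, fun L x t k hL ht hk1 hk hx Y Q hY hQ => ?_⟩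
  obtain ⟨⟨f1, f2⟩, f3, f4⟩ := hL₀ L hL
  have hL3 : (3 : ℝ) ≤ L := (le_max_left _ _).trans f3
  have hLc : c₁ ≤ L := (le_max_right _ _).trans f3
  have hL0 : (0 : ℝ) < L := by linarith
  -- the lower bound for `x ^ k`
  have hlog : (1 : ℝ) ≤ Real.log L := by
    rw [Real.le_log_iff_exp_le hL0]
    have := Real.exp_one_lt_d9
    linarith
  have hx1 : c₁ / L ≤ x := by
    refine le_trans ?_ hx
    rw [div_eq_mul_one_div]
    gcongr
  have hq0 : 0 < c₁ / L := by positivity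
  have hq1 : c₁ / L ≤ 1 := by rw [div_le_one hL0]; exact hLc
  have hxk : (c₁ / L) ^ K₀ ≤ x ^ k :=
    (pow_le_pow_of_le_one hq0.le hq1 hk).trans (pow_le_pow_left₀ hq0.le hx1 k)
  have hDe : Real.exp (η * L) ^ (1 + 1 : ℝ) = Real.exp (2 * η * L) := by
    rw [← Real.exp_mul]; congr 1; ring
  have hD4 : (2 * Real.exp 1 * Real.exp (η * L) ^ (1 + 1 : ℝ)) ^ 4
      = 16 * Real.exp 1 ^ 4 * Real.exp (8 * η * L) := by
    rw [hDe, mul_pow, mul_pow, ← Real.exp_nat_mul (2 * η * L) 4]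
    have : ((4 : ℕ) : ℝ) * (2 * η * L) = 8 * η * L := by push_cast; ring
    rw [this]; norm_num
  have hE : (0 : ℝ) < Real.exp 1 := Real.exp_pos _
  have hinv : (1 / c₁) ^ K₀ * L ^ K₀ * (c₁ / L) ^ K₀ = 1 := by
    rw [← mul_pow, ← mul_pow]
    have : 1 / c₁ * L * (c₁ / L) = 1 := by field_simp
    rw [this, one_pow]
  have hkR : (k : ℝ) ≤ K₀ := by exact_mod_cast hk
  have hk0 : (1 : ℝ) ≤ k := by exact_mod_cast hk1
  have hqK : 0 < (c₁ / L) ^ K₀ := by positivity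
  have hxk0 : 0 ≤ x ^ k := hqK.le.trans hxk
  refine ⟨?_, ?_, ?_⟩
  · -- part 1
    have h1 : (primorial ⌊κ₀ * L⌋₊ : ℝ) ≤ Real.exp (2 * κ₀ * L) := by
      refine (DTY_primorial _).trans (Real.exp_le_exp.2 ?_)
      have := Nat.floor_le (a := κ₀ * L) (by positivity)
      linarith
    have h2 : Real.exp (η * L) ^ 4 = Real.exp (4 * η * L) := by
      rw [← Real.exp_nat_mul]; congr 1; push_cast; ring
    have h3 : (primorial ⌊κ₀ * L⌋₊ : ℝ) * Real.exp (η * L) ^ 4 ≤ Real.exp (κA / 2 * L) := by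
      rw [h2]
      calc (primorial ⌊κ₀ * L⌋₊ : ℝ) * Real.exp (4 * η * L)
          ≤ Real.exp (2 * κ₀ * L) * Real.exp (4 * η * L) := by gcongr
        _ = Real.exp ((4 * η + 2 * κ₀) * L) := by rw [← Real.exp_add]; congr 1; ring
        _ ≤ _ := by
          apply Real.exp_le_exp.2
          exact mul_le_mul_of_nonneg_right hA hL0.le
    have h4 : Real.exp (κA * L) = Real.exp (κA / 2 * L) * Real.exp (κA / 2 * L) := by
      rw [← Real.exp_add]; congr 1; ring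
    have h5 : (2 : ℝ) ≤ Real.exp (κA / 2 * L) := by
      have h6 : 1 ≤ κA / 2 * L := by
        rw [div_le_iff₀ hκA] at f4
        linarith
      have := Real.add_one_le_exp (κA / 2 * L)
      linarith
    nlinarith
  · -- part 2
    rw [hD4]
    have ht' : (k : ℝ) * t ≤ K₀ * κ * L := by
      calc (k : ℝ) * t ≤ K₀ * (κ * L) := by gcongr
        _ = _ := by ring
    have h1 : 2 * ((m : ℝ) + k * t) * (16 * Real.exp 1 ^ 4 * Real.exp (8 * η * L))
        ≤ 32 * Real.exp 1 ^ 4 * (((m : ℝ) + K₀ * κ) * L) * Real.exp (8 * η * L) := by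
      have h2 : (m : ℝ) + k * t ≤ ((m : ℝ) + K₀ * κ) * L := by
        have : (m : ℝ) ≤ m * L := le_mul_of_one_le_right (Nat.cast_nonneg m) (by linarith)
        nlinarith
      calc 2 * ((m : ℝ) + k * t) * (16 * Real.exp 1 ^ 4 * Real.exp (8 * η * L))
          = 32 * Real.exp 1 ^ 4 * ((m : ℝ) + k * t) * Real.exp (8 * η * L) := by ring
        _ ≤ _ := by gcongr
    have h3 : 32 * Real.exp 1 ^ 4 * (((m : ℝ) + K₀ * κ) * L)
        ≤ (c₁ / L) ^ K₀ * Real.exp (1 / 2 * L) := by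
      calc 32 * Real.exp 1 ^ 4 * (((m : ℝ) + K₀ * κ) * L)
          = 32 * Real.exp 1 ^ 4 * (((m : ℝ) + K₀ * κ) * L)
            * ((1 / c₁) ^ K₀ * L ^ K₀ * (c₁ / L) ^ K₀) := by rw [hinv, mul_one]
        _ = (c₁ / L) ^ K₀ * (32 * Real.exp 1 ^ 4 * ((m : ℝ) + K₀ * κ) * (1 / c₁) ^ K₀
            * L ^ (K₀ + 1)) := by ring
        _ ≤ _ := by gcongr
    calc 2 * ((m : ℝ) + k * t) * (16 * Real.exp 1 ^ 4 * Real.exp (8 * η * L))
        ≤ 32 * Real.exp 1 ^ 4 * (((m : ℝ) + K₀ * κ) * L) * Real.exp (8 * η * L) := h1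
      _ ≤ ((c₁ / L) ^ K₀ * Real.exp (1 / 2 * L)) * Real.exp (8 * η * L) := by gcongr
      _ = (c₁ / L) ^ K₀ * Real.exp ((1 / 2 + 8 * η) * L) := by
          rw [mul_assoc, ← Real.exp_add]; congr 2; ring
      _ ≤ x ^ k * Real.exp ((1 - 2 * κ₀) * L) := by
          have : (1 / 2 + 8 * η) * L ≤ (1 - 2 * κ₀) * L :=
            mul_le_mul_of_nonneg_right (by linarith) hL0.le
          gcongr
      _ ≤ x ^ k * Y := by
          have : 0 ≤ x ^ k := hqK.le.trans hxk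
          gcongr
  · -- part 3
    rw [hD4, le_div_iff₀ (by positivity)]
    have h3 : 32 * Real.exp 1 ^ 4 * K₀ ≤ (c₁ / L) ^ K₀ * Real.exp (ε / 2 * L) := by
      calc 32 * Real.exp 1 ^ 4 * K₀
          = 32 * Real.exp 1 ^ 4 * K₀ * ((1 / c₁) ^ K₀ * L ^ K₀ * (c₁ / L) ^ K₀) := by
            rw [hinv, mul_one]
        _ = (c₁ / L) ^ K₀ * (32 * Real.exp 1 ^ 4 * K₀ * (1 / c₁) ^ K₀ * L ^ K₀) := by ring
        _ ≤ _ := by gcongr
    calc Real.exp ((1 - ε) * L) * (2 * k * (16 * Real.exp 1 ^ 4 * Real.exp (8 * η * L)))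
        = 32 * Real.exp 1 ^ 4 * k * (Real.exp ((1 - ε) * L) * Real.exp (8 * η * L)) := by ring
      _ ≤ 32 * Real.exp 1 ^ 4 * K₀ * (Real.exp ((1 - ε) * L) * Real.exp (8 * η * L)) := by
          gcongr
      _ ≤ (c₁ / L) ^ K₀ * Real.exp (ε / 2 * L)
          * (Real.exp ((1 - ε) * L) * Real.exp (8 * η * L)) := by gcongr
      _ = (c₁ / L) ^ K₀ * Real.exp ((1 - ε / 2 + 8 * η) * L) := by
          rw [mul_assoc, ← Real.exp_add, ← Real.exp_add]; congr 2; ring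
      _ ≤ x ^ k * Real.exp ((1 - 2 * κ₀) * L) := by
          have : (1 - ε / 2 + 8 * η) * L ≤ (1 - 2 * κ₀) * L :=
            mul_le_mul_of_nonneg_right (by linarith) hL0.le
          gcongr
      _ ≤ x ^ k * Y := by
          have : 0 ≤ x ^ k := hqK.le.trans hxk
          gcongr
      _ = Y * x ^ k := mul_comm _ _

end Pool.LGR
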