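import Pool.Agent.Work.MP_b0c12c_rp.Interface

/-! # Block ERG: the error weight of all coefficients (helper39) -/

set_option autoImplicit false

namespace Pool.LGR

open Finset Filter
open Pool.LGP Pool.LGC

/-- Goodness passes to a system with fewer labels. -/
theorem ERG_good {π ι κ : Type} (S : Sys π ι) (hS : S.Good) (f : κ → ι)
    (hf : Function.Injective f) : (rst S f).Good :=
  ⟨hS.prime, hS.inj, hS.cop, fun x h h' y hh => hS.excl x (f h) (f h') y (fun h0 => hh (hf h0))⟩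

/-- The properties of a weight do not depend on the labels. -/
theorem ERG_uok {π ι κ : Type} [Fintype π] [DecidableEq π] (S : Sys π ι) (f : κ → ι)
    (u : Finset π → ℝ) (a b C K : ℝ) (h : Uok S u a b C K) : Uok (rst S f) u a b C K :=
  ⟨h.nonneg, h.empty, h.mass, h.lo, h.hi, h.le_one, h.cost, h.div⟩

theorem ERG_gg {π : Type} (v : Finset π → ℝ) (h0 : ∀ U, 0 ≤ v U) (he : v ∅ = 0)
    (U : Finset π) : |v U| ≤ |gg v U| := by
  unfold gg
  by_cases hU : U = ∅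
  · rw [if_pos hU, hU, he]
    simp
  · rw [if_neg hU, abs_neg]

theorem ERG_ga {π A : Type} [Fintype π] [Fintype A] [DecidableEq A] (S : Sys π A)
    (v : Finset π → ℝ) (h0 : ∀ U, 0 ≤ v U) (he : v ∅ = 0) (D : ℝ) (τ : π → Option A) :
    |ga S v D τ| ≤ |S.aa v D τ| := by
  unfold ga Sys.aa
  by_cases h : (S.szn τ : ℝ) ≤ D
  · rw [if_pos h, if_pos h, Finset.abs_prod, Finset.abs_prod]
    exact Finset.prod_le_prod (fun e _ => abs_nonneg _) (fun e _ => ERG_gg v h0 he _)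
  · rw [if_neg h, if_neg h]

theorem ERG_ez {π ι : Type} [Fintype π] (S : Sys π ι) (ρ : π → Option ι) : 0 ≤ S.ez ρ := by
  unfold Sys.ez
  refine Finset.prod_nonneg fun x _ => ?_
  cases ρ x with
  | none => exact zero_le_one
  | some h => exact add_nonneg (Nat.cast_nonneg _) zero_le_one

theorem p_ERG (h1 : Stmt_LRS) (h2 : Stmt_LRI) (h3 : Pool.LGP.Stmt_ERR) : Stmt_ERG := by
  intro π T A _ _ _ _ _ _ S u v a b C a' b' C' K D z s k Q R
  have hD1 : 1 < D := lt_of_lt_of_le R.b1 R.bD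
  have hL : 0 ≤ Real.log D := Real.log_nonneg hD1.le
  have hT0 : (0 : ℝ) ≤ (Fintype.card T : ℝ) := Nat.cast_nonneg _
  have hk0 : (0 : ℝ) ≤ (k : ℝ) := Nat.cast_nonneg _
  have hA : (Fintype.card A : ℝ) ≤ (k : ℝ) := by exact_mod_cast R.hk
  have h64 := R.h64
  -- the two parts
  have e1 : ∑ σ, |(rst S Sum.inl).aa u D σ| * (rst S Sum.inl).ez σ ≤
      2 * Real.exp 1 * D ^ (1 + s) := by
    refine h3 π T (rst S Sum.inl) (ERG_good S R.good Sum.inl Sum.inl_injective) u a b C K D z s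
      (ERG_uok S Sum.inl u a b C K R.uok) R.z3 R.z_le R.s0 R.a1 hD1.le R.hs ?_
    nlinarith [mul_nonneg hL hT0, mul_nonneg hL hk0]
  have e2 : ∑ τ, |(rst S Sum.inr).aa v D τ| * (rst S Sum.inr).ez τ ≤
      2 * Real.exp 1 * D ^ (1 + s) := by
    refine h3 π A (rst S Sum.inr) (ERG_good S R.good Sum.inr Sum.inr_injective) v a' b' C' K D z s
      (ERG_uok S Sum.inr v a' b' C' K R.vok) R.z3 R.z_le R.s0 R.a1' hD1.le
      (hA.trans R.hs') ?_
    nlinarith [mul_nonneg hL hT0, mul_nonneg hL hk0, mul_le_mul_of_nonneg_left hA hL]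
  have e3 : ∑ τ, |ga (rst S Sum.inr) v D τ| * (rst S Sum.inr).ez τ ≤
      2 * Real.exp 1 * D ^ (1 + s) := by
    refine le_trans (Finset.sum_le_sum fun τ _ => ?_) e2
    exact mul_le_mul_of_nonneg_right (ERG_ga _ v R.vok.nonneg R.vok.empty D τ) (ERG_ez _ τ)
  have e4 := (h2 π T A (fun σ => |(rst S Sum.inl).aa u D σ| * (rst S Sum.inl).ez σ)
    (fun τ => |ga (rst S Sum.inr) v D τ| * (rst S Sum.inr).ez τ)
    (fun σ => mul_nonneg (abs_nonneg _) (ERG_ez _ σ))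
    (fun τ => mul_nonneg (abs_nonneg _) (ERG_ez _ τ))).1
  have e5 : EE S (ab S u v D) = ∑ ρ : π → Option (T ⊕ A),
      (|(rst S Sum.inl).aa u D (lft ρ)| * (rst S Sum.inl).ez (lft ρ)) *
        (|ga (rst S Sum.inr) v D (rgt ρ)| * (rst S Sum.inr).ez (rgt ρ)) := by
    unfold EE
    refine Finset.sum_congr rfl fun ρ _ => ?_
    rw [(h1 π T A S ρ).2.1]
    unfold ab
    rw [abs_mul]
    ring
  rw [e5]
  refine e4.trans ?_
  have p1 : 0 ≤ ∑ τ, |ga (rst S Sum.inr) v D τ| * (rst S Sum.inr).ez τ :=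
    Finset.sum_nonneg fun τ _ => mul_nonneg (abs_nonneg _) (ERG_ez _ τ)
  have p2 : 0 ≤ 2 * Real.exp 1 * D ^ (1 + s) := by
    have := Real.rpow_nonneg (by linarith : (0 : ℝ) ≤ D) (1 + s)
    positivity
  calc (∑ σ, |(rst S Sum.inl).aa u D σ| * (rst S Sum.inl).ez σ) *
        ∑ τ, |ga (rst S Sum.inr) v D τ| * (rst S Sum.inr).ez τ
      ≤ (2 * Real.exp 1 * D ^ (1 + s)) * (2 * Real.exp 1 * D ^ (1 + s)) :=
        mul_le_mul e1 e3 p1 p2
    _ = _ := by ring

end Pool.LGR
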