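import Pool.Agent.Work.MP_b0c12c_rp.Interface
import Pool.Agent.Work.MP_b0c12c_chain.B_FINJ

/-! # Block FINR: the final theorem RECP (helper14, after FINJ of helper73) -/

set_option autoImplicit false

namespace Pool.LGR

open Finset Filter
open Pool.LGP Pool.LGC

/-- The real character modulo `W` attached to the exceptional character. -/
theorem FINR_chi (h : Stmt_CHY) (y : Ch) (W D₁ : ℕ) (hy0 : 0 < y.1)
    (hW : 0 < W) (hy2 : y.2 ^ 2 = 1) (hyp : y.2.IsPrimitive) (hyD : y.2 = 1 ∨ D₁ ≤ y.1) :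
    ∃ χ : DirichletCharacter ℂ W, χ ^ 2 = 1 ∧ (χ = 1 ∨ D₁ ≤ χ.conductor) ∧
      (y.2 ≠ 1 → ∀ χ' : DirichletCharacter ℂ W,
        (∀ n : ℕ, n.Coprime (W * y.1) → y.2 (n : ZMod y.1) = χ' (n : ZMod W)) →
        χ ≠ 1 ∧ χ' = χ) := by
  by_cases hy : y.2 = 1
  · exact ⟨1, one_pow 2, Or.inl rfl, fun h => absurd hy h⟩
  · obtain ⟨χ, h1, h2, h3⟩ := h y W hy0 hW hy2 hyp
    exact ⟨χ, h1, h2.imp_right (fun e => (hyD.resolve_left hy).trans e), h3⟩

/-- Eventual facts in `L = log X`. -/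
theorem FINR_L (κ₀ : ℝ) (hκ₀ : 0 < κ₀) : ∀ᶠ L : ℝ in atTop, 0 < L ∧
    (⌊κ₀ * L⌋₊ : ℝ) ≤ κ₀ * L ∧ 0 ≤ Real.log L ∧
    Real.log κ₀ + Real.log L ≤ 2 * Real.log L ∧ κ₀ * L * (2 * Real.log L) ^ 2 ≤ L ^ 2 := by
  have h := (Real.isLittleO_pow_log_id_atTop (n := 2)).bound
    (show (0 : ℝ) < 1 / (4 * κ₀) by positivity)
  filter_upwards [h, eventually_ge_atTop (1 : ℝ),
    Real.tendsto_log_atTop.eventually (eventually_ge_atTop (Real.log κ₀))] with L a1 a2 a5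
  have hL0 : 0 < L := by linarith
  refine ⟨hL0, Nat.floor_le (by positivity), Real.log_nonneg a2, by linarith, ?_⟩
  simp only [id, Real.norm_eq_abs, abs_of_nonneg hL0.le] at a1
  have a3 : Real.log L ^ 2 ≤ 1 / (4 * κ₀) * L := (le_abs_self _).trans a1
  have a4 : κ₀ * L * (2 * Real.log L) ^ 2 = (4 * κ₀ * L) * Real.log L ^ 2 := by ring
  rw [a4]
  calc (4 * κ₀ * L) * Real.log L ^ 2 ≤ (4 * κ₀ * L) * (1 / (4 * κ₀) * L) :=
        mul_le_mul_of_nonneg_left a3 (by positivity)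
    _ = L ^ 2 := by field_simp

/-- From `b` to `n = b + s`. -/
theorem FINR_core (X H s K m : ℕ) (ε ε' κf : ℝ) (a : Fin K → ℕ) (E : Finset ℕ) (hX : 1 ≤ X)
    (hε : ε' ≤ ε) (hH : 0 < H) (hs1 : H ≤ 3 * s) (hs2 : 2 * s ≤ H) (hF : 6 * (κf * ff X) ≤ H)
    (hE : ∀ h ∈ E, ∃ i, h = s + a i) :
    open Classical in
    ((Icc 0 ⌊4 * (X : ℝ)⌋₊).filter (fun b : ℕ => (X : ℝ) ≤ b ∧ ((b + H : ℕ) : ℝ) ≤ 4 * X ∧
      (∀ q ∈ Ioc b (b + H), (∃ h ∈ E, q = b + h) ∨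
        ∃ p : ℕ, p.Prime ∧ (p : ℝ) ≤ (X : ℝ) ^ ε' ∧ p ∣ q) ∧
      m ≤ (E.filter (fun h => (b + h).Prime)).card)).card ≤
    ((Icc X (4 * X)).filter (fun n =>
      m ≤ (univ.filter (fun i => (n + a i).Prime)).card ∧
      ∀ q : ℕ, |(q : ℝ) - n| ≤ κf * ff X → (∃ i, q = n + a i) ∨
        ∃ p : ℕ, p.Prime ∧ (p : ℝ) ≤ (X : ℝ) ^ ε ∧ p ∣ q)).card := by
  classical
  refine Finset.card_le_card_of_injOn (fun b => b + s) ?_ ?_
  · intro b hb
    obtain ⟨h1, h2, h3, h4⟩ := (Finset.mem_filter.1 (Finset.mem_coe.1 hb)).2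
    have h1' : X ≤ b := by exact_mod_cast h1
    have h2' : b + H ≤ 4 * X := by exact_mod_cast h2
    refine Finset.mem_coe.2 (Finset.mem_filter.2 ⟨Finset.mem_Icc.2 ⟨?_, ?_⟩, ?_, ?_⟩)
    · show X ≤ b + s
      omega
    · show b + s ≤ 4 * X
      omega
    · refine h4.trans ?_
      have h5 : E.filter (fun h => (b + h).Prime) ⊆
          (univ.filter (fun i => (b + s + a i).Prime)).image (fun i => s + a i) := by
        intro h hh
        obtain ⟨hh1, hh2⟩ := Finset.mem_filter.1 hh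
        obtain ⟨i, rfl⟩ := hE h hh1
        refine Finset.mem_image.2 ⟨i, Finset.mem_filter.2 ⟨Finset.mem_univ _, ?_⟩, rfl⟩
        rw [add_assoc]
        exact hh2
      exact (Finset.card_le_card h5).trans Finset.card_image_le
    · intro q hq
      have hq' : |(q : ℝ) - ((b : ℝ) + s)| ≤ κf * ff X := by
        have e : ((b : ℝ) + s) = ((b + s : ℕ) : ℝ) := by push_cast; rfl
        rw [e]
        exact hq
      rw [abs_le] at hq'
      have hsr : (H : ℝ) ≤ 3 * s := by exact_mod_cast hs1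
      have hsr2 : 2 * (s : ℝ) ≤ H := by exact_mod_cast hs2
      have hHr : (0 : ℝ) < H := by exact_mod_cast hH
      have q1 : (b : ℝ) < q := by linarith [hq'.1]
      have q2 : (q : ℝ) ≤ ((b + H : ℕ) : ℝ) := by push_cast; linarith [hq'.2]
      rcases h3 q (Finset.mem_Ioc.2 ⟨by exact_mod_cast q1, by exact_mod_cast q2⟩) with
        ⟨h, hh, e⟩ | ⟨p, hp1, hp2, hp3⟩
      · obtain ⟨i, rfl⟩ := hE h hh
        exact Or.inl ⟨i, by rw [e, add_assoc]⟩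
      · exact Or.inr ⟨p, hp1, hp2.trans
          (Real.rpow_le_rpow_of_exponent_le (by exact_mod_cast hX) hε), hp3⟩
  · intro b _ b' _ h
    exact Nat.add_right_cancel h

/-- The statement of RESR at `w`. -/
def FINR_RQ (C : ℝ) (K D₁ w : ℕ) : Prop :=
  ∀ H : ℕ, 4 * w ≤ H →
    (H : ℝ) ≤ w * Real.log w ^ 2 → ∀ χ : DirichletCharacter ℂ (primorial w), χ ^ 2 = 1 →
    (χ = 1 ∨ D₁ ≤ χ.conductor) → ∀ a : Fin K → ℕ, (∀ i, 6 * a i ≤ H) →
    (∀ p : ℕ, p.Prime → ∃ r : ℕ, ∀ i, ¬ a i ≡ r [MOD p]) →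
    ∃ s v : ℕ, H ≤ 3 * s ∧ 2 * s ≤ H ∧ v < primorial w ∧
      (∀ i, (v + (s + a i)).Coprime (primorial w)) ∧
      (χ ≠ 1 → K ≤ 3 * (univ.filter (fun i =>
        χ ((v + (s + a i) : ℕ) : ZMod (primorial w)) = -1)).card) ∧
      (((Icc 1 H).filter (fun h => (v + h).Coprime (primorial w))).card : ℝ) ≤
        C * (H * Real.log (Real.log w) ^ 2 /
          (Real.log w ^ 2 * Real.log (Real.log (Real.log w))))

theorem p_FINR (h1 : Stmt_SCR) (h2 : Stmt_RESR) (h3 : Stmt_CHY) (h4 : Stmt_ANF)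
    (h5 : Stmt_NUF) : Stmt_RECP := by
  intro ε hε
  obtain ⟨ε', hε'⟩ : ∃ ε' : ℝ, ε' = min ε 1 := ⟨_, rfl⟩
  have hε'0 : 0 < ε' := by rw [hε']; exact lt_min hε one_pos
  have hε'1 : ε' ≤ 1 := by rw [hε']; exact min_le_right _ _
  have hε'2 : ε' ≤ ε := by rw [hε']; exact min_le_left _ _
  obtain ⟨κA, hκA, hAN⟩ := h4 (1 / 8) (by norm_num)
  obtain ⟨κ₀, κ, Cm, hκ₀, hκ, hCm, hS⟩ := h1 κA ε' hκA hε'0 hε'1
  obtain ⟨C, hC, hR⟩ := h2
  obtain ⟨κ', hκ'def⟩ : ∃ κ' : ℝ, κ' = κ / (C * κ₀) := ⟨_, rfl⟩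
  have hκ' : 0 < κ' := by rw [hκ'def]; positivity
  obtain ⟨c₅, X₅, hc₅, hN⟩ := h5 κ₀ κ' hκ₀ hκ'
  refine ⟨c₅ / 6, Cm + 2, by positivity, by positivity, fun m K hm hK => ?_⟩
  obtain ⟨X₀, hS'⟩ := hS m hm
  have hK1 : 1 ≤ K := by
    have h : (0 : ℝ) < K := lt_of_lt_of_le (Real.exp_pos _) hK
    exact_mod_cast h
  obtain ⟨D₁, hR'0⟩ := hR K hK1
  have hR' : ∀ᶠ w : ℕ in atTop, FINR_RQ C K D₁ w := hR'0
  obtain ⟨XA, hXA⟩ := hAN D₁
  have hw := FINJ_w C κ' hC hκ'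
  have htw : Tendsto (fun L : ℝ => ⌊κ₀ * L⌋₊) atTop atTop :=
    tendsto_nat_floor_atTop.comp (Tendsto.const_mul_atTop hκ₀ tendsto_id)
  have tc : Tendsto (fun X : ℕ => (X : ℝ)) atTop atTop := tendsto_natCast_atTop_atTop
  have tl : Tendsto (fun X : ℕ => Real.log (X : ℝ)) atTop atTop :=
    Real.tendsto_log_atTop.comp tc
  have t2 := htw.comp tl
  filter_upwards [tc.eventually (eventually_ge_atTop X₀), tc.eventually (eventually_ge_atTop X₅),
    tc.eventually (eventually_ge_atTop XA), eventually_ge_atTop 1, t2.eventually hR',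
    t2.eventually hw, tl.eventually (FINR_L κ₀ hκ₀)] with X b1 b2 b3 b4 b5 b6 b7
  intro a ha hau had
  simp only [Function.comp_apply] at b5 b6
  obtain ⟨b61, b62, b63, -, b65⟩ := b6
  obtain ⟨hL0, b71, b72, b73, b74⟩ := b7
  obtain ⟨L, hLdef⟩ : ∃ L : ℝ, L = Real.log X := ⟨_, rfl⟩
  obtain ⟨w, hwdef⟩ : ∃ w : ℕ, w = ⌊κ₀ * Real.log X⌋₊ := ⟨_, rfl⟩
  have hX1 : (1 : ℝ) ≤ X := by exact_mod_cast b4
  have hNX := hN X b2 X le_rfl (by linarith)
  rw [← hwdef] at b5 b61 b62 b63 b65 b71 hNX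
  rw [← hLdef] at hL0 b71 b72 b73 b74
  obtain ⟨H, hHdef⟩ : ∃ H : ℕ, H = HH κ' w := ⟨_, rfl⟩
  rw [← hHdef] at b61 b62 b63 b65 hNX
  obtain ⟨k, hk1, hk2, hS2⟩ := hS' X b1
  obtain ⟨y, hy0, hy2, hyp, hyD, hXgood⟩ := hXA X b3
  obtain ⟨χ, hχ2, hχD, hχy⟩ := FINR_chi h3 y (primorial w) D₁ hy0 (primorial_pos w) hy2 hyp hyD
  have hF6 : 6 * (c₅ / 6 * ff X) ≤ H := by
    calc 6 * (c₅ / 6 * ff X) = c₅ * ff X := by ring
      _ ≤ H := hNX
  have ha6 : ∀ i, 6 * a i ≤ H := by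
    intro i
    have e := hau i
    have e2 : ((6 * a i : ℕ) : ℝ) ≤ H := by
      push_cast
      linarith
    exact_mod_cast e2
  obtain ⟨s, v, hs1, hs2, hv, hco, hsg, hcnt⟩ := b5 H b61 b62 χ hχ2 hχD a ha6 had
  have hw0' : (0 : ℝ) ≤ w := Nat.cast_nonneg w
  have hHr : (0 : ℝ) < H := by linarith
  have hH0 : 0 < H := by exact_mod_cast hHr
  -- the number of places
  have h3k : 3 * k ≤ K := by
    have hm1 : (1 : ℝ) ≤ m := by exact_mod_cast hm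
    have e1 : (3 : ℝ) ≤ Real.exp (2 * m) := by
      have := Real.add_one_le_exp (2 * (m : ℝ))
      linarith
    have e2 : (3 : ℝ) * k ≤ Real.exp (2 * m) * Real.exp (Cm * m) :=
      mul_le_mul e1 hk2 (Nat.cast_nonneg k) (Real.exp_pos _).le
    rw [← Real.exp_add] at e2
    have e3 : 2 * (m : ℝ) + Cm * m = (Cm + 2) * m := by ring
    rw [e3] at e2
    have e4 : ((3 * k : ℕ) : ℝ) ≤ K := by
      push_cast
      exact e2.trans hK
    exact_mod_cast e4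
  obtain ⟨I, hIk, hIs⟩ : ∃ I : Finset (Fin K), I.card = k ∧
      (χ ≠ 1 → ∀ i ∈ I, χ ((v + (s + a i) : ℕ) : ZMod (primorial w)) = -1) := by
    by_cases hχ1 : χ = 1
    · have hc : k ≤ (univ : Finset (Fin K)).card := by
        rw [Finset.card_univ, Fintype.card_fin]
        omega
      obtain ⟨I, -, hI⟩ := Finset.exists_subset_card_eq hc
      exact ⟨I, hI, fun h => absurd hχ1 h⟩
    · have hc := hsg hχ1
      obtain ⟨I, hI1, hI2⟩ := Finset.exists_subset_card_eq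
        (show k ≤ (univ.filter (fun i =>
          χ ((v + (s + a i) : ℕ) : ZMod (primorial w)) = -1)).card by omega)
      exact ⟨I, hI2, fun _ i hi => (Finset.mem_filter.1 (hI1 hi)).2⟩
  obtain ⟨E, hEdef⟩ : ∃ E : Finset ℕ, E = I.image (fun i => s + a i) := ⟨_, rfl⟩
  have hEm : ∀ h ∈ E, ∃ i ∈ I, h = s + a i := by
    intro h hh
    rw [hEdef, Finset.mem_image] at hh
    obtain ⟨i, hi, e⟩ := hh
    exact ⟨i, hi, e.symm⟩
  have hEk : E.card = k := by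
    rw [hEdef, Finset.card_image_of_injective _ (fun i j h => ha.injective
      (Nat.add_left_cancel h)), hIk]
  have hEI : E ⊆ Icc 1 H := by
    intro h hh
    obtain ⟨i, -, rfl⟩ := hEm h hh
    have := ha6 i
    rw [Finset.mem_Icc]
    omega
  have hlw0 : 0 ≤ Real.log w := by
    rcases Nat.eq_zero_or_pos w with h | h
    · rw [h]; simp
    · exact Real.log_nonneg (by exact_mod_cast h)
  have hlw : Real.log w ≤ 2 * Real.log L := by
    rcases Nat.eq_zero_or_pos w with h | h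
    · rw [h]; simp; linarith
    · have hw0 : (0 : ℝ) < w := by exact_mod_cast h
      have e1 : Real.log w ≤ Real.log (κ₀ * L) := Real.log_le_log hw0 b71
      rw [Real.log_mul hκ₀.ne' hL0.ne'] at e1
      linarith
  have hHL : (H : ℝ) ≤ Real.log X ^ 2 := by
    rw [← hLdef]
    refine b62.trans (le_trans ?_ b74)
    exact mul_le_mul b71 (pow_le_pow_left₀ hlw0 hlw 2) (by positivity) (by positivity)
  have htot : (((Icc 1 H).filter (fun h => (v + h).Coprime (primorial w))).card : ℝ) ≤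
      κ * Real.log X := by
    rw [← hLdef]
    refine hcnt.trans (b63.trans ?_)
    calc C * κ' * w ≤ C * κ' * (κ₀ * L) := mul_le_mul_of_nonneg_left b71 (by positivity)
      _ = κ * L := by rw [hκ'def]; field_simp
  have hfin := hS2 y hy0 hXgood w v H E hwdef hv hHL hEI hEk
    (fun h hh => by
      obtain ⟨i, -, rfl⟩ := hEm h hh
      exact hco i) htot
    (fun hy1 χ' hχ' h hh => by
      obtain ⟨e1, e2⟩ := hχy hy1 χ' hχ'
      obtain ⟨i, hi, rfl⟩ := hEm h hh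
      rw [e2]
      exact hIs e1 i hi)
  have hcore := FINR_core X H s K m ε ε' (c₅ / 6) a E b4 hε'2 hH0 hs1 hs2 hF6
    (fun h hh => by
      obtain ⟨i, -, e⟩ := hEm h hh
      exact ⟨i, e⟩)
  have hpow : (X : ℝ) ^ (1 - ε) ≤ (X : ℝ) ^ (1 - ε') :=
    Real.rpow_le_rpow_of_exponent_le hX1 (by linarith)
  refine hpow.trans (hfin.trans ?_)
  exact_mod_cast hcore

end Pool.LGR
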