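import Pool.Agent.Work.MP_b0c12c_rp.Interface
import Pool.Agent.Work.MP_b0c12c_chain.B_ACTX

set_option autoImplicit false

namespace Pool.LGR

open Finset Filter
open Pool.LGP Pool.LGC

theorem GLO_wt1 {π ι : Type} (S : Sys π ι) (h : ∀ x, 1 ≤ S.pr x) (U : Finset π) :
    1 ≤ S.wt U := by
  classical
  unfold Sys.wt
  induction U using Finset.induction_on with
  | empty => rw [Finset.prod_empty]
  | insert x U hx ih =>
    rw [Finset.prod_insert hx]
    have h1 : (1 : ℝ) ≤ S.pr x := by exact_mod_cast h x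
    nlinarith

theorem p_GLO (h1 : LGP.Stmt_NCO) (h2 : LGP.Stmt_WTF) : Stmt_GLO := by
  intro π T A _ _ _ _ _ _ S u v a b C a' b' C' K D z s k Q hd hcost
  classical
  have hz0 : 0 < z := by have := hd.z3; linarith
  have hv := hd.vok
  have hnn : ∀ U, 0 ≤ v U := hv.nonneg
  have hK0 := hd.K0
  have hx0 := hd.x0
  have hb0 : 0 < b' := by have := hd.b1'; linarith
  have hpr : ∀ x, 1 ≤ S.pr x := by
    intro x
    have h3 := hd.z_le x
    have h4 := hd.z3
    have : (1 : ℝ) ≤ S.pr x := by linarith
    exact_mod_cast this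
  have hwt := GLO_wt1 S hpr
  set X := vx S v with hX
  set f : Finset π → ℝ := fun U => v U ^ 2 * S.wt U / X with hf
  have hf0 : ∀ U, 0 ≤ f U := by
    intro U
    have := hwt U
    rw [hf]
    positivity
  have hf1 : ∑ U, f U = 1 := by
    rw [hf, ← Finset.sum_div]
    exact div_self hx0.ne'
  set n : ℝ := (Fintype.card A : ℝ) with hn
  have hn0 : 0 ≤ n := Nat.cast_nonneg _
  have hnk : n ≤ k := by rw [hn]; exact_mod_cast hd.hk
  -- NCO
  have hnco := h1 π A f hf0 (by rw [hf1])
  rw [hf1, one_pow, one_mul] at hnco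
  have hfx : ∀ x, (∑ U, if x ∈ U then f U else 0) ≤ K / S.pr x / X := by
    intro x
    calc (∑ U, if x ∈ U then f U else 0) ≤ (∑ U, if x ∈ U then v U else 0) / X := by
          rw [Finset.sum_div]
          refine Finset.sum_le_sum fun U _ => ?_
          split_ifs
          · rw [hf]
            refine div_le_div_of_nonneg_right ?_ hx0.le
            have e1 := hv.le_one U
            have e2 := hnn U
            calc v U ^ 2 * S.wt U = v U * (v U * S.wt U) := by ring
              _ ≤ v U * 1 := mul_le_mul_of_nonneg_left e1 e2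
              _ = v U := mul_one _
          · rw [zero_div]
      _ ≤ K / S.pr x / X := div_le_div_of_nonneg_right (hv.div x) hx0.le
  have hfx0 : ∀ x, 0 ≤ ∑ U, if x ∈ U then f U else 0 := by
    intro x
    refine Finset.sum_nonneg fun U _ => ?_
    split_ifs
    · exact hf0 U
    · exact le_rfl
  have hsq : ∑ x, (∑ U, if x ∈ U then f U else 0) ^ 2 ≤ K ^ 2 / X ^ 2 * (2 / z) := by
    calc ∑ x, (∑ U, if x ∈ U then f U else 0) ^ 2 ≤
          ∑ x, K ^ 2 / X ^ 2 * (1 / (S.pr x : ℝ) ^ 2) := by
          refine Finset.sum_le_sum fun x _ => ?_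
          calc (∑ U, if x ∈ U then f U else 0) ^ 2 ≤ (K / S.pr x / X) ^ 2 :=
                pow_le_pow_left₀ (hfx0 x) (hfx x) 2
            _ = K ^ 2 / X ^ 2 * (1 / (S.pr x : ℝ) ^ 2) := by
                rw [div_pow, div_pow]
                ring
      _ = K ^ 2 / X ^ 2 * ∑ x, 1 / (S.pr x : ℝ) ^ 2 := by rw [Finset.mul_sum]
      _ ≤ _ := mul_le_mul_of_nonneg_left hd.tau2 (by positivity)
  have h34 : 3 / 4 ≤ ∑ τ : π → Option A, ∏ e, f (fib τ e) := by
    refine le_trans ?_ hnco
    have e1 : n ^ 2 * ∑ x, (∑ U, if x ∈ U then f U else 0) ^ 2 ≤ 1 / 4 := by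
      calc n ^ 2 * ∑ x, (∑ U, if x ∈ U then f U else 0) ^ 2 ≤
            (k : ℝ) ^ 2 * (K ^ 2 / X ^ 2 * (2 / z)) :=
            mul_le_mul (pow_le_pow_left₀ hn0 hnk 2) hsq
              (Finset.sum_nonneg fun x _ => sq_nonneg _) (by positivity)
        _ ≤ 1 / 4 := by
            have e2 := hd.hnco
            rw [← hX] at e2
            have e3 : (k : ℝ) ^ 2 * (K ^ 2 / X ^ 2 * (2 / z)) =
                (8 * (k : ℝ) ^ 2 * K ^ 2) / (z * X ^ 2) / 4 := by
              field_simp
              ring
            rw [e3]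
            have e4 : (8 * (k : ℝ) ^ 2 * K ^ 2) / (z * X ^ 2) ≤ 1 := by
              rw [div_le_one (by positivity)]
              exact e2
            linarith
    linarith
  -- tail
  have hDb : 1 < D / b' := by
    rw [lt_div_iff₀ hb0, one_mul]
    exact hd.bD'
  have hlog : 0 < Real.log (D / b') := Real.log_pos hDb
  have hP0 : ∀ τ : π → Option A, 0 ≤ ∏ e, f (fib τ e) := fun τ =>
    Finset.prod_nonneg fun e _ => hf0 _
  have hlw : ∀ U, 0 ≤ Real.log (S.wt U) := fun U => Real.log_nonneg (hwt U)
  have hone : ∀ e : A, ∑ τ : π → Option A, Real.log (S.wt (fib τ e)) * ∏ e, f (fib τ e) ≤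
      C' / X := by
    intro e
    have e1 := ACTX_inj (π := π) (ι := A) (fun l U => if l = e then f U * Real.log (S.wt U) else f U)
      (by
        intro l U
        split_ifs
        · exact mul_nonneg (hf0 U) (hlw U)
        · exact hf0 U)
    have e2 : ∏ l : A, ∑ U, (if l = e then f U * Real.log (S.wt U) else f U) =
        ∑ U, f U * Real.log (S.wt U) := by
      rw [← Finset.mul_prod_erase univ _ (mem_univ e)]
      have : ∏ l ∈ univ.erase e, ∑ U, (if l = e then f U * Real.log (S.wt U) else f U) = 1 := by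
        refine Finset.prod_eq_one fun l hl => ?_
        rw [← hf1]
        refine Finset.sum_congr rfl fun U _ => ?_
        rw [if_neg (Finset.ne_of_mem_erase hl)]
      rw [this, mul_one]
      refine Finset.sum_congr rfl fun U _ => ?_
      rw [if_pos rfl]
    have e3 : ∑ τ : π → Option A, Real.log (S.wt (fib τ e)) * ∏ e, f (fib τ e) =
        ∑ τ : π → Option A, ∏ l, (if l = e then f (fib τ l) * Real.log (S.wt (fib τ l))
          else f (fib τ l)) := by
      refine Finset.sum_congr rfl fun τ _ => ?_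
      rw [← Finset.mul_prod_erase univ (fun l => f (fib τ l)) (mem_univ e),
        ← Finset.mul_prod_erase univ (fun l => if l = e then f (fib τ l) *
          Real.log (S.wt (fib τ l)) else f (fib τ l)) (mem_univ e), if_pos rfl]
      have : ∏ l ∈ univ.erase e, (if l = e then f (fib τ l) * Real.log (S.wt (fib τ l))
          else f (fib τ l)) = ∏ l ∈ univ.erase e, f (fib τ l) := by
        refine Finset.prod_congr rfl fun l hl => ?_
        rw [if_neg (Finset.ne_of_mem_erase hl)]
      rw [this]
      ring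
    rw [e3]
    refine e1.trans ?_
    rw [e2]
    have e4 : ∑ U, f U * Real.log (S.wt U) = (∑ U, v U ^ 2 * S.wt U * Real.log (S.wt U)) / X := by
      rw [Finset.sum_div]
      refine Finset.sum_congr rfl fun U _ => ?_
      rw [hf]
      ring
    rw [e4]
    exact div_le_div_of_nonneg_right hv.cost hx0.le
  have htail : ∑ τ : π → Option A, (if D / b' < ((rst S Sum.inr).szn τ : ℝ) then
      ∏ e, f (fib τ e) else 0) ≤ 1 / 4 := by
    have e1 : ∀ τ : π → Option A, (if D / b' < ((rst S Sum.inr).szn τ : ℝ) then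
        ∏ e, f (fib τ e) else 0) ≤
        (∑ e, Real.log (S.wt (fib τ e)) * ∏ e, f (fib τ e)) / Real.log (D / b') := by
      intro τ
      split_ifs with h
      · rw [le_div_iff₀ hlog, ← Finset.sum_mul, mul_comm]
        refine mul_le_mul_of_nonneg_right ?_ (hP0 τ)
        have e2 := (h2 π A (rst S Sum.inr) τ).1
        have e3 : ∏ e, (rst S Sum.inr).wt (fib τ e) = ∏ e, S.wt (fib τ e) := rfl
        rw [e3] at e2
        rw [← Real.log_prod (fun e _ => by have := hwt (fib τ e); positivity), ← e2]
        exact Real.log_le_log (by linarith) h.le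
      · refine div_nonneg ?_ hlog.le
        exact Finset.sum_nonneg fun e _ => mul_nonneg (hlw _) (hP0 τ)
    calc ∑ τ : π → Option A, (if D / b' < ((rst S Sum.inr).szn τ : ℝ) then
          ∏ e, f (fib τ e) else 0) ≤ ∑ τ : π → Option A,
          (∑ e, Real.log (S.wt (fib τ e)) * ∏ e, f (fib τ e)) / Real.log (D / b') :=
          Finset.sum_le_sum fun τ _ => e1 τ
      _ = (∑ e : A, ∑ τ : π → Option A, Real.log (S.wt (fib τ e)) * ∏ e, f (fib τ e)) /
          Real.log (D / b') := by
          rw [← Finset.sum_div, Finset.sum_comm]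
      _ ≤ (∑ _e : A, C' / X) / Real.log (D / b') :=
          div_le_div_of_nonneg_right (Finset.sum_le_sum fun e _ => hone e) hlog.le
      _ = n * (C' / X) / Real.log (D / b') := by
          rw [Finset.sum_const, nsmul_eq_mul, Finset.card_univ]
      _ ≤ 1 / 4 := by
          rw [div_le_iff₀ hlog]
          have e3 : n * (C' / X) = n * C' / X := by ring
          rw [e3, div_le_iff₀ hx0]
          linarith
  -- the main part
  have hmain : 1 / 2 ≤ ∑ τ : π → Option A, (if ((rst S Sum.inr).szn τ : ℝ) ≤ D / b' then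
      ∏ e, f (fib τ e) else 0) := by
    have e1 : ∑ τ : π → Option A, ∏ e, f (fib τ e) =
        ∑ τ : π → Option A, (if ((rst S Sum.inr).szn τ : ℝ) ≤ D / b' then
          ∏ e, f (fib τ e) else 0) + ∑ τ : π → Option A,
          (if D / b' < ((rst S Sum.inr).szn τ : ℝ) then ∏ e, f (fib τ e) else 0) := by
      rw [← Finset.sum_add_distrib]
      refine Finset.sum_congr rfl fun τ _ => ?_
      by_cases h : ((rst S Sum.inr).szn τ : ℝ) ≤ D / b'
      · rw [if_pos h, if_neg (not_lt.2 h), add_zero]
      · rw [if_neg h, if_pos (not_le.1 h), zero_add]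
    linarith
  -- multiply by `X ^ n`
  have hfin : ∑ τ : π → Option A, (if ((rst S Sum.inr).szn τ : ℝ) ≤ D / b' then
      ∏ e, v (fib τ e) ^ 2 * S.wt (fib τ e) else 0) =
      X ^ Fintype.card A * ∑ τ : π → Option A, (if ((rst S Sum.inr).szn τ : ℝ) ≤ D / b' then
        ∏ e, f (fib τ e) else 0) := by
    rw [Finset.mul_sum]
    refine Finset.sum_congr rfl fun τ _ => ?_
    split_ifs
    · rw [hf]
      dsimp only
      rw [Finset.prod_div_distrib, Finset.prod_const, Finset.card_univ, mul_div_assoc', mul_comm,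
        mul_div_assoc, div_self (pow_ne_zero _ hx0.ne'), mul_one]
    · rw [mul_zero]
  have hgoal : X ^ Fintype.card A / 2 ≤ ∑ τ : π → Option A,
      (if ((rst S Sum.inr).szn τ : ℝ) ≤ D / b' then
        ∏ e, v (fib τ e) ^ 2 * S.wt (fib τ e) else 0) := by
    rw [hfin, div_eq_mul_one_div]
    exact mul_le_mul_of_nonneg_left hmain (pow_nonneg hx0.le _)
  refine hgoal.trans (le_of_eq ?_)
  refine Finset.sum_congr rfl fun τ _ => ?_
  congr

end Pool.LGR
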