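import Pool.Agent.Work.MP_b0c12c_rp.Interface

/-! # Block GRW: greedy choice of residues -/

set_option autoImplicit false

namespace Pool.LGR

open Finset Filter
open Pool.LGP Pool.LGC

/-- the weight of `n` at the modulus `q` -/
noncomputable def GRW_w (E : Finset ℕ) (q n : ℕ) : ℝ :=
  open Classical in if ∃ e ∈ E, n ≡ e [MOD q] then 1 else 1 - 1 / (q : ℝ)

theorem GRW_w_nonneg (E : Finset ℕ) (q n : ℕ) (hq : 2 ≤ q) : 0 ≤ GRW_w E q n := by
  unfold GRW_w
  split_ifs
  · exact zero_le_one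
  · have h1 : (2 : ℝ) ≤ q := by exact_mod_cast hq
    have h2 : 1 / (q : ℝ) ≤ 1 := by
      rw [div_le_one (by linarith)]
      linarith
    linarith

/-- one step: a class avoiding `E` carries its share of the weight -/
theorem GRW_step (E A : Finset ℕ) (q : ℕ) (ω : ℕ → ℝ) (hω : ∀ n, 0 ≤ ω n) (hq : 2 ≤ q)
    (hr : ∃ r : ℕ, ∀ e ∈ E, ¬ e ≡ r [MOD q]) :
    ∃ t : ℕ, (∀ e ∈ E, ¬ e ≡ t [MOD q]) ∧
      ∑ n ∈ A.filter (fun n => ¬ n ≡ t [MOD q]), ω n ≤ ∑ n ∈ A, GRW_w E q n * ω n := by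
  classical
  have hq0 : (0 : ℝ) < q := by
    have : 0 < q := by omega
    exact_mod_cast this
  set Av := (range q).filter (fun t => ∀ e ∈ E, ¬ e ≡ t [MOD q]) with hAv
  have hne : Av.Nonempty := by
    obtain ⟨r, hr⟩ := hr
    refine ⟨r % q, ?_⟩
    rw [hAv, mem_filter, mem_range]
    refine ⟨Nat.mod_lt _ (by omega), fun e he h => hr e he (h.trans (Nat.mod_modEq r q))⟩
  set gd := A.filter (fun n => ¬ ∃ e ∈ E, n ≡ e [MOD q]) with hgd
  have hsum : ∑ t ∈ Av, ∑ n ∈ A.filter (fun n => n ≡ t [MOD q]), ω n ≥ ∑ n ∈ gd, ω n := by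
    have h1 : ∑ n ∈ gd, ω n = ∑ t ∈ Av, ∑ n ∈ gd.filter (fun n => n % q = t), ω n := by
      rw [sum_fiberwise_of_maps_to]
      intro n hn
      rw [hgd, mem_filter] at hn
      rw [hAv, mem_filter, mem_range]
      refine ⟨Nat.mod_lt _ (by omega), fun e he h => hn.2 ⟨e, he, ?_⟩⟩
      exact (h.trans (Nat.mod_modEq n q)).symm
    rw [h1]
    refine sum_le_sum fun t ht => ?_
    refine sum_le_sum_of_subset_of_nonneg ?_ fun n _ _ => hω n
    intro n hn
    rw [mem_filter] at hn ⊢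
    refine ⟨(mem_filter.1 hn.1).1, ?_⟩
    rw [← hn.2]
    exact (Nat.mod_modEq n q).symm
  obtain ⟨t, ht, ht2⟩ : ∃ t ∈ Av, (1 / (q : ℝ)) * ∑ n ∈ gd, ω n ≤
      ∑ n ∈ A.filter (fun n => n ≡ t [MOD q]), ω n := by
    by_contra hcon
    push Not at hcon
    have h1 := sum_lt_sum_of_nonempty hne hcon
    rw [sum_const, nsmul_eq_mul] at h1
    have h2 : ((Av.card : ℕ) : ℝ) ≤ q := by
      have : Av.card ≤ q := by
        refine (card_filter_le _ _).trans ?_
        rw [card_range]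
      exact_mod_cast this
    have h3 : 0 ≤ ∑ n ∈ gd, ω n := sum_nonneg fun n _ => hω n
    have h4 : (Av.card : ℝ) * (1 / (q : ℝ) * ∑ n ∈ gd, ω n) ≤ q * (1 / (q : ℝ) * ∑ n ∈ gd, ω n) := by
      refine mul_le_mul_of_nonneg_right h2 (by positivity)
    have h5 : (q : ℝ) * (1 / (q : ℝ) * ∑ n ∈ gd, ω n) = ∑ n ∈ gd, ω n := by
      field_simp
    linarith
  rw [hAv, mem_filter] at ht
  refine ⟨t, ht.2, ?_⟩
  have h1 := sum_filter_add_sum_filter_not A (fun n => n ≡ t [MOD q]) ω
  have h2 : ∑ n ∈ A, GRW_w E q n * ω n = ∑ n ∈ A, ω n - 1 / (q : ℝ) * ∑ n ∈ gd, ω n := by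
    have h3 := sum_filter_add_sum_filter_not A (fun n => ∃ e ∈ E, n ≡ e [MOD q]) ω
    have h4 := sum_filter_add_sum_filter_not A (fun n => ∃ e ∈ E, n ≡ e [MOD q])
      (fun n => GRW_w E q n * ω n)
    have h5 : ∑ n ∈ A.filter (fun n => ∃ e ∈ E, n ≡ e [MOD q]), GRW_w E q n * ω n =
        ∑ n ∈ A.filter (fun n => ∃ e ∈ E, n ≡ e [MOD q]), ω n := by
      refine sum_congr rfl fun n hn => ?_
      unfold GRW_w
      rw [if_pos (mem_filter.1 hn).2, one_mul]
    have h6 : ∑ n ∈ A.filter (fun n => ¬ ∃ e ∈ E, n ≡ e [MOD q]), GRW_w E q n * ω n =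
        (1 - 1 / (q : ℝ)) * ∑ n ∈ A.filter (fun n => ¬ ∃ e ∈ E, n ≡ e [MOD q]), ω n := by
      rw [mul_sum]
      refine sum_congr rfl fun n hn => ?_
      unfold GRW_w
      rw [if_neg (mem_filter.1 hn).2]
    rw [h5, h6] at h4
    rw [← h4, ← h3]
    ring
  linarith

theorem p_GRW : Stmt_GRW := by
  classical
  intro E A Q
  induction Q using Finset.induction_on generalizing A with
  | empty =>
    intro _
    refine ⟨fun _ => 0, by simp, ?_⟩
    simp
  | insert q Q hqQ ih =>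
    intro h
    have h2 := h q (mem_insert_self q Q)
    obtain ⟨t, ht, ht2⟩ := GRW_step E A q (fun n => ∏ q' ∈ Q, GRW_w E q' n)
      (fun n => prod_nonneg fun q' hq' => GRW_w_nonneg E q' n (h q' (mem_insert_of_mem hq')).1)
      h2.1 h2.2
    obtain ⟨r, hr, hr2⟩ := ih (A.filter (fun n => ¬ n ≡ t [MOD q]))
      (fun q' hq' => h q' (mem_insert_of_mem hq'))
    have hne : ∀ q' ∈ Q, q' ≠ q := fun q' hq' e => hqQ (e ▸ hq')
    refine ⟨Function.update r q t, ?_, ?_⟩
    · intro q' hq' e he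
      rcases mem_insert.1 hq' with rfl | hq''
      · rw [Function.update_self]
        exact ht e he
      · rw [Function.update_of_ne (hne q' hq'')]
        exact hr q' hq'' e he
    · have e1 : A.filter (fun n => ∀ q' ∈ insert q Q, ¬ n ≡ Function.update r q t q' [MOD q']) =
          (A.filter (fun n => ¬ n ≡ t [MOD q])).filter (fun n => ∀ q' ∈ Q, ¬ n ≡ r q' [MOD q']) := by
        ext n
        simp only [mem_filter]
        constructor
        · rintro ⟨h1, h3⟩
          refine ⟨⟨h1, ?_⟩, fun q' hq' => ?_⟩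
          · have := h3 q (mem_insert_self q Q)
            rwa [Function.update_self] at this
          · have := h3 q' (mem_insert_of_mem hq')
            rwa [Function.update_of_ne (hne q' hq')] at this
        · rintro ⟨⟨h1, h3⟩, h4⟩
          refine ⟨h1, fun q' hq' => ?_⟩
          rcases mem_insert.1 hq' with rfl | hq''
          · rw [Function.update_self]
            exact h3
          · rw [Function.update_of_ne (hne q' hq'')]
            exact h4 q' hq''
      have e2 : ∀ n, (∏ q' ∈ insert q Q, (open Classical in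
          if ∃ e ∈ E, n ≡ e [MOD q'] then (1 : ℝ) else 1 - 1 / (q' : ℝ))) =
          GRW_w E q n * ∏ q' ∈ Q, GRW_w E q' n := by
        intro n
        rw [prod_insert hqQ]
        rfl
      rw [e1, sum_congr rfl fun n _ => e2 n]
      refine hr2.trans ?_
      exact ht2

end Pool.LGR
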