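import Pool.Agent.Work.MP_b0c12c_rp.Interface

/-! Block KIL (helper51): mass of the rough values of a label of `T`. -/

set_option autoImplicit false

namespace Pool.LGR

open Finset Filter
open Pool.LGP Pool.LGC

theorem KIL_uok {π ι κ : Type} [Fintype π] [DecidableEq π] (S : Sys π ι) (f : κ → ι)
    (u : Finset π → ℝ) (a b C K : ℝ) (h : Uok S u a b C K) : Uok (rst S f) u a b C K :=
  ⟨h.nonneg, h.empty, h.mass, h.lo, h.hi, h.le_one, h.cost, h.div⟩

/-- The bound for the main mass of the pushed coefficients. -/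
theorem KIL_mass (hLRS : Stmt_LRS) (hLRI : Stmt_LRI) (hPSB : Stmt_PSB)
    (hWTF : LGP.Stmt_WTF) (hINJ : LGP.Stmt_INJ) (hTAI : LGP.Stmt_TAI) (hQSM : LGP.Stmt_QSM)
    (π T A : Type) [Fintype π] [DecidableEq π] [Fintype T] [DecidableEq T] [Fintype A]
    [DecidableEq A] (S : Sys π (T ⊕ A)) (u v : Finset π → ℝ) (a b C a' b' C' K D z s : ℝ)
    (k Q : ℕ) (hd : RDat S u v a b C a' b' C' K D z s k Q) (h : T) :
    ∑ σ, push (Sum.inl h) (ab S u v D) σ ^ 2 * S.szn σ ≤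
      2 * ((2 * Real.log D * K / z) ^ 2 + Real.exp (-(Real.log (D / b) / Real.log b))) *
        (S.Q1 u ^ Fintype.card T * vx S v ^ Fintype.card A) := by
  classical
  have hb0 : 0 < b := lt_trans one_pos hd.b1
  have hpos : ∀ x, 0 < (rst S (Sum.inl : T → T ⊕ A)).pr x := by
    intro x
    have h1 := hd.z_le x
    have h3 := hd.z3
    have h2 : (0 : ℝ) < S.pr x := by linarith
    exact_mod_cast h2
  have hU : Uok (rst S (Sum.inl : T → T ⊕ A)) u a b C K := KIL_uok S _ u a b C K hd.uok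
  obtain ⟨q1, q2, q3⟩ := hQSM π T (rst S (Sum.inl : T → T ⊕ A)) u a b C K hU hpos
  have hDb : 1 ≤ D / b := by rw [le_div_iff₀ hb0]; linarith [hd.bD]
  have hhC : (Fintype.card T : ℝ) * Real.exp 2 * C ≤ Real.log (D / b) / 2 := hd.hC
  have htai := hTAI π T (rst S (Sum.inl : T → T ⊕ A)) u a b C K (D / b) hU hpos hd.b1 hDb
    hd.C0 hhC
  have hinj := hINJ π T (fun U => (rst S (Sum.inl : T → T ⊕ A)).qq u U) q1
  have hwt : ∀ U : Finset π, 0 ≤ S.wt U := fun U => Finset.prod_nonneg fun x _ => Nat.cast_nonneg _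
  have hinjA := hINJ π A (fun U => v U ^ 2 * S.wt U) (fun U => mul_nonneg (sq_nonneg _) (hwt U))
  set δ := 2 * Real.log D * K / z with hδ
  set E := Real.exp (-(Real.log (D / b) / Real.log b)) with hE
  set R := rst S (Sum.inl : T → T ⊕ A) with hR
  set RA := rst S (Sum.inr : A → T ⊕ A) with hRA
  let f : (π → Option T) → ℝ := fun σ => 2 * δ ^ 2 * ∏ t, R.qq u (fib σ t) +
    2 * (open Classical in if D / b < R.szn σ then ∏ t, R.qq u (fib σ t) else 0)
  let g : (π → Option A) → ℝ := fun τ => ∏ e, (v (fib τ e) ^ 2 * S.wt (fib τ e))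
  have hpn : ∀ σ : π → Option T, 0 ≤ ∏ t, R.qq u (fib σ t) :=
    fun σ => Finset.prod_nonneg fun t _ => q1 _
  have hf : ∀ σ, 0 ≤ f σ := by
    intro σ
    have h1 := hpn σ
    change 0 ≤ 2 * δ ^ 2 * ∏ t, R.qq u (fib σ t) +
      2 * (open Classical in if D / b < R.szn σ then ∏ t, R.qq u (fib σ t) else 0)
    split_ifs
    · positivity
    · positivity
  have hg : ∀ τ, 0 ≤ g τ := fun τ =>
    Finset.prod_nonneg fun e _ => mul_nonneg (sq_nonneg _) (hwt _)
  have hfs : ∑ σ, f σ ≤ 2 * (δ ^ 2 + E) * S.Q1 u ^ Fintype.card T := by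
    have h1 : ∑ σ, f σ = 2 * δ ^ 2 * ∑ σ : π → Option T, ∏ t, R.qq u (fib σ t) +
        2 * ∑ σ : π → Option T,
          (open Classical in if D / b < R.szn σ then ∏ t, R.qq u (fib σ t) else 0) := by
      rw [Finset.mul_sum, Finset.mul_sum, ← Finset.sum_add_distrib]
    have h2 : (∑ σ : π → Option T, ∏ t, R.qq u (fib σ t)) ≤ S.Q1 u ^ Fintype.card T := hinj
    have h3 : (∑ σ : π → Option T,
        (open Classical in if D / b < R.szn σ then ∏ t, R.qq u (fib σ t) else 0)) ≤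
        E * S.Q1 u ^ Fintype.card T := htai
    rw [h1]
    have h4 : 0 ≤ 2 * δ ^ 2 := by positivity
    have h5 := mul_le_mul_of_nonneg_left h2 h4
    linarith
  have hgs : ∑ τ, g τ ≤ vx S v ^ Fintype.card A := hinjA
  have hpt : ∀ σ : π → Option (T ⊕ A), push (Sum.inl h) (ab S u v D) σ ^ 2 * S.szn σ ≤
      f (lft σ) * g (rgt σ) := by
    intro σ
    obtain ⟨l1, -, -, l4, l5, -⟩ := hLRS π T A S σ
    have h3 := (hPSB π T A S u v a b C a' b' C' K D z s k Q hd h σ).1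
    have h2 := (hWTF π T R (lft σ)).2 u
    have h2' := (hWTF π A RA (rgt σ)).1
    have hgeq : (∏ e, v (fib (rgt σ) e)) ^ 2 * (RA.szn (rgt σ) : ℝ) = g (rgt σ) := by
      change _ = ∏ e, (v (fib (rgt σ) e) ^ 2 * S.wt (fib (rgt σ) e))
      rw [Finset.prod_mul_distrib, Finset.prod_pow, h2']
      rfl
    have hszn : (S.szn σ : ℝ) = (R.szn (lft σ) : ℝ) * (RA.szn (rgt σ) : ℝ) := by
      rw [l1]; push_cast; rfl
    have h7 : (δ + open Classical in if D / b < R.szn (lft σ) then (1 : ℝ) else 0) ^ 2 ≤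
        2 * δ ^ 2 + 2 * (open Classical in if D / b < R.szn (lft σ) then (1 : ℝ) else 0) := by
      split_ifs
      · nlinarith [sq_nonneg (δ - 1)]
      · nlinarith [sq_nonneg δ]
    have h5 : push (Sum.inl h) (ab S u v D) σ ^ 2 ≤ ((∏ t, |gg u (fib (lft σ) t)|) *
        |∏ e, v (fib (rgt σ) e)| *
        (δ + open Classical in if D / b < R.szn (lft σ) then 1 else 0)) ^ 2 := by
      rw [← sq_abs]
      exact pow_le_pow_left₀ (abs_nonneg _) h3 2
    have h6 : (∏ t, |gg u (fib (lft σ) t)|) ^ 2 = (∏ t, gg u (fib (lft σ) t)) ^ 2 := by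
      rw [← Finset.abs_prod, sq_abs]
    have h4 : 0 ≤ (S.szn σ : ℝ) := Nat.cast_nonneg _
    have hpe := hpn (lft σ)
    calc push (Sum.inl h) (ab S u v D) σ ^ 2 * S.szn σ
        ≤ ((∏ t, |gg u (fib (lft σ) t)|) * |∏ e, v (fib (rgt σ) e)| *
          (δ + open Classical in if D / b < R.szn (lft σ) then 1 else 0)) ^ 2 * S.szn σ :=
          mul_le_mul_of_nonneg_right h5 h4
      _ = ((∏ t, R.qq u (fib (lft σ) t)) *
          (δ + open Classical in if D / b < R.szn (lft σ) then 1 else 0) ^ 2) * g (rgt σ) := by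
          rw [mul_pow, mul_pow, h6, sq_abs, hszn, ← h2, ← hgeq]; ring
      _ ≤ ((∏ t, R.qq u (fib (lft σ) t)) * (2 * δ ^ 2 + 2 *
          (open Classical in if D / b < R.szn (lft σ) then (1 : ℝ) else 0))) * g (rgt σ) :=
          mul_le_mul_of_nonneg_right (mul_le_mul_of_nonneg_left h7 hpe) (hg _)
      _ = f (lft σ) * g (rgt σ) := by
          congr 1
          change _ = 2 * δ ^ 2 * ∏ t, R.qq u (fib (lft σ) t) +
            2 * (open Classical in if D / b < R.szn (lft σ) then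
              ∏ t, R.qq u (fib (lft σ) t) else 0)
          split_ifs <;> ring
  have hcard : 0 ≤ 2 * (δ ^ 2 + E) * S.Q1 u ^ Fintype.card T := by
    have : 0 ≤ E := (Real.exp_pos _).le
    have h1 : (1 : ℝ) ≤ S.Q1 u := q2
    positivity
  calc ∑ σ, push (Sum.inl h) (ab S u v D) σ ^ 2 * S.szn σ
      ≤ ∑ σ : π → Option (T ⊕ A), f (lft σ) * g (rgt σ) := Finset.sum_le_sum fun σ _ => hpt σ
    _ ≤ (∑ σ, f σ) * ∑ τ, g τ := (hLRI π T A f g hf hg).1
    _ ≤ (2 * (δ ^ 2 + E) * S.Q1 u ^ Fintype.card T) * vx S v ^ Fintype.card A :=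
        mul_le_mul hfs hgs (Finset.sum_nonneg fun τ _ => hg τ) hcard
    _ = 2 * (δ ^ 2 + E) * (S.Q1 u ^ Fintype.card T * vx S v ^ Fintype.card A) := by ring

theorem p_KIL (hLRS : Stmt_LRS) (hLRI : Stmt_LRI) (hMFL : Stmt_MFL) (hPSB : Stmt_PSB)
    (hL2 : LGP.Stmt_L2) (hRGH : LGP.Stmt_RGH) (hPEZ : LGP.Stmt_PEZ) (hWTF : LGP.Stmt_WTF)
    (hINJ : LGP.Stmt_INJ) (hTAI : LGP.Stmt_TAI) (hQSM : LGP.Stmt_QSM) : Stmt_KIL := by
  intro π T A _ _ _ _ _ _ S u v a b C a' b' C' K D z s k Q hd h Y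
  classical
  have hlog : 0 ≤ Real.log D := Real.log_nonneg (by linarith [hd.b1, hd.bD])
  -- support of the pushed coefficients
  have hsup : ∀ ρ, push (Sum.inl h) (ab S u v D) ρ ≠ 0 →
      8 * (act ρ : ℝ) * ((Fintype.card (T ⊕ A) : ℕ) + 1) ≤ z := by
    intro ρ hρ
    have h1 := (hPSB π T A S u v a b C a' b' C' K D z s k Q hd h ρ).2 hρ
    have h2 : ((Fintype.card (T ⊕ A) : ℕ) : ℝ) ≤ Fintype.card T + k := by
      rw [Fintype.card_sum]; push_cast
      have : (Fintype.card A : ℝ) ≤ k := by exact_mod_cast hd.hk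
      linarith
    have h3 : (0 : ℝ) ≤ Fintype.card T := Nat.cast_nonneg _
    have h4 : (0 : ℝ) ≤ k := Nat.cast_nonneg _
    have h5 : (0 : ℝ) ≤ (act ρ : ℝ) := Nat.cast_nonneg _
    have h6 : (0 : ℝ) ≤ ((Fintype.card (T ⊕ A) : ℕ) : ℝ) := Nat.cast_nonneg _
    calc 8 * (act ρ : ℝ) * ((Fintype.card (T ⊕ A) : ℕ) + 1)
        ≤ 8 * (2 * Real.log D) * (Fintype.card T + k + 1) := by
          apply mul_le_mul (by linarith) (by linarith) (by linarith) (by positivity)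
      _ ≤ 192 * Real.log D * (Fintype.card T + k + 3) := by nlinarith
      _ ≤ z := hd.h64
  have hl2 := (hL2 π (T ⊕ A) S hd.good z hd.z3 hd.z_le
    (push (Sum.inl h) (ab S u v D)) hsup Y).1
  have hmass := KIL_mass hLRS hLRI hPSB hWTF hINJ hTAI hQSM π T A S u v a b C a' b' C' K D z s k Q
    hd h
  have hmf := (hMFL π T A S u v a b C a' b' C' K D z s k Q hd).1
  have hpez := hPEZ π (T ⊕ A) S (ab S u v D) (Sum.inl h)
  have hez : ∀ ρ, 0 ≤ S.ez ρ := by
    intro ρ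
    refine Finset.prod_nonneg fun x _ => ?_
    cases ρ x with
    | none => exact zero_le_one
    | some _ => exact add_nonneg (Nat.cast_nonneg _) zero_le_one
  have hEE : (∑ ρ, |push (Sum.inl h) (ab S u v D) ρ| * S.ez ρ) ^ 2 ≤ EE S (ab S u v D) ^ 2 :=
    pow_le_pow_left₀ (Finset.sum_nonneg fun ρ _ => mul_nonneg (abs_nonneg _) (hez ρ)) hpez 2
  -- the rough values
  have hstep : ∑ y ∈ Ioc Y (2 * Y), (open Classical in
      if ∀ x, ¬ S.pr x ∣ S.N (Sum.inl h) y then FF S (ab S u v D) y ^ 2 else 0) ≤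
      ∑ y ∈ Ioc Y (2 * Y), (∑ ρ, push (Sum.inl h) (ab S u v D) ρ * S.psi ρ y) ^ 2 := by
    refine Finset.sum_le_sum fun y _ => ?_
    split_ifs with hy
    · have h1 := hRGH π (T ⊕ A) S (ab S u v D) (Sum.inl h) y hy
      have h2 : FF S (ab S u v D) y = ∑ ρ, push (Sum.inl h) (ab S u v D) ρ * S.psi ρ y := h1
      rw [h2]
    · exact sq_nonneg _
  set δ := (2 * Real.log D * K / z) ^ 2 + Real.exp (-(Real.log (D / b) / Real.log b)) with hδ
  have hδ0 : 0 ≤ δ := by positivity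
  have hx0 : 0 ≤ vx S v ^ Fintype.card A := pow_nonneg hd.x0.le _
  have hY : (0 : ℝ) ≤ Y := Nat.cast_nonneg _
  have h9 : S.Q1 u ^ Fintype.card T ≤ 2 * MF S u D := by linarith
  have h10 : 2 * δ * (S.Q1 u ^ Fintype.card T * vx S v ^ Fintype.card A) ≤
      4 * δ * (MF S u D * vx S v ^ Fintype.card A) := by
    have h11 := mul_le_mul_of_nonneg_right h9 hx0
    have h12 := mul_le_mul_of_nonneg_left h11 (by linarith : 0 ≤ 2 * δ)
    nlinarith
  have h13 : 2 * (Y : ℝ) * ∑ ρ, push (Sum.inl h) (ab S u v D) ρ ^ 2 * S.szn ρ ≤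
      2 * Y * (4 * δ * (MF S u D * vx S v ^ Fintype.card A)) :=
    mul_le_mul_of_nonneg_left (hmass.trans h10) (by positivity)
  calc _ ≤ ∑ y ∈ Ioc Y (2 * Y), (∑ ρ, push (Sum.inl h) (ab S u v D) ρ * S.psi ρ y) ^ 2 := hstep
    _ ≤ 2 * Y * ∑ ρ, push (Sum.inl h) (ab S u v D) ρ ^ 2 * S.szn ρ +
        (∑ ρ, |push (Sum.inl h) (ab S u v D) ρ| * S.ez ρ) ^ 2 := hl2
    _ ≤ 2 * Y * (4 * δ * (MF S u D * vx S v ^ Fintype.card A)) + EE S (ab S u v D) ^ 2 := by
        linarith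
    _ = 8 * Y * δ * (MF S u D * vx S v ^ Fintype.card A) + EE S (ab S u v D) ^ 2 := by ring

end Pool.LGR
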