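import Pool.Agent.Work.MP_b0c12c_rp.Interface

set_option autoImplicit false
set_option linter.unusedSectionVars false

namespace Pool.LGR

open Finset Filter
open Pool.LGP Pool.LGC

variable {π T A : Type}

/-- The configuration with the given parts. -/
def LRI_mk (σ : π → Option T) (τ : π → Option A) : π → Option (T ⊕ A) :=
  fun x => match σ x with
    | some h => some (Sum.inl h)
    | none => (τ x).map Sum.inr

theorem LRI_mk_parts (ρ : π → Option (T ⊕ A)) : LRI_mk (lft ρ) (rgt ρ) = ρ := by
  funext x
  unfold LRI_mk lft rgt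
  rcases ρ x with _ | (h | j) <;> rfl

theorem LRI_disj (ρ : π → Option (T ⊕ A)) (x : π) : lft ρ x = none ∨ rgt ρ x = none := by
  unfold lft rgt
  rcases ρ x with _ | (h | j)
  · exact Or.inl rfl
  · exact Or.inr rfl
  · exact Or.inl rfl

theorem LRI_lft {σ : π → Option T} {τ : π → Option A} (h : ∀ x, σ x = none ∨ τ x = none) :
    lft (LRI_mk σ τ) = σ := by
  funext x
  have hx := h x
  unfold lft LRI_mk
  rcases h1 : σ x with _ | a
  · rcases h2 : τ x with _ | b <;> rfl
  · rfl

theorem LRI_rgt {σ : π → Option T} {τ : π → Option A} (h : ∀ x, σ x = none ∨ τ x = none) :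
    rgt (LRI_mk σ τ) = τ := by
  funext x
  have hx := h x
  unfold rgt LRI_mk
  rcases h1 : σ x with _ | a
  · rcases h2 : τ x with _ | b <;> rfl
  · rw [h1] at hx
    rcases hx with hx | hx
    · exact absurd hx (by simp)
    · rw [hx]; rfl

/-- Configurations are pairs of configurations with disjoint supports. -/
theorem LRI_pairs [Fintype π] [DecidableEq π] [Fintype T] [Fintype A]
    (F : (π → Option T) → (π → Option A) → ℝ) :
    ∑ ρ : π → Option (T ⊕ A), F (lft ρ) (rgt ρ) =
      ∑ τ : π → Option A, ∑ σ : π → Option T,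
        open Classical in if ∀ x, σ x = none ∨ τ x = none then F σ τ else 0 := by
  classical
  rw [← Finset.sum_product', ← Finset.sum_filter]
  refine Finset.sum_bij' (fun ρ _ => (rgt ρ, lft ρ)) (fun p _ => LRI_mk p.2 p.1) ?_ ?_ ?_ ?_ ?_
  · intro ρ _
    rw [Finset.mem_filter]
    exact ⟨Finset.mem_product.2 ⟨Finset.mem_univ _, Finset.mem_univ _⟩, LRI_disj ρ⟩
  · intro p _
    exact Finset.mem_univ _
  · intro ρ _
    exact LRI_mk_parts ρ
  · intro p hp
    rw [Finset.mem_filter] at hp
    exact Prod.ext (LRI_rgt hp.2) (LRI_lft hp.2)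
  · intro ρ _
    rfl

theorem p_LRI : Stmt_LRI := by
  intro π T A _ _ _ _ f g hf hg
  classical
  rw [LRI_pairs fun σ τ => f σ * g τ]
  constructor
  · calc ∑ τ : π → Option A, ∑ σ : π → Option T,
          (if ∀ x, σ x = none ∨ τ x = none then f σ * g τ else 0) ≤
          ∑ τ : π → Option A, ∑ σ : π → Option T, f σ * g τ := by
          refine Finset.sum_le_sum fun τ _ => Finset.sum_le_sum fun σ _ => ?_
          split_ifs
          · exact le_rfl
          · exact mul_nonneg (hf σ) (hg τ)
      _ = (∑ σ, f σ) * ∑ τ, g τ := by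
          rw [Finset.mul_sum]
          refine Finset.sum_congr rfl fun τ _ => ?_
          rw [Finset.sum_mul]
  · refine Finset.sum_le_sum fun τ _ => ?_
    have e1 : ∑ σ : π → Option T, (if ∀ x, σ x = none ∨ τ x = none then f σ * g τ else 0) =
        g τ * ∑ σ : π → Option T, (if ∀ x, σ x = none ∨ τ x = none then f σ else 0) := by
      rw [Finset.mul_sum]
      refine Finset.sum_congr rfl fun σ _ => ?_
      split_ifs
      · exact mul_comm _ _
      · rw [mul_zero]
    rw [e1]
    refine mul_le_mul_of_nonneg_left ?_ (hg τ)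
    have hx0 : ∀ (x : π) (σ : π → Option T), 0 ≤ (if σ x = none then 0 else f σ) := by
      intro x σ
      split_ifs
      · exact le_rfl
      · exact hf σ
    have e2 : ∑ x, (if τ x = none then 0 else ∑ σ : π → Option T,
        (if σ x = none then 0 else f σ)) =
        ∑ σ : π → Option T, ∑ x, (if τ x = none then 0 else (if σ x = none then 0 else f σ)) := by
      rw [Finset.sum_comm]
      refine Finset.sum_congr rfl fun x _ => ?_
      split_ifs with h
      · rw [Finset.sum_const_zero]
      · rfl
    rw [e2, ← Finset.sum_sub_distrib]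
    refine Finset.sum_le_sum fun σ _ => ?_
    have hnn : ∀ x, 0 ≤ (if τ x = none then 0 else (if σ x = none then 0 else f σ)) := by
      intro x
      split_ifs
      · exact le_rfl
      · exact le_rfl
      · exact hf σ
    have hs : 0 ≤ ∑ x, (if τ x = none then 0 else (if σ x = none then 0 else f σ)) :=
      Finset.sum_nonneg fun x _ => hnn x
    split_ifs with h
    · linarith
    · rw [not_forall] at h
      obtain ⟨x, hx⟩ := h
      rw [not_or] at hx
      have h1 := Finset.single_le_sum (f := fun x => if τ x = none then 0 else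
        (if σ x = none then 0 else f σ)) (fun x _ => hnn x) (mem_univ x)
      rw [if_neg hx.2, if_neg hx.1] at h1
      linarith

end Pool.LGR
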