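import Pool.Agent.Work.MP_b0c12c_rp.Interface

set_option autoImplicit false

namespace Pool.LGR

open Finset Filter
open Pool.LGP Pool.LGC

theorem p_LRS : Stmt_LRS := by
  intro π T A _ _ _ S ρ
  refine ⟨?_, ?_, ?_, ?_, ?_, ?_⟩
  · unfold Sys.szn
    rw [← Finset.prod_mul_distrib]
    refine Finset.prod_congr rfl fun x _ => ?_
    unfold lft rgt
    rcases ρ x with _ | (h | j)
    · rfl
    · exact (Nat.mul_one _).symm
    · exact (Nat.one_mul _).symm
  · unfold Sys.ez
    rw [← Finset.prod_mul_distrib]
    refine Finset.prod_congr rfl fun x _ => ?_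
    unfold lft rgt
    rcases ρ x with _ | (h | j)
    · exact (mul_one _).symm
    · exact (mul_one _).symm
    · exact (one_mul _).symm
  · unfold act
    rw [← Finset.sum_add_distrib]
    refine Finset.sum_congr rfl fun x _ => ?_
    unfold lft rgt
    rcases ρ x with _ | (h | j)
    · rfl
    · rfl
    · rfl
  · intro t
    unfold fib lft
    refine Finset.filter_congr fun x _ => ?_
    rcases ρ x with _ | (h | j)
    · simp [ol]
    · simp [ol]
    · simp [ol]
  · intro t
    unfold fib rgt
    refine Finset.filter_congr fun x _ => ?_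
    rcases ρ x with _ | (h | j)
    · simp [oR]
    · simp [oR]
    · simp [oR]
  · intro x
    unfold lft rgt
    rcases ρ x with _ | (h | j)
    · simp [ol, oR]
    · simp [ol, oR]
    · simp [ol, oR]

end Pool.LGR
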