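import Pool.Agent.Work.MP_b0c12c_rp.Interface

/-! Block MEB: lower bound for the mass of the coefficients `bb`. -/

set_option autoImplicit false

namespace Pool.LGR

open Finset Filter
open Pool.LGP Pool.LGC

theorem MEB_good {π T A : Type} {S : Sys π (T ⊕ A)} (h : S.Good) :
    (rst S (Sum.inl : T → T ⊕ A)).Good :=
  ⟨h.prime, h.inj, h.cop, fun x _ _ y hne h1 h2 =>
    h.excl x _ _ y (fun e => hne (Sum.inl.inj e)) h1 h2⟩

theorem MEB_uok {π T A : Type} [Fintype π] [DecidableEq π] {S : Sys π (T ⊕ A)}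
    {u : Finset π → ℝ} {a b C K : ℝ} (h : Uok S u a b C K) :
    Uok (rst S (Sum.inl : T → T ⊕ A)) u a b C K :=
  ⟨h.nonneg, h.empty, h.mass, h.lo, h.hi, h.le_one, h.cost, h.div⟩

theorem p_MEB (h1 : Stmt_LRS) (h2 : Stmt_LRI) (h3 : Stmt_CVB) (h4 : Stmt_GLO) (h5 : Stmt_RAC)
    (h6 : LGP.Stmt_ACT) (h7 : LGP.Stmt_WTF) : Stmt_MEB := by
  intro π T A _ _ _ _ _ _ S u v a b C a' b' C' K D z s k Q hd hG
  classical
  set SL := rst S (Sum.inl : T → T ⊕ A) with hSL
  set SR := rst S (Sum.inr : A → T ⊕ A) with hSR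
  have hz : 0 < z := by linarith [hd.z3]
  have hpr3 : ∀ x, (3 : ℝ) ≤ S.pr x := fun x => le_trans hd.z3 (hd.z_le x)
  have hb0 : 0 < b := by linarith [hd.b1]
  have hb0' : 0 < b' := by linarith [hd.b1']
  have hD : 1 ≤ D := by linarith [hd.b1, hd.bD]
  have hlD : 0 ≤ Real.log D := Real.log_nonneg hD
  have hlb := Real.log_pos hd.b1
  have hlogb : Real.log (D / b) ≤ Real.log D := by
    rw [Real.log_div (by linarith) hb0.ne']
    linarith
  have hR := h5 π T SL (MEB_good hd.good) u a b C K D z (MEB_uok hd.uok) hd.z3 hd.z_le hd.K0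
    hd.C0 hd.b1 hD (by linarith [hd.hC])
    (le_trans (Real.exp_le_exp.2 (neg_le_neg (div_le_div_of_nonneg_right hlogb hlb.le))) hd.hexp)
    hd.hK
  have hM : MF S u D = ∑ σ, SL.aa u D σ ^ 2 * SL.szn σ := rfl
  have hM0 : 0 ≤ MF S u D := by
    rw [hM]
    exact sum_nonneg fun _ _ => by positivity
  set f : (π → Option T) → ℝ := fun σ => SL.aa u D σ ^ 2 * SL.szn σ with hf
  set g : (π → Option A) → ℝ := fun τ =>
    if (SR.szn τ : ℝ) ≤ D / b' then ∏ e, v (fib τ e) ^ 2 * S.wt (fib τ e) else 0 with hg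
  have hf0 : ∀ σ, 0 ≤ f σ := fun σ => by
    simp only [hf]
    positivity
  have hwt0 : ∀ U, 0 ≤ S.wt U := fun U => prod_nonneg fun _ _ => Nat.cast_nonneg _
  have hg0 : ∀ τ, 0 ≤ g τ := by
    intro τ
    simp only [hg]
    split_ifs
    · exact prod_nonneg fun e _ => mul_nonneg (sq_nonneg _) (hwt0 _)
    · exact le_rfl
  have hL := (h2 π T A f g hf0 hg0).2
  have hGl : vx S v ^ Fintype.card A / 2 ≤ ∑ τ, g τ := by
    refine le_trans (h4 π T A S u v a b C a' b' C' K D z s k Q hd hG) (le_of_eq ?_)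
    refine sum_congr rfl fun τ _ => ?_
    simp only [hg]
    congr
  have hpt : ∀ ρ : π → Option (T ⊕ A), 9 / 16 * (f (lft ρ) * g (rgt ρ)) ≤
      bb S u v D ρ ^ 2 * S.szn ρ := by
    intro ρ
    have hr : 0 ≤ bb S u v D ρ ^ 2 * (S.szn ρ : ℝ) := by positivity
    by_cases ha : SL.aa u D (lft ρ) = 0
    · have : f (lft ρ) = 0 := by
        simp only [hf, ha]
        ring
      rw [this]
      simpa using hr
    by_cases hgr : (SR.szn (rgt ρ) : ℝ) ≤ D / b'
    swap
    · have : g (rgt ρ) = 0 := by simp only [hg, if_neg hgr]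
      rw [this]
      simpa using hr
    have hs1 : (SL.szn (lft ρ) : ℝ) ≤ D := by
      by_contra hcon
      exact ha (by unfold Sys.aa; rw [if_neg hcon])
    have hs2 : (SR.szn (rgt ρ) : ℝ) ≤ D := le_trans hgr (div_le_self (by linarith) hd.b1'.le)
    obtain ⟨e1, -, e3, -, -, -⟩ := h1 π T A S ρ
    have ha1 := h6 π T SL D hpr3 (lft ρ) hs1
    have ha2 := h6 π A SR D hpr3 (rgt ρ) hs2
    obtain ⟨c1, c2, c3⟩ := h3 π T A S u v a b C a' b' C' K D z s k Q hd ρ
    have c4 := c3 hgr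
    have hac : (act ρ : ℝ) * K / z ≤ 1 / 4 := by
      rw [div_le_iff₀ hz, e3]
      push_cast
      have := hd.hc
      nlinarith [hd.K0, mul_le_mul_of_nonneg_right (add_le_add ha1 ha2) hd.K0]
    have c5 : 3 / 4 ≤ cv S v D ρ := by linarith
    have c6 : 9 / 16 ≤ cv S v D ρ ^ 2 := by nlinarith
    have hgv : g (rgt ρ) = (∏ e, v (fib (rgt ρ) e)) ^ 2 * (SR.szn (rgt ρ) : ℝ) := by
      simp only [hg, if_pos hgr]
      rw [(h7 π A SR (rgt ρ)).1, prod_mul_distrib, prod_pow]
      rfl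
    have hbb : bb S u v D ρ ^ 2 * (S.szn ρ : ℝ) =
        cv S v D ρ ^ 2 * (f (lft ρ) * g (rgt ρ)) := by
      rw [hgv, e1]
      simp only [hf, bb]
      push_cast
      ring
    rw [hbb]
    exact mul_le_mul_of_nonneg_right c6 (mul_nonneg (hf0 _) (hg0 _))
  have hτ : ∀ τ : π → Option A, g τ * (MF S u D / 2) ≤ g τ * (∑ σ, f σ -
      ∑ x, (if τ x = none then 0 else ∑ σ, (if σ x = none then 0 else f σ))) := by
    intro τ
    by_cases hgr : (SR.szn τ : ℝ) ≤ D / b'
    swap
    · have : g τ = 0 := by simp only [hg, if_neg hgr]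
      rw [this]
      simp
    refine mul_le_mul_of_nonneg_left ?_ (hg0 τ)
    have hs2 : (SR.szn τ : ℝ) ≤ D := le_trans hgr (div_le_self (by linarith) hd.b1'.le)
    have ha2 := h6 π A SR D hpr3 τ hs2
    have e1 : ∑ x, (if τ x = none then 0 else ∑ σ, (if σ x = none then 0 else f σ)) ≤
        ∑ x, (al (τ x) : ℝ) * (2 * Fintype.card T * K / z * MF S u D) := by
      refine sum_le_sum fun x _ => ?_
      cases hx : τ x with
      | none => simp [al]
      | some e =>
        simp only [al, Nat.cast_one, one_mul, reduceCtorEq, if_false]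
        have h8 : ∑ σ, (if σ x = none then 0 else f σ) ≤
            2 * Fintype.card T * K / S.pr x * MF S u D := by
          refine le_trans (le_of_eq ?_) (hR x)
          refine sum_congr rfl fun σ _ => ?_
          congr
        refine le_trans h8 (mul_le_mul_of_nonneg_right ?_ hM0)
        refine div_le_div_of_nonneg_left ?_ hz (hd.z_le x)
        have := hd.K0
        positivity
    have e2 : ∑ x, (al (τ x) : ℝ) * (2 * Fintype.card T * K / z * MF S u D) =
        (act τ : ℝ) * (2 * Fintype.card T * K / z * MF S u D) := by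
      rw [← sum_mul, act]
      push_cast
      rfl
    have e3 : (act τ : ℝ) * (2 * Fintype.card T * K / z * MF S u D) ≤ MF S u D / 2 := by
      have h8 : (act τ : ℝ) * (2 * Fintype.card T * K / z) ≤ 1 / 2 := by
        rw [← mul_div_assoc, div_le_iff₀ hz]
        have := hd.hact
        have h9 : 0 ≤ 2 * (Fintype.card T : ℝ) * K := by
          have := hd.K0
          positivity
        nlinarith [mul_le_mul_of_nonneg_right ha2 h9]
      calc (act τ : ℝ) * (2 * Fintype.card T * K / z * MF S u D) =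
          ((act τ : ℝ) * (2 * Fintype.card T * K / z)) * MF S u D := by ring
        _ ≤ 1 / 2 * MF S u D := mul_le_mul_of_nonneg_right h8 hM0
        _ = MF S u D / 2 := by ring
    have e4 : ∑ σ, f σ = MF S u D := rfl
    rw [e4]
    linarith
  have hsum : (∑ τ, g τ) * (MF S u D / 2) ≤
      ∑ ρ : π → Option (T ⊕ A), f (lft ρ) * g (rgt ρ) := by
    refine le_trans ?_ hL
    rw [sum_mul]
    refine sum_le_sum fun τ _ => le_trans (hτ τ) (le_of_eq ?_)
    congr
  have hMM : 9 / 16 * ∑ ρ : π → Option (T ⊕ A), f (lft ρ) * g (rgt ρ) ≤ MM S (bb S u v D) := by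
    rw [mul_sum, MM]
    exact sum_le_sum fun ρ _ => hpt ρ
  have h8 : vx S v ^ Fintype.card A / 2 * (MF S u D / 2) ≤ (∑ τ, g τ) * (MF S u D / 2) :=
    mul_le_mul_of_nonneg_right hGl (by linarith)
  have h9 : 0 ≤ MF S u D * vx S v ^ Fintype.card A :=
    mul_nonneg hM0 (pow_nonneg hd.x0.le _)
  nlinarith

end Pool.LGR
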