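import Pool.Agent.Work.MP_b0c12c_rp.Interface

/-! # Block MFL (typed by helper13) -/

set_option autoImplicit false

namespace Pool.LGR

open Finset Filter
open Pool.LGP Pool.LGC

theorem rst_good_inl {π T A : Type} {S : Sys π (T ⊕ A)} (hg : S.Good) :
    (rst S (Sum.inl : T → T ⊕ A)).Good :=
  ⟨hg.prime, hg.inj, hg.cop, fun x h h' y hh h1 h2 =>
    hg.excl x (Sum.inl h) (Sum.inl h') y (fun h3 => hh (Sum.inl_injective h3)) h1 h2⟩

theorem rst_uok {π ι κ : Type} [Fintype π] [DecidableEq π] {S : Sys π ι} {f : κ → ι}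
    {u : Finset π → ℝ} {a b C K : ℝ} (h : Uok S u a b C K) : Uok (rst S f) u a b C K :=
  ⟨h.nonneg, h.empty, h.mass, h.lo, h.hi, h.le_one, h.cost, h.div⟩

theorem p_MFL (h1 : LGP.Stmt_QLO) (h2 : LGP.Stmt_QSM) : Stmt_MFL := by
  intro π T A _ _ _ _ _ _ S u v a b C a' b' C' K D z s k Q hd
  have hb0 : 0 < b := by linarith [hd.b1]
  have hD0 : 0 < D := by linarith [hd.bD]
  have hD1 : 1 ≤ D := by linarith [hd.bD, hd.b1]
  have hlb : 0 < Real.log b := Real.log_pos hd.b1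
  have hlog : Real.log (D / b) = Real.log D - Real.log b := Real.log_div hD0.ne' hb0.ne'
  have e1 : (Fintype.card T : ℝ) * Real.exp 2 * C ≤ Real.log D / 2 := by
    have := hd.hC
    rw [hlog] at this
    linarith
  have e2 : Real.exp (-(Real.log D / Real.log b)) ≤ 1 / 4 := by
    refine le_trans (Real.exp_le_exp.2 (neg_le_neg ?_)) hd.hexp
    rw [hlog]
    exact div_le_div_of_nonneg_right (by linarith) hlb.le
  have h3 := h1 π T (rst S Sum.inl) (rst_good_inl hd.good) u a b C K D z (rst_uok hd.uok) hd.z3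
    hd.z_le hd.K0 hd.C0 hd.b1 hD1 e1 e2 hd.hK
  have h4 := (h2 π T (rst S Sum.inl) u a b C K (rst_uok hd.uok)
    (fun x => (hd.good.prime x).pos)).2.1
  have h5 : 1 ≤ S.Q1 u ^ Fintype.card T := one_le_pow₀ h4
  have h6 : S.Q1 u ^ Fintype.card T / 2 ≤ MF S u D := h3
  exact ⟨h6, by linarith⟩

end Pool.LGR
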