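import Pool.Agent.Work.MP_b0c12c_rp.Interface
import Pool.Agent.Work.MP_b0c12c_chain.B_MID

/-! # Block MIDR: many good `y` (helper37) -/

set_option autoImplicit false

namespace Pool.LGR

open Finset Filter
open Pool.LGP Pool.LGC

theorem MIDR_count (I : Finset ℕ) (f : ℕ → ℝ) (P R : ℕ → ℕ) (good : ℕ → Prop)
    [DecidablePred good] (n m : ℕ) (E2 c : ℝ) (hf : ∀ y, 0 ≤ f y) (hfE : ∀ y, f y ≤ E2)
    (hP : ∀ y, P y ≤ n) (hbad : ∀ y ∈ I, ¬ good y → P y + 1 ≤ m ∨ 1 ≤ R y) (hm : 1 ≤ m)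
    (hsum : c ≤ ∑ y ∈ I, f y * ((P y : ℝ) - ((m : ℝ) - 1) - n * R y)) :
    c ≤ n * E2 * ((I.filter good).card : ℝ) := by
  have hm' : (1 : ℝ) ≤ m := by exact_mod_cast hm
  have hn : (0 : ℝ) ≤ n := Nat.cast_nonneg _
  have h1 : ∑ y ∈ I, f y * ((P y : ℝ) - ((m : ℝ) - 1) - n * R y) ≤
      ∑ y ∈ I, (if good y then n * E2 else 0) := by
    refine Finset.sum_le_sum fun y hy => ?_
    have hPy : (P y : ℝ) ≤ n := by exact_mod_cast hP y
    have hR0 : (0 : ℝ) ≤ R y := Nat.cast_nonneg _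
    by_cases hg : good y
    · rw [if_pos hg]
      have h2 : (P y : ℝ) - ((m : ℝ) - 1) - n * R y ≤ n := by
        have := mul_nonneg hn hR0
        linarith
      calc f y * ((P y : ℝ) - ((m : ℝ) - 1) - n * R y) ≤ f y * n :=
            mul_le_mul_of_nonneg_left h2 (hf y)
        _ ≤ E2 * n := mul_le_mul_of_nonneg_right (hfE y) hn
        _ = n * E2 := mul_comm _ _
    · rw [if_neg hg]
      have h2 : (P y : ℝ) - ((m : ℝ) - 1) - n * R y ≤ 0 := by
        rcases hbad y hy hg with h | h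
        · have h3 : (P y : ℝ) + 1 ≤ m := by exact_mod_cast h
          have := mul_nonneg hn hR0
          linarith
        · have h3 : (1 : ℝ) ≤ R y := by exact_mod_cast h
          have : (n : ℝ) * 1 ≤ n * R y := mul_le_mul_of_nonneg_left h3 hn
          linarith
      exact mul_nonpos_of_nonneg_of_nonpos (hf y) h2
  refine hsum.trans (h1.trans (le_of_eq ?_))
  rw [← Finset.sum_filter, Finset.sum_const, nsmul_eq_mul]
  ring

theorem p_MIDR (hERG : Stmt_ERG) (hBND : Stmt_BND) (hMFL : Stmt_MFL) (hUPG : Stmt_UPG)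
    (hKIL : Stmt_KIL) (hP1S : Stmt_P1S) : Stmt_MIDR := by
  classical
  intro π T A _ _ _ _ _ _ S u v a b C a' b' C' K D z s Λ Q Y m y₁ hd htl hΛ hm hkey hYE hsite
    hsgn hpr
  have hgood := hd.good
  have hz0 : 0 < z := by linarith [hd.z3]
  have hx0 := hd.x0
  have hW : (0 : ℝ) < S.W := by exact_mod_cast hd.W_pos
  have hφ : (0 : ℝ) < (S.W.totient : ℝ) := by exact_mod_cast Nat.totient_pos.2 hd.W_pos
  have hD1 : 1 < D := lt_of_lt_of_le hd.b1 hd.bD
  have hD0 : 0 < D := by linarith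
  have hm' : (1 : ℝ) ≤ m := by exact_mod_cast hm
  have hY0 : (0 : ℝ) ≤ Y := Nat.cast_nonneg _
  obtain ⟨hMF1, hMF2⟩ := hMFL π T A S u v a b C a' b' C' K D z s _ Q hd
  obtain ⟨n, hn⟩ : ∃ n : ℕ, n = Fintype.card A := ⟨_, rfl⟩
  obtain ⟨t, ht⟩ : ∃ t : ℕ, t = Fintype.card T := ⟨_, rfl⟩
  obtain ⟨x, hx⟩ : ∃ x : ℝ, x = vx S v := ⟨_, rfl⟩
  obtain ⟨M, hM⟩ : ∃ M : ℝ, M = MF S u D * x ^ n := ⟨_, rfl⟩
  obtain ⟨E2, hE2⟩ : ∃ E2 : ℝ, E2 = (2 * Real.exp 1 * D ^ (1 + s)) ^ 4 := ⟨_, rfl⟩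
  obtain ⟨δ, hδ⟩ : ∃ δ : ℝ, δ = (2 * Real.log D * K / z) ^ 2 +
    Real.exp (-(Real.log (D / b) / Real.log b)) := ⟨_, rfl⟩
  have hkill := hd.hkill
  rw [← hδ, ← hn, ← ht] at hkill
  rw [← hx] at hx0
  rw [← hn, ← hx] at hkey
  rw [← hn, ← ht, ← hx, ← hE2] at hYE
  rw [← hn, ← hx] at htl
  rw [← hn, ← hx, ← hE2]
  have hBpos : 0 < 2 * Real.exp 1 * D ^ (1 + s) := by positivity
  have hE2pos : 0 < E2 := by rw [hE2]; positivity
  have hδ0 : 0 ≤ δ := by rw [hδ]; positivity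
  have hxn : 0 < x ^ n := pow_pos hx0 _
  have hMx : x ^ n ≤ 2 * M := by
    rw [hM]
    have := mul_le_mul_of_nonneg_right hMF2 hxn.le
    linarith
  have hMpos : 0 < M := by linarith
  have hnpos : (0 : ℝ) < n := by
    rcases Nat.eq_zero_or_pos n with h | h
    · exfalso
      rw [h, Nat.cast_zero, zero_mul] at hkey
      have : 0 < (3 * (m : ℝ) + 1) * (64 * Λ * x * S.W.totient) := by positivity
      linarith
    · exact_mod_cast h
  -- the error weight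
  have hEB := hERG π T A S u v a b C a' b' C' K D z s _ Q hd
  have hE0 : 0 ≤ EE S (ab S u v D) := MID_EE S _
  have hEE2 : EE S (ab S u v D) ^ 2 ≤ E2 := by
    calc EE S (ab S u v D) ^ 2 ≤ ((2 * Real.exp 1 * D ^ (1 + s)) ^ 2) ^ 2 :=
          pow_le_pow_left₀ hE0 hEB 2
      _ = E2 := by rw [hE2]; ring
  obtain ⟨F, hF⟩ : ∃ F : ℕ → ℝ, F = fun y => FF S (ab S u v D) y ^ 2 := ⟨_, rfl⟩
  have hF0 : ∀ y, 0 ≤ F y := fun y => by rw [hF]; positivity
  have hFE : ∀ y, F y ≤ E2 := fun y => by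
    rw [hF]
    refine (hBND π (T ⊕ A) S (fun x => ?_) _ y).trans hEE2
    exact (hgood.prime x).one_le
  -- total
  have htot : ∑ y ∈ Ioc Y (2 * Y), F y ≤ 2 * (Y * M) + E2 := by
    have h := hUPG π T A S u v a b C a' b' C' K D z s _ Q hd Y
    rw [← hn, ← hx, ← hM] at h
    rw [hF]
    linarith
  -- killed shifts
  have hR : ∑ y ∈ Ioc Y (2 * Y), F y *
      ((univ.filter (fun h : T => ∀ x, ¬ S.pr x ∣ S.N (Sum.inl h) y)).card : ℝ) ≤
      t * (8 * Y * δ * M + E2) := by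
    have h1 : ∀ y, F y * ((univ.filter
        (fun h : T => ∀ x, ¬ S.pr x ∣ S.N (Sum.inl h) y)).card : ℝ) =
        ∑ h : T, (if ∀ x, ¬ S.pr x ∣ S.N (Sum.inl h) y then F y else 0) := by
      intro y
      rw [← Finset.sum_filter, Finset.sum_const, nsmul_eq_mul, mul_comm]
    rw [Finset.sum_congr rfl fun y _ => h1 y, Finset.sum_comm]
    have h2 : ∀ h : T, ∑ y ∈ Ioc Y (2 * Y),
        (if ∀ x, ¬ S.pr x ∣ S.N (Sum.inl h) y then F y else 0) ≤ 8 * Y * δ * M + E2 := by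
      intro h
      have h3 := hKIL π T A S u v a b C a' b' C' K D z s _ Q hd h Y
      rw [← hn, ← hx, ← hM, ← hδ] at h3
      rw [hF]
      refine le_trans (le_of_eq ?_) (h3.trans (by linarith))
      refine Finset.sum_congr rfl fun y _ => ?_
      congr 1
    refine (Finset.sum_le_sum fun h _ => h2 h).trans ?_
    rw [Finset.sum_const, Finset.card_univ, nsmul_eq_mul, ← ht]
  -- the sites
  have hPs : (3 * (m : ℝ) + 1) * (Y * M) ≤ ∑ y ∈ Ioc Y (2 * Y), F y *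
      ((univ.filter (fun e : A => (S.N (Sum.inr e) y).Prime)).card : ℝ) := by
    have h1 : ∀ y, F y * ((univ.filter
        (fun e : A => (S.N (Sum.inr e) y).Prime)).card : ℝ) =
        ∑ e : A, (if (S.N (Sum.inr e) y).Prime then F y else 0) := by
      intro y
      rw [← Finset.sum_filter, Finset.sum_const, nsmul_eq_mul, mul_comm]
    rw [Finset.sum_congr rfl fun y _ => h1 y, Finset.sum_comm]
    have h2 : ∀ e : A, (S.W : ℝ) / S.W.totient * (Y * M) ≤
        64 * x * Λ * ∑ y ∈ Ioc Y (2 * Y), (if (S.N (Sum.inr e) y).Prime then F y else 0) := by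
      intro e
      obtain ⟨e1, e2, ⟨R, hR0, hR1, e3⟩, e4⟩ := hsite e
      have h3 := hP1S π T A S u v a b C a' b' C' K D z s R _ Q Y y₁ e hd
        (by rw [← hn, ← hx]; exact htl) e1 e2 hR0 hR1 e3
        (fun hy χ hχ => hsgn hy χ hχ e) hpr
      rw [← hn, ← hx, ← hM] at h3
      have h4 := MID_th F hF0 S.W Y (S.v (Sum.inr e)) Λ e4
      have h5 : ∑ y ∈ Ioc Y (2 * Y), FF S (ab S u v D) y ^ 2 * th (S.N (Sum.inr e) y) ≤
          Λ * ∑ y ∈ Ioc Y (2 * Y), (if (S.N (Sum.inr e) y).Prime then F y else 0) := by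
        refine le_trans (le_of_eq ?_) (h4.trans (le_of_eq ?_))
        · rw [hF]; rfl
        · rfl
      calc (S.W : ℝ) / S.W.totient * (Y * M) ≤ _ := h3
        _ ≤ 64 * x * (Λ * ∑ y ∈ Ioc Y (2 * Y),
            (if (S.N (Sum.inr e) y).Prime then F y else 0)) :=
          mul_le_mul_of_nonneg_left h5 (by positivity)
        _ = _ := by ring
    have h3 : (n : ℝ) * ((S.W : ℝ) / S.W.totient * (Y * M)) ≤ 64 * x * Λ *
        ∑ e : A, ∑ y ∈ Ioc Y (2 * Y), (if (S.N (Sum.inr e) y).Prime then F y else 0) := by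
      rw [Finset.mul_sum]
      refine le_trans (le_of_eq ?_) (Finset.sum_le_sum fun e _ => h2 e)
      rw [Finset.sum_const, Finset.card_univ, nsmul_eq_mul, ← hn]
    have h4 : (3 * (m : ℝ) + 1) * (64 * Λ * x) ≤ n * ((S.W : ℝ) / S.W.totient) := by
      rw [← mul_div_assoc, le_div_iff₀ hφ]
      calc (3 * (m : ℝ) + 1) * (64 * Λ * x) * S.W.totient =
            (3 * (m : ℝ) + 1) * (64 * Λ * x * S.W.totient) := by ring
        _ ≤ _ := hkey
    have hYM : 0 ≤ (Y : ℝ) * M := mul_nonneg hY0 hMpos.le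
    have h5 : 64 * x * Λ * ((3 * (m : ℝ) + 1) * (Y * M)) ≤ 64 * x * Λ *
        ∑ e : A, ∑ y ∈ Ioc Y (2 * Y), (if (S.N (Sum.inr e) y).Prime then F y else 0) := by
      refine le_trans ?_ h3
      calc 64 * x * Λ * ((3 * (m : ℝ) + 1) * (Y * M)) =
            (3 * (m : ℝ) + 1) * (64 * Λ * x) * (Y * M) := by ring
        _ ≤ n * ((S.W : ℝ) / S.W.totient) * (Y * M) := mul_le_mul_of_nonneg_right h4 hYM
        _ = _ := by ring
    exact le_of_mul_le_mul_left h5 (by positivity)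
  have hYM : 0 ≤ (Y : ℝ) * M := mul_nonneg hY0 hMpos.le
  have hYE' : ((m : ℝ) + n * t) * E2 ≤ Y * M := by
    have := mul_le_mul_of_nonneg_left hMx hY0
    have h1 : 2 * ((m : ℝ) + n * t) * E2 ≤ 2 * (Y * M) := by
      calc 2 * ((m : ℝ) + n * t) * E2 ≤ x ^ n * Y := hYE
        _ ≤ 2 * (Y * M) := by linarith
    linarith
  -- the final inequality
  have hfin : (Y : ℝ) * M ≤ ∑ y ∈ Ioc Y (2 * Y), F y *
      (((univ.filter (fun e : A => (S.N (Sum.inr e) y).Prime)).card : ℝ) - ((m : ℝ) - 1) -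
        n * ((univ.filter (fun h : T => ∀ x, ¬ S.pr x ∣ S.N (Sum.inl h) y)).card : ℝ)) := by
    have h1 : ∑ y ∈ Ioc Y (2 * Y), F y *
      (((univ.filter (fun e : A => (S.N (Sum.inr e) y).Prime)).card : ℝ) - ((m : ℝ) - 1) -
        n * ((univ.filter (fun h : T => ∀ x, ¬ S.pr x ∣ S.N (Sum.inl h) y)).card : ℝ)) =
        ∑ y ∈ Ioc Y (2 * Y), F y *
          ((univ.filter (fun e : A => (S.N (Sum.inr e) y).Prime)).card : ℝ) -
        ((m : ℝ) - 1) * ∑ y ∈ Ioc Y (2 * Y), F y -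
        n * ∑ y ∈ Ioc Y (2 * Y), F y *
          ((univ.filter (fun h : T => ∀ x, ¬ S.pr x ∣ S.N (Sum.inl h) y)).card : ℝ) := by
      rw [Finset.mul_sum, Finset.mul_sum, ← Finset.sum_sub_distrib, ← Finset.sum_sub_distrib]
      refine Finset.sum_congr rfl fun y _ => by ring
    rw [h1]
    have h2 : ((m : ℝ) - 1) * ∑ y ∈ Ioc Y (2 * Y), F y ≤ ((m : ℝ) - 1) * (2 * (Y * M) + E2) :=
      mul_le_mul_of_nonneg_left htot (by linarith)
    have h3 := mul_le_mul_of_nonneg_left hR hnpos.le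
    have h4 : (n : ℝ) * (t * (8 * Y * δ * M + E2)) ≤ Y * M + n * t * E2 := by
      have := mul_le_mul_of_nonneg_right hkill hYM
      have e1 : (n : ℝ) * (t * (8 * Y * δ * M + E2)) =
        8 * ((n : ℝ) * t) * δ * (Y * M) + n * t * E2 := by ring
      rw [e1]
      linarith
    nlinarith
  have hcnt := MIDR_count (Ioc Y (2 * Y)) F
    (fun y => (univ.filter (fun e : A => (S.N (Sum.inr e) y).Prime)).card)
    (fun y => (univ.filter (fun h : T => ∀ x, ¬ S.pr x ∣ S.N (Sum.inl h) y)).card)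
    (fun y => (∀ h : T, ∃ x, S.pr x ∣ S.N (Sum.inl h) y) ∧
        m ≤ (univ.filter (fun e : A => (S.N (Sum.inr e) y).Prime)).card) n m E2 (Y * M) hF0 hFE
    (fun y => by
      refine (Finset.card_filter_le _ _).trans ?_
      rw [Finset.card_univ, hn])
    (fun y _ hy => by
      by_cases h : ∀ h : T, ∃ x, S.pr x ∣ S.N (Sum.inl h) y
      · left
        by_contra hc
        exact hy ⟨h, by omega⟩
      · right
        push Not at h
        obtain ⟨h0, hh0⟩ := h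
        exact Finset.card_pos.2 ⟨h0, by simpa using hh0⟩) hm hfin
  rw [div_le_iff₀ (by positivity)]
  have h1 : (Y : ℝ) * x ^ n ≤ 2 * (Y * M) := by
    have := mul_le_mul_of_nonneg_left hMx hY0
    linarith
  refine h1.trans ?_
  have h2 := mul_le_mul_of_nonneg_left hcnt (by norm_num : (0 : ℝ) ≤ 2)
  refine h2.trans (le_of_eq ?_)
  have h3 : ((Ioc Y (2 * Y)).filter (fun y => (∀ h : T, ∃ x, S.pr x ∣ S.N (Sum.inl h) y) ∧
        m ≤ (univ.filter (fun e : A => (S.N (Sum.inr e) y).Prime)).card)).card =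
      ((Ioc Y (2 * Y)).filter (fun y => (∀ h : T, ∃ x, S.pr x ∣ S.N (Sum.inl h) y) ∧
        m ≤ (univ.filter (fun e : A => (S.N (Sum.inr e) y).Prime)).card)).card := by
    congr 1
  ring_nf

end Pool.LGR
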