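import Pool.Agent.Work.MP_b0c12c_rp.Interface

/-! # Block NUR: numerics of the residue -/

set_option autoImplicit false

namespace Pool.LGR

open Finset Filter
open Pool.LGP Pool.LGC

theorem p_NUR : Stmt_NUR := by
  intro K
  have t1 : Tendsto (fun w : ℕ => Real.log (w : ℝ)) atTop atTop :=
    Real.tendsto_log_atTop.comp tendsto_natCast_atTop_atTop
  have t2 : Tendsto (fun w : ℕ => Real.log (Real.log (w : ℝ))) atTop atTop :=
    Real.tendsto_log_atTop.comp t1
  have t3 : Tendsto (fun w : ℕ => Real.log (Real.log (Real.log (w : ℝ)))) atTop atTop :=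
    Real.tendsto_log_atTop.comp t2
  have e1 := t1.eventually_ge_atTop (5 * (K : ℝ) + 2)
  have e2 := t3.eventually_ge_atTop 1
  have e3 : ∀ᶠ w : ℕ in atTop, 56 * Real.log (Real.log (w : ℝ)) ^ 2 ≤ Real.log (w : ℝ) := by
    have h1 := (Real.isLittleO_pow_log_id_atTop (n := 2)).bound (by norm_num : (0 : ℝ) < 1 / 56)
    have h2 := t1.eventually h1
    filter_upwards [h2, t1.eventually_ge_atTop 0] with w h3 h4
    rw [Real.norm_eq_abs, abs_of_nonneg (by positivity), id, Real.norm_eq_abs,
      abs_of_nonneg h4] at h3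
    linarith
  have e4 : ∀ᶠ w : ℕ in atTop, ((K : ℝ) + 1) * Real.log (w : ℝ) ^ 5 ≤ w := by
    have h1 := (Real.isLittleO_pow_log_id_atTop (n := 5)).bound
      (by positivity : (0 : ℝ) < 1 / ((K : ℝ) + 1))
    have h2 := tendsto_natCast_atTop_atTop (R := ℝ) |>.eventually h1
    filter_upwards [h2, t1.eventually_ge_atTop 0] with w h3 h4
    rw [Real.norm_eq_abs, abs_of_nonneg (by positivity), id, Real.norm_eq_abs,
      abs_of_nonneg (Nat.cast_nonneg w)] at h3
    rw [div_mul_eq_mul_div, one_mul, le_div_iff₀ (by positivity)] at h3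
    linarith
  filter_upwards [e1, e2, e3, e4] with w h1 h2 h3 h4
  set L : ℝ := Real.log (w : ℝ) with hL
  set l2 : ℝ := Real.log L with hl2
  set l3 : ℝ := Real.log l2 with hl3
  have hK0 : (0 : ℝ) ≤ K := Nat.cast_nonneg K
  have hL2 : 2 ≤ L := by linarith
  have hl20 : 0 < l2 := by
    by_contra hcon
    push Not at hcon
    rcases lt_or_eq_of_le hcon with h | h
    · have hLl : L < 1 := by
        by_contra hx
        push Not at hx
        exact absurd (Real.log_nonneg hx) (not_le.2 h)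
      linarith
    · have : l3 = 0 := by rw [hl3, h, Real.log_zero]
      linarith
  have hl32 : l3 ≤ l2 := (Real.log_le_sub_one_of_pos hl20).trans (by linarith)
  have hl21 : 1 ≤ l2 := h2.trans hl32
  have hw0 : (0 : ℝ) < w := by
    rcases Nat.eq_zero_or_pos w with h | h
    · exfalso
      have : L = 0 := by rw [hL, h, Nat.cast_zero, Real.log_zero]
      linarith
    · exact_mod_cast h
  have hyy : yy w = Real.exp (L * l3 / (8 * l2)) := rfl
  have hyL : L ^ 7 ≤ yy w := by
    have h5 : L ^ 7 = Real.exp (7 * l2) := by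
      rw [show (7 : ℝ) * l2 = (7 : ℕ) * l2 by norm_num, Real.exp_nat_mul, hl2,
        Real.exp_log (by linarith)]
    rw [h5, hyy, Real.exp_le_exp, le_div_iff₀ (by positivity)]
    nlinarith
  have hyw : yy w ≤ w := by
    have h5 : (w : ℝ) = Real.exp L := by rw [hL, Real.exp_log hw0]
    rw [h5, hyy, Real.exp_le_exp, div_le_iff₀ (by positivity)]
    nlinarith
  have hpow : ∀ n : ℕ, 1 ≤ L ^ n := fun n => one_le_pow₀ (by linarith)
  have hLL7 : L ≤ L ^ 7 := by
    calc L = L * 1 := (mul_one L).symm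
      _ ≤ L * L ^ 6 := mul_le_mul_of_nonneg_left (hpow 6) (by linarith)
      _ = L ^ 7 := by ring
  refine ⟨by linarith, hyw, fun H hH1 hH2 => ?_⟩
  have hwH : (4 : ℝ) * w ≤ H := by exact_mod_cast hH1
  have hH0 : (0 : ℝ) < H := by linarith
  have hKw : (K : ℝ) * L ^ 5 ≤ w := by
    have := hpow 5
    nlinarith
  have hKw1 : (K : ℝ) ≤ w := by
    calc (K : ℝ) = K * 1 := (mul_one _).symm
      _ ≤ K * L ^ 5 := mul_le_mul_of_nonneg_left (hpow 5) hK0
      _ ≤ w := hKw
  refine ⟨?_, ?_, ?_⟩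
  · have : (K : ℝ) ≤ H := by linarith
    exact_mod_cast this
  · refine hH2.trans ?_
    have h5 : L ^ 3 = L ^ 2 * L := by ring
    have h6 : L ^ 2 * 1 ≤ L ^ 2 * L := mul_le_mul_of_nonneg_left (by linarith) (by positivity)
    rw [h5]
    nlinarith
  · -- the number of binary digits
    have hHne : H ≠ 0 := by
      rintro rfl
      simp at hH0
    have hlog : (Nat.log 2 H : ℝ) ≤ 5 * L := by
      have h5 : ((2 : ℝ) ^ Nat.log 2 H) ≤ H := by exact_mod_cast Nat.pow_log_le_self 2 hHne
      have h6 : (Nat.log 2 H : ℝ) * Real.log 2 ≤ Real.log H := by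
        have h7 := Real.log_le_log (by positivity) h5
        rwa [Real.log_pow] at h7
      have h8 : Real.log H ≤ L + 2 * l2 := by
        calc Real.log H ≤ Real.log (w * L ^ 2) := Real.log_le_log hH0 hH2
          _ = L + 2 * l2 := by
            rw [Real.log_mul hw0.ne' (by positivity), Real.log_pow]
            push_cast
            rfl
      have h9 : l2 ≤ L := (Real.log_le_sub_one_of_pos (by linarith)).trans (by linarith)
      have h10 : (0.6931471803 : ℝ) < Real.log 2 := Real.log_two_gt_d9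
      have h11 : (0 : ℝ) ≤ Nat.log 2 H := Nat.cast_nonneg _
      nlinarith
    have hA : (K : ℝ) * Nat.log 2 H + 1 ≤ L ^ 2 := by
      have h5 : (K : ℝ) * Nat.log 2 H ≤ K * (5 * L) := mul_le_mul_of_nonneg_left hlog hK0
      nlinarith
    have hyy0 : 0 < yy w := by rw [hyy]; exact Real.exp_pos _
    have hB : (H : ℝ) / yy w ≤ H / L ^ 7 :=
      div_le_div_of_nonneg_left hH0.le (by positivity) hyL
    have hCc : ((K : ℝ) * Nat.log 2 H + 1) * (H / yy w) ≤ H / L ^ 5 := by
      calc _ ≤ L ^ 2 * (H / L ^ 7) :=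
            mul_le_mul hA hB (by positivity) (by positivity)
        _ = H / L ^ 5 := by
          field_simp
    have hD : (K : ℝ) ≤ H / L ^ 5 := by
      rw [le_div_iff₀ (by positivity)]
      linarith
    have hE : (H : ℝ) / L ^ 5 + H / L ^ 5 ≤ H / L ^ 2 := by
      rw [← add_div, div_le_div_iff₀ (by positivity) (by positivity)]
      have h5 : (2 : ℝ) ≤ L ^ 3 := by nlinarith [hpow 2]
      calc ((H : ℝ) + H) * L ^ 2 = H * (2 * L ^ 2) := by ring
        _ ≤ H * (L ^ 3 * L ^ 2) := by gcongr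
        _ = H * L ^ 5 := by ring
    have hF : (H : ℝ) / L ^ 2 ≤ H * l2 ^ 2 / (L ^ 2 * l3) := by
      rw [div_le_div_iff₀ (by positivity) (by positivity)]
      have h5 : l3 ≤ l2 ^ 2 := by nlinarith
      calc (H : ℝ) * (L ^ 2 * l3) = (H * L ^ 2) * l3 := by ring
        _ ≤ (H * L ^ 2) * l2 ^ 2 := by gcongr
        _ = H * l2 ^ 2 * L ^ 2 := by ring
    linarith

end Pool.LGR
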