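import Pool.Agent.Work.MP_b0c12c_rp.Interface

/-! Block P1S (typed by helper88): lower bound for the prime values at a site. -/

set_option autoImplicit false

namespace Pool.LGR

open Finset Filter
open Pool.LGP Pool.LGC

theorem P1S_arith (φ W Y MM MF x Mom Sg : ℝ) (n : ℕ) (hφ : 0 ≤ φ) (hW : 0 ≤ W) (hY : 0 ≤ Y)
    (hx : 0 ≤ x) (hMM : MF * x ^ n / 8 ≤ MM) (hM0 : 0 ≤ MM) (hMom : Mom ≤ W * Y / 8)
    (h : 1 / φ * (MM / 2 * (W * Y) - 1 / 8 * MM * (W * Y) - 2 * MM * Mom) ≤ Sg) :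
    W / φ * (Y * (MF * x ^ (n + 1))) ≤ 64 * x * Sg := by
  have h1 : MM * (W * Y) / 8 ≤ MM / 2 * (W * Y) - 1 / 8 * MM * (W * Y) - 2 * MM * Mom := by
    have : MM * Mom ≤ MM * (W * Y / 8) := mul_le_mul_of_nonneg_left hMom hM0
    linarith
  have h2 : MF * x ^ n / 8 * (W * Y) / 8 ≤ MM * (W * Y) / 8 := by
    have := mul_le_mul_of_nonneg_right hMM (mul_nonneg hW hY)
    linarith
  have h3 : 1 / φ * (MF * x ^ n / 8 * (W * Y) / 8) ≤ Sg :=
    le_trans (mul_le_mul_of_nonneg_left (h2.trans h1) (by positivity)) h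
  have h4 := mul_le_mul_of_nonneg_left h3 (show (0 : ℝ) ≤ 64 * x by positivity)
  refine le_trans (le_of_eq ?_) h4
  rw [pow_succ]
  ring

theorem p_P1S (hDRP : Stmt_DRP) (hPSG : Stmt_PSG) (hBBS : Stmt_BBS) (hMEB : Stmt_MEB)
    (hACB : Stmt_ACB) (hCOG : Stmt_COG) (hP1E : Pool.LGC.Stmt_P1E) : Stmt_P1S := by
  intro π T A _ _ _ _ _ _ S u v a b C a' b' C' K D z s R k Q Y y₁ e hd hk hExt hcop hR0 hR hMom
    hchar hprime
  obtain ⟨hd', hMF, hvx⟩ := hDRP π T A S u v a b C a' b' C' K D z s k Q hd e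
  have hlog : 0 ≤ Real.log D := Real.log_nonneg (hd.b1.le.trans hd.bD)
  have hz0 : 0 < z := by linarith [hd.z3]
  have hcardA : Fintype.card {a : A // a ≠ e} + 1 = Fintype.card A := by
    have h1 : Fintype.card {a : A // a ≠ e} = Fintype.card A - 1 := by
      rw [Fintype.card_subtype_compl (fun a => a = e)]
      simp
    have h2 : 0 < Fintype.card A := Fintype.card_pos_iff.2 ⟨e⟩
    omega
  have hcardR : (Fintype.card {a : A // a ≠ e} : ℝ) + 1 = Fintype.card A := by exact_mod_cast hcardA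
  have hcι : (Fintype.card (T ⊕ {a : A // a ≠ e}) : ℝ) =
      Fintype.card T + Fintype.card {a : A // a ≠ e} := by
    rw [Fintype.card_sum]; push_cast; rfl
  have hkA : (Fintype.card A : ℝ) ≤ k := by exact_mod_cast hd.hk
  have hT : (0 : ℝ) ≤ Fintype.card T := Nat.cast_nonneg _
  have hA' : (0 : ℝ) ≤ Fintype.card {a : A // a ≠ e} := Nat.cast_nonneg _
  -- support
  have hsupp : ∀ ρ, bb (drp S e) u v D ρ ≠ 0 →
      64 * (act ρ : ℝ) * (Fintype.card (T ⊕ {a : A // a ≠ e}) + 1) ≤ z := by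
    intro ρ hρ
    have h1 := (hBBS π T {a : A // a ≠ e} (drp S e) u v a b C a' b' C' K D z s k Q hd' ρ hρ).1
    rw [hcι]
    calc 64 * (act ρ : ℝ) * ((Fintype.card T : ℝ) + Fintype.card {a : A // a ≠ e} + 1)
        ≤ 64 * (2 * Real.log D) * ((Fintype.card T : ℝ) + k + 3) := by
          apply mul_le_mul
          · linarith
          · linarith
          · linarith
          · linarith
      _ ≤ 192 * Real.log D * (Fintype.card T + k + 3) := by
          apply mul_le_mul_of_nonneg_right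
          · linarith
          · linarith
      _ ≤ z := hd.h64
  -- the product over the primes
  have htau : ∏ x, (1 + (Fintype.card (T ⊕ {a : A // a ≠ e}) : ℝ) /
      ((((drp S e).pr x : ℝ) - 1) * √((drp S e).pr x))) ≤ 9 / 8 := by
    refine le_trans ?_ hd.tau
    refine Finset.prod_le_prod ?_ ?_
    · intro x _
      have h1 : (3 : ℝ) ≤ (drp S e).pr x := hd.z3.trans (hd.z_le x)
      have : 0 ≤ (((drp S e).pr x : ℝ) - 1) * √((drp S e).pr x) :=
        mul_nonneg (by linarith) (Real.sqrt_nonneg _)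
      have := div_nonneg (Nat.cast_nonneg (α := ℝ) (Fintype.card (T ⊕ {a : A // a ≠ e}))) this
      linarith
    · intro x _
      have h1 : (3 : ℝ) ≤ S.pr x := hd.z3.trans (hd.z_le x)
      have h2 : 0 ≤ ((S.pr x : ℝ) - 1) * √(S.pr x) :=
        mul_nonneg (by linarith) (Real.sqrt_nonneg _)
      rw [hcι]
      change 1 + ((Fintype.card T : ℝ) + Fintype.card {a : A // a ≠ e}) /
        (((S.pr x : ℝ) - 1) * √(S.pr x)) ≤ 1 + ((Fintype.card T : ℝ) + k) /
        (((S.pr x : ℝ) - 1) * √(S.pr x))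
      have := div_le_div_of_nonneg_right (show (Fintype.card T : ℝ) +
        Fintype.card {a : A // a ≠ e} ≤ Fintype.card T + k by linarith) h2
      linarith
  -- the condition for ACB and MEB
  have hk' : 4 * ((Fintype.card {a : A // a ≠ e} : ℝ) * C') ≤ vx (drp S e) v * Real.log (D / b') := by
    rw [hvx]
    have : (Fintype.card {a : A // a ≠ e} : ℝ) = (Fintype.card A : ℝ) - 1 := by linarith
    rw [this]
    exact hk
  -- ramified characters
  have hx0 : 0 < vx S v := hd.x0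
  have hram : ∀ X : (∀ x : π, DirichletCharacter ℂ ((drp S e).pr x)), (∃ x, X x ≠ 1) →
      ‖cX (drp S e) (S.v (Sum.inr e)) (bb (drp S e) u v D) X‖ ≤ 1 / 8 * MM (drp S e) (bb (drp S e) u v D) := by
    intro X hX
    have h1 := hCOG π (T ⊕ {a : A // a ≠ e}) (drp S e) hd'.good (bb (drp S e) u v D) z
      (16 * K * (Fintype.card T + k / vx (drp S e) v) / z) (S.v (Sum.inr e)) hd.z3 hd'.z_le hExt hsupp htau
      (hACB π T {a : A // a ≠ e} (drp S e) u v a b C a' b' C' K D z s k Q hd' hk') X hX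
    refine le_trans h1 ?_
    have hMM0 : 0 ≤ MM (drp S e) (bb (drp S e) u v D) :=
      Finset.sum_nonneg fun ρ _ => mul_nonneg (sq_nonneg _) (Nat.cast_nonneg _)
    refine mul_le_mul_of_nonneg_right ?_ hMM0
    refine le_trans ?_ hd.hram
    rw [hvx, hcι]
    have h2 : 3 * ((Fintype.card T : ℝ) + Fintype.card {a : A // a ≠ e}) / √z ≤
        3 * ((Fintype.card T : ℝ) + k) / √z := by
      apply div_le_div_of_nonneg_right _ (Real.sqrt_nonneg _)
      linarith
    have h3 : 5 * (16 * K * ((Fintype.card T : ℝ) + k / vx S v) / z) =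
        80 * K * ((Fintype.card T : ℝ) + k / vx S v) / z := by ring
    linarith
  have hmain := hP1E π (T ⊕ {a : A // a ≠ e}) (drp S e) hd'.good hd.W_pos (bb (drp S e) u v D) z
    (D ^ 2) (1 / 8) R (S.v (Sum.inr e)) Y Q y₁ hd.z3 hd'.z_le (by positivity) hExt hcop
    (fun ρ hρ => ⟨hsupp ρ hρ,
      (hBBS π T {a : A // a ≠ e} (drp S e) u v a b C a' b' C' K D z s k Q hd' ρ hρ).2⟩) htau
    (by
      have := hd.hQ
      have e1 : (D ^ 2) ^ 2 = D ^ 4 := by ring
      rw [e1]
      exact this)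
    (fun n hn h => hprime n hn (lt_of_le_of_lt (Nat.le_add_right _ _) h)) (by norm_num) hR0 hR hchar hram
  have hMEB' := hMEB π T {a : A // a ≠ e} (drp S e) u v a b C a' b' C' K D z s k Q hd' hk'
  rw [hMF, hvx] at hMEB'
  have hsum : ∑ y ∈ Ioc Y (2 * Y), FF (drp S e) (bb (drp S e) u v D) y ^ 2 *
      th ((drp S e).W * y + S.v (Sum.inr e)) =
      ∑ y ∈ Ioc Y (2 * Y), FF S (ab S u v D) y ^ 2 * th (S.N (Sum.inr e) y) := by
    refine Finset.sum_congr rfl fun y hy => ?_
    change FF (drp S e) (bb (drp S e) u v D) y ^ 2 * th (S.N (Sum.inr e) y) = _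
    by_cases hp : (S.N (Sum.inr e) y).Prime
    · have hlt : S.W * Y < S.N (Sum.inr e) y := by
        have h1 : Y < y := (Finset.mem_Ioc.1 hy).1
        have h2 : S.W * Y < S.W * y := Nat.mul_lt_mul_of_pos_left h1 hd.W_pos
        exact lt_of_lt_of_le h2 (Nat.le_add_right _ _)
      have h3 := (hprime _ hp hlt).2
      have hno : ∀ x, ¬ S.pr x ∣ S.N (Sum.inr e) y := by
        intro x hx
        have h4 := (Nat.prime_dvd_prime_iff_eq (hd.good.prime x) hp).1 hx
        have h5 := h3 x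
        omega
      rw [hPSG π T A S u v D e y hno]
    · have h0 : th (S.N (Sum.inr e) y) = 0 := by
        unfold th
        rw [if_neg hp]
      rw [h0, mul_zero, mul_zero]
  rw [hsum] at hmain
  have hMM0 : 0 ≤ MM (drp S e) (bb (drp S e) u v D) :=
    Finset.sum_nonneg fun ρ _ => mul_nonneg (sq_nonneg _) (Nat.cast_nonneg _)
  rw [← hcardA]
  exact P1S_arith (S.W.totient : ℝ) (S.W : ℝ) (Y : ℝ) (MM (drp S e) (bb (drp S e) u v D)) (MF S u D)
    (vx S v) _ _ (Fintype.card {a : A // a ≠ e}) (Nat.cast_nonneg _) (Nat.cast_nonneg _)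
    (Nat.cast_nonneg _) hx0.le hMEB' hMM0 hMom hmain

end Pool.LGR
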