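import Pool.Agent.Work.MP_b0c12c_rp.Interface

/-! # Block PSB (helper55): the coefficients pushed forward along a label of `T` -/

set_option autoImplicit false

namespace Pool.LGR

open Finset Filter
open Pool.LGP Pool.LGC

variable {π T A : Type}

theorem PSB_zero [Fintype π] [DecidableEq π] [Fintype T] [DecidableEq T] [Fintype A] [DecidableEq A]
    (m : T ⊕ A) (a : (π → Option (T ⊕ A)) → ℝ) (σ : π → Option (T ⊕ A))
    (hσ : ∃ x, σ x = some m) : push m a σ = 0 := by
  obtain ⟨x, hx⟩ := hσ
  unfold push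
  apply Finset.sum_eq_zero
  intro ρ _
  rw [if_neg]
  intro h
  have h2 := congrFun h x
  simp only [er] at h2
  split_ifs at h2 with h1
  · rw [hx] at h2; cases h2
  · rw [hx] at h2; exact h1 h2

/-- the sum over the fibre of `er m` -/
theorem PSB_fibre [Fintype π] [DecidableEq π] [Fintype T] [DecidableEq T] [Fintype A] [DecidableEq A]
    (m : T ⊕ A) (a : (π → Option (T ⊕ A)) → ℝ) (σ : π → Option (T ⊕ A))
    (hσ : ∀ x, σ x ≠ some m) :
    push m a σ = ∑ U ∈ (univ : Finset (Finset π)).filter (fun U => ∀ x ∈ U, σ x = none),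
      a (fun x => if x ∈ U then some m else σ x) := by
  classical
  have hfm : ∀ U : Finset π, fib (fun x => if x ∈ U then some m else σ x) m = U := by
    intro U
    ext x
    simp only [fib, mem_filter, mem_univ, true_and]
    split_ifs with h
    · simp [h]
    · simp [h, hσ x]
  have her : ∀ U : Finset π, (∀ x ∈ U, σ x = none) →
      er m (fun x => if x ∈ U then some m else σ x) = σ := by
    intro U hU
    funext x
    simp only [er]
    by_cases hx : x ∈ U
    · rw [if_pos hx, if_pos rfl, hU x hx]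
    · rw [if_neg hx, if_neg (hσ x)]
  have hfib : ∀ ρ : π → Option (T ⊕ A), er m ρ = σ → ∀ x ∈ fib ρ m, σ x = none := by
    intro ρ hρ x hx
    rw [← hρ]
    have h1 : ρ x = some m := by simpa [fib] using hx
    simp [er, h1]
  have hback : ∀ ρ : π → Option (T ⊕ A), er m ρ = σ →
      (fun x => if x ∈ fib ρ m then some m else σ x) = ρ := by
    intro ρ hρ
    funext x
    by_cases hx : x ∈ fib ρ m
    · have h1 : ρ x = some m := by simpa [fib] using hx
      rw [if_pos hx, h1]
    · have h1 : ρ x ≠ some m := by simpa [fib] using hx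
      rw [if_neg hx, ← hρ]
      simp [er, h1]
  unfold push
  rw [← Finset.sum_filter]
  refine Finset.sum_nbij' (fun ρ => fib ρ m) (fun U x => if x ∈ U then some m else σ x)
    ?_ ?_ ?_ ?_ ?_
  · intro ρ hρ
    rw [mem_filter] at hρ ⊢
    exact ⟨mem_univ _, hfib ρ hρ.2⟩
  · intro U hU
    rw [mem_filter] at hU ⊢
    exact ⟨mem_univ _, her U hU.2⟩
  · intro ρ hρ
    rw [mem_filter] at hρ
    exact hback ρ hρ.2
  · intro U _
    exact hfm U
  · intro ρ hρ
    rw [mem_filter] at hρ
    rw [hback ρ hρ.2]

theorem PSB_key [Fintype π] [DecidableEq π] [Fintype T] [DecidableEq T] [Fintype A] [DecidableEq A]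
    (S : Sys π (T ⊕ A)) (u v : Finset π → ℝ) (D : ℝ) (h : T) (σ : π → Option (T ⊕ A))
    (hσ : ∀ x, σ x ≠ some (Sum.inl h)) (U : Finset π) (hU : ∀ x ∈ U, σ x = none) :
    ab S u v D (fun x => if x ∈ U then some (Sum.inl h) else σ x) =
      ga (rst S Sum.inr) v D (rgt σ) * (∏ t ∈ univ.erase h, gg u (fib (lft σ) t)) *
        (open Classical in if ((rst S Sum.inl).szn (lft σ) : ℝ) * S.wt U ≤ D then gg u U else 0) := by
  classical
  set ρ : π → Option (T ⊕ A) := fun x => if x ∈ U then some (Sum.inl h) else σ x with hρ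
  have hl : lft ρ = fun x => if x ∈ U then some h else lft σ x := by
    funext x
    show ol (ρ x) = _
    rw [hρ]
    by_cases hx : x ∈ U
    · simp only [if_pos hx]
      rfl
    · simp only [if_neg hx]
      rfl
  have hr : rgt ρ = rgt σ := by
    funext x
    show oR (ρ x) = oR (σ x)
    rw [hρ]
    by_cases hx : x ∈ U
    · simp only [if_pos hx]
      rw [hU x hx]
      rfl
    · simp only [if_neg hx]
  have hlU : ∀ x ∈ U, lft σ x = none := by
    intro x hx
    show ol (σ x) = none
    rw [hU x hx]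
    rfl
  have hlh : ∀ x, lft σ x ≠ some h := by
    intro x hx
    apply hσ x
    have h1 : ol (σ x) = some h := hx
    rcases hs : σ x with _ | (t | e)
    · rw [hs] at h1
      cases h1
    · rw [hs] at h1
      have h2 : t = h := Option.some.inj h1
      rw [h2]
    · rw [hs] at h1
      cases h1
  have hfm : fib (fun x => if x ∈ U then some h else lft σ x) h = U := by
    ext x
    simp only [fib, mem_filter, mem_univ, true_and]
    split_ifs with h'
    · simp [h']
    · simp [h', hlh x]
  have hfh : ∀ t, t ≠ h → fib (fun x => if x ∈ U then some h else lft σ x) t = fib (lft σ) t := by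
    intro t ht
    ext x
    simp only [fib, mem_filter, mem_univ, true_and]
    split_ifs with hx
    · rw [hlU x hx]
      simp [Ne.symm ht]
    · rfl
  have hsz : (((rst S Sum.inl).szn (fun x => if x ∈ U then some h else lft σ x) : ℕ) : ℝ) =
      ((rst S Sum.inl).szn (lft σ) : ℝ) * S.wt U := by
    unfold Sys.szn Sys.wt
    rw [Nat.cast_prod, Nat.cast_prod]
    have h1 : ∏ x ∈ U, (S.pr x : ℝ) = ∏ x, (if x ∈ U then (S.pr x : ℝ) else 1) := by
      rw [Finset.prod_ite_mem, Finset.univ_inter]
    rw [h1, ← Finset.prod_mul_distrib]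
    refine Finset.prod_congr rfl ?_
    intro x _
    by_cases hx : x ∈ U
    · simp [hx, hlU x hx, Sys.zl, rst]
    · simp [hx]
  unfold ab
  rw [hr, hl]
  unfold Sys.aa
  rw [hsz]
  by_cases hD : ((rst S Sum.inl).szn (lft σ) : ℝ) * S.wt U ≤ D
  · rw [if_pos hD, if_pos hD, ← Finset.mul_prod_erase univ _ (mem_univ h), hfm]
    have h2 : ∏ t ∈ univ.erase h, gg u (fib (fun x => if x ∈ U then some h else lft σ x) t) =
        ∏ t ∈ univ.erase h, gg u (fib (lft σ) t) := by
      refine Finset.prod_congr rfl ?_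
      intro t ht
      rw [hfh t (Finset.ne_of_mem_erase ht)]
    rw [h2]
    ring
  · rw [if_neg hD, if_neg hD]
    ring

theorem p_PSB (h1 : Stmt_LRS) (h2 : Pool.LGP.Stmt_ACT) : Stmt_PSB := by
  classical
  intro π T A _ _ _ _ _ _ S u v a b C a' b' C' K D z s k Q hR h σ
  have hu := hR.uok
  have hz0 : 0 < z := by linarith [hR.z3]
  have hb : 1 ≤ b := hR.b1.le
  have hD1 : 1 ≤ D := hb.trans hR.bD
  have hD0 : 0 ≤ D := by linarith
  have hlog : 0 ≤ Real.log D := Real.log_nonneg hD1
  have hK := hR.K0
  have hE : 0 ≤ 2 * Real.log D * K / z := by positivity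
  by_cases hex : ∃ x, σ x = some (Sum.inl h)
  · rw [PSB_zero _ _ _ hex]
    refine ⟨?_, fun h => absurd rfl h⟩
    rw [abs_zero]
    apply mul_nonneg (mul_nonneg (Finset.prod_nonneg fun h _ => abs_nonneg _) (abs_nonneg _))
    split_ifs <;> linarith
  have hex' : ∀ x, σ x ≠ some (Sum.inl h) := fun x hx => hex ⟨x, hx⟩
  have hwt : ∀ U : Finset π, 1 ≤ S.wt U := by
    intro U
    unfold Sys.wt
    calc (1 : ℝ) = ∏ x ∈ U, (1 : ℝ) := by rw [Finset.prod_const_one]
      _ ≤ ∏ x ∈ U, (S.pr x : ℝ) :=
        Finset.prod_le_prod (fun _ _ => zero_le_one) (fun x _ => by linarith [hR.z_le x, hR.z3])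
  obtain ⟨s₁, hs₁⟩ : ∃ s₁ : ℝ, s₁ = ((rst S Sum.inl).szn (lft σ) : ℝ) := ⟨_, rfl⟩
  obtain ⟨s₂, hs₂⟩ : ∃ s₂ : ℝ, s₂ = ((rst S Sum.inr).szn (rgt σ) : ℝ) := ⟨_, rfl⟩
  have hs₁0 : 0 ≤ s₁ := by rw [hs₁]; exact Nat.cast_nonneg _
  obtain ⟨Br, hBr⟩ : ∃ Br : ℝ, Br = ∑ U : Finset π,
        if (∀ x ∈ U, σ x = none) ∧ s₁ * S.wt U ≤ D then gg u U else 0 := ⟨_, rfl⟩
  have hpush : push (Sum.inl h) (ab S u v D) σ =
      ga (rst S Sum.inr) v D (rgt σ) * (∏ t ∈ univ.erase h, gg u (fib (lft σ) t)) * Br := by
    rw [PSB_fibre _ _ _ hex', hBr, Finset.mul_sum, Finset.sum_filter]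
    refine Finset.sum_congr rfl fun U _ => ?_
    by_cases hU : ∀ x ∈ U, σ x = none
    · rw [if_pos hU, PSB_key S u v D h σ hex' U hU, ← hs₁]
      congr 1
      by_cases hD : s₁ * S.wt U ≤ D
      · rw [if_pos hD, if_pos ⟨hU, hD⟩]
      · rw [if_neg hD, if_neg (fun h => hD h.2)]
    · rw [if_neg hU, if_neg (fun h => hU h.1), mul_zero]
  have hga : |ga (rst S Sum.inr) v D (rgt σ)| ≤ |∏ e, v (fib (rgt σ) e)| := by
    unfold ga
    split_ifs
    · exact le_rfl
    · rw [abs_zero]
      exact abs_nonneg _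
  have hga0 : D < s₂ → ga (rst S Sum.inr) v D (rgt σ) = 0 := by
    intro h'
    unfold ga
    rw [if_neg]
    rw [← hs₂]
    exact not_le.2 h'
  have hfm : fib (lft σ) h = ∅ := by
    ext x
    simp only [fib, mem_filter, mem_univ, true_and, Finset.notMem_empty, iff_false]
    intro hx
    apply hex' x
    have h1 : ol (σ x) = some h := hx
    rcases hs : σ x with _ | (t | e)
    · rw [hs] at h1
      cases h1
    · rw [hs] at h1
      have h2 : t = h := Option.some.inj h1
      rw [h2]
    · rw [hs] at h1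
      cases h1
  have hprod : ∏ t, |gg u (fib (lft σ) t)| = ∏ t ∈ univ.erase h, |gg u (fib (lft σ) t)| := by
    rw [← Finset.mul_prod_erase univ _ (mem_univ h), hfm]
    simp [gg]
  have hBr0 : D < s₁ → Br = 0 := by
    intro h'
    rw [hBr]
    apply Finset.sum_eq_zero
    intro U _
    rw [if_neg]
    rintro ⟨_, h3⟩
    have h4 : s₁ * 1 ≤ s₁ * S.wt U := mul_le_mul_of_nonneg_left (hwt U) hs₁0
    linarith
  have hBr1 : s₁ ≤ D → Br = ∑ U : Finset π,
      if ¬ ((∀ x ∈ U, σ x = none) ∧ s₁ * S.wt U ≤ D) then u U else 0 := by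
    intro h'
    have e0 : ∀ U : Finset π, (if (∀ x ∈ U, σ x = none) ∧ s₁ * S.wt U ≤ D then gg u U else 0) =
        (if U = ∅ then 1 else 0) - u U +
        (if ¬ ((∀ x ∈ U, σ x = none) ∧ s₁ * S.wt U ≤ D) then u U else 0) := by
      intro U
      by_cases hU : U = ∅
      · subst hU
        have hc : (∀ x ∈ (∅ : Finset π), σ x = none) ∧ s₁ * S.wt ∅ ≤ D := by
          refine ⟨by simp, ?_⟩
          simpa [Sys.wt] using h'
        rw [if_pos hc, if_neg (not_not.mpr hc), if_pos rfl, hu.empty]
        simp [gg]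
      · have hg : gg u U = - u U := by simp [gg, hU]
        by_cases hc : (∀ x ∈ U, σ x = none) ∧ s₁ * S.wt U ≤ D
        · rw [if_pos hc, if_neg (not_not.mpr hc), if_neg hU, hg]
          ring
        · rw [if_neg hc, if_pos hc, if_neg hU]
          ring
    rw [hBr, Finset.sum_congr rfl (fun U _ => e0 U), Finset.sum_add_distrib,
      Finset.sum_sub_distrib, hu.mass]
    simp
  have hnn : ∀ U : Finset π, 0 ≤
      (if ¬ ((∀ x ∈ U, σ x = none) ∧ s₁ * S.wt U ≤ D) then u U else 0) := by
    intro U
    split_ifs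
    · exact le_rfl
    · exact hu.nonneg U
  have hact : s₁ ≤ D → s₂ ≤ D → (act σ : ℝ) ≤ 2 * Real.log D := by
    intro h3 h4
    have h5 := h2 π T (rst S Sum.inl) D (fun x => hR.z3.trans (hR.z_le x)) (lft σ) (by rw [← hs₁]; exact h3)
    have h6 := h2 π A (rst S Sum.inr) D (fun x => hR.z3.trans (hR.z_le x)) (rgt σ) (by rw [← hs₂]; exact h4)
    rw [(h1 π T A S σ).2.2.1]
    push_cast
    linarith
  have hmain : s₂ ≤ D → |Br| ≤ 2 * Real.log D * K / z +
      (if D / b < s₁ then 1 else 0) := by
    intro hs2D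
    by_cases hs : D < s₁
    · rw [hBr0 hs, abs_zero]
      split_ifs <;> linarith
    · rw [not_lt] at hs
      have hBrnn : 0 ≤ Br := by
        rw [hBr1 hs]
        exact Finset.sum_nonneg fun U _ => hnn U
      rw [abs_of_nonneg hBrnn]
      by_cases hs2 : D / b < s₁
      · rw [if_pos hs2]
        have h5 : Br ≤ 1 := by
          rw [hBr1 hs, ← hu.mass]
          refine Finset.sum_le_sum fun U _ => ?_
          split_ifs
          · exact hu.nonneg U
          · exact le_rfl
        linarith
      · rw [if_neg hs2, add_zero]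
        rw [not_lt] at hs2
        have hact' := hact hs hs2D
        have h6 : Br ≤ ∑ x : π, ((al (σ x) : ℕ) : ℝ) *
            ∑ U : Finset π, (if x ∈ U then u U else 0) := by
          rw [hBr1 hs]
          simp_rw [Finset.mul_sum]
          rw [Finset.sum_comm]
          refine Finset.sum_le_sum fun U _ => ?_
          have hterm : ∀ x : π, 0 ≤ ((al (σ x) : ℕ) : ℝ) * (if x ∈ U then u U else 0) := by
            intro x
            apply mul_nonneg (Nat.cast_nonneg _)
            split_ifs
            · exact hu.nonneg U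
            · exact le_rfl
          split_ifs with hc
          · exact Finset.sum_nonneg fun x _ => hterm x
          · by_cases huU : u U = 0
            · rw [huU] at hterm ⊢
              exact Finset.sum_nonneg fun x _ => hterm x
            · have h7 : s₁ * S.wt U ≤ D := by
                have h8 := hu.hi U huU
                have hb0 : 0 < b := by linarith
                calc s₁ * S.wt U ≤ (D / b) * b :=
                      mul_le_mul hs2 h8 (by linarith [hwt U]) (by positivity)
                  _ = D := by field_simp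
              have h9 : ∃ x ∈ U, σ x ≠ none := by
                by_contra hcon
                apply hc
                refine ⟨fun x hx => ?_, h7⟩
                by_contra h10
                exact hcon ⟨x, hx, h10⟩
              obtain ⟨x, hx, hxn⟩ := h9
              have h11 : u U ≤ ((al (σ x) : ℕ) : ℝ) * (if x ∈ U then u U else 0) := by
                obtain ⟨h, hh⟩ := Option.ne_none_iff_exists'.mp hxn
                rw [hh, if_pos hx]
                simp [al]
              exact h11.trans (Finset.single_le_sum (f := fun x : π =>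
                ((al (σ x) : ℕ) : ℝ) * (if x ∈ U then u U else 0))
                (fun x _ => hterm x) (mem_univ x))
        have h12 : ∑ x : π, ((al (σ x) : ℕ) : ℝ) *
            ∑ U : Finset π, (if x ∈ U then u U else 0) ≤
            ∑ x : π, ((al (σ x) : ℕ) : ℝ) * (K / z) := by
          refine Finset.sum_le_sum fun x _ => ?_
          apply mul_le_mul_of_nonneg_left _ (Nat.cast_nonneg _)
          exact (hu.div x).trans (div_le_div_of_nonneg_left hK hz0 (hR.z_le x))
        have h13 : ∑ x : π, ((al (σ x) : ℕ) : ℝ) * (K / z) = (act σ : ℝ) * (K / z) := by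
          rw [← Finset.sum_mul, act, Nat.cast_sum]
        have h14 : (act σ : ℝ) * (K / z) ≤ 2 * Real.log D * (K / z) :=
          mul_le_mul_of_nonneg_right hact' (by positivity)
        have h15 : 2 * Real.log D * (K / z) = 2 * Real.log D * K / z := by ring
        linarith
  rw [← hs₁]
  refine ⟨?_, ?_⟩
  · by_cases hs2D : s₂ ≤ D
    · rw [hpush, abs_mul, abs_mul, Finset.abs_prod, hprod]
      have h3 : |ga (rst S Sum.inr) v D (rgt σ)| * ∏ t ∈ univ.erase h, |gg u (fib (lft σ) t)| ≤
          (∏ t ∈ univ.erase h, |gg u (fib (lft σ) t)|) * |∏ e, v (fib (rgt σ) e)| := by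
        rw [mul_comm]
        exact mul_le_mul_of_nonneg_left hga (Finset.prod_nonneg fun h _ => abs_nonneg _)
      exact mul_le_mul h3 (hmain hs2D) (abs_nonneg _)
        (mul_nonneg (Finset.prod_nonneg fun h _ => abs_nonneg _) (abs_nonneg _))
    · rw [hpush, hga0 (not_le.1 hs2D), zero_mul, zero_mul, abs_zero]
      apply mul_nonneg (mul_nonneg (Finset.prod_nonneg fun h _ => abs_nonneg _) (abs_nonneg _))
      split_ifs <;> linarith
  · intro hne
    apply hact
    · by_contra hcon
      rw [not_le] at hcon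
      apply hne
      rw [hpush, hBr0 hcon, mul_zero]
    · by_contra hcon
      rw [not_le] at hcon
      apply hne
      rw [hpush, hga0 hcon, zero_mul, zero_mul]

end Pool.LGR
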