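import Pool.Agent.Work.MP_b0c12c_rp.Interface

/-! # Block PSG: erasing the label `inr e` (helper14) -/

set_option autoImplicit false

namespace Pool.LGR

open Finset Filter
open Pool.LGP Pool.LGC

section

variable {π T A : Type}

/-- embedding of the labels -/
def PSG_em (e : A) : Option (T ⊕ {a : A // a ≠ e}) → Option (T ⊕ A)
  | none => none
  | some (Sum.inl t) => some (Sum.inl t)
  | some (Sum.inr a) => some (Sum.inr a.1)

/-- forget the label `inr e` -/
def PSG_dn [DecidableEq A] (e : A) : Option (T ⊕ A) → Option (T ⊕ {a : A // a ≠ e})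
  | none => none
  | some (Sum.inl t) => some (Sum.inl t)
  | some (Sum.inr a) => if h : a = e then none else some (Sum.inr ⟨a, h⟩)

/-- put the label `inr e` on `U` -/
def PSG_md [DecidableEq π] (e : A) (σ : π → Option (T ⊕ {a : A // a ≠ e})) (U : Finset π) :
    π → Option (T ⊕ A) :=
  fun x => if x ∈ U then some (Sum.inr e) else PSG_em e (σ x)

theorem PSG_dn_em [DecidableEq A] (e : A) (o : Option (T ⊕ {a : A // a ≠ e})) :
    PSG_dn e (PSG_em e o) = o := by
  rcases o with _ | (t | a)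
  · rfl
  · rfl
  · simp only [PSG_em, PSG_dn]
    rw [dif_neg a.2]

theorem PSG_em_dn [DecidableEq A] (e : A) (o : Option (T ⊕ A)) (ho : o ≠ some (Sum.inr e)) :
    PSG_em e (PSG_dn e o) = o := by
  rcases o with _ | (t | a)
  · rfl
  · rfl
  · have h : a ≠ e := by
      intro h
      exact ho (by rw [h])
    simp only [PSG_dn]
    rw [dif_neg h]
    rfl

theorem PSG_em_ne (e : A) (o : Option (T ⊕ {a : A // a ≠ e})) :
    PSG_em e o ≠ some (Sum.inr e) := by
  rcases o with _ | (t | a)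
  · simp [PSG_em]
  · simp [PSG_em]
  · intro h
    simp only [PSG_em, Option.some.injEq, Sum.inr.injEq] at h
    exact a.2 h

variable [DecidableEq π]

theorem PSG_lft (e : A) (σ : π → Option (T ⊕ {a : A // a ≠ e})) (U : Finset π)
    (hU : ∀ x ∈ U, σ x = none) : lft (PSG_md e σ U) = lft σ := by
  funext x
  unfold lft PSG_md
  by_cases hx : x ∈ U
  · rw [if_pos hx, hU x hx]
    rfl
  · rw [if_neg hx]
    rcases σ x with _ | (t | a)
    · rfl
    · rfl
    · rfl

variable [Fintype π] [DecidableEq A]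

theorem PSG_fib_self (e : A) (σ : π → Option (T ⊕ {a : A // a ≠ e})) (U : Finset π) :
    fib (rgt (PSG_md e σ U)) e = U := by
  ext x
  rw [fib, mem_filter]
  unfold rgt PSG_md
  by_cases hx : x ∈ U
  · rw [if_pos hx]
    simp [oR, hx]
  · rw [if_neg hx]
    have h1 : oR (PSG_em e (σ x)) ≠ some e := by
      rcases σ x with _ | (t | a)
      · simp [PSG_em, oR]
      · simp [PSG_em, oR]
      · intro h
        simp only [PSG_em, oR, Option.some.injEq] at h
        exact a.2 h
    simp [h1, hx]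

theorem PSG_fib_ne (e : A) (σ : π → Option (T ⊕ {a : A // a ≠ e})) (U : Finset π)
    (hU : ∀ x ∈ U, σ x = none) (a : {a : A // a ≠ e}) :
    fib (rgt (PSG_md e σ U)) a.1 = fib (rgt σ) a := by
  ext x
  rw [fib, fib, mem_filter, mem_filter]
  unfold rgt PSG_md
  by_cases hx : x ∈ U
  · rw [if_pos hx, hU x hx]
    have h1 : e ≠ a.1 := Ne.symm a.2
    simp [oR, h1]
  · rw [if_neg hx]
    rcases σ x with _ | (t | b)
    · simp [PSG_em, oR]
    · simp [PSG_em, oR]
    · simp only [PSG_em, oR, Option.some.injEq, mem_univ, true_and]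
      exact ⟨fun h => Subtype.ext h, fun h => congrArg Subtype.val h⟩

omit [DecidableEq A] in
theorem PSG_szn (S : Sys π (T ⊕ A)) (e : A) (σ : π → Option (T ⊕ {a : A // a ≠ e}))
    (U : Finset π) (hU : ∀ x ∈ U, σ x = none) :
    (((rst S Sum.inr).szn (rgt (PSG_md e σ U)) : ℕ) : ℝ) =
      (((rst (drp S e) Sum.inr).szn (rgt σ) : ℕ) : ℝ) * (drp S e).wt U := by
  unfold Sys.szn Sys.wt
  rw [Nat.cast_prod, Nat.cast_prod]
  have h1 : ∏ x ∈ U, ((drp S e).pr x : ℝ) = ∏ x, (if x ∈ U then ((drp S e).pr x : ℝ) else 1) := by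
    rw [Finset.prod_ite_mem, Finset.univ_inter]
  rw [h1, ← Finset.prod_mul_distrib]
  refine Finset.prod_congr rfl ?_
  intro x _
  unfold rgt PSG_md
  by_cases hx : x ∈ U
  · rw [if_pos hx, if_pos hx, hU x hx]
    simp only [oR, Sys.zl]
    rw [Nat.cast_one, one_mul]
    rfl
  · rw [if_neg hx, if_neg hx, mul_one]
    rcases σ x with _ | (t | a)
    · rfl
    · rfl
    · rfl

omit [DecidableEq A] in
theorem PSG_psi (S : Sys π (T ⊕ A)) (e : A) (σ : π → Option (T ⊕ {a : A // a ≠ e}))
    (U : Finset π) (hU : ∀ x ∈ U, σ x = none) (y : ℕ) (hy : ∀ x, ¬ S.pr x ∣ S.N (Sum.inr e) y) :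
    S.psi (PSG_md e σ U) y = (drp S e).psi σ y := by
  unfold Sys.psi
  refine Finset.prod_congr rfl ?_
  intro x _
  unfold PSG_md
  by_cases hx : x ∈ U
  · rw [if_pos hx, hU x hx]
    simp only [Sys.loc]
    rw [if_neg (hy x)]
  · rw [if_neg hx]
    rcases σ x with _ | (t | a)
    · rfl
    · rfl
    · rfl

theorem PSG_prod [Fintype A] (v : Finset π → ℝ) (e : A)
    (σ : π → Option (T ⊕ {a : A // a ≠ e})) (U : Finset π) (hU : ∀ x ∈ U, σ x = none) :
    ∏ a, v (fib (rgt (PSG_md e σ U)) a) = v U * ∏ a, v (fib (rgt σ) a) := by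
  rw [← Finset.mul_prod_erase univ _ (mem_univ e), PSG_fib_self]
  rw [Finset.prod_subtype (p := fun a => a ≠ e) (univ.erase e) (by simp)]
  refine congrArg (v U * ·) (Finset.prod_congr rfl ?_)
  intro a _
  rw [PSG_fib_ne e σ U hU a]

end

theorem p_PSG : Stmt_PSG := by
  classical
  intro π T A _ _ _ _ _ _ S u v D e y hy
  unfold FF
  have hR : ∀ σ : π → Option (T ⊕ {a : A // a ≠ e}),
      bb (drp S e) u v D σ * (drp S e).psi σ y =
      ∑ U : Finset π, (if (∀ x ∈ U, σ x = none) then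
        ab S u v D (PSG_md e σ U) * S.psi (PSG_md e σ U) y else 0) := by
    intro σ
    rw [bb, cv, Finset.mul_sum, Finset.mul_sum, Finset.sum_mul]
    refine Finset.sum_congr rfl ?_
    intro U _
    by_cases hU : ∀ x ∈ U, σ x = none
    · rw [if_pos hU, PSG_psi S e σ U hU y hy, ab, ga, PSG_lft e σ U hU, PSG_szn S e σ U hU,
        PSG_prod v e σ U hU]
      have e1 : (rst (drp S e) Sum.inl).aa u D (lft σ) = (rst S Sum.inl).aa u D (lft σ) := rfl
      rw [e1]
      by_cases hs : (((rst (drp S e) Sum.inr).szn (rgt σ) : ℕ) : ℝ) * (drp S e).wt U ≤ D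
      · rw [if_pos hs, if_pos ⟨hU, hs⟩]
        ring
      · rw [if_neg hs, if_neg (fun h => hs h.2)]
        ring
    · rw [if_neg hU, if_neg (fun h => hU h.1)]
      ring
  rw [Finset.sum_congr rfl (fun σ _ => hR σ)]
  rw [← Finset.sum_product' univ univ (fun σ U => if (∀ x ∈ U, σ x = none) then
        ab S u v D (PSG_md e σ U) * S.psi (PSG_md e σ U) y else 0), ← Finset.sum_filter]
  symm
  refine Finset.sum_nbij' (fun p => PSG_md e p.1 p.2)
    (fun ρ => ((fun x => PSG_dn e (ρ x)), fib ρ (Sum.inr e))) ?_ ?_ ?_ ?_ ?_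
  · intro p _
    exact mem_univ _
  · intro ρ _
    rw [mem_filter]
    refine ⟨mem_product.2 ⟨mem_univ _, mem_univ _⟩, ?_⟩
    intro x hx
    have h1 : ρ x = some (Sum.inr e) := (mem_filter.1 hx).2
    show PSG_dn e (ρ x) = none
    rw [h1]
    simp [PSG_dn]
  · rintro ⟨σ, U⟩ hp
    have hU : ∀ x ∈ U, σ x = none := (mem_filter.1 hp).2
    refine Prod.ext ?_ ?_
    · funext x
      show PSG_dn e (PSG_md e σ U x) = σ x
      unfold PSG_md
      by_cases hx : x ∈ U
      · rw [if_pos hx, hU x hx]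
        simp [PSG_dn]
      · rw [if_neg hx]
        exact PSG_dn_em e _
    · show fib (PSG_md e σ U) (Sum.inr e) = U
      ext x
      rw [fib, mem_filter]
      unfold PSG_md
      by_cases hx : x ∈ U
      · rw [if_pos hx]
        simp [hx]
      · rw [if_neg hx]
        simp [hx, PSG_em_ne]
  · intro ρ _
    funext x
    show PSG_md e (fun x => PSG_dn e (ρ x)) (fib ρ (Sum.inr e)) x = ρ x
    unfold PSG_md
    by_cases hx : x ∈ fib ρ (Sum.inr e)
    · rw [if_pos hx]
      exact ((mem_filter.1 hx).2).symm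
    · rw [if_neg hx]
      refine PSG_em_dn e _ ?_
      intro h
      exact hx (mem_filter.2 ⟨mem_univ _, h⟩)
  · intro p _
    rfl

end Pool.LGR
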