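import Pool.Agent.Work.MP_b0c12c_rp.Interface

set_option autoImplicit false

namespace Pool.LGR

open Finset Filter
open Pool.LGP Pool.LGC

theorem RCB_neg (p r v x : ℕ) (hp : 1 ≤ p) (hv : v ≡ (p - 1) * r [MOD p]) :
    p ∣ v + x ↔ x ≡ r [MOD p] := by
  have h1 : v + r ≡ 0 [MOD p] := by
    have h2 : (p - 1) * r + r = p * r := by
      obtain ⟨q, rfl⟩ : ∃ q, p = q + 1 := ⟨p - 1, by omega⟩
      simp only [Nat.add_sub_cancel]
      ring
    have h3 : v + r ≡ (p - 1) * r + r [MOD p] := hv.add_right r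
    rw [h2] at h3
    exact h3.trans (Nat.modEq_zero_iff_dvd.mpr (Dvd.intro _ rfl))
  rw [← Nat.modEq_zero_iff_dvd]
  constructor
  · intro h
    exact Nat.ModEq.add_left_cancel' v (h.trans h1.symm)
  · intro h
    exact (h.add_left v).trans h1

theorem RCB_omega (n : ℕ) (hn : n ≠ 0) : n.primeFactors.card ≤ Nat.log 2 n := by
  apply (Nat.le_log_iff_pow_le (by norm_num) hn).mpr
  calc 2 ^ n.primeFactors.card = ∏ p ∈ n.primeFactors, 2 := by rw [Finset.prod_const]
    _ ≤ ∏ p ∈ n.primeFactors, p := Finset.prod_le_prod' (fun p hp =>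
        (Nat.prime_of_mem_primeFactors hp).two_le)
    _ ≤ n := Nat.le_of_dvd (Nat.pos_of_ne_zero hn) (Nat.prod_primeFactors_dvd n)

theorem RCB_dvdprim (p w : ℕ) (hp : p.Prime) (hpw : p ≤ w) : p ∣ primorial w := by
  unfold primorial
  apply Finset.dvd_prod_of_mem (fun p => p)
  rw [Finset.mem_filter, Finset.mem_range]
  exact ⟨by omega, hp⟩

theorem RCB_surv (p w v h : ℕ) (hp : p.Prime) (hpw : p ≤ w)
    (hc : (v + h).Coprime (primorial w)) : ¬ p ∣ v + h := by
  intro hd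
  have h1 : p ∣ Nat.gcd (v + h) (primorial w) := Nat.dvd_gcd hd (RCB_dvdprim p w hp hpw)
  rw [hc] at h1
  exact hp.one_lt.ne' (Nat.dvd_one.mp h1)

/-- The number of survivors. -/
theorem RCB_count (K w H p₁ s v : ℕ) (y : ℝ) (a : Fin K → ℕ) (r : ℕ → ℕ) (Q : Finset ℕ) (B : ℝ)
    (hy : (K : ℝ) + 1 ≤ y) (hyw : y ≤ w) (hs1 : 1 ≤ s) (hs : ∀ i, s + a i ≤ H)
    (hQw : ∀ q ∈ Q, q.Prime ∧ q ≤ w)
    (hQ : (((Tz K H w y).filter (fun n => ∀ q ∈ Q, ¬ n ≡ r q [MOD q])).card : ℝ) ≤ B)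
    (hv1 : ∀ p : ℕ, p.Prime → p ≤ K + 1 → v ≡ 0 [MOD p])
    (hv2 : ∀ p ∈ Q, v ≡ (p - 1) * r p [MOD p])
    (hv3 : ∀ p : ℕ, p.Prime → y < p → p ≤ w → p ≠ p₁ → (∀ i, ¬ p ∣ s + a i) →
      v ≡ 0 [MOD p]) :
    (((Icc 1 H).filter (fun h => (v + h).Coprime (primorial w))).card : ℝ) ≤
      B + ((K : ℝ) * Nat.log 2 H + 1) * (H / y) := by
  classical
  have hKw : K + 1 ≤ w := by
    have : ((K + 1 : ℕ) : ℝ) ≤ w := by push_cast; linarith
    exact_mod_cast this
  have hy0 : 0 < y := by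
    have : (0 : ℝ) ≤ K := by positivity
    linarith
  set Dr : Finset ℕ := (insert p₁ ((univ : Finset (Fin K)).biUnion
    (fun i => (s + a i).primeFactors))).filter (fun p => y < (p : ℝ)) with hDr
  have hDrcard : Dr.card ≤ K * Nat.log 2 H + 1 := by
    refine le_trans (Finset.card_filter_le _ _) (le_trans (Finset.card_insert_le _ _) ?_)
    refine Nat.add_le_add_right ?_ 1
    refine le_trans Finset.card_biUnion_le ?_
    refine le_trans (Finset.sum_le_sum (fun i _ => ?_)) (b := ∑ i : Fin K, Nat.log 2 H) ?_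
    · exact le_trans (RCB_omega _ (by omega)) (Nat.log_mono_right (hs i))
    · simp
  have hsub : (Icc 1 H).filter (fun h => (v + h).Coprime (primorial w)) ⊆
      (Tz K H w y).filter (fun n => ∀ q ∈ Q, ¬ n ≡ r q [MOD q]) ∪
        Dr.biUnion (fun p => (Ioc 0 H).filter (fun h => p ∣ h)) := by
    intro h hh
    rw [Finset.mem_filter] at hh
    obtain ⟨hh1, hh2⟩ := hh
    rw [Finset.mem_union]
    by_cases hT : h ∈ Tz K H w y
    · left
      rw [Finset.mem_filter]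
      refine ⟨hT, fun q hq hhq => ?_⟩
      obtain ⟨hq1, hq2⟩ := hQw q hq
      exact RCB_surv q w v h hq1 hq2 hh2 ((RCB_neg q (r q) v h hq1.one_le (hv2 q hq)).mpr hhq)
    · right
      have hT' : ¬ ((∀ p : ℕ, p.Prime → p ≤ K + 1 → ¬ p ∣ h) ∧
          ∀ p : ℕ, p.Prime → y < p → p ≤ w → ¬ p ∣ h) := by
        intro hc
        apply hT
        unfold Tz
        rw [Finset.mem_filter]
        exact ⟨hh1, hc⟩
      have hsm : ∀ p : ℕ, p.Prime → p ≤ K + 1 → ¬ p ∣ h := by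
        intro p hp hpK hph
        have h1 : p ∣ v := (Nat.modEq_zero_iff_dvd).mp (hv1 p hp hpK)
        exact RCB_surv p w v h hp (by omega) hh2 (dvd_add h1 hph)
      have hbig : ∃ p : ℕ, p.Prime ∧ y < p ∧ p ≤ w ∧ p ∣ h := by
        by_contra hno
        apply hT'
        refine ⟨hsm, fun p hp hpy hpw hph => hno ⟨p, hp, hpy, hpw, hph⟩⟩
      obtain ⟨p, hp, hpy, hpw, hph⟩ := hbig
      rw [Finset.mem_biUnion]
      refine ⟨p, ?_, ?_⟩
      · rw [hDr, Finset.mem_filter, Finset.mem_insert, Finset.mem_biUnion]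
        refine ⟨?_, hpy⟩
        by_contra hno
        push Not at hno
        obtain ⟨hno1, hno2⟩ := hno
        have h2 : ∀ i, ¬ p ∣ s + a i := by
          intro i hd
          apply hno2 i (Finset.mem_univ _)
          rw [Nat.mem_primeFactors]
          exact ⟨hp, hd, by omega⟩
        have h3 : p ∣ v := (Nat.modEq_zero_iff_dvd).mp (hv3 p hp hpy hpw hno1 h2)
        exact RCB_surv p w v h hp hpw hh2 (dvd_add h3 hph)
      · rw [Finset.mem_filter, Finset.mem_Ioc]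
        rw [Finset.mem_Icc] at hh1
        exact ⟨⟨by omega, hh1.2⟩, hph⟩
  have h1 := le_trans (Finset.card_le_card hsub) (Finset.card_union_le _ _)
  have h2 : ((Dr.biUnion (fun p => (Ioc 0 H).filter (fun h => p ∣ h))).card : ℝ) ≤
      ((K : ℝ) * Nat.log 2 H + 1) * (H / y) := by
    have h3 : (Dr.biUnion (fun p => (Ioc 0 H).filter (fun h => p ∣ h))).card ≤
        ∑ p ∈ Dr, H / p := by
      refine le_trans Finset.card_biUnion_le (Finset.sum_le_sum (fun p _ => ?_))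
      rw [Nat.Ioc_filter_dvd_card_eq_div]
    have h4 : ((∑ p ∈ Dr, H / p : ℕ) : ℝ) ≤ ∑ p ∈ Dr, (H : ℝ) / y := by
      push_cast
      apply Finset.sum_le_sum
      intro p hp
      have hpy : y < (p : ℝ) := (Finset.mem_filter.mp hp).2
      refine le_trans Nat.cast_div_le ?_
      gcongr
    rw [Finset.sum_const, nsmul_eq_mul] at h4
    have h5 : (Dr.card : ℝ) ≤ (K : ℝ) * Nat.log 2 H + 1 := by exact_mod_cast hDrcard
    calc ((Dr.biUnion (fun p => (Ioc 0 H).filter (fun h => p ∣ h))).card : ℝ)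
        ≤ ((∑ p ∈ Dr, H / p : ℕ) : ℝ) := by exact_mod_cast h3
      _ ≤ Dr.card * ((H : ℝ) / y) := h4
      _ ≤ _ := mul_le_mul_of_nonneg_right h5 (by positivity)
  have h3 : (((Icc 1 H).filter (fun h => (v + h).Coprime (primorial w))).card : ℝ) ≤
      (((Tz K H w y).filter (fun n => ∀ q ∈ Q, ¬ n ≡ r q [MOD q])).card : ℝ) +
        ((Dr.biUnion (fun p => (Ioc 0 H).filter (fun h => p ∣ h))).card : ℝ) := by
    exact_mod_cast h1
  linarith

/-- The class of `v` modulo the primes up to `w` other than `p₁`. -/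
theorem RCB_core (hGRW : Stmt_GRW) (hCRX : Stmt_CRX) (C : ℝ) (K H₀ : ℕ)
    (hAVS : ∀ (R : Finset ℕ) (H c : ℕ) (A : Finset ℕ) (a : Fin K → ℕ),
      (∀ p ∈ R, p.Prime ∧ K + 1 < p) → H₀ ≤ H → A ⊆ Icc 1 H → (∀ i, 6 * a i ≤ H) →
      ∃ s : ℕ, H ≤ 3 * s ∧ 2 * s ≤ H ∧ s ≡ c [MOD primorial (K + 1)] ∧
      ∑ h ∈ A, ∏ p ∈ R, (open Classical in
        if ∃ i, h ≡ s + a i [MOD p] then 1 else 1 - 1 / (p : ℝ)) ≤ K + C * (A.card * Pi' R))
    (hC : 0 < C) (w H p₁ : ℕ) (y : ℝ) (hy : (K : ℝ) + 1 ≤ y) (hyw : y ≤ w) (hH₀ : H₀ ≤ H)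
    (hH : 1 ≤ H) (hp₁ : p₁ = 0 ∨ K + 1 < p₁)
    (a : Fin K → ℕ) (ha : ∀ i, 6 * a i ≤ H)
    (had : ∀ p : ℕ, p.Prime → ∃ r : ℕ, ∀ i, ¬ a i ≡ r [MOD p]) :
    ∃ s v' : ℕ, H ≤ 3 * s ∧ 2 * s ≤ H ∧ v' < primorial w ∧
      (∀ p : ℕ, p.Prime → p ≤ w → p ≠ p₁ → ∀ i, ¬ p ∣ v' + (s + a i)) ∧
      ∀ v : ℕ, (∀ p : ℕ, p.Prime → p ≤ w → p ≠ p₁ → v ≡ v' [MOD p]) →
      (((Icc 1 H).filter (fun h => (v + h).Coprime (primorial w))).card : ℝ) ≤
        K + 2 * C * ((Tz K H w y).card *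
          Pi' (((Icc 1 ⌊y⌋₊).filter Nat.Prime).filter (fun p => K + 1 < p))) +
          ((K : ℝ) * Nat.log 2 H + 1) * (H / y) := by
  classical
  have hy0 : 0 < y := by
    have : (0 : ℝ) ≤ K := by positivity
    linarith
  have hKw : K + 1 ≤ w := by
    have : ((K + 1 : ℕ) : ℝ) ≤ w := by push_cast; linarith
    exact_mod_cast this
  choose! ρ hρ using had
  set full : Finset ℕ := ((Icc 1 ⌊y⌋₊).filter Nat.Prime).filter (fun p => K + 1 < p) with hfull
  set Q : Finset ℕ := full.erase p₁ with hQ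
  have hfullmem : ∀ p, p ∈ full ↔ p.Prime ∧ (p : ℝ) ≤ y ∧ K + 1 < p := by
    intro p
    rw [hfull, Finset.mem_filter, Finset.mem_filter, Finset.mem_Icc, Nat.le_floor_iff hy0.le]
    constructor
    · rintro ⟨⟨⟨h1, h2⟩, h3⟩, h4⟩
      exact ⟨h3, h2, h4⟩
    · rintro ⟨h1, h2, h3⟩
      exact ⟨⟨⟨h1.one_le, h2⟩, h1⟩, h3⟩
  have hQp : ∀ p ∈ Q, p.Prime ∧ K + 1 < p := fun p hp => by
    have := (hfullmem p).mp (Finset.mem_of_mem_erase hp)
    exact ⟨this.1, this.2.2⟩
  have hQw : ∀ p ∈ Q, p.Prime ∧ p ≤ w := fun p hp => by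
    have := (hfullmem p).mp (Finset.mem_of_mem_erase hp)
    refine ⟨this.1, ?_⟩
    have h1 : (p : ℝ) ≤ w := le_trans this.2.1 hyw
    exact_mod_cast h1
  obtain ⟨c, -, hc⟩ := hCRX (K + 1) (fun p => (p - 1) * ρ p)
  have hTz : Tz K H w y ⊆ Icc 1 H := Finset.filter_subset _ _
  obtain ⟨s, hs1, hs2, hs3, hs4⟩ := hAVS Q H c (Tz K H w y) a hQp hH₀ hTz ha
  have hspos : 1 ≤ s := by omega
  have hsH : ∀ i, s + a i ≤ H := fun i => by
    have := ha i
    omega
  set E : Finset ℕ := (univ : Finset (Fin K)).image (fun i => s + a i) with hE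
  have hEmem : ∀ i, s + a i ∈ E := fun i => Finset.mem_image_of_mem _ (Finset.mem_univ i)
  obtain ⟨r, hr1, hr2⟩ := hGRW E (Tz K H w y) Q (fun q hq => by
    obtain ⟨hq1, hq2⟩ := hQp q hq
    refine ⟨hq1.two_le, s + ρ q, ?_⟩
    intro e he
    rw [hE, Finset.mem_image] at he
    obtain ⟨i, -, rfl⟩ := he
    intro hcon
    exact hρ q hq1 i (Nat.ModEq.add_left_cancel' s hcon))
  set cls : ℕ → ℕ := fun p => if p ≤ K + 1 then 0 else if (p : ℝ) ≤ y then (p - 1) * r p else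
    if ∃ i, p ∣ s + a i then (p - 1) * (s + ρ p) else 0 with hcls
  obtain ⟨v', hv'1, hv'2⟩ := hCRX w cls
  -- properties of the classes
  have hc1 : ∀ p : ℕ, p.Prime → p ≤ K + 1 → v' ≡ 0 [MOD p] := by
    intro p hp hpK
    have h1 := hv'2 p hp (by omega)
    simp only [hcls, if_pos hpK] at h1
    exact h1
  have hc2 : ∀ p ∈ Q, v' ≡ (p - 1) * r p [MOD p] := by
    intro p hp
    have h0 := (hfullmem p).mp (Finset.mem_of_mem_erase hp)
    have h1 := hv'2 p h0.1 (hQw p hp).2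
    simp only [hcls] at h1
    rw [if_neg (by omega : ¬ p ≤ K + 1), if_pos h0.2.1] at h1
    exact h1
  have hc3 : ∀ p : ℕ, p.Prime → y < p → p ≤ w → (∀ i, ¬ p ∣ s + a i) → v' ≡ 0 [MOD p] := by
    intro p hp hpy hpw hnd
    have h1 := hv'2 p hp hpw
    have hK : ¬ p ≤ K + 1 := by
      intro hle
      have : ((p : ℕ) : ℝ) ≤ ((K + 1 : ℕ) : ℝ) := by exact_mod_cast hle
      push_cast at this
      linarith
    simp only [hcls] at h1
    rw [if_neg hK, if_neg (by linarith), if_neg (by push Not; exact hnd)] at h1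
    exact h1
  have hc4 : ∀ p : ℕ, p.Prime → y < p → p ≤ w → (∃ i, p ∣ s + a i) →
      v' ≡ (p - 1) * (s + ρ p) [MOD p] := by
    intro p hp hpy hpw hd
    have h1 := hv'2 p hp hpw
    have hK : ¬ p ≤ K + 1 := by
      intro hle
      have : ((p : ℕ) : ℝ) ≤ ((K + 1 : ℕ) : ℝ) := by exact_mod_cast hle
      push_cast at this
      linarith
    simp only [hcls] at h1
    rw [if_neg hK, if_neg (by linarith), if_pos hd] at h1
    exact h1
  refine ⟨s, v', hs1, hs2, hv'1, ?_, ?_⟩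
  · intro p hp hpw hne i hd
    by_cases hpK : p ≤ K + 1
    · have h1 : p ∣ v' := Nat.modEq_zero_iff_dvd.mp (hc1 p hp hpK)
      have h2 : p ∣ s + a i := (Nat.dvd_add_right h1).mp hd
      have h3 : s ≡ (p - 1) * ρ p [MOD p] :=
        (hs3.of_dvd (RCB_dvdprim p (K + 1) hp hpK)).trans (hc p hp hpK)
      exact hρ p hp i ((RCB_neg p (ρ p) s (a i) hp.one_le h3).mp h2)
    · push Not at hpK
      by_cases hpy : (p : ℝ) ≤ y
      · have hpQ : p ∈ Q := Finset.mem_erase.mpr ⟨hne, (hfullmem p).mpr ⟨hp, hpy, hpK⟩⟩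
        exact hr1 p hpQ (s + a i) (hEmem i)
          ((RCB_neg p (r p) v' (s + a i) hp.one_le (hc2 p hpQ)).mp hd)
      · push Not at hpy
        by_cases hdr : ∃ i, p ∣ s + a i
        · have h1 := (RCB_neg p (s + ρ p) v' (s + a i) hp.one_le (hc4 p hp hpy hpw hdr)).mp hd
          exact hρ p hp i (Nat.ModEq.add_left_cancel' s h1)
        · push Not at hdr
          have h1 : p ∣ v' := Nat.modEq_zero_iff_dvd.mp (hc3 p hp hpy hpw hdr)
          exact hdr i ((Nat.dvd_add_right h1).mp hd)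
  · intro v hv
    have hne1 : ∀ p : ℕ, p.Prime → p ≤ K + 1 → p ≠ p₁ := by
      intro p hp hpK hpe
      rcases hp₁ with h0 | h0
      · rw [hpe, h0] at hp
        exact Nat.not_prime_zero hp
      · omega
    have hB : (((Tz K H w y).filter (fun n => ∀ q ∈ Q, ¬ n ≡ r q [MOD q])).card : ℝ) ≤
        K + 2 * C * ((Tz K H w y).card * Pi' full) := by
      have hPi0 : ∀ R : Finset ℕ, (∀ p ∈ R, p.Prime) → 0 ≤ Pi' R := by
        intro R hR
        unfold Pi'
        apply Finset.prod_nonneg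
        intro p hp
        have : (1 : ℝ) < p := by exact_mod_cast (hR p hp).one_lt
        have : 1 / (p : ℝ) < 1 := by rw [div_lt_one (by linarith)]; exact this
        linarith
      have hPi : Pi' Q ≤ 2 * Pi' full := by
        have hQ0 := hPi0 Q (fun p hp => (hQp p hp).1)
        by_cases hmem : p₁ ∈ full
        · have h1 : (1 - 1 / (p₁ : ℝ)) * Pi' Q = Pi' full := by
            unfold Pi'
            rw [hQ]
            exact Finset.mul_prod_erase full (fun p : ℕ => 1 - 1 / (p : ℝ)) hmem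
          have h2 : (2 : ℝ) ≤ p₁ := by exact_mod_cast ((hfullmem p₁).mp hmem).1.two_le
          have h3 : 1 / (p₁ : ℝ) ≤ 1 / 2 := one_div_le_one_div_of_le (by norm_num) h2
          nlinarith
        · have h1 : Q = full := Finset.erase_eq_of_notMem hmem
          rw [h1] at hQ0 ⊢
          linarith
      have h1 : ∑ n ∈ Tz K H w y, ∏ q ∈ Q, (if ∃ e ∈ E, n ≡ e [MOD q] then 1
          else 1 - 1 / (q : ℝ)) = ∑ n ∈ Tz K H w y, ∏ q ∈ Q,
            (if ∃ i, n ≡ s + a i [MOD q] then 1 else 1 - 1 / (q : ℝ)) := by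
        apply Finset.sum_congr rfl
        intro n _
        apply Finset.prod_congr rfl
        intro q _
        have : (∃ e ∈ E, n ≡ e [MOD q]) ↔ ∃ i, n ≡ s + a i [MOD q] := by
          constructor
          · rintro ⟨e, he, h⟩
            rw [hE, Finset.mem_image] at he
            obtain ⟨i, -, rfl⟩ := he
            exact ⟨i, h⟩
          · rintro ⟨i, h⟩
            exact ⟨_, hEmem i, h⟩
        simp only [this]
      have h2 : (((Tz K H w y).filter (fun n => ∀ q ∈ Q, ¬ n ≡ r q [MOD q])).card : ℝ) ≤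
          K + C * ((Tz K H w y).card * Pi' Q) := by
        refine le_trans hr2 ?_
        rw [h1]
        exact hs4
      refine le_trans h2 ?_
      have h3 : ((Tz K H w y).card : ℝ) * Pi' Q ≤ (Tz K H w y).card * (2 * Pi' full) :=
        mul_le_mul_of_nonneg_left hPi (by positivity)
      have h4 := mul_le_mul_of_nonneg_left h3 hC.le
      linarith
    exact RCB_count K w H p₁ s v y a r Q _ hy hyw hspos hsH hQw hB
      (fun p hp hpK => (hv p hp (by omega) (hne1 p hp hpK)).trans (hc1 p hp hpK))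
      (fun p hp => (hv p (hQw p hp).1 (hQw p hp).2 (Finset.ne_of_mem_erase hp)).trans (hc2 p hp))
      (fun p hp hpy hpw hne hnd => (hv p hp hpw hne).trans (hc3 p hp hpy hpw hnd))

theorem p_RCB (hGRW : Stmt_GRW) (hAVS : Stmt_AVS) (hSGK : Stmt_SGK) (hCRX : Stmt_CRX) :
    Stmt_RCB := by
  classical
  obtain ⟨C, hC, hAVS⟩ := hAVS
  refine ⟨2 * C, by positivity, ?_⟩
  intro K hK
  obtain ⟨D₁, hD₁⟩ := hSGK K
  obtain ⟨H₀, hH₀⟩ := hAVS K hK
  refine ⟨D₁, max H₀ 1, ?_⟩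
  intro w H y hy hyw hH χ hχ2 hχ a ha had
  have hH1 : H₀ ≤ H := le_trans (le_max_left _ _) hH
  have hH2 : 1 ≤ H := le_trans (le_max_right _ _) hH
  have hWpos : 0 < primorial w := primorial_pos w
  have hmodp : ∀ (v p : ℕ), p.Prime → p ≤ w → v % primorial w ≡ v [MOD p] := fun v p hp hpw =>
    (Nat.mod_modEq v (primorial w)).of_dvd (RCB_dvdprim p w hp hpw)
  -- coprimality from the primes
  have hcop : ∀ x : ℕ, (∀ p : ℕ, p.Prime → p ≤ w → ¬ p ∣ x) → x.Coprime (primorial w) := by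
    intro x hx
    unfold primorial
    apply Nat.Coprime.prod_right
    intro p hp
    rw [Finset.mem_filter, Finset.mem_range] at hp
    rw [Nat.coprime_comm, hp.2.coprime_iff_not_dvd]
    exact hx p hp.2 (by omega)
  by_cases hχ1 : χ = 1
  · obtain ⟨s, v', h1, h2, h3, h4, h5⟩ := RCB_core hGRW hCRX C K H₀ hH₀ hC w H 0 y hy hyw hH1 hH2
      (Or.inl rfl) a ha had
    refine ⟨s, v', h1, h2, h3, ?_, fun h => absurd hχ1 h, h5 v' (fun p _ _ _ => Nat.ModEq.refl _)⟩
    intro i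
    apply hcop
    intro p hp hpw
    exact h4 p hp hpw hp.ne_zero i
  · have hcond := hχ.resolve_left hχ1
    obtain ⟨p₁, hp₁, hp₁K, hp₁w, hsg⟩ := hD₁ w χ hχ2 hχ1 hcond
    obtain ⟨s, v', h1, h2, h3, h4, h5⟩ := RCB_core hGRW hCRX C K H₀ hH₀ hC w H p₁ y hy hyw hH1 hH2
      (Or.inr (by omega)) a ha had
    obtain ⟨v'', h6, h7, h8⟩ := hsg v' (fun i => s + a i) h4
    refine ⟨s, v'' % primorial w, h1, h2, Nat.mod_lt _ hWpos, ?_, ?_, ?_⟩
    · intro i
      apply hcop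
      intro p hp hpw hd
      have hd' : p ∣ v'' + (s + a i) := by
        have h9 : v'' % primorial w + (s + a i) ≡ v'' + (s + a i) [MOD p] :=
          (hmodp v'' p hp hpw).add_right _
        exact (Nat.modEq_zero_iff_dvd).mp (h9.symm.trans ((Nat.modEq_zero_iff_dvd).mpr hd))
      by_cases hpe : p = p₁
      · rw [hpe] at hd'
        exact h7 i hd'
      · apply h4 p hp hpw hpe i
        have h9 : v'' + (s + a i) ≡ v' + (s + a i) [MOD p] := (h6 p hp hpw hpe).add_right _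
        exact (Nat.modEq_zero_iff_dvd).mp (h9.symm.trans ((Nat.modEq_zero_iff_dvd).mpr hd'))
    · intro _
      have h9 : ∀ i, ((v'' % primorial w + (s + a i) : ℕ) : ZMod (primorial w)) =
          ((v'' + (s + a i) : ℕ) : ZMod (primorial w)) := by
        intro i
        rw [ZMod.natCast_eq_natCast_iff]
        exact (Nat.mod_modEq v'' (primorial w)).add_right _
      simp only [h9]
      exact h8
    · apply h5
      intro p hp hpw hpe
      exact (hmodp v'' p hp hpw).trans (h6 p hp hpw hpe)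

end Pool.LGR
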