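import Pool.Agent.Work.MP_b0c12c_rp.Interface

/-! # Block RCO (helper81) -/

set_option autoImplicit false

namespace Pool.LGR

open Finset Filter
open Pool.LGP Pool.LGC

/-- `ff` is large. -/
theorem RCO_ff (A : ℝ) : ∀ᶠ X : ℕ in atTop, A ≤ ff X ∧ A ≤ X := by
  have hl : Tendsto (fun X : ℕ => Real.log (X : ℝ)) atTop atTop :=
    Real.tendsto_log_atTop.comp tendsto_natCast_atTop_atTop
  have hl2 : Tendsto (fun X : ℕ => Real.log (Real.log (X : ℝ))) atTop atTop :=
    Real.tendsto_log_atTop.comp hl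
  have hl3 : Tendsto (fun X : ℕ => Real.log (Real.log (Real.log (X : ℝ)))) atTop atTop :=
    Real.tendsto_log_atTop.comp hl2
  have hl4 : Tendsto (fun X : ℕ => Real.log (Real.log (Real.log (Real.log (X : ℝ)))))
      atTop atTop := Real.tendsto_log_atTop.comp hl3
  filter_upwards [hl.eventually_ge_atTop (max 1 A), hl2.eventually_ge_atTop 1,
    hl3.eventually_ge_atTop 1, hl4.eventually_ge_atTop 1,
    tendsto_natCast_atTop_atTop.eventually_ge_atTop A] with X h1 h2 h3 h4 h5
  refine ⟨?_, h5⟩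
  have a1 : (1 : ℝ) ≤ Real.log X := (le_max_left _ _).trans h1
  have a2 : A ≤ Real.log X := (le_max_right _ _).trans h1
  have b3 : Real.log (Real.log (Real.log (X : ℝ))) ≤ Real.log (Real.log (X : ℝ)) := by
    have := Real.log_le_sub_one_of_pos (x := Real.log (Real.log (X : ℝ))) (by linarith)
    linarith
  unfold ff
  rw [le_div_iff₀ (by positivity)]
  set l1 := Real.log (X : ℝ)
  set l2 := Real.log l1
  set l3 := Real.log l2
  set l4 := Real.log l3
  have c1 : A * l3 ^ 2 ≤ l1 * l2 ^ 2 := by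
    have : l3 ^ 2 ≤ l2 ^ 2 := by gcongr
    calc A * l3 ^ 2 ≤ l1 * l3 ^ 2 := by gcongr
      _ ≤ l1 * l2 ^ 2 := by gcongr
  calc A * l3 ^ 2 ≤ l1 * l2 ^ 2 := c1
    _ = l1 * l2 ^ 2 * 1 := (mul_one _).symm
    _ ≤ l1 * l2 ^ 2 * l4 := by gcongr

/-- `ff X` is small compared with `X`. -/
theorem RCO_ffX (c : ℝ) : ∀ᶠ X : ℕ in atTop, c * ff X ≤ X := by
  have h0 := (Real.isLittleO_pow_log_id_atTop (n := 3)).def
    (c := 1 / (|c| + 1)) (by positivity)
  have h1 := tendsto_natCast_atTop_atTop.eventually h0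
  have hl : Tendsto (fun X : ℕ => Real.log (X : ℝ)) atTop atTop :=
    Real.tendsto_log_atTop.comp tendsto_natCast_atTop_atTop
  have hl2 : Tendsto (fun X : ℕ => Real.log (Real.log (X : ℝ))) atTop atTop :=
    Real.tendsto_log_atTop.comp hl
  have hl3 : Tendsto (fun X : ℕ => Real.log (Real.log (Real.log (X : ℝ)))) atTop atTop :=
    Real.tendsto_log_atTop.comp hl2
  have hl4 : Tendsto (fun X : ℕ => Real.log (Real.log (Real.log (Real.log (X : ℝ)))))
      atTop atTop := Real.tendsto_log_atTop.comp hl3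
  filter_upwards [h1, hl.eventually_ge_atTop 1, hl2.eventually_ge_atTop 1,
    hl3.eventually_ge_atTop 1, hl4.eventually_ge_atTop 1] with X a0 a1 a2 a3 a4
  have b2 : Real.log (Real.log (X : ℝ)) ≤ Real.log (X : ℝ) := by
    have := Real.log_le_sub_one_of_pos (x := Real.log (X : ℝ)) (by linarith)
    linarith
  have b4 : Real.log (Real.log (Real.log (Real.log (X : ℝ))))
      ≤ Real.log (Real.log (Real.log (X : ℝ))) := by
    have := Real.log_le_sub_one_of_pos (x := Real.log (Real.log (Real.log (X : ℝ)))) (by linarith)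
    linarith
  have hf : ff X ≤ Real.log (X : ℝ) ^ 3 ∧ 0 ≤ ff X := by
    unfold ff
    set l1 := Real.log (X : ℝ)
    set l2 := Real.log l1
    set l3 := Real.log l2
    set l4 := Real.log l3
    constructor
    · rw [div_le_iff₀ (by positivity)]
      have c1 : l4 ≤ l3 ^ 2 := by nlinarith
      calc l1 * l2 ^ 2 * l4 ≤ l1 * l1 ^ 2 * l3 ^ 2 := by gcongr
        _ = l1 ^ 3 * l3 ^ 2 := by ring
    · positivity
  have h3 : 0 ≤ Real.log (X : ℝ) ^ 3 := by positivity
  rw [Real.norm_of_nonneg h3, id, Real.norm_of_nonneg (Nat.cast_nonneg X), div_mul_eq_mul_div,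
    one_mul, le_div_iff₀ (by positivity)] at a0
  calc c * ff X ≤ (|c| + 1) * ff X := by
        refine mul_le_mul_of_nonneg_right ?_ hf.2
        linarith [le_abs_self c]
    _ ≤ (|c| + 1) * Real.log (X : ℝ) ^ 3 := mul_le_mul_of_nonneg_left hf.1 (by positivity)
    _ = Real.log (X : ℝ) ^ 3 * (|c| + 1) := mul_comm _ _
    _ ≤ X := a0

/-- The multiples of `K !` form an admissible set. -/
theorem RCO_adm (K : ℕ) (p : ℕ) (hp : p.Prime) :
    ∃ r : ℕ, ∀ i : Fin K, ¬ (K.factorial * (i : ℕ)) ≡ r [MOD p] := by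
  rcases le_or_gt p K with h | h
  · refine ⟨1, fun i hi => ?_⟩
    have h1 : p ∣ K.factorial * (i : ℕ) :=
      Dvd.dvd.mul_right (hp.dvd_factorial.2 h) _
    have h2 : p ∣ 1 := (Nat.ModEq.dvd_iff hi dvd_rfl).1 h1
    exact hp.one_lt.ne' (Nat.dvd_one.1 h2)
  · by_contra hcon
    push Not at hcon
    have h1 : (Finset.range p) ⊆
        (Finset.univ.image fun i : Fin K => (K.factorial * (i : ℕ)) % p) := by
      intro r hr
      obtain ⟨i, hi⟩ := hcon r
      refine Finset.mem_image.2 ⟨i, Finset.mem_univ _, ?_⟩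
      have h2 : (K.factorial * (i : ℕ)) % p = r % p := hi
      rw [h2, Nat.mod_eq_of_lt (Finset.mem_range.1 hr)]
    have h2 := (Finset.card_le_card h1).trans Finset.card_image_le
    rw [Finset.card_range, Finset.card_univ, Fintype.card_fin] at h2
    omega

theorem p_RCO (h1 : Stmt_RECP) : Stmt_RCO := by
  classical
  obtain ⟨κ, C, hκ, hC, hR⟩ := h1 (1 / 2) (by norm_num)
  refine ⟨κ / 2, by positivity, fun m hm => ?_⟩
  set K : ℕ := ⌈Real.exp (C * m)⌉₊ with hK
  have hKm : Real.exp (C * m) ≤ K := Nat.le_ceil _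
  set B : ℕ := K * K.factorial with hB
  refine ⟨B, ?_⟩
  have hκ' : 0 < κ / 2 := by positivity
  filter_upwards [hR m K hm hKm, RCO_ff ((B : ℝ) / (κ / 2) + 1), eventually_ge_atTop (16 + B),
    RCO_ffX (4 * κ + 1)] with X hX hf hXB hffX
  obtain ⟨hf1, -⟩ := hf
  have hffpos : 0 < ff X := by
    have : 0 ≤ (B : ℝ) / (κ / 2) := by positivity
    linarith
  have hBf : (B : ℝ) ≤ κ / 2 * ff X := by
    have h2 : (B : ℝ) / (κ / 2) ≤ ff X := by linarith
    rw [div_le_iff₀ hκ'] at h2
    linarith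
  have ha : ∀ i : Fin K, K.factorial * (i : ℕ) ≤ B := by
    intro i
    rw [hB, mul_comm K]
    exact Nat.mul_le_mul_left _ i.2.le
  obtain hcard := hX (fun i => K.factorial * (i : ℕ))
    (fun i j hij => Nat.mul_lt_mul_of_pos_left hij (Nat.factorial_pos K))
    (fun i => by
      have h3 : ((K.factorial * (i : ℕ) : ℕ) : ℝ) ≤ B := by exact_mod_cast ha i
      have h4 : κ / 2 * ff X ≤ κ * ff X := by nlinarith
      linarith)
    (fun p hp => RCO_adm K p hp)
  -- one n
  obtain ⟨n₀, hn₀⟩ : ((Icc X (4 * X)).filter (fun n =>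
      m ≤ (univ.filter (fun i : Fin K => (n + K.factorial * (i : ℕ)).Prime)).card ∧
      ∀ q : ℕ, |(q : ℝ) - n| ≤ κ * ff X → (∃ i : Fin K, q = n + K.factorial * (i : ℕ)) ∨
        ∃ p : ℕ, p.Prime ∧ (p : ℝ) ≤ (X : ℝ) ^ (1 / 2 : ℝ) ∧ p ∣ q)).Nonempty := by
    rw [← Finset.card_pos]
    have h3 : (0 : ℝ) < (X : ℝ) ^ (1 - 1 / 2 : ℝ) := by
      apply Real.rpow_pos_of_pos
      have : 0 < X := by omega
      exact_mod_cast this
    have h4 := h3.trans_le hcard
    exact_mod_cast h4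
  rw [Finset.mem_filter, Finset.mem_Icc] at hn₀
  obtain ⟨⟨hn1, hn2⟩, hm1, hq⟩ := hn₀
  -- primes in the window
  have hwin : ∀ q : ℕ, q.Prime → |(q : ℝ) - n₀| ≤ κ * ff X →
      ∃ i : Fin K, q = n₀ + K.factorial * (i : ℕ) := by
    intro q hqp hqw
    rcases hq q hqw with h | ⟨p, hp, hpX, hpq⟩
    · exact h
    · exfalso
      have h3 : p = q := (Nat.prime_dvd_prime_iff_eq hp hqp).1 hpq
      subst h3
      have h4 : (n₀ : ℝ) - κ * ff X ≤ p := by
        have := (abs_le.1 hqw).1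
        linarith
      have h5 : (X : ℝ) ≤ n₀ := by exact_mod_cast hn1
      have h6 : κ * ff X ≤ X / 4 := by
        have h8 : (4 * κ + 1) * ff X ≤ X := hffX
        nlinarith
      have h7 : (X : ℝ) ^ (1 / 2 : ℝ) ≤ X / 4 := by
        rw [← Real.sqrt_eq_rpow]
        have h9 : (16 : ℝ) ≤ X := by
          have : 16 ≤ X := by omega
          exact_mod_cast this
        rw [show (X : ℝ) / 4 = Real.sqrt ((X / 4) ^ 2) from
          (Real.sqrt_sq (by positivity)).symm]
        apply Real.sqrt_le_sqrt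
        nlinarith
      have h10 : (16 : ℝ) ≤ X := by
        have : 16 ≤ X := by omega
        exact_mod_cast this
      linarith
  -- the counts
  set N := Nat.count Nat.Prime n₀ with hN
  set M := Nat.count Nat.Prime (n₀ + B + 1) with hM
  have hinf : (Set.ofPred Nat.Prime).Infinite := Nat.infinite_setOfPred_prime
  have hMN : N + m ≤ M := by
    have e1 : M = N + ((range (B + 1)).filter (fun k => (n₀ + k).Prime)).card := by
      rw [hM, add_assoc, Nat.count_add, hN, Nat.count_eq_card_filter_range (fun k => (n₀ + k).Prime)]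
    rw [e1]
    refine Nat.add_le_add_left (hm1.trans ?_) N
    refine Finset.card_le_card_of_injOn (fun i : Fin K => K.factorial * (i : ℕ)) ?_ ?_
    · intro i hi
      have hi' := (Finset.mem_filter.1 hi).2
      refine Finset.mem_filter.2 ⟨Finset.mem_range.2 ?_, hi'⟩
      exact Nat.lt_succ_of_le (ha i)
    · intro i _ j _ hij
      exact Fin.ext (Nat.eq_of_mul_eq_mul_left (Nat.factorial_pos K) hij)
  have hN1 : 1 ≤ N := by
    rw [hN, Nat.one_le_iff_ne_zero, Ne, Nat.count_eq_card_filter_range, Finset.card_eq_zero]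
    intro h
    have : (2 : ℕ) ∈ (range n₀).filter Nat.Prime :=
      Finset.mem_filter.2 ⟨Finset.mem_range.2 (by omega), Nat.prime_two⟩
    rw [h] at this
    simp at this
  have hNge : n₀ ≤ Nat.nth Nat.Prime N := Nat.le_nth_count hinf n₀
  have hMge : n₀ + B + 1 ≤ Nat.nth Nat.Prime M := Nat.le_nth_count hinf _
  have hNlt : Nat.nth Nat.Prime (N - 1) < n₀ :=
    Nat.nth_lt_of_lt_count (by omega)
  have hMlt : Nat.nth Nat.Prime (M - 1) < n₀ + B + 1 :=
    Nat.nth_lt_of_lt_count (by omega)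
  have hNp : (Nat.nth Nat.Prime (N - 1)).Prime := Nat.prime_nth_prime _
  have hMp : (Nat.nth Nat.Prime M).Prime := Nat.prime_nth_prime _
  have hlow : (Nat.nth Nat.Prime (N - 1) : ℝ) < n₀ - κ * ff X := by
    by_contra hcon
    push Not at hcon
    have h3 : (Nat.nth Nat.Prime (N - 1) : ℝ) < n₀ := by exact_mod_cast hNlt
    obtain ⟨i, hi⟩ := hwin _ hNp (by
      rw [abs_le]
      constructor
      · linarith
      · have : 0 ≤ κ * ff X := by positivity
        linarith)
    omega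
  have hhigh : (n₀ : ℝ) + κ * ff X < Nat.nth Nat.Prime M := by
    by_contra hcon
    push Not at hcon
    have h3 : (n₀ : ℝ) + B + 1 ≤ Nat.nth Nat.Prime M := by exact_mod_cast hMge
    obtain ⟨i, hi⟩ := hwin _ hMp (by
      rw [abs_le]
      constructor
      · have : 0 ≤ κ * ff X := by positivity
        have : (0 : ℝ) ≤ B := Nat.cast_nonneg _
        linarith
      · linarith)
    have := ha i
    omega
  refine ⟨N - 1, M - 1 - N, ?_, ?_, ?_, ?_, ?_, ?_⟩
  · omega
  · rw [Nat.sub_add_cancel hN1]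
    omega
  · have e1 : N - 1 + 1 + (M - 1 - N) = M - 1 := by omega
    rw [e1]
    omega
  · have e1 : N - 1 + 1 + (M - 1 - N) = M - 1 := by omega
    rw [e1, Nat.sub_add_cancel hN1]
    omega
  · rw [Nat.sub_add_cancel hN1]
    have h3 : (n₀ : ℝ) ≤ Nat.nth Nat.Prime N := by exact_mod_cast hNge
    have h4 : κ / 2 * ff X ≤ κ * ff X := by nlinarith
    linarith
  · have e1 : N - 1 + 1 + (M - 1 - N) = M - 1 := by omega
    have e2 : N - 1 + 1 + (M - 1 - N) + 1 = M := by omega
    rw [e2, e1]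
    have h3 : (Nat.nth Nat.Prime (M - 1) : ℝ) ≤ n₀ + B := by
      have : Nat.nth Nat.Prime (M - 1) ≤ n₀ + B := by omega
      exact_mod_cast this
    linarith

end Pool.LGR
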