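import Pool.Agent.Work.MP_b0c12c_rp.Interface
import Pool.Agent.Work.MP_b0c12c_chain.B_RESP

/-! Block RESR (helper20). -/

set_option autoImplicit false

namespace Pool.LGR

open Finset Filter
open Pool.LGP Pool.LGC

theorem p_RESR (h1 : Stmt_RCB) (h2 : Stmt_NUR) (h3 : LGC.Stmt_SRD) (h4 : LGC.Stmt_MEL) :
    Stmt_RESR := by
  classical
  obtain ⟨C₁, hC₁, hRCB⟩ := h1
  obtain ⟨C₂, hC₂, hSRD⟩ := h3
  obtain ⟨cM, CM, hcM, hCM, hMEL⟩ := h4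
  refine ⟨8 * C₁ * C₂ * CM / cM + 1, by positivity, fun K hK => ?_⟩
  obtain ⟨D₁, H₀, hR⟩ := hRCB K hK
  refine ⟨D₁, ?_⟩
  filter_upwards [h2 K, hSRD (K + 1) (by omega), resp_asy 1 H₀] with w hN hS hA
  intro H hH4 hHle χ hχ hcond a ha hadm
  obtain ⟨hKy, hyw, hN2⟩ := hN
  obtain ⟨hKH, hH3, hnum⟩ := hN2 H hH4 hHle
  obtain ⟨hHw, hw2, hL3, hL23, hL12, -, -⟩ := hA
  obtain ⟨s, v, hs1, hs2, hv, hcop, hχ1, hcard⟩ := hR w H (yy w) hKy hyw (by omega) χ hχ hcond a ha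
    hadm
  refine ⟨s, v, hs1, hs2, hv, hcop, hχ1, ?_⟩
  refine hcard.trans ?_
  have hTz := hS H (Tz K H w (yy w)) (by omega) hH3 (by unfold Tz; exact filter_subset _ _)
    (by
      intro n hn
      unfold Tz at hn
      exact (mem_filter.1 hn).2.1)
    (by
      intro n hn
      unfold Tz at hn
      exact (mem_filter.1 hn).2.2)
  obtain ⟨L1, hL1d⟩ : ∃ L1 : ℝ, L1 = Real.log w := ⟨_, rfl⟩
  obtain ⟨L2, hL2d⟩ : ∃ L2 : ℝ, L2 = Real.log L1 := ⟨_, rfl⟩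
  obtain ⟨L3, hL3d⟩ : ∃ L3 : ℝ, L3 = Real.log L2 := ⟨_, rfl⟩
  rw [← hL1d] at hL12 hL23 hL3 hTz hnum ⊢
  rw [← hL2d] at hL12 hL23 hL3 hTz hnum ⊢
  rw [← hL3d] at hL23 hL3 hnum ⊢
  obtain ⟨hlogy, -, hy2⟩ := resp_y w hw2 hL1d hL2d hL3d hL3 hL23 hL12
  have hL3p : 0 < L3 := by linarith
  have hL2p : 0 < L2 := by linarith
  have hL1p : 0 < L1 := by linarith
  have hKR : (1 : ℝ) ≤ K := by exact_mod_cast hK
  have hlK : 0 < Real.log ((K + 1 : ℕ) : ℝ) := Real.log_pos (by push_cast; linarith)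
  -- the sieve product
  have hP : Pi' (((Icc 1 ⌊yy w⌋₊).filter Nat.Prime).filter (fun p => K + 1 < p)) ≤
      CM / cM * Real.log ((K + 1 : ℕ) : ℝ) * (8 * L2 / (L1 * L3)) := by
    refine (resp_pi_up _ (K + 1) (fun p hp => (mem_filter.1 hp).2)).trans ?_
    have e1 := (hMEL (yy w) hy2).2
    have e2 := (hMEL ((K + 1 : ℕ) : ℝ) (by push_cast; linarith)).1
    rw [Nat.floor_natCast] at e2
    rw [hlogy] at e1
    have e3 : 0 < cM / Real.log ((K + 1 : ℕ) : ℝ) := by positivity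
    calc Pi' ((Icc 1 ⌊yy w⌋₊).filter Nat.Prime) / Pi' ((Icc 1 (K + 1)).filter Nat.Prime)
        ≤ (CM / (L1 * L3 / (8 * L2))) / (cM / Real.log ((K + 1 : ℕ) : ℝ)) :=
          div_le_div₀ (by positivity) e1 e3 e2
      _ = CM / cM * Real.log ((K + 1 : ℕ) : ℝ) * (8 * L2 / (L1 * L3)) := by
          field_simp
  have hP0 : 0 ≤ Pi' (((Icc 1 ⌊yy w⌋₊).filter Nat.Prime).filter (fun p => K + 1 < p)) :=
    (resp_pi_pos _ (fun p hp => (mem_filter.1 (mem_filter.1 hp).1).2)).le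
  have hmain : ((Tz K H w (yy w)).card : ℝ) *
      Pi' (((Icc 1 ⌊yy w⌋₊).filter Nat.Prime).filter (fun p => K + 1 < p)) ≤
      8 * C₂ * CM / cM * (H * L2 ^ 2 / (L1 ^ 2 * L3)) := by
    calc ((Tz K H w (yy w)).card : ℝ) *
        Pi' (((Icc 1 ⌊yy w⌋₊).filter Nat.Prime).filter (fun p => K + 1 < p))
        ≤ (C₂ * (H * L2 / (L1 * Real.log ((K + 1 : ℕ) : ℝ)))) *
          (CM / cM * Real.log ((K + 1 : ℕ) : ℝ) * (8 * L2 / (L1 * L3))) :=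
          mul_le_mul hTz hP hP0 (by positivity)
      _ = 8 * C₂ * CM / cM * (H * L2 ^ 2 / (L1 ^ 2 * L3)) := by
          field_simp
  have hm2 := mul_le_mul_of_nonneg_left hmain hC₁.le
  calc (K : ℝ) + C₁ * (((Tz K H w (yy w)).card : ℝ) *
        Pi' (((Icc 1 ⌊yy w⌋₊).filter Nat.Prime).filter (fun p => K + 1 < p))) +
        ((K : ℝ) * Nat.log 2 H + 1) * (H / yy w)
      ≤ C₁ * (8 * C₂ * CM / cM * (H * L2 ^ 2 / (L1 ^ 2 * L3))) +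
        H * L2 ^ 2 / (L1 ^ 2 * L3) := by linarith
    _ = (8 * C₁ * C₂ * CM / cM + 1) * (H * L2 ^ 2 / (L1 ^ 2 * L3)) := by ring

end Pool.LGR
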