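import Pool.Agent.Work.MP_b0c12c_rp.Interface
import Pool.Agent.Work.MP_b0c12c_chain.B_SCK
import Pool.Agent.Work.MP_b0c12c_chain.B_CHX

/-! # Block SCR: the pattern at a large scale (helper34, after SCKE of the chain by helper43 and
helper38, and SCT by helper52) -/

set_option autoImplicit false

namespace Pool.LGR

open Finset Filter
open Pool.LGP Pool.LGC

theorem SCR_good {π ι : Type} (S : Sys π ι) (v H : ℕ) (hpr : ∀ x, (S.pr x).Prime)
    (hinj : Function.Injective S.pr) (hcop : ∀ x, (S.pr x).Coprime S.W)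
    (hvinj : Function.Injective S.v) (hb : ∀ i, v + 1 ≤ S.v i ∧ S.v i ≤ v + H)
    (hp : ∀ x, H < S.pr x) : S.Good := by
  refine ⟨hpr, hinj, hcop, sck_excl S H hvinj ?_ hp⟩
  intro h h'
  have := hb h
  have := hb h'
  omega

theorem SCR_ext {π ι : Type} (S : Sys π ι) (v H e : ℕ) (he : v + 1 ≤ e ∧ e ≤ v + H)
    (hb : ∀ i, v + 1 ≤ S.v i ∧ S.v i ≤ v + H) (hne : ∀ i, S.v i ≠ e)
    (hp : ∀ x, H < S.pr x) : Ext S e := by
  intro x i
  unfold cl
  intro h0
  rw [sub_eq_zero] at h0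
  have h0' := h0
  rw [ZMod.natCast_eq_natCast_iff] at h0'
  have b1 := hp x
  have b2 := hb i
  have b3 := hne i
  obtain ⟨c, hc⟩ : ∃ c, e = v + 1 + c := ⟨e - (v + 1), by omega⟩
  obtain ⟨d, hd⟩ : ∃ d, S.v i = v + 1 + d := ⟨S.v i - (v + 1), by omega⟩
  rw [hc, hd] at h0'
  have h1' : c ≡ d [MOD S.pr x] := by
    first
    | exact Nat.ModEq.add_left_cancel' (v + 1) h0'
    | exact (Nat.ModEq.add_left_cancel' (v + 1) h0').symm
  have := Nat.ModEq.eq_of_lt_of_lt h1' (by omega) (by omega)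
  omega

theorem SCR_W (L κ₀ : ℝ) (hL : 0 ≤ L) (hκ : 0 ≤ κ₀) :
    (primorial ⌊κ₀ * L⌋₊ : ℝ) ≤ Real.exp (2 * κ₀ * L) := by
  have h1 : (primorial ⌊κ₀ * L⌋₊ : ℝ) ≤ (4 : ℝ) ^ ⌊κ₀ * L⌋₊ := by
    exact_mod_cast primorial_le_four_pow ⌊κ₀ * L⌋₊
  have h2 : ((⌊κ₀ * L⌋₊ : ℕ) : ℝ) ≤ κ₀ * L := Nat.floor_le (by positivity)
  have h3 : (4 : ℝ) ≤ Real.exp 2 := by
    have := Real.add_one_le_exp (1 : ℝ)
    have e : Real.exp 2 = Real.exp 1 * Real.exp 1 := by
      rw [← Real.exp_add]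
      norm_num
    rw [e]
    nlinarith
  calc (primorial ⌊κ₀ * L⌋₊ : ℝ) ≤ (4 : ℝ) ^ ⌊κ₀ * L⌋₊ := h1
    _ ≤ Real.exp 2 ^ ⌊κ₀ * L⌋₊ := pow_le_pow_left₀ (by norm_num) h3 _
    _ = Real.exp (⌊κ₀ * L⌋₊ * 2) := by rw [← Real.exp_nat_mul]
    _ ≤ Real.exp (2 * κ₀ * L) := Real.exp_le_exp.mpr (by linarith)

theorem SCR_pow (L ε : ℝ) (hε : 0 < ε) (hL0 : 0 < L) (hL : 1 / ε ^ 2 ≤ L) :
    L / 8 ≤ Real.exp (ε * L) := by
  have h1 : ε * L / 2 ≤ Real.exp (ε * L / 2) := by
    have := Real.add_one_le_exp (ε * L / 2)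
    linarith
  have h2 : Real.exp (ε * L) = Real.exp (ε * L / 2) * Real.exp (ε * L / 2) := by
    rw [← Real.exp_add]
    ring_nf
  have h3 : 1 ≤ ε ^ 2 * L := by
    have e2 : 0 < ε ^ 2 := by positivity
    rw [div_le_iff₀ e2] at hL
    linarith
  have h4 : (ε * L / 2) * (ε * L / 2) ≤ Real.exp (ε * L / 2) * Real.exp (ε * L / 2) :=
    mul_le_mul h1 h1 (by positivity) (Real.exp_pos _).le
  have h5 : (ε * L / 2) * (ε * L / 2) = (ε ^ 2 * L) * L / 4 := by ring
  have h6 : 1 * L ≤ (ε ^ 2 * L) * L := mul_le_mul_of_nonneg_right h3 hL0.le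
  rw [h2]
  linarith

/-- agreement at the integers coprime to `W` and to finitely many primes implies agreement at all
integers coprime to `W * y` -/
theorem SCR_agree (P : Finset ℕ) (hP : ∀ p ∈ P, p.Prime) (W : ℕ) (hW : 0 < W) (y : Ch)
    (hy : 0 < y.1) (χ : DirichletCharacter ℂ W)
    (h : ∀ n : ℕ, n.Coprime W → (∀ p ∈ P, n.Coprime p) → y.2 (n : ZMod y.1) = χ (n : ZMod W)) :
    ∀ n : ℕ, n.Coprime (W * y.1) → y.2 (n : ZMod y.1) = χ (n : ZMod W) := by
  intro n hn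
  have hM : 0 < ∏ p ∈ P, p := Finset.prod_pos (fun p hp => (hP p hp).pos)
  have hm : 0 < W * y.1 * ∏ p ∈ P, p := Nat.mul_pos (Nat.mul_pos hW hy) hM
  have hdvd : W * y.1 ∣ W * y.1 * ∏ p ∈ P, p := Nat.dvd_mul_right _ _
  obtain ⟨n', hn', hnn⟩ := CHX_rep hdvd hm (ZMod.unitOfCoprime n hn)
  rw [ZMod.coe_unitOfCoprime] at hnn
  have hmod : n' ≡ n [MOD W * y.1] := (ZMod.natCast_eq_natCast_iff _ _ _).1 hnn
  have hW1 : ((n' : ℕ) : ZMod W) = (n : ZMod W) :=
    (ZMod.natCast_eq_natCast_iff _ _ _).2 (hmod.of_dvd (Nat.dvd_mul_right _ _))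
  have hy1 : ((n' : ℕ) : ZMod y.1) = (n : ZMod y.1) :=
    (ZMod.natCast_eq_natCast_iff _ _ _).2 (hmod.of_dvd (Nat.dvd_mul_left _ _))
  rw [← hW1, ← hy1]
  apply h
  · exact Nat.Coprime.coprime_dvd_right ((Nat.dvd_mul_right _ _).trans hdvd) hn'
  · intro p hp
    exact Nat.Coprime.coprime_dvd_right
      ((Finset.dvd_prod_of_mem (fun p : ℕ => p) hp).trans (Nat.dvd_mul_left _ _)) hn'

theorem p_SCR (h1 : Stmt_MIDR) (h2 : Stmt_DATR) : Stmt_SCR := by
  classical
  intro κA ε hκA hε hε1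
  obtain ⟨κ₀, κ, η, Cm, hκ₀, hκ₀8, hκ, hη, hη2, hηε, hCm, hdat⟩ := h2 κA ε hκA hε hε1
  refine ⟨κ₀, κ, Cm, hκ₀, hκ, hCm, fun m hm => ?_⟩
  obtain ⟨L₀, hL₀⟩ := hdat m hm
  refine ⟨Real.exp (max (max L₀ 4) (1 / ε ^ 2)), ?_⟩
  intro X hX
  have hX0 : 0 < X := lt_of_lt_of_le (Real.exp_pos _) hX
  obtain ⟨L, hL⟩ : ∃ L : ℝ, L = Real.log X := ⟨_, rfl⟩
  have hXL : X = Real.exp L := by rw [hL, Real.exp_log hX0]
  have hLmax : max (max L₀ 4) (1 / ε ^ 2) ≤ L := by
    rw [hXL] at hX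
    exact Real.exp_le_exp.mp hX
  have hLL₀ : L₀ ≤ L := (le_max_left _ _).trans ((le_max_left _ _).trans hLmax)
  have hL4 : 4 ≤ L := (le_max_right _ _).trans ((le_max_left _ _).trans hLmax)
  have hLε : 1 / ε ^ 2 ≤ L := (le_max_right _ _).trans hLmax
  rw [← hL]
  have hL0 : 0 < L := by linarith
  -- the primes
  obtain ⟨P, hP⟩ : ∃ P : Finset ℕ, ∀ p : ℕ, p ∈ P ↔ p.Prime ∧ ⌈L ^ 3⌉₊ < p ∧
      (p : ℝ) ≤ Real.exp (η * L) := by
    refine ⟨(Icc 0 ⌊Real.exp (η * L)⌋₊).filter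
      (fun p => p.Prime ∧ ⌈L ^ 3⌉₊ < p ∧ (p : ℝ) ≤ Real.exp (η * L)), ?_⟩
    intro p
    rw [Finset.mem_filter, Finset.mem_Icc]
    refine ⟨fun h => h.2, fun h => ⟨⟨Nat.zero_le _, ?_⟩, h⟩⟩
    exact Nat.le_floor h.2.2
  obtain ⟨k, hk1, hke, hdatk⟩ := hL₀ L hLL₀ P hP
  refine ⟨k, hk1, hke, ?_⟩
  intro y₁ hy₁ hgood w v H E hw hv hH hEH hcard hcop hsurv hsgn
  -- the modulus
  have hW : (primorial w : ℝ) ≤ Real.exp (L / 4) := by
    rw [hw]
    exact sck_W L κ₀ hL0.le hκ₀.le hκ₀8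
  have hW' : (primorial w : ℝ) ≤ Real.exp (2 * κ₀ * L) := by
    rw [hw]
    exact SCR_W L κ₀ hL0.le hκ₀.le
  have hWpos : 0 < primorial w := sck_primorial_pos w
  have hWr : (0 : ℝ) < (primorial w : ℝ) := by exact_mod_cast hWpos
  have hwle : (w : ℝ) ≤ L / 8 := by
    rw [hw]
    refine (Nat.floor_le (by positivity)).trans ?_
    have := mul_le_mul_of_nonneg_right hκ₀8 hL0.le
    linarith
  have hnum := sck_num L hL4
  have hXε : X ^ ε = Real.exp (ε * L) := by
    rw [hXL, ← Real.exp_mul]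
    ring_nf
  have hwε : (w : ℝ) ≤ X ^ ε := by
    rw [hXε]
    exact hwle.trans (SCR_pow L ε hε hL0 hLε)
  -- the number Y
  obtain ⟨Y, hY⟩ : ∃ Y : ℕ, Y = ⌊X / (primorial w : ℝ)⌋₊ + 1 := ⟨_, rfl⟩
  have hY1 : X < (primorial w : ℝ) * Y := by
    have := Nat.lt_floor_add_one (X / (primorial w : ℝ))
    rw [div_lt_iff₀ hWr] at this
    rw [hY]
    push_cast
    linarith
  have hY2 : (primorial w : ℝ) * Y ≤ X + primorial w := by
    have := Nat.floor_le (a := X / (primorial w : ℝ)) (by positivity)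
    rw [le_div_iff₀ hWr] at this
    rw [hY]
    push_cast
    linarith
  have hY3 : Real.exp ((1 - 2 * κ₀) * L) ≤ Y := by
    have e1 : Real.exp ((1 - 2 * κ₀) * L) * (primorial w : ℝ) ≤ X := by
      calc Real.exp ((1 - 2 * κ₀) * L) * (primorial w : ℝ)
          ≤ Real.exp ((1 - 2 * κ₀) * L) * Real.exp (2 * κ₀ * L) :=
            mul_le_mul_of_nonneg_left hW' (Real.exp_pos _).le
        _ = Real.exp L := by rw [← Real.exp_add]; ring_nf
        _ = X := hXL.symm
    by_contra hcon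
    push Not at hcon
    have : (primorial w : ℝ) * Y < (primorial w : ℝ) * Real.exp ((1 - 2 * κ₀) * L) :=
      mul_lt_mul_of_pos_left hcon hWr
    linarith
  -- the level
  obtain ⟨Q, hQ⟩ : ∃ Q : ℕ, Q = ⌊X ^ κA⌋₊ := ⟨_, rfl⟩
  have hQ1 : (Q : ℝ) ≤ X ^ κA := by
    rw [hQ]
    exact Nat.floor_le (by positivity)
  have hQ2 : Real.exp (κA * L) ≤ Q + 1 := by
    have e1 : Real.exp (κA * L) = X ^ κA := by
      rw [hXL, ← Real.exp_mul]
      ring_nf
    rw [e1, hQ]
    exact (Nat.lt_floor_add_one _).le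
  have hP3 : ∀ p ∈ P, L ^ 3 < (p : ℝ) := by
    intro p hp
    have := ((hP p).1 hp).2.1
    exact (Nat.le_ceil _).trans_lt (by exact_mod_cast this)
  have hPH : ∀ p ∈ P, H < p := by
    intro p hp
    have e1 := hP3 p hp
    have e2 : L ^ 2 ≤ L ^ 3 := pow_le_pow_right₀ (by linarith) (by norm_num)
    have : (H : ℝ) < p := by linarith
    exact_mod_cast this
  have hPw : ∀ p ∈ P, w < p := by
    intro p hp
    have e1 := hP3 p hp
    have e2 : L ≤ L ^ 3 := by
      calc L = L ^ 1 := (pow_one L).symm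
        _ ≤ L ^ 3 := pow_le_pow_right₀ (by linarith) (by norm_num)
    have : (w : ℝ) < p := by linarith
    exact_mod_cast this
  have hLX : L ≤ X := by
    rw [hXL]
    have := Real.add_one_le_exp L
    linarith
  have hηX : Real.exp (η * L) ≤ X ^ ε := by
    rw [hXε]
    exact Real.exp_le_exp.mpr (mul_le_mul_of_nonneg_right hηε hL0.le)
  -- the labels
  obtain ⟨T, hT⟩ : ∃ T : Finset ℕ, T = (Icc 1 H).filter
      (fun h => (v + h).Coprime (primorial w) ∧ h ∉ E) := ⟨_, rfl⟩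
  have hTmem : ∀ h, h ∈ T ↔ (1 ≤ h ∧ h ≤ H) ∧ (v + h).Coprime (primorial w) ∧ h ∉ E := by
    intro h
    rw [hT, Finset.mem_filter, Finset.mem_Icc]
  obtain ⟨sv, hsv⟩ : ∃ sv : T ⊕ E → ℕ, ∀ i, sv i = v + Sum.elim (fun h : T => (h : ℕ))
      (fun h : E => (h : ℕ)) i := ⟨_, fun _ => rfl⟩
  have hTH : ∀ h : T, 1 ≤ (h : ℕ) ∧ (h : ℕ) ≤ H := fun h => ((hTmem h).1 h.2).1
  have hTE : ∀ h : T, (h : ℕ) ∉ E := fun h => ((hTmem h).1 h.2).2.2
  have hEb : ∀ h ∈ E, 1 ≤ h ∧ h ≤ H := by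
    intro h hh
    have := hEH hh
    rwa [Finset.mem_Icc] at this
  have hsvl : ∀ h : T, sv (Sum.inl h) = v + (h : ℕ) := fun h => hsv _
  have hsvr : ∀ h : E, sv (Sum.inr h) = v + (h : ℕ) := fun h => hsv _
  have hsvinj : Function.Injective sv := by
    intro a b hab
    rcases a with a | a <;> rcases b with b | b
    · rw [hsvl, hsvl] at hab
      have : a = b := Subtype.ext (by omega)
      rw [this]
    · exfalso
      rw [hsvl, hsvr] at hab
      have h1 : (a : ℕ) = (b : ℕ) := by omega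
      exact hTE a (h1 ▸ b.2)
    · exfalso
      rw [hsvr, hsvl] at hab
      have h1 : (b : ℕ) = (a : ℕ) := by omega
      exact hTE b (h1 ▸ a.2)
    · rw [hsvr, hsvr] at hab
      have : a = b := Subtype.ext (by omega)
      rw [this]
  have hsvb : ∀ i, v + 1 ≤ sv i ∧ sv i ≤ v + H := by
    intro i
    rcases i with i | i
    · rw [hsvl]
      have := hTH i
      omega
    · rw [hsvr]
      have := hEb _ i.2
      omega
  let S : Sys P (T ⊕ E) := ⟨fun x => (x : ℕ), primorial w, sv⟩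
  have hxprime : ∀ x : P, (x : ℕ).Prime := fun x => ((hP x).1 x.2).1
  have hxcop : ∀ x : P, (x : ℕ).Coprime (primorial w) :=
    fun x => sck_coprime (hxprime x) (hPw x x.2)
  have hSgood : S.Good :=
    SCR_good S v H hxprime (fun a b hab => Subtype.ext hab) hxcop hsvinj hsvb
      (fun x => hPH x x.2)
  have hext : ∀ e : E, Ext (drp S e) (S.v (Sum.inr e)) := by
    intro e
    refine SCR_ext (drp S e) v H _ (hsvb _) (fun i => hsvb _) ?_ (fun x => hPH x x.2)
    intro i hi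
    have hi' : sv (Sum.map id Subtype.val i) = sv (Sum.inr e) := hi
    have hi2 := hsvinj hi'
    rcases i with i | i
    · cases hi2
    · have h0 : (Sum.inr i.1 : T ⊕ E) = Sum.inr e := hi2
      exact i.2 (Sum.inr_injective h0)
  have hcardι : (Fintype.card T : ℝ) ≤ κ * L := by
    rw [Fintype.card_coe]
    refine le_trans ?_ hsurv
    have : T ⊆ (Icc 1 H).filter (fun h => (v + h).Coprime (primorial w)) := by
      intro h hh
      have := (hTmem h).1 hh
      rw [Finset.mem_filter, Finset.mem_Icc]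
      exact ⟨this.1, this.2.1⟩
    exact_mod_cast Finset.card_le_card this
  have hcardE : Fintype.card E = k := by
    rw [Fintype.card_coe]
    exact hcard
  obtain ⟨u, g, a, b, C, a', b', C', K, D, z, s, hDat, hδ, hkm, hbig, hfin⟩ :=
    hdatk T E S (fun x => rfl) hSgood (by show primorial w = _; rw [hw]) hcardι hcardE Y Q hY3 hQ2
  have hvW : (v : ℝ) ≤ primorial w := by exact_mod_cast hv.le
  have hmid := h1 P T E S u g a b C a' b' C' K D z s (2 * L) Q Y m y₁ hDat hδ (by positivity) hm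
    hkm hbig ?_ ?_ ?_
  · have hXp : X ^ (1 - ε) = Real.exp ((1 - ε) * L) := by
      rw [hXL, ← Real.exp_mul]
      ring_nf
    rw [hXp]
    refine (hfin.trans hmid).trans ?_
    rw [Nat.cast_le]
    refine Finset.card_le_card_of_injOn (fun y => primorial w * y + v) ?_ ?_
    · intro y hy0
      rw [Finset.mem_coe, Finset.mem_filter, Finset.mem_Ioc] at hy0
      obtain ⟨hy, hcomp, hmany⟩ := hy0
      have hyY : (Y : ℝ) ≤ y := by exact_mod_cast hy.1.le
      have hy2Y : (y : ℝ) ≤ 2 * Y := by exact_mod_cast hy.2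
      have hWy1 : (primorial w : ℝ) * Y ≤ (primorial w : ℝ) * y :=
        mul_le_mul_of_nonneg_left hyY hWr.le
      have hWy2 : (primorial w : ℝ) * y ≤ 2 * ((primorial w : ℝ) * Y) := by
        have := mul_le_mul_of_nonneg_left hy2Y hWr.le
        linarith
      have hv0 : (0 : ℝ) ≤ v := Nat.cast_nonneg _
      have hH0 : (0 : ℝ) ≤ H := Nat.cast_nonneg _
      have hup : ((primorial w * y + v + H : ℕ) : ℝ) ≤ 4 * X := by
        push_cast
        rw [hXL] at hY2 ⊢
        linarith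
      have hlo : X ≤ ((primorial w * y + v : ℕ) : ℝ) := by
        push_cast
        linarith
      beta_reduce
      rw [Finset.mem_coe, Finset.mem_filter, Finset.mem_Icc]
      refine ⟨⟨Nat.zero_le _, ?_⟩, hlo, hup, ?_, ?_⟩
      · apply Nat.le_floor
        refine le_trans ?_ hup
        push_cast
        linarith
      · intro q hq
        rw [Finset.mem_Ioc] at hq
        obtain ⟨h, rfl⟩ : ∃ h, q = primorial w * y + v + h :=
          ⟨q - (primorial w * y + v), by omega⟩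
        have hh1 : 1 ≤ h := by omega
        have hh2 : h ≤ H := by omega
        by_cases hE : h ∈ E
        · exact Or.inl ⟨h, hE, rfl⟩
        right
        by_cases hcp : (v + h).Coprime (primorial w)
        · have hTm : h ∈ T := (hTmem h).2 ⟨⟨hh1, hh2⟩, hcp, hE⟩
          obtain ⟨x, hx⟩ := hcomp ⟨h, hTm⟩
          refine ⟨(x : ℕ), hxprime x, ?_, ?_⟩
          · exact (((hP x).1 x.2).2.2).trans hηX
          · have h0 : (x : ℕ) ∣ primorial w * y + sv (Sum.inl ⟨h, hTm⟩) := hx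
            rw [hsvl] at h0
            rwa [add_assoc]
        · obtain ⟨p, hp, hp1, hp2⟩ := Nat.Prime.not_coprime_iff_dvd.1 hcp
          refine ⟨p, hp, ?_, ?_⟩
          · have := sck_prime_le hp hp2
            refine le_trans ?_ hwε
            exact_mod_cast this
          · rw [add_assoc]
            exact (Nat.dvd_add_right (hp2.mul_right y)).2 hp1
      · refine hmany.trans ?_
        refine Finset.card_le_card_of_injOn (fun e : E => (e : ℕ)) ?_
          (Subtype.val_injective.injOn)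
        intro e he
        have he' := (Finset.mem_filter.mp (Finset.mem_coe.mp he)).2
        rw [Finset.mem_coe, Finset.mem_filter]
        refine ⟨e.2, ?_⟩
        have h0 : (primorial w * y + sv (Sum.inr e)).Prime := he'
        rw [hsvr, ← add_assoc] at h0
        exact h0
    · intro y _ y' _ hyy
      have h0 : primorial w * y + v = primorial w * y' + v := hyy
      exact Nat.eq_of_mul_eq_mul_left hWpos (by omega)
  · intro e
    have be := hEb _ e.2
    have hjH : ((e : ℕ) : ℝ) ≤ H := by exact_mod_cast be.2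
    have he0 : (0 : ℝ) ≤ ((e : ℕ) : ℝ) := Nat.cast_nonneg _
    have hv0 : (0 : ℝ) ≤ v := Nat.cast_nonneg _
    have hSv : S.v (Sum.inr e) = v + (e : ℕ) := hsvr e
    have hup : ((2 * (S.W * Y) + S.v (Sum.inr e) : ℕ) : ℝ) ≤ 4 * X := by
      rw [hSv]
      show ((2 * (primorial w * Y) + (v + (e : ℕ)) : ℕ) : ℝ) ≤ 4 * X
      push_cast
      rw [hXL] at hY2 ⊢
      linarith
    refine ⟨hext e, ?_, ?_, ?_⟩
    · rw [hSv]
      exact hcop _ e.2
    · obtain ⟨R, hR0, hR1, hR2⟩ := hgood (S.W * Y + S.v (Sum.inr e))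
        (2 * (S.W * Y) + S.v (Sum.inr e)) (by
          rw [hSv]
          show X ≤ ((primorial w * Y + (v + (e : ℕ)) : ℕ) : ℝ)
          push_cast
          linarith) (by omega) hup
      refine ⟨R, hR0, ?_, ?_⟩
      · refine hR1.trans (le_of_eq ?_)
        push_cast
        ring
      · refine (hR2 Q hQ1).trans ?_
        show 1 / 8 * X ≤ (primorial w : ℝ) * Y / 8
        linarith
    · have hpos : (0 : ℝ) < ((2 * (S.W * Y) + S.v (Sum.inr e) : ℕ) : ℝ) := by
        rw [hSv]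
        show (0 : ℝ) < ((2 * (primorial w * Y) + (v + (e : ℕ)) : ℕ) : ℝ)
        push_cast
        linarith
      have hX4 : 4 ≤ X := by linarith
      have : ((2 * (S.W * Y) + S.v (Sum.inr e) : ℕ) : ℝ) ≤ Real.exp (2 * L) := by
        refine hup.trans ?_
        rw [two_mul, Real.exp_add, ← hXL]
        exact mul_le_mul_of_nonneg_right hX4 hX0.le
      calc Real.log ((2 * (S.W * Y) + S.v (Sum.inr e) : ℕ) : ℝ) ≤ Real.log (Real.exp (2 * L)) :=
            Real.log_le_log hpos this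
        _ = 2 * L := Real.log_exp _
  · intro hne χ hχ e
    have h0 := hsgn hne χ (SCR_agree P (fun p hp => ((hP p).1 hp).1) (primorial w) hWpos y₁ hy₁ χ
      (fun m hm hm' => hχ m hm (fun x => hm' x x.2))) _ e.2
    have hSv : S.v (Sum.inr e) = v + (e : ℕ) := hsvr e
    rw [hSv]
    exact h0
  · intro n hn hnW
    have hnX : X < n := by
      have : ((primorial w * Y : ℕ) : ℝ) < n := by exact_mod_cast hnW
      push_cast at this
      linarith
    have hwn : w < n := by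
      have : (w : ℝ) < n := by linarith
      exact_mod_cast this
    refine ⟨sck_coprime hn hwn, ?_⟩
    intro x
    have e1 := ((hP x).1 x.2).2.2
    have e2 : Real.exp (η * L) ≤ X := by
      rw [hXL]
      apply Real.exp_le_exp.mpr
      nlinarith
    have : ((x : ℕ) : ℝ) < n := by linarith
    exact_mod_cast this

end Pool.LGR
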