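import Pool.Agent.Work.MP_b0c12c_rp.Interface
import Pool.Agent.Work.MP_b0c12c_chain.B_RESQc

/-! Block SGK (typed by helper88): one prime gives the sign `-1` at a third of the places. -/

set_option autoImplicit false

namespace Pool.LGR

open Finset Filter
open Pool.LGP Pool.LGC

/-- Counting: real numbers `f i t` in `[-1, ...]` with mean zero for each `i`; then some `t` outside
the exceptional set has many values `-1`. -/
theorem SGK_count {τ : Type} [Fintype τ] [DecidableEq τ] (K p : ℕ) (hK : 1 ≤ K)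
    (hp : 6 * K + 3 < p) (hτ : Fintype.card τ = p) (f : Fin K → τ → ℝ)
    (hsum : ∀ i, ∑ t, f i t = 0) (hlo : ∀ i t, -1 ≤ f i t) (Z : Finset τ) (hZ : Z.card ≤ K)
    (hval : ∀ t, t ∉ Z → ∀ i, f i t = 1 ∨ f i t = -1) :
    ∃ t, t ∉ Z ∧ K ≤ 3 * (univ.filter (fun i => f i t = -1)).card := by
  by_contra hcon
  push Not at hcon
  have h1 : ∀ t, t ∉ Z → (K : ℝ) ≤ 3 * ∑ i, f i t := by
    intro t ht
    have h2 : ∑ i, f i t = (K : ℝ) - 2 * ((univ.filter (fun i => f i t = -1)).card : ℝ) := by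
      have h3 : ∀ i, f i t = 1 - 2 * (if f i t = -1 then 1 else 0) := by
        intro i
        rcases hval t ht i with h | h
        · rw [h]; norm_num
        · rw [h]; norm_num
      rw [Finset.sum_congr rfl fun i _ => h3 i, Finset.sum_sub_distrib, ← Finset.mul_sum]
      simp
    have h4 := hcon t ht
    have h5 : 3 * ((univ.filter (fun i => f i t = -1)).card : ℝ) + 1 ≤ K := by exact_mod_cast h4
    rw [h2]
    linarith
  have h2 : ∀ t, -(3 * (K : ℝ)) ≤ 3 * ∑ i, f i t := by
    intro t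
    have h3 : -(K : ℝ) ≤ ∑ i, f i t := by
      have h4 : ∑ i : Fin K, (-1 : ℝ) ≤ ∑ i, f i t := Finset.sum_le_sum fun i _ => hlo i t
      simpa using h4
    linarith
  have h3 : ∑ t, (3 * ∑ i, f i t) = 0 := by
    rw [← Finset.mul_sum, Finset.sum_comm, Finset.sum_eq_zero (fun i _ => hsum i), mul_zero]
  have h4 : ∑ t, (if t ∈ Z then -(3 * (K : ℝ)) else (K : ℝ)) ≤ ∑ t, (3 * ∑ i, f i t) := by
    refine Finset.sum_le_sum fun t _ => ?_
    split_ifs with h
    · exact h2 t
    · exact h1 t h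
  have h5 : ∑ t : τ, (if t ∈ Z then -(3 * (K : ℝ)) else (K : ℝ)) =
      (Z.card : ℝ) * (-(3 * (K : ℝ))) + ((p : ℝ) - Z.card) * K := by
    rw [Finset.sum_ite, Finset.sum_const, Finset.sum_const, nsmul_eq_mul, nsmul_eq_mul]
    have e1 : univ.filter (fun t => t ∈ Z) = Z := by ext t; simp
    have e2 : (univ.filter (fun t => t ∉ Z)).card + Z.card = p := by
      have := Finset.card_filter_add_card_filter_not (s := (univ : Finset τ)) (fun t => t ∈ Z)
      rw [e1, Finset.card_univ, hτ] at this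
      omega
    have e3 : ((univ.filter (fun t => t ∉ Z)).card : ℝ) = (p : ℝ) - Z.card := by
      have : ((univ.filter (fun t => t ∉ Z)).card : ℝ) + Z.card = p := by exact_mod_cast e2
      linarith
    rw [e1, e3]
  rw [h5, h3] at h4
  have hZ' : (Z.card : ℝ) ≤ K := by exact_mod_cast hZ
  have hK' : (1 : ℝ) ≤ K := by exact_mod_cast hK
  have hp' : 6 * (K : ℝ) + 3 < p := by exact_mod_cast hp
  nlinarith

theorem SGK_place (w : ℕ) (χ : DirichletCharacter ℂ (primorial w)) (hχ : χ ^ 2 = 1) (K p₁ G : ℕ)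
    (hp₁ : p₁.Prime) (hp₁w : p₁ ≤ w) (hK : 1 ≤ K) (hbig : 6 * K + 3 < p₁)
    (hGχ : χ (G : ZMod (primorial w)) = -1)
    (hG : ∀ p : ℕ, p.Prime → p ≤ w → p ≠ p₁ → G ≡ 1 [MOD p]) (v' : ℕ) (e : Fin K → ℕ)
    (hcop : ∀ p : ℕ, p.Prime → p ≤ w → p ≠ p₁ → ∀ i, ¬ p ∣ v' + e i) :
    ∃ v : ℕ, (∀ p : ℕ, p.Prime → p ≤ w → p ≠ p₁ → v ≡ v' [MOD p]) ∧
      (∀ i, ¬ p₁ ∣ v + e i) ∧
      K ≤ 3 * (univ.filter (fun i => χ ((v + e i : ℕ) : ZMod (primorial w)) = -1)).card := by
  classical
  haveI : Fact p₁.Prime := ⟨hp₁⟩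
  haveI : NeZero p₁ := ⟨hp₁.ne_zero⟩
  set S : Finset ℕ := (range (w + 1)).filter Nat.Prime with hS
  set m : ℕ := ∏ p ∈ S.erase p₁, p with hm
  have hcm : m.Coprime p₁ := by
    rw [hm]
    apply Nat.Coprime.prod_left
    intro q hq
    rw [Finset.mem_erase, hS, Finset.mem_filter] at hq
    exact (Nat.coprime_primes hq.2.2 hp₁).2 hq.1
  -- the residues
  set V : ZMod p₁ → ℕ := fun t => (Nat.chineseRemainder hcm v' t.val : ℕ) with hV
  have hV1 : ∀ t, ∀ p : ℕ, p.Prime → p ≤ w → p ≠ p₁ → V t ≡ v' [MOD p] := by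
    intro t p hp hpw hne
    have h1 : V t ≡ v' [MOD m] := (Nat.chineseRemainder hcm v' t.val).2.1
    refine h1.of_dvd ?_
    rw [hm]
    apply Finset.dvd_prod_of_mem
    rw [Finset.mem_erase, hS, Finset.mem_filter, Finset.mem_range]
    exact ⟨hne, by omega, hp⟩
  have hV2 : ∀ t, ((V t : ℕ) : ZMod p₁) = t := by
    intro t
    have h1 : V t ≡ t.val [MOD p₁] := (Nat.chineseRemainder hcm v' t.val).2.2
    have h2 := (ZMod.natCast_eq_natCast_iff _ _ _).2 h1
    rw [h2, ZMod.natCast_zmod_val]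
  have hunit : ∀ n : ℕ, χ (n : ZMod (primorial w)) ≠ 0 → n.Coprime (primorial w) := by
    intro n hn
    by_contra hc
    apply hn
    exact MulChar.map_nonunit χ (fun hu => hc ((ZMod.isUnit_iff_coprime n (primorial w)).1 hu))
  have hdvd : ∀ p : ℕ, p.Prime → p ≤ w → p ∣ primorial w := fun p hp hpw =>
    hp.dvd_primorial_iff.2 hpw
  have hGp : (G : ZMod p₁) ≠ 0 := by
    intro h0
    have h1 : p₁ ∣ G := (ZMod.natCast_eq_zero_iff _ _).1 h0
    have h2 : G.Coprime (primorial w) := hunit G (by rw [hGχ]; norm_num)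
    have h3 := Nat.dvd_gcd h1 (hdvd p₁ hp₁ hp₁w)
    rw [h2] at h3
    exact hp₁.one_lt.ne' (Nat.dvd_one.1 h3)
  -- the permutation
  have hflip : ∀ i, ∀ t : ZMod p₁,
      χ ((V ((G : ZMod p₁) * (t + e i) - e i) + e i : ℕ) : ZMod (primorial w)) =
        -χ ((V t + e i : ℕ) : ZMod (primorial w)) := by
    intro i t
    have h1 : V ((G : ZMod p₁) * (t + e i) - e i) + e i ≡ G * (V t + e i) [MOD primorial w] := by
      apply SGN_modEq
      intro p hp hpw
      by_cases hne : p = p₁
      · subst hne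
        rw [← ZMod.natCast_eq_natCast_iff]
        push_cast
        rw [hV2, hV2]
        ring
      · have a1 := (hV1 ((G : ZMod p₁) * (t + e i) - e i) p hp hpw hne).add_right (e i)
        have a2 := (hG p hp hpw hne).mul ((hV1 t p hp hpw hne).add_right (e i))
        rw [one_mul] at a2
        exact a1.trans a2.symm
    rw [(ZMod.natCast_eq_natCast_iff _ _ _).2 h1, Nat.cast_mul, map_mul, hGχ]
    ring
  have hsum : ∀ i, ∑ t : ZMod p₁, χ ((V t + e i : ℕ) : ZMod (primorial w)) = 0 := by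
    intro i
    let E : ZMod p₁ ≃ ZMod p₁ :=
      ((Equiv.addRight (e i : ZMod p₁)).trans (Equiv.mulLeft₀ (G : ZMod p₁) hGp)).trans
        (Equiv.subRight (e i : ZMod p₁))
    have h1 := Equiv.sum_comp E (fun t => χ ((V t + e i : ℕ) : ZMod (primorial w)))
    have h2 : ∑ t : ZMod p₁, χ ((V (E t) + e i : ℕ) : ZMod (primorial w)) =
        - ∑ t : ZMod p₁, χ ((V t + e i : ℕ) : ZMod (primorial w)) := by
      rw [← Finset.sum_neg_distrib]
      refine Finset.sum_congr rfl fun t _ => ?_
      exact hflip i t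
    rw [h2] at h1
    have h3 := self_eq_neg.1 h1.symm
    exact h3
  -- the exceptional set
  set Z : Finset (ZMod p₁) := univ.image (fun i : Fin K => -(e i : ZMod p₁)) with hZ
  have hZc : Z.card ≤ K := by
    have := Finset.card_image_le (s := (univ : Finset (Fin K))) (f := fun i => -(e i : ZMod p₁))
    simpa [hZ] using this
  have hZn : ∀ t, t ∉ Z → ∀ i, ¬ p₁ ∣ V t + e i := by
    intro t ht i hd
    apply ht
    rw [hZ, Finset.mem_image]
    refine ⟨i, Finset.mem_univ _, ?_⟩
    have h1 := (ZMod.natCast_eq_zero_iff _ _).2 hd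
    push_cast at h1
    rw [hV2] at h1
    exact (eq_neg_of_add_eq_zero_left h1).symm
  have hval : ∀ t, t ∉ Z → ∀ i, χ ((V t + e i : ℕ) : ZMod (primorial w)) = 1 ∨
      χ ((V t + e i : ℕ) : ZMod (primorial w)) = -1 := by
    intro t ht i
    rcases resq_val χ hχ ((V t + e i : ℕ) : ZMod (primorial w)) with h | h | h
    · exfalso
      have hc : (V t + e i).Coprime (primorial w) := by
        rw [primorial]
        apply Nat.Coprime.prod_right
        intro p hp
        rw [Finset.mem_filter, Finset.mem_range] at hp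
        rw [Nat.coprime_comm, hp.2.coprime_iff_not_dvd]
        by_cases hne : p = p₁
        · subst hne
          exact hZn t ht i
        · intro hd
          have h1 := (hV1 t p hp.2 (by omega) hne).add_right (e i)
          exact hcop p hp.2 (by omega) hne i ((h1.dvd_iff (dvd_refl p)).1 hd)
      have hu : IsUnit ((V t + e i : ℕ) : ZMod (primorial w)) :=
        (ZMod.isUnit_iff_coprime _ (primorial w)).2 hc
      exact (hu.map χ).ne_zero h
    · exact Or.inl h
    · exact Or.inr h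
  obtain ⟨t, ht, hcount⟩ := SGK_count (τ := ZMod p₁) K p₁ hK hbig (ZMod.card p₁)
    (fun i t => (χ ((V t + e i : ℕ) : ZMod (primorial w))).re)
    (fun i => by
      have h1 := congrArg Complex.re (hsum i)
      rw [Complex.re_sum] at h1
      simpa using h1)
    (fun i t => by
      rcases resq_val χ hχ ((V t + e i : ℕ) : ZMod (primorial w)) with h | h | h
      · simp only [h]; norm_num
      · simp only [h]; norm_num
      · simp only [h]; norm_num) Z hZc
    (fun t ht i => by
      rcases hval t ht i with h | h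
      · left; simp only [h]; norm_num
      · right; simp only [h]; norm_num)
  refine ⟨V t, hV1 t, hZn t ht, ?_⟩
  refine le_trans hcount ?_
  refine Nat.mul_le_mul_left 3 (Finset.card_le_card ?_)
  intro i hi
  rw [Finset.mem_filter] at hi ⊢
  refine ⟨Finset.mem_univ _, ?_⟩
  rcases hval t ht i with h | h
  · exfalso
    have := hi.2
    simp only [h] at this
    norm_num at this
  · exact h

theorem p_SGK : Stmt_SGK := by
  intro K
  refine ⟨primorial (6 * K + 3) + 1, ?_⟩
  intro w χ hχ _ hc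
  have hlt : primorial (6 * K + 3) < χ.conductor := by omega
  have hle : 6 * K + 3 ≤ w := by
    by_contra hcon
    push Not at hcon
    have h1 : χ.conductor ≤ primorial w := Nat.le_of_dvd (primorial_pos w) χ.conductor_dvd_level
    have h2 : primorial w ≤ primorial (6 * K + 3) := by
      apply Nat.le_of_dvd (primorial_pos _)
      unfold primorial
      apply Finset.prod_dvd_prod_of_subset
      apply Finset.filter_subset_filter
      exact Finset.range_subset_range.2 (by omega)
    omega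
  obtain ⟨p₁, hp₁, hz, hp₁w, G, hGχ, hG⟩ := resq_p1 w (6 * K + 3) χ hχ hle hlt
  refine ⟨p₁, hp₁, hz, hp₁w, ?_⟩
  intro v' e hcop
  rcases Nat.eq_zero_or_pos K with h0 | hpos
  · subst h0
    exact ⟨v', fun p _ _ _ => Nat.ModEq.refl _, fun i => i.elim0, Nat.zero_le _⟩
  · exact SGK_place w χ hχ K p₁ G hp₁ hp₁w hpos hz hGχ hG v' e hcop

end Pool.LGR
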