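import Pool.Agent.Work.MP_b0c12c_rp.Interface

/-! Block UPG (typed by helper88): upper bound for the mean of `F ^ 2`. -/

set_option autoImplicit false

namespace Pool.LGR

open Finset Filter
open Pool.LGP Pool.LGC

/-- `ga ^ 2 * szn` is at most the product of the masses. -/
theorem UPG_ga {π A : Type} [Fintype π] [DecidableEq π] [Fintype A] [DecidableEq A]
    (hWTF : Pool.LGP.Stmt_WTF) (S : Sys π A) (v : Finset π → ℝ) (D : ℝ) (τ : π → Option A) :
    ga S v D τ ^ 2 * S.szn τ ≤ ∏ e, (v (fib τ e) ^ 2 * S.wt (fib τ e)) := by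
  have hnn : 0 ≤ ∏ e, (v (fib τ e) ^ 2 * S.wt (fib τ e)) :=
    Finset.prod_nonneg fun e _ => mul_nonneg (sq_nonneg _)
      (Finset.prod_nonneg fun x _ => Nat.cast_nonneg _)
  unfold ga
  split_ifs with h
  · rw [Finset.prod_mul_distrib, Finset.prod_pow, (hWTF π A S τ).1]
  · simpa using hnn

/-- The mass of the coefficients is at most the product of the masses. -/
theorem UPG_mass {π T A : Type} [Fintype π] [DecidableEq π] [Fintype T] [DecidableEq T] [Fintype A]
    [DecidableEq A] (hLRS : Stmt_LRS) (hLRI : Stmt_LRI) (hWTF : Pool.LGP.Stmt_WTF)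
    (hINJ : Pool.LGP.Stmt_INJ) (S : Sys π (T ⊕ A)) (u v : Finset π → ℝ) (D : ℝ) :
    MM S (ab S u v D) ≤ MF S u D * vx S v ^ Fintype.card A := by
  have h1 := (hLRI π T A (fun σ => (rst S Sum.inl).aa u D σ ^ 2 * (rst S Sum.inl).szn σ)
    (fun τ => ga (rst S Sum.inr) v D τ ^ 2 * (rst S Sum.inr).szn τ)
    (fun σ => mul_nonneg (sq_nonneg _) (Nat.cast_nonneg _))
    (fun τ => mul_nonneg (sq_nonneg _) (Nat.cast_nonneg _))).1
  have h2 : MM S (ab S u v D) = ∑ ρ : π → Option (T ⊕ A),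
      ((rst S Sum.inl).aa u D (lft ρ) ^ 2 * (rst S Sum.inl).szn (lft ρ)) *
      (ga (rst S Sum.inr) v D (rgt ρ) ^ 2 * (rst S Sum.inr).szn (rgt ρ)) := by
    unfold MM ab
    refine Finset.sum_congr rfl fun ρ _ => ?_
    rw [(hLRS π T A S ρ).1]
    push_cast
    ring
  have h3 : ∑ τ : π → Option A, ga (rst S Sum.inr) v D τ ^ 2 * (rst S Sum.inr).szn τ ≤
      vx S v ^ Fintype.card A := by
    have h4 := hINJ π A (fun U => v U ^ 2 * S.wt U) (fun U => mul_nonneg (sq_nonneg _)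
      (Finset.prod_nonneg fun x _ => Nat.cast_nonneg _))
    refine le_trans (Finset.sum_le_sum fun τ _ => UPG_ga hWTF (rst S Sum.inr) v D τ) ?_
    exact h4
  rw [h2]
  refine le_trans h1 ?_
  refine mul_le_mul_of_nonneg_left h3 ?_
  exact Finset.sum_nonneg fun σ _ => mul_nonneg (sq_nonneg _) (Nat.cast_nonneg _)

/-- The support of the coefficients. -/
theorem UPG_supp {π T A : Type} [Fintype π] [DecidableEq π] [Fintype T] [DecidableEq T] [Fintype A]
    [DecidableEq A] (hLRS : Stmt_LRS) (hACT : Pool.LGP.Stmt_ACT) (S : Sys π (T ⊕ A))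
    (u v : Finset π → ℝ) (D : ℝ) (h3 : ∀ x, (3 : ℝ) ≤ S.pr x) (ρ : π → Option (T ⊕ A))
    (h : ab S u v D ρ ≠ 0) : (act ρ : ℝ) ≤ 2 * Real.log D := by
  unfold ab at h
  have ha : (rst S Sum.inl).aa u D (lft ρ) ≠ 0 := left_ne_zero_of_mul h
  have hb : ga (rst S Sum.inr) v D (rgt ρ) ≠ 0 := right_ne_zero_of_mul h
  have ha' : ((rst S (Sum.inl : T → T ⊕ A)).szn (lft ρ) : ℝ) ≤ D := by
    by_contra hc
    apply ha
    unfold Sys.aa
    rw [if_neg hc]
  have hb' : ((rst S (Sum.inr : A → T ⊕ A)).szn (rgt ρ) : ℝ) ≤ D := by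
    by_contra hc
    apply hb
    unfold ga
    rw [if_neg hc]
  have h1 := hACT π T (rst S Sum.inl) D h3 (lft ρ) ha'
  have h2 := hACT π A (rst S Sum.inr) D h3 (rgt ρ) hb'
  have h4 : (act ρ : ℝ) = act (lft ρ) + act (rgt ρ) := by
    rw [(hLRS π T A S ρ).2.2.1]
    push_cast
    rfl
  linarith

theorem p_UPG (hLRS : Stmt_LRS) (hLRI : Stmt_LRI) (hL2 : Pool.LGP.Stmt_L2)
    (hACT : Pool.LGP.Stmt_ACT) (hWTF : Pool.LGP.Stmt_WTF) (hINJ : Pool.LGP.Stmt_INJ) :
    Stmt_UPG := by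
  intro π T A _ _ _ _ _ _ S u v a b C a' b' C' K D z s k Q hd Y
  have hlog : 0 ≤ Real.log D := Real.log_nonneg (hd.b1.le.trans hd.bD)
  have h3 : ∀ x, (3 : ℝ) ≤ S.pr x := fun x => hd.z3.trans (hd.z_le x)
  have hsupp : ∀ ρ, ab S u v D ρ ≠ 0 → 8 * (act ρ : ℝ) * (Fintype.card (T ⊕ A) + 1) ≤ z := by
    intro ρ hρ
    have h1 := UPG_supp hLRS hACT S u v D h3 ρ hρ
    have hk : (Fintype.card A : ℝ) ≤ k := by exact_mod_cast hd.hk
    have hc : (Fintype.card (T ⊕ A) : ℝ) = Fintype.card T + Fintype.card A := by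
      rw [Fintype.card_sum]; push_cast; rfl
    have hT : (0 : ℝ) ≤ Fintype.card T := Nat.cast_nonneg _
    have hA : (0 : ℝ) ≤ Fintype.card A := Nat.cast_nonneg _
    rw [hc]
    calc 8 * (act ρ : ℝ) * ((Fintype.card T : ℝ) + Fintype.card A + 1)
        ≤ 8 * (2 * Real.log D) * ((Fintype.card T : ℝ) + k + 3) := by
          apply mul_le_mul
          · linarith
          · linarith
          · linarith
          · linarith
      _ ≤ 192 * Real.log D * (Fintype.card T + k + 3) := by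
          apply mul_le_mul_of_nonneg_right
          · linarith
          · linarith
      _ ≤ z := hd.h64
  have h4 := (hL2 π (T ⊕ A) S hd.good z hd.z3 hd.z_le (ab S u v D) hsupp Y).1
  have h5 := UPG_mass hLRS hLRI hWTF hINJ S u v D
  have h6 : 2 * (Y : ℝ) * MM S (ab S u v D) ≤ 2 * Y * (MF S u D * vx S v ^ Fintype.card A) :=
    mul_le_mul_of_nonneg_left h5 (by positivity)
  unfold FF EE
  unfold MM at h6
  linarith

end Pool.LGR
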