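import Pool.Agent.Work.MP_b0c12c_rp.Interface

set_option autoImplicit false

namespace Pool.LGR

open Finset Filter
open Pool.LGP Pool.LGC

theorem VEX_sum (P : Finset ℕ) (g : Finset ℕ → ℝ) :
    ∑ T : Finset P, g (T.map (Function.Embedding.subtype _)) = ∑ T ∈ P.powerset, g T := by
  refine Finset.sum_bij (fun T _ => T.map (Function.Embedding.subtype _)) ?_ ?_ ?_ ?_
  · intro T _
    rw [Finset.mem_powerset]
    intro x hx
    rw [Finset.mem_map] at hx
    obtain ⟨y, _, rfl⟩ := hx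
    exact y.2
  · intro T _ T' _ h
    exact Finset.map_injective _ h
  · intro T hT
    exact ⟨T.subtype (· ∈ P), Finset.mem_univ _,
      Finset.subtype_map_of_mem (fun x hx => Finset.mem_powerset.mp hT hx)⟩
  · intro T _
    rfl

theorem VEX_wt {P : Finset ℕ} {ι : Type} (S : Sys P ι) (hS : ∀ x : P, S.pr x = (x : ℕ))
    (T : Finset P) :
    S.wt T = ∏ p ∈ T.map (Function.Embedding.subtype _), (p : ℝ) := by
  rw [Finset.prod_map]
  unfold Sys.wt
  refine Finset.prod_congr rfl (fun x _ => ?_)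
  rw [hS x]
  rfl

/-- elementary inequalities for large `L` -/
theorem VEX_large (c R₀ κ : ℝ) (hc : 0 < c) (hκ : 0 < κ) : ∃ L₀ : ℝ, ∀ L : ℝ, L₀ ≤ L →
    1 ≤ Real.log L ∧ 64 * Real.log L ≤ κ * L ∧ R₀ ≤ Real.exp (κ * L) ∧
      4 * Real.log L ≤ c * (κ * L) ∧ 2 ≤ L := by
  have h1 : ∀ᶠ L : ℝ in atTop, 1 ≤ Real.log L := Real.tendsto_log_atTop.eventually_ge_atTop 1
  have h3 : ∀ᶠ L : ℝ in atTop, ‖Real.log L‖ ≤ (min (κ / 64) (c * κ / 4)) * ‖L‖ :=
    Real.isLittleO_log_id_atTop.bound (by positivity)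
  have h4 : ∀ᶠ L : ℝ in atTop, R₀ ≤ Real.exp (κ * L) :=
    (Real.tendsto_exp_atTop.comp (tendsto_id.const_mul_atTop hκ)).eventually_ge_atTop R₀
  have h5 : ∀ᶠ L : ℝ in atTop, (2 : ℝ) ≤ L := eventually_ge_atTop 2
  obtain ⟨L₀, h⟩ := eventually_atTop.1 (h1.and (h3.and (h4.and h5)))
  refine ⟨L₀, fun L hL => ?_⟩
  obtain ⟨g1, g3, g4, g5⟩ := h L hL
  have hl0 : 0 ≤ Real.log L := by linarith
  have hL0 : 0 ≤ L := by linarith
  rw [Real.norm_of_nonneg hl0, Real.norm_of_nonneg hL0] at g3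
  have m1 : min (κ / 64) (c * κ / 4) * L ≤ κ / 64 * L :=
    mul_le_mul_of_nonneg_right (min_le_left _ _) hL0
  have m2 : min (κ / 64) (c * κ / 4) * L ≤ c * κ / 4 * L :=
    mul_le_mul_of_nonneg_right (min_le_right _ _) hL0
  refine ⟨g1, by linarith, g4, ?_, g5⟩
  have e : c * κ / 4 * L = c * (κ * L) / 4 := by ring
  linarith

/-- the sum of `1 / ∏` over the subsets -/
theorem VEX_prod (P : Finset ℕ) :
    ∑ T ∈ P.powerset, 1 / (∏ p ∈ T, (p : ℝ)) = ∏ p ∈ P, (1 + 1 / (p : ℝ)) := by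
  rw [Finset.prod_one_add]
  refine Finset.sum_congr rfl (fun T _ => ?_)
  rw [Finset.prod_div_distrib, Finset.prod_const_one]

/-- Cauchy-Schwarz for the weight. -/
theorem VEX_cs (P : Finset ℕ) (hP : ∀ p ∈ P, 1 ≤ p) (u : Finset ℕ → ℝ)
    (hu : ∑ T ∈ P.powerset, u T = 1) :
    1 ≤ (∑ T ∈ P.powerset, u T ^ 2 * ∏ p ∈ T, (p : ℝ)) * ∏ p ∈ P, (1 + 1 / (p : ℝ)) := by
  rw [← VEX_prod]
  have hpos : ∀ T ∈ P.powerset, 0 < ∏ p ∈ T, (p : ℝ) := by
    intro T hT
    refine Finset.prod_pos (fun p hp => ?_)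
    have := hP p (Finset.mem_powerset.1 hT hp)
    exact_mod_cast this
  have h := Finset.sum_sq_le_sum_mul_sum_of_sq_le_mul P.powerset
    (r := u) (f := fun T => u T ^ 2 * ∏ p ∈ T, (p : ℝ)) (g := fun T => 1 / (∏ p ∈ T, (p : ℝ)))
    (fun T hT => mul_nonneg (sq_nonneg _) (hpos T hT).le)
    (fun T hT => one_div_nonneg.mpr (hpos T hT).le)
    (fun T hT => by
      have := (hpos T hT).ne'
      refine le_of_eq ?_
      field_simp)
  rw [hu, one_pow] at h
  exact h

theorem p_VEX (h1 : Pool.LGP.Stmt_VLO) (h2 : Pool.LGP.Stmt_VUP) (h3 : Pool.LGP.Stmt_UAB)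
    (h4 : Pool.LGP.Stmt_TRF) (h5 : Pool.LGP.Stmt_PRD) : Stmt_VEX := by
  classical
  obtain ⟨c, R₀, hc, hlo⟩ := h1
  obtain ⟨C, hC, hup⟩ := h2
  obtain ⟨cP, CP, hcP, hCP, hprd⟩ := h5
  refine ⟨max 1 (C / c), 4 / c, le_max_left _ _, by positivity, ?_⟩
  intro η J hη hη1 hJpos
  set κ : ℝ := η / 4 / 4 ^ J with hκ
  have hκ0 : 0 < κ := by positivity
  obtain ⟨L₀, hL₀⟩ := VEX_large c R₀ κ hc hκ0
  refine ⟨3 / (CP * η), L₀, by positivity, ?_⟩
  intro L hL P hP
  obtain ⟨g1, g3, g4, g5, g6⟩ := hL₀ L hL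
  have hLpos : 0 < L := by linarith
  have hl : 0 < Real.log L := by linarith
  have hJr : (0 : ℝ) < J := by exact_mod_cast hJpos
  have hJ1 : (1 : ℝ) ≤ J := by exact_mod_cast hJpos
  have hκL : 0 < κ * L := by positivity
  set b : ℝ := η / 4 * L with hb
  have hbpos : 0 < b := by positivity
  set z : ℕ := ⌈L ^ 3⌉₊ with hz
  have hL3 : (8 : ℝ) ≤ L ^ 3 := by
    have : (2 : ℝ) ^ 3 ≤ L ^ 3 := by gcongr
    linarith
  have hz1 : L ^ 3 ≤ z := Nat.le_ceil _
  have hz2 : (z : ℝ) ≤ L ^ 3 + 1 := (Nat.ceil_lt_add_one (by positivity)).le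
  have hz8 : (8 : ℝ) ≤ z := hL3.trans hz1
  have hzN : 2 ≤ z := by
    have : (2 : ℝ) ≤ z := by linarith
    exact_mod_cast this
  have hzpos : (0 : ℝ) < z := by linarith
  have hz4 : (z : ℝ) ≤ L ^ 4 := by
    have : L ^ 4 = L ^ 3 * L := by ring
    nlinarith
  have hlogz : Real.log z ≤ 4 * Real.log L := by
    have h1 := Real.log_le_log hzpos hz4
    rw [Real.log_pow] at h1
    exact_mod_cast h1
  have hlogz3 : 3 * Real.log L ≤ Real.log z := by
    have h1 := Real.log_le_log (by positivity) hz1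
    rw [Real.log_pow] at h1
    exact_mod_cast h1
  have hlogz0 : 0 < Real.log z := Real.log_pos (by linarith)
  -- the scales
  set R : ℕ → ℝ := fun j => Real.exp (b / 4 ^ j) with hR
  have hbJe : b / 4 ^ J = κ * L := by
    rw [hb, hκ]
    ring
  have hbj : ∀ j ≤ J, κ * L ≤ b / 4 ^ j := by
    intro j hj
    rw [← hbJe]
    apply div_le_div_of_nonneg_left hbpos.le (by positivity)
    exact pow_le_pow_right₀ (by norm_num) hj
  have hlogR : ∀ j, Real.log (R j) = b / 4 ^ j := fun j => Real.log_exp _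
  have hz16 : (z : ℝ) ^ 16 = Real.exp (16 * Real.log z) := by
    rw [show (16 : ℝ) * Real.log z = Real.log ((z : ℝ) ^ 16) by rw [Real.log_pow]; norm_num,
      Real.exp_log (by positivity)]
  have hRz : ∀ j ≤ J, (z : ℝ) ^ 16 ≤ R j := by
    intro j hj
    rw [hz16]
    apply Real.exp_le_exp.2
    have := hbj j hj
    linarith
  have hRquart : ∀ j, R j ^ (1 / 4 : ℝ) = R (j + 1) := by
    intro j
    show Real.exp (b / 4 ^ j) ^ (1 / 4 : ℝ) = Real.exp (b / 4 ^ (j + 1))
    rw [← Real.exp_mul]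
    congr 1
    rw [pow_succ]
    field_simp
  have hR0 : R 0 = Real.exp b := by
    show Real.exp (b / 4 ^ 0) = Real.exp b
    rw [pow_zero, div_one]
  have hbη : b ≤ η * L := by
    rw [hb]
    nlinarith [mul_pos hη hLpos]
  have hRle : ∀ j, R j ≤ Real.exp (η * L) := by
    intro j
    apply Real.exp_le_exp.2
    exact (div_le_self hbpos.le (one_le_pow₀ (by norm_num))).trans hbη
  have hPz : ∀ p ∈ P, p.Prime ∧ z < p := fun p hp => ⟨((hP p).1 hp).1, ((hP p).1 hp).2.1⟩
  set V : ℕ → ℝ := fun j => ∑ T ∈ P.powerset, (open Classical in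
        if R (j + 1) < (∏ p ∈ T, (p : ℝ)) ∧ (∏ p ∈ T, (p : ℝ)) ≤ R j then
        1 / (∏ p ∈ T, (p : ℝ)) else 0) with hV
  have hVc : ∀ j < J, c * (Real.log (R j) / Real.log z) ≤ V j := by
    intro j hj
    have h1 := hlo z (R j) P hzN (hRz j hj.le)
      (g4.trans (Real.exp_le_exp.2 (hbj j hj.le)))
      (fun p hp hzp hpR => (hP p).2 ⟨hp, hzp, hpR.trans (hRle j)⟩) hPz
    rw [hRquart j] at h1
    exact h1
  have hV1 : ∀ j < J, 1 ≤ V j := by
    intro j hj
    refine le_trans ?_ (hVc j hj)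
    rw [hlogR, ← mul_div_assoc, le_div_iff₀ hlogz0, one_mul]
    have := mul_le_mul_of_nonneg_left (hbj j hj.le) hc.le
    linarith
  obtain ⟨u, u1, u2, u3, u4, u5, u6, u7, u8⟩ := h3 P J R V c C (Real.log z) hJpos hc hC hlogz0
    (fun p hp => (hPz p hp).1.one_lt.le)
    (by
      show 1 ≤ Real.exp (b / 4 ^ J)
      exact Real.one_le_exp (by positivity))
    (by
      intro j _
      apply Real.exp_lt_exp.2
      apply div_lt_div_of_pos_left hbpos (by positivity)
      exact pow_lt_pow_right₀ (by norm_num) (Nat.lt_succ_self j))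
    (fun j _ => rfl) hVc hV1
    (by
      intro j hj x hx
      refine hup z (R j) P hzN ?_ hPz x hx
      refine le_trans ?_ (hRz j hj.le)
      have h1z : (1 : ℝ) ≤ z := by linarith
      calc (z : ℝ) = z ^ 1 := (pow_one _).symm
        _ ≤ z ^ 16 := pow_le_pow_right₀ h1z (by norm_num))
  have hpos : ∀ T ∈ P.powerset, 0 < ∏ p ∈ T, (p : ℝ) := by
    intro T hT
    refine Finset.prod_pos (fun p hp => ?_)
    exact_mod_cast (hPz p (Finset.mem_powerset.1 hT hp)).1.pos
  have hRJ : R J = Real.exp (κ * L) := by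
    show Real.exp (b / 4 ^ J) = Real.exp (κ * L)
    rw [hbJe]
  refine ⟨fun T => u (T.map (Function.Embedding.subtype _)),
    ∑ T ∈ P.powerset, u T ^ 2 * ∏ p ∈ T, (p : ℝ), ?_, ?_, ?_⟩
  · -- the lower bound
    have hcs := VEX_cs P (fun p hp => (hPz p hp).1.one_lt.le) u u3
    set x : ℝ := ∑ T ∈ P.powerset, u T ^ 2 * ∏ p ∈ T, (p : ℝ) with hx
    have hx0 : 0 ≤ x := Finset.sum_nonneg (fun T hT => mul_nonneg (sq_nonneg _) (hpos T hT).le)
    set N : ℕ := ⌊Real.exp (η * L)⌋₊ with hN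
    have hNle : (N : ℝ) ≤ Real.exp (η * L) := Nat.floor_le (Real.exp_pos _).le
    have hzN' : z ≤ N := by
      apply Nat.le_floor
      refine le_trans ?_ (hRle J)
      refine le_trans ?_ (hRz J le_rfl)
      have h1z : (1 : ℝ) ≤ z := by linarith
      calc (z : ℝ) = z ^ 1 := (pow_one _).symm
        _ ≤ z ^ 16 := pow_le_pow_right₀ h1z (by norm_num)
    have hPe : P = (Ioc z N).filter Nat.Prime := by
      ext p
      rw [hP p, Finset.mem_filter, Finset.mem_Ioc]
      constructor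
      · rintro ⟨a1, a2, a3⟩
        exact ⟨⟨a2, Nat.le_floor a3⟩, a1⟩
      · rintro ⟨⟨a1, a2⟩, a3⟩
        refine ⟨a3, a1, le_trans ?_ hNle⟩
        exact_mod_cast a2
    have hprod : ∏ p ∈ P, (1 + 1 / (p : ℝ)) ≤ CP * (η * L / (3 * Real.log L)) := by
      rw [hPe]
      refine (hprd z N hzN hzN').2.trans ?_
      refine mul_le_mul_of_nonneg_left ?_ hCP.le
      have hN0 : (0 : ℝ) < N := by
        have : 0 < N := by omega
        exact_mod_cast this
      have hlogN : Real.log N ≤ η * L := by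
        have := Real.log_le_log hN0 hNle
        rwa [Real.log_exp] at this
      exact div_le_div₀ (by positivity) hlogN (by positivity) hlogz3
    have h7 : 1 ≤ x * (CP * (η * L / (3 * Real.log L))) :=
      hcs.trans (mul_le_mul_of_nonneg_left hprod hx0)
    have h8 : x * (CP * (η * L / (3 * Real.log L))) = x * (CP * η * L) / (3 * Real.log L) := by
      ring
    rw [h8, le_div_iff₀ (by positivity)] at h7
    have h9 : 3 / (CP * η) * (Real.log L / L) = 3 * Real.log L / (CP * η * L) := by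
      field_simp
    rw [h9, div_le_iff₀ (by positivity)]
    linarith
  · -- the upper bound
    set x : ℝ := ∑ T ∈ P.powerset, u T ^ 2 * ∏ p ∈ T, (p : ℝ) with hx
    have h7 : x * (κ * L) ≤ Real.log z / (c * J) := by
      refine le_trans ?_ u7
      rw [hx, Finset.sum_mul]
      refine Finset.sum_le_sum (fun T hT => ?_)
      by_cases h0 : u T = 0
      · simp [h0]
      · refine mul_le_mul_of_nonneg_left ?_ (mul_nonneg (sq_nonneg _) (hpos T hT).le)
        have := u4 T hT h0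
        rw [hRJ] at this
        rw [Real.le_log_iff_exp_le (hpos T hT)]
        exact this
    have h8 : Real.log z / (c * J) ≤ 4 * Real.log L / c := by
      rw [div_le_div_iff₀ (by positivity) hc]
      have e1 : Real.log z * c ≤ 4 * Real.log L * c := mul_le_mul_of_nonneg_right hlogz hc.le
      have e2 : 4 * Real.log L * c * 1 ≤ 4 * Real.log L * c * J :=
        mul_le_mul_of_nonneg_left hJ1 (by positivity)
      calc Real.log z * c ≤ 4 * Real.log L * c * J := by linarith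
        _ = 4 * Real.log L * (c * J) := by ring
    have h9 : x ≤ 4 * Real.log L / c / (κ * L) := by
      rw [le_div_iff₀ hκL]
      exact h7.trans h8
    refine h9.trans (le_of_eq ?_)
    rw [hκ, pow_succ]
    field_simp
  · intro ι S hS
    refine ⟨?_, ?_⟩
    · unfold vx
      rw [← VEX_sum P (fun T => u T ^ 2 * ∏ p ∈ T, (p : ℝ))]
      refine Finset.sum_congr rfl (fun T _ => ?_)
      rw [VEX_wt S hS]
    · refine h4 P ι S hS u _ _ _ _ u1 u2 u3 ?_ ?_ u6 ?_ ?_
      · intro T hT hne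
        have := u4 T hT hne
        rw [hRJ] at this
        exact this
      · intro T hT hne
        have := u5 T hT hne
        rw [hR0] at this
        exact this
      · refine u7.trans ?_
        have e : 4 / c * Real.log L / J = 4 * Real.log L / (c * J) := by
          field_simp
        rw [e]
        exact div_le_div_of_nonneg_right hlogz (by positivity)
      · intro x hx
        refine (u8 x hx).trans ?_
        exact div_le_div_of_nonneg_right (le_max_right _ _) (Nat.cast_nonneg x)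

end Pool.LGR
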