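import Pool.Agent.Work.MP_b0c12c_chain.InterfaceY

/-! # Prime patterns isolated at the record scale: definitions (helper37)

Labels: `T ⊕ A`, the shifts in `T` are made composite, the shifts in `A` are wanted to be prime.

`rst S f`     the system with the labels `κ` along `f : κ → ι`
`lft`, `rgt`  the part of a configuration with labels in `T`, in `A`
`ga`          coefficients of the part with labels in `A` (thin weight `v`)
`ab`          all coefficients
`drp S e`     the system without the label `inr e`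
`cv`, `bb`    coefficients at the values where `N (inr e) y` has no prime factor in the family
`vx`          the mass of the thin weight -/

set_option autoImplicit false

namespace Pool.LGR

open Finset Filter
open Pool.LGP Pool.LGC

variable {π ι κ T A : Type}

/-- The system with the labels `κ`, along `f : κ → ι`. -/
def rst (S : Sys π ι) (f : κ → ι) : Sys π κ := ⟨S.pr, S.W, fun k => S.v (f k)⟩

/-- Left part of a label. -/
def ol : Option (T ⊕ A) → Option T
  | some (Sum.inl t) => some t
  | _ => none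

/-- Right part of a label. -/
def oR : Option (T ⊕ A) → Option A
  | some (Sum.inr e) => some e
  | _ => none

/-- The part of the configuration with labels in `T`. -/
def lft (ρ : π → Option (T ⊕ A)) : π → Option T := fun x => ol (ρ x)

/-- The part of the configuration with labels in `A`. -/
def rgt (ρ : π → Option (T ⊕ A)) : π → Option A := fun x => oR (ρ x)

/-- The system without the label `inr e`. -/
def drp (S : Sys π (T ⊕ A)) (e : A) : Sys π (T ⊕ {a : A // a ≠ e}) :=
  rst S (Sum.map id Subtype.val)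

section

variable [Fintype π]

/-- The mass of the thin weight. -/
noncomputable def vx (S : Sys π ι) (v : Finset π → ℝ) : ℝ := ∑ U, v U ^ 2 * S.wt U

variable [Fintype A] [DecidableEq A]

/-- The coefficients of the part with labels in `A`. -/
noncomputable def ga (S : Sys π A) (v : Finset π → ℝ) (D : ℝ) (τ : π → Option A) : ℝ :=
  open Classical in if (S.szn τ : ℝ) ≤ D then ∏ e, v (fib τ e) else 0

/-- The total weight of the sets `U` which are compatible with `σ`. -/
noncomputable def cv (S : Sys π (T ⊕ A)) (v : Finset π → ℝ) (D : ℝ)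
    (σ : π → Option (T ⊕ A)) : ℝ :=
  ∑ U : Finset π, open Classical in
    if (∀ x ∈ U, σ x = none) ∧ ((rst S Sum.inr).szn (rgt σ) : ℝ) * S.wt U ≤ D then v U else 0

variable [Fintype T] [DecidableEq T]

/-- The coefficients. -/
noncomputable def ab (S : Sys π (T ⊕ A)) (u v : Finset π → ℝ) (D : ℝ)
    (ρ : π → Option (T ⊕ A)) : ℝ :=
  (rst S Sum.inl).aa u D (lft ρ) * ga (rst S Sum.inr) v D (rgt ρ)

/-- The coefficients at a site without prime factor in the family. -/
noncomputable def bb (S : Sys π (T ⊕ A)) (u v : Finset π → ℝ) (D : ℝ)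
    (σ : π → Option (T ⊕ A)) : ℝ :=
  (rst S Sum.inl).aa u D (lft σ) * ((∏ e, v (fib (rgt σ) e)) * cv S v D σ)

/-- The main mass of the part with labels in `T`. -/
noncomputable def MF [DecidableEq π] (S : Sys π (T ⊕ A)) (u : Finset π → ℝ) (D : ℝ) : ℝ :=
  MM (rst S Sum.inl) ((rst S Sum.inl).aa u D)

/-- Data of the construction: `u` the soft weight, `v` the thin weight. -/
structure RDat [DecidableEq π] (S : Sys π (T ⊕ A)) (u v : Finset π → ℝ)
    (a b C a' b' C' K D z s : ℝ) (k Q : ℕ) : Prop where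
  good : S.Good
  W_pos : 0 < S.W
  hk : Fintype.card A ≤ k
  uok : Uok S u a b C K
  vok : Uok S v a' b' C' K
  z3 : 3 ≤ z
  z_le : ∀ x, z ≤ S.pr x
  K0 : 0 ≤ K
  C0 : 0 ≤ C
  C0' : 0 ≤ C'
  s0 : 0 < s
  a1 : 1 ≤ a
  a1' : 1 ≤ a'
  b1 : 1 < b
  b1' : 1 < b'
  bD : b ≤ D
  bD' : b' < D
  h64 : 192 * Real.log D * (Fintype.card T + k + 3) ≤ z
  hK : 16 * (Fintype.card T : ℝ) ^ 2 * K ^ 2 ≤ z
  hC : (Fintype.card T : ℝ) * Real.exp 2 * C ≤ Real.log (D / b) / 2
  hexp : Real.exp (-(Real.log (D / b) / Real.log b)) ≤ 1 / 4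
  hs : (Fintype.card T : ℝ) ≤ a ^ s
  hs' : (k : ℝ) ≤ a' ^ s
  tau : ∏ x, (1 + ((Fintype.card T : ℝ) + k) / (((S.pr x : ℝ) - 1) * √(S.pr x))) ≤ 9 / 8
  tau2 : ∑ x, 1 / (S.pr x : ℝ) ^ 2 ≤ 2 / z
  hQ : S.W * D ^ 4 ≤ Q
  x0 : 0 < vx S v
  hc : 8 * Real.log D * K ≤ z
  hact : 4 * (Fintype.card T : ℝ) * K * Real.log D ≤ z
  hnco : 8 * (k : ℝ) ^ 2 * K ^ 2 ≤ z * vx S v ^ 2
  hram : 3 * ((Fintype.card T : ℝ) + k) / √z +
    80 * K * ((Fintype.card T : ℝ) + k / vx S v) / z ≤ 1 / 8
  hkill : 8 * ((k : ℝ) * Fintype.card T) * ((2 * Real.log D * K / z) ^ 2 +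
    Real.exp (-(Real.log (D / b) / Real.log b))) ≤ 1

end

end Pool.LGR
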