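import Pool.Agent.Work.MP_b0c12c_chain.FinalJ
import Pool.Agent.Work.MP_b0c12c_rp.B_LRS
import Pool.Agent.Work.MP_b0c12c_rp.B_LRI
import Pool.Agent.Work.MP_b0c12c_rp.B_ERG
import Pool.Agent.Work.MP_b0c12c_rp.B_BND
import Pool.Agent.Work.MP_b0c12c_rp.B_MFL
import Pool.Agent.Work.MP_b0c12c_rp.B_UPG
import Pool.Agent.Work.MP_b0c12c_rp.B_PSB
import Pool.Agent.Work.MP_b0c12c_rp.B_KIL
import Pool.Agent.Work.MP_b0c12c_rp.B_DRP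
import Pool.Agent.Work.MP_b0c12c_rp.B_PSG
import Pool.Agent.Work.MP_b0c12c_rp.B_BBS
import Pool.Agent.Work.MP_b0c12c_rp.B_CVB
import Pool.Agent.Work.MP_b0c12c_rp.B_GLO
import Pool.Agent.Work.MP_b0c12c_rp.B_RAC
import Pool.Agent.Work.MP_b0c12c_rp.B_MEB
import Pool.Agent.Work.MP_b0c12c_rp.B_ACB
import Pool.Agent.Work.MP_b0c12c_rp.B_COG
import Pool.Agent.Work.MP_b0c12c_rp.B_P1S
import Pool.Agent.Work.MP_b0c12c_rp.B_MIDR
import Pool.Agent.Work.MP_b0c12c_rp.B_VEX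
import Pool.Agent.Work.MP_b0c12c_rp.B_DTK
import Pool.Agent.Work.MP_b0c12c_rp.B_DTN
import Pool.Agent.Work.MP_b0c12c_rp.B_DTY
import Pool.Agent.Work.MP_b0c12c_rp.B_DATR
import Pool.Agent.Work.MP_b0c12c_rp.B_GRW
import Pool.Agent.Work.MP_b0c12c_rp.B_AVE
import Pool.Agent.Work.MP_b0c12c_rp.B_AVS
import Pool.Agent.Work.MP_b0c12c_rp.B_SGK
import Pool.Agent.Work.MP_b0c12c_rp.B_CRX
import Pool.Agent.Work.MP_b0c12c_rp.B_RCB
import Pool.Agent.Work.MP_b0c12c_rp.B_NUR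
import Pool.Agent.Work.MP_b0c12c_rp.B_RESR
import Pool.Agent.Work.MP_b0c12c_rp.B_CHY
import Pool.Agent.Work.MP_b0c12c_rp.B_SCR
import Pool.Agent.Work.MP_b0c12c_rp.B_FINR
import Pool.Agent.Work.MP_b0c12c_rp.B_PAI
import Pool.Agent.Work.MP_b0c12c_rp.B_DGV
import Pool.Agent.Work.MP_b0c12c_rp.B_RCO

/-!
# Prime patterns isolated at the record scale: assembly (helper37)
-/

set_option autoImplicit false

namespace Pool.LGR

open Pool.LGP Pool.LGC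

theorem r_ERG : Stmt_ERG := p_ERG p_LRS p_LRI f_ERR

theorem r_MFL : Stmt_MFL := p_MFL f_QLO f_QSM

theorem r_UPG : Stmt_UPG := p_UPG p_LRS p_LRI f_L2 f_ACT f_WTF f_INJ

theorem r_PSB : Stmt_PSB := p_PSB p_LRS f_ACT

theorem r_KIL : Stmt_KIL :=
  p_KIL p_LRS p_LRI r_MFL r_PSB f_L2 f_RGH f_PEZ f_WTF f_INJ f_TAI f_QSM

theorem r_BBS : Stmt_BBS := p_BBS p_LRS f_ACT

theorem r_GLO : Stmt_GLO := p_GLO f_NCO f_WTF

theorem r_RAC : Stmt_RAC := p_RAC f_QLO f_QSM f_WTF f_INJ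

theorem r_MEB : Stmt_MEB := p_MEB p_LRS p_LRI p_CVB r_GLO r_RAC f_ACT f_WTF

theorem r_ACB : Stmt_ACB := p_ACB p_LRS p_CVB r_MEB r_MFL f_QSM f_WTF

theorem r_COG : Stmt_COG := p_COG p_SCP p_HRW p_PRB

theorem r_P1S : Stmt_P1S := p_P1S p_DRP p_PSG r_BBS r_MEB r_ACB r_COG j_P1E

theorem r_MIDR : Stmt_MIDR := p_MIDR r_ERG p_BND r_MFL r_UPG r_KIL r_P1S

theorem r_VEX : Stmt_VEX := p_VEX f_VLO f_VUP f_UAB f_TRF f_PRD

theorem r_DTK : Stmt_DTK := p_DTK p_WPH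

theorem r_DATR : Stmt_DATR := p_DATR r_VEX r_DTK p_DTN p_DTY (p_UEP f_UEXM f_TRF) p_TAB

theorem r_AVS : Stmt_AVS := p_AVS p_AVE

theorem r_RCB : Stmt_RCB := p_RCB p_GRW r_AVS p_SGK p_CRX

theorem r_RESR : Stmt_RESR := p_RESR r_RCB p_NUR j_SRD p_MEL

theorem r_CHY : Stmt_CHY := p_CHY p_CHX p_CHC

theorem r_SCR : Stmt_SCR := p_SCR r_MIDR r_DATR

/-- The final theorem. -/
theorem r_RECP : Stmt_RECP := p_FINR r_SCR r_RESR r_CHY j_ANF p_NUF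

theorem r_DGV : Stmt_DGV := p_DGV (p_PAI r_RECP)

theorem r_RCO : Stmt_RCO := p_RCO r_RECP

end Pool.LGR
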