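import Pool.Agent.Work.MP_b0c12c_rp.Defs

/-! # Prime patterns isolated at the record scale: statements of the blocks (helper37)

Block `X` lives in `B_X.lean` (import this file, namespace `Pool.LGR`) and proves
`theorem p_X : Stmt_X` or `theorem p_X (h1 : Stmt_Y) ... : Stmt_X` with the statements of the
column `uses` as hypotheses, in that order. -/

set_option autoImplicit false

namespace Pool.LGR

open Finset Filter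
open Pool.LGP Pool.LGC

/-! ## Part 1: labels in `T ⊕ A` -/

/-- LRS: sizes are products over the two parts. -/
def Stmt_LRS : Prop :=
  ∀ (π T A : Type) [Fintype π] [DecidableEq T] [DecidableEq A] (S : Sys π (T ⊕ A))
    (ρ : π → Option (T ⊕ A)),
    S.szn ρ = (rst S Sum.inl).szn (lft ρ) * (rst S Sum.inr).szn (rgt ρ) ∧
    S.ez ρ = (rst S Sum.inl).ez (lft ρ) * (rst S Sum.inr).ez (rgt ρ) ∧
    act ρ = act (lft ρ) + act (rgt ρ) ∧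
    (∀ t, fib (lft ρ) t = fib ρ (Sum.inl t)) ∧ (∀ e, fib (rgt ρ) e = fib ρ (Sum.inr e)) ∧
    ∀ x, ρ x = none ↔ lft ρ x = none ∧ rgt ρ x = none

/-- LRI: sums over configurations, upper and lower bound. -/
def Stmt_LRI : Prop :=
  ∀ (π T A : Type) [Fintype π] [DecidableEq π] [Fintype T] [Fintype A]
    (f : (π → Option T) → ℝ) (g : (π → Option A) → ℝ), (∀ σ, 0 ≤ f σ) → (∀ τ, 0 ≤ g τ) →
    ∑ ρ : π → Option (T ⊕ A), f (lft ρ) * g (rgt ρ) ≤ (∑ σ, f σ) * ∑ τ, g τ ∧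
    ∑ τ, g τ * (∑ σ, f σ - ∑ x, (open Classical in if τ x = none then 0 else
      ∑ σ, (if σ x = none then 0 else f σ))) ≤
      ∑ ρ : π → Option (T ⊕ A), f (lft ρ) * g (rgt ρ)

/-- ERG: the error weight of all coefficients. -/
def Stmt_ERG : Prop :=
  ∀ (π T A : Type) [Fintype π] [DecidableEq π] [Fintype T] [DecidableEq T] [Fintype A]
    [DecidableEq A] (S : Sys π (T ⊕ A)) (u v : Finset π → ℝ) (a b C a' b' C' K D z s : ℝ)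
    (k Q : ℕ), RDat S u v a b C a' b' C' K D z s k Q →
    EE S (ab S u v D) ≤ (2 * Real.exp 1 * D ^ (1 + s)) ^ 2

/-- BND: `F ^ 2` is at most the square of the error weight. -/
def Stmt_BND : Prop :=
  ∀ (π ι : Type) [Fintype π] [DecidableEq π] [Fintype ι] (S : Sys π ι), (∀ x, 1 ≤ S.pr x) →
    ∀ (a : (π → Option ι) → ℝ) (y : ℕ), FF S a y ^ 2 ≤ EE S a ^ 2

/-- MFL: lower bound for the main mass. -/
def Stmt_MFL : Prop :=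
  ∀ (π T A : Type) [Fintype π] [DecidableEq π] [Fintype T] [DecidableEq T] [Fintype A]
    [DecidableEq A] (S : Sys π (T ⊕ A)) (u v : Finset π → ℝ) (a b C a' b' C' K D z s : ℝ)
    (k Q : ℕ), RDat S u v a b C a' b' C' K D z s k Q →
    S.Q1 u ^ Fintype.card T / 2 ≤ MF S u D ∧ 1 / 2 ≤ MF S u D

/-! ## Part 2: upper bounds -/

/-- UPG: upper bound for the mean of `F ^ 2`. -/
def Stmt_UPG : Prop :=
  ∀ (π T A : Type) [Fintype π] [DecidableEq π] [Fintype T] [DecidableEq T] [Fintype A]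
    [DecidableEq A] (S : Sys π (T ⊕ A)) (u v : Finset π → ℝ) (a b C a' b' C' K D z s : ℝ)
    (k Q : ℕ), RDat S u v a b C a' b' C' K D z s k Q → ∀ Y : ℕ,
    ∑ y ∈ Ioc Y (2 * Y), FF S (ab S u v D) y ^ 2 ≤
      2 * Y * (MF S u D * vx S v ^ Fintype.card A) + EE S (ab S u v D) ^ 2

/-- PSB: the coefficients pushed forward along a label of `T`. -/
def Stmt_PSB : Prop :=
  ∀ (π T A : Type) [Fintype π] [DecidableEq π] [Fintype T] [DecidableEq T] [Fintype A]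
    [DecidableEq A] (S : Sys π (T ⊕ A)) (u v : Finset π → ℝ) (a b C a' b' C' K D z s : ℝ)
    (k Q : ℕ), RDat S u v a b C a' b' C' K D z s k Q →
    ∀ (h : T) (σ : π → Option (T ⊕ A)),
    |push (Sum.inl h) (ab S u v D) σ| ≤
      (∏ t, |gg u (fib (lft σ) t)|) * |∏ e, v (fib (rgt σ) e)| *
        (2 * Real.log D * K / z + open Classical in
          if D / b < (rst S Sum.inl).szn (lft σ) then 1 else 0) ∧
    (push (Sum.inl h) (ab S u v D) σ ≠ 0 → (act σ : ℝ) ≤ 2 * Real.log D)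

/-- KIL: mass of the rough values of a label of `T`. -/
def Stmt_KIL : Prop :=
  ∀ (π T A : Type) [Fintype π] [DecidableEq π] [Fintype T] [DecidableEq T] [Fintype A]
    [DecidableEq A] (S : Sys π (T ⊕ A)) (u v : Finset π → ℝ) (a b C a' b' C' K D z s : ℝ)
    (k Q : ℕ), RDat S u v a b C a' b' C' K D z s k Q → ∀ (h : T) (Y : ℕ),
    ∑ y ∈ Ioc Y (2 * Y), (open Classical in
      if ∀ x, ¬ S.pr x ∣ S.N (Sum.inl h) y then FF S (ab S u v D) y ^ 2 else 0) ≤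
      8 * Y * ((2 * Real.log D * K / z) ^ 2 + Real.exp (-(Real.log (D / b) / Real.log b))) *
        (MF S u D * vx S v ^ Fintype.card A) + EE S (ab S u v D) ^ 2

/-! ## Part 3: sites -/

/-- DRP: the data without the label `inr e`. -/
def Stmt_DRP : Prop :=
  ∀ (π T A : Type) [Fintype π] [DecidableEq π] [Fintype T] [DecidableEq T] [Fintype A]
    [DecidableEq A] (S : Sys π (T ⊕ A)) (u v : Finset π → ℝ) (a b C a' b' C' K D z s : ℝ)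
    (k Q : ℕ), RDat S u v a b C a' b' C' K D z s k Q → ∀ e : A,
    RDat (drp S e) u v a b C a' b' C' K D z s k Q ∧ MF (drp S e) u D = MF S u D ∧
      vx (drp S e) v = vx S v

/-- PSG: if no prime divides `N (inr e) y`, the label `inr e` can be erased. -/
def Stmt_PSG : Prop :=
  ∀ (π T A : Type) [Fintype π] [DecidableEq π] [Fintype T] [DecidableEq T] [Fintype A]
    [DecidableEq A] (S : Sys π (T ⊕ A)) (u v : Finset π → ℝ) (D : ℝ) (e : A) (y : ℕ),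
    (∀ x, ¬ S.pr x ∣ S.N (Sum.inr e) y) →
    FF S (ab S u v D) y = FF (drp S e) (bb (drp S e) u v D) y

/-- BBS: support of the coefficients `bb`. -/
def Stmt_BBS : Prop :=
  ∀ (π T A : Type) [Fintype π] [DecidableEq π] [Fintype T] [DecidableEq T] [Fintype A]
    [DecidableEq A] (S : Sys π (T ⊕ A)) (u v : Finset π → ℝ) (a b C a' b' C' K D z s : ℝ)
    (k Q : ℕ), RDat S u v a b C a' b' C' K D z s k Q →
    ∀ σ : π → Option (T ⊕ A), bb S u v D σ ≠ 0 →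
      (act σ : ℝ) ≤ 2 * Real.log D ∧ (S.szn σ : ℝ) ≤ D ^ 2

/-- CVB: the total weight of the compatible sets. -/
def Stmt_CVB : Prop :=
  ∀ (π T A : Type) [Fintype π] [DecidableEq π] [Fintype T] [DecidableEq T] [Fintype A]
    [DecidableEq A] (S : Sys π (T ⊕ A)) (u v : Finset π → ℝ) (a b C a' b' C' K D z s : ℝ)
    (k Q : ℕ), RDat S u v a b C a' b' C' K D z s k Q → ∀ σ : π → Option (T ⊕ A),
    0 ≤ cv S v D σ ∧ cv S v D σ ≤ 1 ∧ (((rst S Sum.inr).szn (rgt σ) : ℝ) ≤ D / b' →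
      1 - act σ * K / z ≤ cv S v D σ)

/-- GLO: the part with labels in `A`, lower bound. -/
def Stmt_GLO : Prop :=
  ∀ (π T A : Type) [Fintype π] [DecidableEq π] [Fintype T] [DecidableEq T] [Fintype A]
    [DecidableEq A] (S : Sys π (T ⊕ A)) (u v : Finset π → ℝ) (a b C a' b' C' K D z s : ℝ)
    (k Q : ℕ), RDat S u v a b C a' b' C' K D z s k Q →
    4 * ((Fintype.card A : ℝ) * C') ≤ vx S v * Real.log (D / b') →
    vx S v ^ Fintype.card A / 2 ≤ ∑ τ : π → Option A, (open Classical in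
      if ((rst S Sum.inr).szn τ : ℝ) ≤ D / b' then ∏ e, v (fib τ e) ^ 2 * S.wt (fib τ e) else 0)

/-- RAC: configurations which are active at one prime have small mass. -/
def Stmt_RAC : Prop :=
  ∀ (π ι : Type) [Fintype π] [DecidableEq π] [Fintype ι] [DecidableEq ι] (S : Sys π ι), S.Good →
    ∀ (u : Finset π → ℝ) (a b C K D z : ℝ), Uok S u a b C K → 3 ≤ z → (∀ x, z ≤ S.pr x) →
    0 ≤ K → 0 ≤ C → 1 < b → 1 ≤ D →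
    (Fintype.card ι : ℝ) * Real.exp 2 * C ≤ Real.log D / 2 →
    Real.exp (-(Real.log D / Real.log b)) ≤ 1 / 4 →
    16 * (Fintype.card ι : ℝ) ^ 2 * K ^ 2 ≤ z → ∀ x₀ : π,
    ∑ ρ : π → Option ι, (open Classical in
      if ρ x₀ = none then 0 else S.aa u D ρ ^ 2 * S.szn ρ) ≤
      2 * Fintype.card ι * K / S.pr x₀ * MM S (S.aa u D)

/-- MEB: lower bound for the mass of `bb`. -/
def Stmt_MEB : Prop :=
  ∀ (π T A : Type) [Fintype π] [DecidableEq π] [Fintype T] [DecidableEq T] [Fintype A]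
    [DecidableEq A] (S : Sys π (T ⊕ A)) (u v : Finset π → ℝ) (a b C a' b' C' K D z s : ℝ)
    (k Q : ℕ), RDat S u v a b C a' b' C' K D z s k Q →
    4 * ((Fintype.card A : ℝ) * C') ≤ vx S v * Real.log (D / b') →
    MF S u D * vx S v ^ Fintype.card A / 8 ≤ MM S (bb S u v D)

/-- ACB: the mass of `bb` on the configurations which are active at one prime. -/
def Stmt_ACB : Prop :=
  ∀ (π T A : Type) [Fintype π] [DecidableEq π] [Fintype T] [DecidableEq T] [Fintype A]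
    [DecidableEq A] (S : Sys π (T ⊕ A)) (u v : Finset π → ℝ) (a b C a' b' C' K D z s : ℝ)
    (k Q : ℕ), RDat S u v a b C a' b' C' K D z s k Q →
    4 * ((Fintype.card A : ℝ) * C') ≤ vx S v * Real.log (D / b') → ∀ x₀ : π,
    ∑ ρ : π → Option (T ⊕ A), (open Classical in
      if ρ x₀ = none then 0 else bb S u v D ρ ^ 2 * S.szn ρ) ≤
      16 * K * (Fintype.card T + k / vx S v) / z * MM S (bb S u v D)

/-- COG: coefficients with a ramified prime of the family are small. -/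
def Stmt_COG : Prop :=
  ∀ (π ι : Type) [Fintype π] [DecidableEq π] [Fintype ι] [DecidableEq ι] (S : Sys π ι), S.Good →
    ∀ (a : (π → Option ι) → ℝ) (z μ : ℝ) (e : ℕ), 3 ≤ z → (∀ x, z ≤ S.pr x) → Ext S e →
    (∀ ρ, a ρ ≠ 0 → 64 * (act ρ : ℝ) * (Fintype.card ι + 1) ≤ z) →
    ∏ x, (1 + (Fintype.card ι : ℝ) / (((S.pr x : ℝ) - 1) * √(S.pr x))) ≤ 9 / 8 →
    (∀ x₀ : π, ∑ ρ : π → Option ι, (open Classical in
      if ρ x₀ = none then 0 else a ρ ^ 2 * S.szn ρ) ≤ μ * MM S a) →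
    ∀ X : (∀ x : π, DirichletCharacter ℂ (S.pr x)), (∃ x, X x ≠ 1) →
      ‖cX S e a X‖ ≤ (3 * Fintype.card ι / √z + 5 * μ) * MM S a

/-- P1S: lower bound for the prime values at a site. -/
def Stmt_P1S : Prop :=
  ∀ (π T A : Type) [Fintype π] [DecidableEq π] [Fintype T] [DecidableEq T] [Fintype A]
    [DecidableEq A] (S : Sys π (T ⊕ A)) (u v : Finset π → ℝ) (a b C a' b' C' K D z s R : ℝ)
    (k Q Y : ℕ) (y₁ : Ch) (e : A), RDat S u v a b C a' b' C' K D z s k Q →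
    4 * (((Fintype.card A : ℝ) - 1) * C') ≤ vx S v * Real.log (D / b') →
    Ext (drp S e) (S.v (Sum.inr e)) → (S.v (Sum.inr e)).Coprime S.W →
    0 ≤ R → R ≤ S.W * Y →
    MomE y₁ R Q (S.W * Y + S.v (Sum.inr e)) (2 * (S.W * Y) + S.v (Sum.inr e)) ≤
      (S.W : ℝ) * Y / 8 →
    (y₁.2 ≠ 1 → ∀ χ : DirichletCharacter ℂ S.W,
      (∀ n : ℕ, n.Coprime S.W → (∀ x, n.Coprime (S.pr x)) →
        y₁.2 (n : ZMod y₁.1) = χ (n : ZMod S.W)) → χ (S.v (Sum.inr e) : ZMod S.W) = -1) →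
    (∀ n : ℕ, n.Prime → S.W * Y < n → n.Coprime S.W ∧ ∀ x, S.pr x < n) →
    (S.W : ℝ) / S.W.totient * (Y * (MF S u D * vx S v ^ Fintype.card A)) ≤
      64 * vx S v * ∑ y ∈ Ioc Y (2 * Y), FF S (ab S u v D) y ^ 2 * th (S.N (Sum.inr e) y)

/-! ## Part 4: the construction -/

/-- MIDR: many good `y`, all estimates assumed in the structure `RDat`. -/
def Stmt_MIDR : Prop :=
  ∀ (π T A : Type) [Fintype π] [DecidableEq π] [Fintype T] [DecidableEq T] [Fintype A]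
    [DecidableEq A] (S : Sys π (T ⊕ A)) (u v : Finset π → ℝ) (a b C a' b' C' K D z s Λ : ℝ)
    (Q Y m : ℕ) (y₁ : Ch), RDat S u v a b C a' b' C' K D z s (Fintype.card A) Q →
    4 * (((Fintype.card A : ℝ) - 1) * C') ≤ vx S v * Real.log (D / b') → 0 < Λ → 1 ≤ m →
    (3 * (m : ℝ) + 1) * (64 * Λ * vx S v * S.W.totient) ≤ (Fintype.card A : ℝ) * S.W →
    2 * ((m : ℝ) + Fintype.card A * Fintype.card T) * (2 * Real.exp 1 * D ^ (1 + s)) ^ 4 ≤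
      vx S v ^ Fintype.card A * Y →
    (∀ e : A, Ext (drp S e) (S.v (Sum.inr e)) ∧ (S.v (Sum.inr e)).Coprime S.W ∧
      (∃ R : ℝ, 0 ≤ R ∧ R ≤ S.W * Y ∧
        MomE y₁ R Q (S.W * Y + S.v (Sum.inr e)) (2 * (S.W * Y) + S.v (Sum.inr e)) ≤
          (S.W : ℝ) * Y / 8) ∧
      Real.log ((2 * (S.W * Y) + S.v (Sum.inr e) : ℕ) : ℝ) ≤ Λ) →
    (y₁.2 ≠ 1 → ∀ χ : DirichletCharacter ℂ S.W,
      (∀ n : ℕ, n.Coprime S.W → (∀ x, n.Coprime (S.pr x)) →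
        y₁.2 (n : ZMod y₁.1) = χ (n : ZMod S.W)) →
      ∀ e : A, χ (S.v (Sum.inr e) : ZMod S.W) = -1) →
    (∀ n : ℕ, n.Prime → S.W * Y < n → n.Coprime S.W ∧ ∀ x, S.pr x < n) →
    Y * vx S v ^ Fintype.card A /
      (2 * Fintype.card A * (2 * Real.exp 1 * D ^ (1 + s)) ^ 4) ≤
      (((Ioc Y (2 * Y)).filter (fun y => (∀ h : T, ∃ x, S.pr x ∣ S.N (Sum.inl h) y) ∧
        m ≤ (univ.filter (fun e : A => (S.N (Sum.inr e) y).Prime)).card)).card : ℝ)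

/-! ## Part 5: existence of the data -/

/-- VEX: the thin weight. -/
def Stmt_VEX : Prop :=
  ∃ K C₀ : ℝ, 1 ≤ K ∧ 0 < C₀ ∧ ∀ (η : ℝ) (J : ℕ), 0 < η → η ≤ 1 → 0 < J →
    ∃ c₁ L₀ : ℝ, 0 < c₁ ∧ ∀ L : ℝ, L₀ ≤ L → ∀ P : Finset ℕ,
    (∀ p : ℕ, p ∈ P ↔ p.Prime ∧ ⌈L ^ 3⌉₊ < p ∧ (p : ℝ) ≤ Real.exp (η * L)) →
    ∃ (v : Finset P → ℝ) (x : ℝ), c₁ * (Real.log L / L) ≤ x ∧
      x ≤ 4 ^ (J + 1) * C₀ / η * (Real.log L / L) ∧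
      ∀ (ι : Type) (S : Sys P ι), (∀ x : P, S.pr x = (x : ℕ)) → vx S v = x ∧
        Uok S v (Real.exp (η / 4 / 4 ^ J * L)) (Real.exp (η / 4 * L)) (C₀ * Real.log L / J) K

/-- DTK: the number of sites. -/
def Stmt_DTK : Prop :=
  ∃ Ck : ℝ, 0 < Ck ∧ ∀ (κ₀ : ℝ) (m : ℕ), 0 < κ₀ → 1 ≤ m → ∃ L₀ : ℝ, ∀ L x : ℝ, L₀ ≤ L →
    0 < x → ∃ k : ℕ, 1 ≤ k ∧ (k : ℝ) - 1 ≤ Ck * m * (L * x / Real.log L) ∧
      (3 * (m : ℝ) + 1) * (64 * (2 * L) * x * (primorial ⌊κ₀ * L⌋₊).totient) ≤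
        (k : ℝ) * primorial ⌊κ₀ * L⌋₊

/-- DTN: the inequalities between the parameters, for large `L`. -/
def Stmt_DTN : Prop :=
  ∀ (η κ K K₁ C c₁ c₃ : ℝ) (K₀ : ℕ), 0 < η → η ≤ 1 → 0 < κ → 1 ≤ K → 1 ≤ K₁ → 0 < C →
    0 < c₁ → 0 < c₃ → κ * (4 * Real.exp 2 * C) ≤ η → ∃ L₀ : ℝ, 16 ≤ L₀ ∧
    ∀ (L x β : ℝ) (t k : ℕ), L₀ ≤ L → (t : ℝ) ≤ κ * L → k ≤ K₀ → c₁ * (Real.log L / L) ≤ x →
    β = L / (4 / η * Real.log L) →
      0 < β ∧ β ≤ η * L / 2 ∧ 0 < x ∧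
      192 * (η * L) * ((t : ℝ) + k + 3) ≤ L ^ 3 ∧
      16 * (t : ℝ) ^ 2 * K ^ 2 ≤ L ^ 3 ∧
      (t : ℝ) * Real.exp 2 * C ≤ (η * L - β) / 2 ∧
      Real.exp (-((η * L - β) / β)) ≤ 1 / 4 ∧
      (t : ℝ) ≤ Real.exp (√L / K₁) ∧ (k : ℝ) ≤ Real.exp (c₃ * L) ∧
      Real.exp (8 * ((t : ℝ) + k) / √(L ^ 3)) ≤ 9 / 8 ∧
      8 * (η * L) * K ≤ L ^ 3 ∧ 4 * (t : ℝ) * K * (η * L) ≤ L ^ 3 ∧
      8 * (k : ℝ) ^ 2 * K ^ 2 ≤ L ^ 3 * x ^ 2 ∧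
      3 * ((t : ℝ) + k) / √(L ^ 3) + 80 * K * ((t : ℝ) + k / x) / L ^ 3 ≤ 1 / 8 ∧
      8 * ((k : ℝ) * t) * ((2 * (η * L) * K / L ^ 3) ^ 2 + Real.exp (-((η * L - β) / β))) ≤ 1

/-- DTY: the inequalities with `Y` and `Q`. -/
def Stmt_DTY : Prop :=
  ∀ (η κ κ₀ κA ε c₁ : ℝ) (K₀ m : ℕ), 0 < η → 0 < κ → 0 < κ₀ → 0 < c₁ →
    4 * η + 2 * κ₀ ≤ κA / 2 → 8 * η + 2 * κ₀ ≤ ε / 2 → ε ≤ 1 → ∃ L₀ : ℝ,
    ∀ (L x : ℝ) (t k : ℕ), L₀ ≤ L → (t : ℝ) ≤ κ * L → 1 ≤ k → k ≤ K₀ →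
    c₁ * (Real.log L / L) ≤ x → ∀ Y Q : ℕ, Real.exp ((1 - 2 * κ₀) * L) ≤ Y →
    Real.exp (κA * L) ≤ Q + 1 →
      (primorial ⌊κ₀ * L⌋₊ : ℝ) * Real.exp (η * L) ^ 4 ≤ Q ∧
      2 * ((m : ℝ) + k * t) * (2 * Real.exp 1 * Real.exp (η * L) ^ (1 + 1 : ℝ)) ^ 4 ≤
        x ^ k * Y ∧
      Real.exp ((1 - ε) * L) ≤
        Y * x ^ k / (2 * k * (2 * Real.exp 1 * Real.exp (η * L) ^ (1 + 1 : ℝ)) ^ 4)

/-- DATR: the data exist. -/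
def Stmt_DATR : Prop :=
  ∀ κA ε : ℝ, 0 < κA → 0 < ε → ε ≤ 1 → ∃ κ₀ κ η Cm : ℝ, 0 < κ₀ ∧ κ₀ ≤ 1 / 8 ∧ 0 < κ ∧
    0 < η ∧ η ≤ 1 / 2 ∧ η ≤ ε ∧ 0 < Cm ∧ ∀ m : ℕ, 1 ≤ m → ∃ L₀ : ℝ, ∀ L : ℝ, L₀ ≤ L →
    ∀ P : Finset ℕ,
    (∀ p : ℕ, p ∈ P ↔ p.Prime ∧ ⌈L ^ 3⌉₊ < p ∧ (p : ℝ) ≤ Real.exp (η * L)) →
    ∃ k : ℕ, 1 ≤ k ∧ (k : ℝ) ≤ Real.exp (Cm * m) ∧
    ∀ (T A : Type) [Fintype T] [DecidableEq T] [Fintype A] [DecidableEq A]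
      (S : Sys P (T ⊕ A)), (∀ x : P, S.pr x = (x : ℕ)) → S.Good →
    S.W = primorial ⌊κ₀ * L⌋₊ → (Fintype.card T : ℝ) ≤ κ * L → Fintype.card A = k →
    ∀ Y Q : ℕ, Real.exp ((1 - 2 * κ₀) * L) ≤ Y → Real.exp (κA * L) ≤ Q + 1 →
    ∃ (u v : Finset P → ℝ) (a b C a' b' C' K D z s : ℝ),
      RDat S u v a b C a' b' C' K D z s (Fintype.card A) Q ∧
      4 * (((Fintype.card A : ℝ) - 1) * C') ≤ vx S v * Real.log (D / b') ∧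
      (3 * (m : ℝ) + 1) * (64 * (2 * L) * vx S v * S.W.totient) ≤ (Fintype.card A : ℝ) * S.W ∧
      2 * ((m : ℝ) + Fintype.card A * Fintype.card T) *
        (2 * Real.exp 1 * D ^ (1 + s)) ^ 4 ≤ vx S v ^ Fintype.card A * Y ∧
      Real.exp ((1 - ε) * L) ≤ Y * vx S v ^ Fintype.card A /
        (2 * Fintype.card A * (2 * Real.exp 1 * D ^ (1 + s)) ^ 4)

/-! ## Part 6: the residue -/

/-- GRW: greedy choice of residues, the elements of `E` survive. -/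
def Stmt_GRW : Prop :=
  ∀ (E A Q : Finset ℕ), (∀ q ∈ Q, 2 ≤ q ∧ ∃ r : ℕ, ∀ e ∈ E, ¬ e ≡ r [MOD q]) →
    ∃ r : ℕ → ℕ, (∀ q ∈ Q, ∀ e ∈ E, ¬ e ≡ r q [MOD q]) ∧
    ((A.filter (fun n => ∀ q ∈ Q, ¬ n ≡ r q [MOD q])).card : ℝ) ≤
      ∑ n ∈ A, ∏ q ∈ Q, (open Classical in
        if ∃ e ∈ E, n ≡ e [MOD q] then 1 else 1 - 1 / (q : ℝ))

/-- The possible places: `H / 3 ≤ s ≤ H / 2`, `s` in one class modulo `primorial (K + 1)`. -/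
def Pl (K H c : ℕ) : Finset ℕ :=
  (Icc 0 H).filter (fun s => H ≤ 3 * s ∧ 2 * s ≤ H ∧ s ≡ c [MOD primorial (K + 1)])

/-- AVE: mean over the places of the product over the primes dividing a difference. -/
def Stmt_AVE : Prop :=
  ∃ C : ℝ, 0 < C ∧ ∀ K : ℕ, 1 ≤ K → ∃ H₀ : ℕ, ∀ (R : Finset ℕ) (H c : ℕ) (a : Fin K → ℕ),
    (∀ p ∈ R, p.Prime ∧ K + 1 < p) → H₀ ≤ H → (∀ i, 6 * a i ≤ H) →
    0 < (Pl K H c).card ∧ ∀ h ≤ H,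
    ∑ s ∈ (Pl K H c).filter (fun s => ∀ i, h ≠ s + a i), ∏ p ∈ R, (open Classical in
      if ∃ i, h ≡ s + a i [MOD p] then (1 - 1 / (p : ℝ))⁻¹ else 1) ≤ C * (Pl K H c).card

/-- AVS: choice of the place of the pattern. -/
def Stmt_AVS : Prop :=
  ∃ C : ℝ, 0 < C ∧ ∀ K : ℕ, 1 ≤ K → ∃ H₀ : ℕ, ∀ (R : Finset ℕ) (H c : ℕ) (A : Finset ℕ)
    (a : Fin K → ℕ), (∀ p ∈ R, p.Prime ∧ K + 1 < p) → H₀ ≤ H → A ⊆ Icc 1 H →
    (∀ i, 6 * a i ≤ H) →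
    ∃ s : ℕ, H ≤ 3 * s ∧ 2 * s ≤ H ∧ s ≡ c [MOD primorial (K + 1)] ∧
      ∑ h ∈ A, ∏ p ∈ R, (open Classical in
        if ∃ i, h ≡ s + a i [MOD p] then 1 else 1 - 1 / (p : ℝ)) ≤ K + C * (A.card * Pi' R)

/-- SGK: one prime, large in terms of `K`, gives the sign `-1` at a third of the places. -/
def Stmt_SGK : Prop :=
  ∀ K : ℕ, ∃ D₁ : ℕ, ∀ (w : ℕ) (χ : DirichletCharacter ℂ (primorial w)), χ ^ 2 = 1 → χ ≠ 1 →
    D₁ ≤ χ.conductor → ∃ p₁ : ℕ, p₁.Prime ∧ 6 * K + 3 < p₁ ∧ p₁ ≤ w ∧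
    ∀ (v' : ℕ) (e : Fin K → ℕ),
    (∀ p : ℕ, p.Prime → p ≤ w → p ≠ p₁ → ∀ i, ¬ p ∣ v' + e i) →
    ∃ v : ℕ, (∀ p : ℕ, p.Prime → p ≤ w → p ≠ p₁ → v ≡ v' [MOD p]) ∧
      (∀ i, ¬ p₁ ∣ v + e i) ∧
      K ≤ 3 * (univ.filter (fun i => χ ((v + e i : ℕ) : ZMod (primorial w)) = -1)).card

/-- CRX: the Chinese remainder theorem for the primes up to `w`. -/
def Stmt_CRX : Prop :=
  ∀ (w : ℕ) (c : ℕ → ℕ), ∃ v < primorial w, ∀ p : ℕ, p.Prime → p ≤ w → v ≡ c p [MOD p]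

/-- The integers of `[1, H]` without prime factor in `[1, K + 1]` and in `(y, w]`. -/
noncomputable def Tz (K H w : ℕ) (y : ℝ) : Finset ℕ :=
  open Classical in (Icc 1 H).filter (fun n => (∀ p : ℕ, p.Prime → p ≤ K + 1 → ¬ p ∣ n) ∧
    ∀ p : ℕ, p.Prime → y < p → p ≤ w → ¬ p ∣ n)

/-- RCB: the residue and the place, combinatorial part. -/
def Stmt_RCB : Prop :=
  ∃ C : ℝ, 0 < C ∧ ∀ K : ℕ, 1 ≤ K → ∃ D₁ H₀ : ℕ, ∀ (w H : ℕ) (y : ℝ), (K : ℝ) + 1 ≤ y →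
    y ≤ w → H₀ ≤ H → ∀ χ : DirichletCharacter ℂ (primorial w), χ ^ 2 = 1 →
    (χ = 1 ∨ D₁ ≤ χ.conductor) → ∀ a : Fin K → ℕ, (∀ i, 6 * a i ≤ H) →
    (∀ p : ℕ, p.Prime → ∃ r : ℕ, ∀ i, ¬ a i ≡ r [MOD p]) →
    ∃ s v : ℕ, H ≤ 3 * s ∧ 2 * s ≤ H ∧ v < primorial w ∧
      (∀ i, (v + (s + a i)).Coprime (primorial w)) ∧
      (χ ≠ 1 → K ≤ 3 * (univ.filter (fun i =>
        χ ((v + (s + a i) : ℕ) : ZMod (primorial w)) = -1)).card) ∧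
      (((Icc 1 H).filter (fun h => (v + h).Coprime (primorial w))).card : ℝ) ≤
        K + C * ((Tz K H w y).card *
          Pi' (((Icc 1 ⌊y⌋₊).filter Nat.Prime).filter (fun p => K + 1 < p))) +
          ((K : ℝ) * Nat.log 2 H + 1) * (H / y)

/-- NUR: numerics of the residue. -/
def Stmt_NUR : Prop :=
  ∀ K : ℕ, ∀ᶠ w : ℕ in atTop, (K : ℝ) + 1 ≤ yy w ∧ yy w ≤ w ∧ ∀ H : ℕ, 4 * w ≤ H →
    (H : ℝ) ≤ w * Real.log w ^ 2 → K ≤ H ∧ (H : ℝ) ≤ w * Real.log w ^ 3 ∧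
    K + ((K : ℝ) * Nat.log 2 H + 1) * (H / yy w) ≤ H * Real.log (Real.log w) ^ 2 /
      (Real.log w ^ 2 * Real.log (Real.log (Real.log w)))

/-- RESR: the residue and the place of the pattern. -/
def Stmt_RESR : Prop :=
  ∃ C : ℝ, 0 < C ∧ ∀ K : ℕ, 1 ≤ K → ∃ D₁ : ℕ, ∀ᶠ w : ℕ in atTop, ∀ H : ℕ, 4 * w ≤ H →
    (H : ℝ) ≤ w * Real.log w ^ 2 → ∀ χ : DirichletCharacter ℂ (primorial w), χ ^ 2 = 1 →
    (χ = 1 ∨ D₁ ≤ χ.conductor) → ∀ a : Fin K → ℕ, (∀ i, 6 * a i ≤ H) →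
    (∀ p : ℕ, p.Prime → ∃ r : ℕ, ∀ i, ¬ a i ≡ r [MOD p]) →
    ∃ s v : ℕ, H ≤ 3 * s ∧ 2 * s ≤ H ∧ v < primorial w ∧
      (∀ i, (v + (s + a i)).Coprime (primorial w)) ∧
      (χ ≠ 1 → K ≤ 3 * (univ.filter (fun i =>
        χ ((v + (s + a i) : ℕ) : ZMod (primorial w)) = -1)).card) ∧
      (((Icc 1 H).filter (fun h => (v + h).Coprime (primorial w))).card : ℝ) ≤
        C * (H * Real.log (Real.log w) ^ 2 /
          (Real.log w ^ 2 * Real.log (Real.log (Real.log w))))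

/-! ## Part 7: the final theorem -/

/-- CHY: the character modulo `W` which agrees with the real primitive character `y`. -/
def Stmt_CHY : Prop :=
  ∀ (y : Ch) (W : ℕ), 0 < y.1 → 0 < W → y.2 ^ 2 = 1 → y.2.IsPrimitive →
    ∃ χ : DirichletCharacter ℂ W, χ ^ 2 = 1 ∧ (χ = 1 ∨ y.1 ≤ χ.conductor) ∧
      (y.2 ≠ 1 → ∀ χ' : DirichletCharacter ℂ W,
        (∀ n : ℕ, n.Coprime (W * y.1) → y.2 (n : ZMod y.1) = χ' (n : ZMod W)) →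
        χ ≠ 1 ∧ χ' = χ)

/-- SCR: the pattern at a large scale. -/
def Stmt_SCR : Prop :=
  ∀ κA ε : ℝ, 0 < κA → 0 < ε → ε ≤ 1 → ∃ κ₀ κ Cm : ℝ, 0 < κ₀ ∧ 0 < κ ∧ 0 < Cm ∧
    ∀ m : ℕ, 1 ≤ m → ∃ X₀ : ℝ, ∀ X : ℝ, X₀ ≤ X → ∃ k : ℕ, 1 ≤ k ∧
    (k : ℝ) ≤ Real.exp (Cm * m) ∧ ∀ y₁ : Ch, 0 < y₁.1 → GoodE (1 / 8) κA X y₁ →
    ∀ (w v H : ℕ) (E : Finset ℕ), w = ⌊κ₀ * Real.log X⌋₊ → v < primorial w →
    (H : ℝ) ≤ Real.log X ^ 2 → E ⊆ Icc 1 H → E.card = k →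
    (∀ h ∈ E, (v + h).Coprime (primorial w)) →
    (((Icc 1 H).filter (fun h => (v + h).Coprime (primorial w))).card : ℝ) ≤ κ * Real.log X →
    (y₁.2 ≠ 1 → ∀ χ : DirichletCharacter ℂ (primorial w),
      (∀ n : ℕ, n.Coprime (primorial w * y₁.1) →
        y₁.2 (n : ZMod y₁.1) = χ (n : ZMod (primorial w))) →
      ∀ h ∈ E, χ ((v + h : ℕ) : ZMod (primorial w)) = -1) →
    open Classical in
    X ^ (1 - ε) ≤ (((Icc 0 ⌊4 * X⌋₊).filter (fun a : ℕ => X ≤ a ∧ ((a + H : ℕ) : ℝ) ≤ 4 * X ∧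
      (∀ q ∈ Ioc a (a + H), (∃ h ∈ E, q = a + h) ∨
        ∃ p : ℕ, p.Prime ∧ (p : ℝ) ≤ X ^ ε ∧ p ∣ q) ∧
      m ≤ (E.filter (fun h => (a + h).Prime)).card)).card : ℝ)

/-- RECP: the final theorem. -/
def Stmt_RECP : Prop :=
  ∀ ε : ℝ, 0 < ε → ∃ κ C : ℝ, 0 < κ ∧ 0 < C ∧ ∀ m K : ℕ, 1 ≤ m → Real.exp (C * m) ≤ K →
    ∀ᶠ X : ℕ in atTop, ∀ a : Fin K → ℕ, StrictMono a → (∀ i, (a i : ℝ) ≤ κ * ff X) →
    (∀ p : ℕ, p.Prime → ∃ r : ℕ, ∀ i, ¬ a i ≡ r [MOD p]) →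
    open Classical in
    (X : ℝ) ^ (1 - ε) ≤ (((Icc X (4 * X)).filter (fun n =>
      m ≤ (univ.filter (fun i => (n + a i).Prime)).card ∧
      ∀ q : ℕ, |(q : ℝ) - n| ≤ κ * ff X → (∃ i, q = n + a i) ∨
        ∃ p : ℕ, p.Prime ∧ (p : ℝ) ≤ (X : ℝ) ^ ε ∧ p ∣ q)).card : ℝ)

/-- The primes in `[X, 5 X]` which are followed by a gap `d`. -/
noncomputable def GV (X d : ℕ) : Finset ℕ :=
  (range (5 * X)).filter (fun l => X ≤ Nat.nth Nat.Prime l ∧ Nat.nth Nat.Prime l ≤ 5 * X ∧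
    Nat.nth Nat.Prime (l + 1) = Nat.nth Nat.Prime l + d)

/-- PAI: two of the places are consecutive primes. -/
def Stmt_PAI : Prop :=
  ∀ ε : ℝ, 0 < ε → ∃ (κ : ℝ) (K : ℕ), 0 < κ ∧ 2 ≤ K ∧ ∀ᶠ X : ℕ in atTop, ∀ a : Fin K → ℕ,
    StrictMono a → (∀ i, (a i : ℝ) ≤ κ * ff X) →
    (∀ p : ℕ, p.Prime → ∃ r : ℕ, ∀ i, ¬ a i ≡ r [MOD p]) →
    ∃ i j : Fin K, i < j ∧ (X : ℝ) ^ (1 - ε) ≤ (GV X (a j - a i)).card

/-- DGV: many different gap values, each many times. -/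
def Stmt_DGV : Prop :=
  ∀ ε : ℝ, 0 < ε → ∃ c : ℝ, 0 < c ∧ ∀ᶠ X : ℕ in atTop, open Classical in
    c * ff X ≤ (((Icc 1 X).filter (fun d => (X : ℝ) ^ (1 - ε) ≤ (GV X d).card)).card : ℝ)

/-- RCO: clusters of primes of bounded length which are isolated on both sides. -/
def Stmt_RCO : Prop :=
  ∃ c : ℝ, 0 < c ∧ ∀ m : ℕ, 1 ≤ m → ∃ B : ℕ, ∀ᶠ X : ℕ in atTop, ∃ n j : ℕ, m ≤ j + 1 ∧
    X ≤ Nat.nth Nat.Prime (n + 1) ∧ Nat.nth Nat.Prime (n + 1 + j) ≤ 5 * X ∧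
    Nat.nth Nat.Prime (n + 1 + j) ≤ Nat.nth Nat.Prime (n + 1) + B ∧
    c * ff X ≤ (Nat.nth Nat.Prime (n + 1) : ℝ) - Nat.nth Nat.Prime n ∧
    c * ff X ≤ (Nat.nth Nat.Prime (n + 1 + j + 1) : ℝ) - Nat.nth Nat.Prime (n + 1 + j)

end Pool.LGR
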